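import Mathlib

/-!
# Row GL: coprime polynomials have no common root on a generic line

`R` a UFD (a field, or the ring of polynomials in the seeds that stay fixed), `P`, `Q` relatively
prime polynomials in the variables `s` over `R`, `K` a field, `u`, `v` generic points of `K ^ s`:
there is no `τ` in `K` with `P (u + τ v) = Q (u + τ v) = 0`.
-/

namespace S3

open MvPolynomial

noncomputable section

/-! ## Relatively prime polynomials stay relatively prime -/

theorem isRelPrime_mvC2 {R σ : Type*} [CommRing R] [IsDomain R] {a b : R}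
    (h : IsRelPrime a b) : IsRelPrime (C a : MvPolynomial σ R) (C b) := by
  intro D hDa hDb
  have key : ∀ a b : R, a ≠ 0 → IsRelPrime a b → D ∣ C a → D ∣ C b → IsUnit D := by
    intro a b ha h hDa hDb
    obtain ⟨d, hda, rfl⟩ := (dvd_C_iff_exists ha).1 hDa
    have hdb : d ∣ b := by
      have := (MvPolynomial.C_dvd_iff_dvd_coeff _ _).1 hDb 0
      simpa using this
    exact (h hda hdb).map (C : R →+* MvPolynomial σ R)
  by_cases ha : a = 0
  · by_cases hb : b = 0
    · rw [ha, hb] at h
      have h1 : IsUnit (0 : R) := h (dvd_refl 0) (dvd_refl 0)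
      exact absurd h1 not_isUnit_zero
    · exact key b a hb h.symm hDb hDa
  · exact key a b ha h hDa hDb

theorem isRelPrime_C2 {R : Type*} [CommRing R] [IsDomain R] {a b : R}
    (h : IsRelPrime a b) : IsRelPrime (Polynomial.C a) (Polynomial.C b) := by
  intro D hDa hDb
  have key : ∀ a b : R, a ≠ 0 → IsRelPrime a b → D ∣ Polynomial.C a → D ∣ Polynomial.C b →
      IsUnit D := by
    intro a b ha h hDa hDb
    have hdeg : D.natDegree = 0 := by
      have h1 := Polynomial.natDegree_le_of_dvd hDa (by simpa using ha)
      rw [Polynomial.natDegree_C] at h1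
      omega
    obtain ⟨d, rfl⟩ := Polynomial.natDegree_eq_zero.1 hdeg
    have hda : d ∣ a := by
      have := (Polynomial.C_dvd_iff_dvd_coeff _ _).1 hDa 0
      simpa using this
    have hdb : d ∣ b := by
      have := (Polynomial.C_dvd_iff_dvd_coeff _ _).1 hDb 0
      simpa using this
    exact (h hda hdb).map (Polynomial.C : R →+* Polynomial R)
  by_cases ha : a = 0
  · by_cases hb : b = 0
    · rw [ha, hb] at h
      have h1 : IsUnit (0 : R) := h (dvd_refl 0) (dvd_refl 0)
      exact absurd h1 not_isUnit_zero
    · exact key b a hb h.symm hDb hDa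
  · exact key a b ha h hDa hDb

theorem isRelPrime_rename2 {R s s' : Type*} [CommRing R] [IsDomain R] {P Q : MvPolynomial s R}
    (h : IsRelPrime P Q) : IsRelPrime (rename (Sum.inr : s → s' ⊕ s) P)
      (rename (Sum.inr : s → s' ⊕ s) Q) := by
  apply IsRelPrime.of_map (sumAlgEquiv R s' s)
  have e : ∀ P : MvPolynomial s R, sumAlgEquiv R s' s (rename Sum.inr P) = C P := by
    intro P
    have := congrArg (fun f : MvPolynomial s R →ₐ[R] MvPolynomial s' (MvPolynomial s R) => f P)
      (sumAlgEquiv_comp_rename_inr R s' s)
    simpa using this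
  rw [e, e]
  exact isRelPrime_mvC2 h

/-! ## No common root -/

theorem no_root2 {A K : Type*} [CommRing A] [IsDomain A] [UniqueFactorizationMonoid A] [Field K]
    (f : A →+* K) (hf : Function.Injective f) {p q : Polynomial A} (h : IsRelPrime p q) (τ : K)
    (hp : p.eval₂ f τ = 0) (hq : q.eval₂ f τ = 0) : False := by
  classical
  let _ : Algebra A K := f.toAlgebra
  have _ : FaithfulSMul A K := (faithfulSMul_iff_algebraMap_injective A K).2 hf
  let _ : Algebra (FractionRing A) K := FractionRing.liftAlgebra A K
  have _ : IsScalarTower A (FractionRing A) K := inferInstance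
  let _ : NormalizedGCDMonoid A := Nonempty.some inferInstance
  have hp' : Polynomial.aeval τ p = 0 := hp
  have hq' : Polynomial.aeval τ q = 0 := hq
  have hpF : Polynomial.aeval τ (p.map (algebraMap A (FractionRing A))) = 0 := by
    rw [Polynomial.aeval_map_algebraMap]
    exact hp'
  have hqF : Polynomial.aeval τ (q.map (algebraMap A (FractionRing A))) = 0 := by
    rw [Polynomial.aeval_map_algebraMap]
    exact hq'
  have hpq : p ≠ 0 ∨ q ≠ 0 := by
    by_contra hcon
    push Not at hcon
    rw [hcon.1, hcon.2] at h
    exact not_isUnit_zero (h (dvd_refl (0 : Polynomial A)) (dvd_refl 0))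
  have hint : IsIntegral (FractionRing A) τ := by
    rw [← isAlgebraic_iff_isIntegral]
    rcases hpq with h0 | h0
    · exact ⟨_, (Polynomial.map_ne_zero_iff (IsFractionRing.injective A (FractionRing A))).2 h0,
        hpF⟩
    · exact ⟨_, (Polynomial.map_ne_zero_iff (IsFractionRing.injective A (FractionRing A))).2 h0,
        hqF⟩
  set g := minpoly (FractionRing A) τ with hg
  have hg0 : g ≠ 0 := minpoly.ne_zero hint
  set g1 := IsLocalization.integerNormalization (nonZeroDivisors A) g with hg1
  have hg10 : g1 ≠ 0 := fun h0 => hg0 (IsFractionRing.integerNormalization_eq_zero_iff.1 h0)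
  obtain ⟨c, hc0, hc⟩ := IsLocalization.integerNormalization_spec (nonZeroDivisors A) g
  set g' := g1.primPart with hg'
  have hprim : g'.IsPrimitive := g1.isPrimitive_primPart
  have hcF : algebraMap A (FractionRing A) c ≠ 0 := by
    intro h0
    exact nonZeroDivisors.ne_zero hc0
      (IsFractionRing.injective A (FractionRing A) (h0.trans (map_zero _).symm))
  have hcont : algebraMap A (FractionRing A) g1.content ≠ 0 := by
    intro h0
    exact hg10 (Polynomial.content_eq_zero_iff.1
      (IsFractionRing.injective A (FractionRing A) (h0.trans (map_zero _).symm)))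
  have hmap : Polynomial.C (algebraMap A (FractionRing A) g1.content) *
      g'.map (algebraMap A (FractionRing A)) =
      Polynomial.C (algebraMap A (FractionRing A) c) * g := by
    rw [← Polynomial.map_C, ← Polynomial.map_mul, ← g1.eq_C_content_mul_primPart, hg1, hc,
      Algebra.smul_def, Polynomial.algebraMap_apply]
  have hdvd : ∀ r : Polynomial A, Polynomial.aeval τ (r.map (algebraMap A (FractionRing A))) = 0 →
      g' ∣ r := by
    intro r hr
    apply hprim.dvd_of_fraction_map_dvd_fraction_map (K := FractionRing A)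
    have h1 : g ∣ r.map (algebraMap A (FractionRing A)) := minpoly.dvd _ _ hr
    have h2 : g'.map (algebraMap A (FractionRing A)) ∣
        Polynomial.C (algebraMap A (FractionRing A) c) * g := by
      rw [← hmap]
      exact dvd_mul_left _ _
    have h3 : IsUnit (Polynomial.C (algebraMap A (FractionRing A) c)) :=
      Polynomial.isUnit_C.2 hcF.isUnit
    exact ((h3.dvd_mul_left).1 h2).trans h1
  have hunit : IsUnit g' := h (hdvd p hpF) (hdvd q hqF)
  have hunit2 : IsUnit (g'.map (algebraMap A (FractionRing A))) :=
    hunit.map (Polynomial.mapRingHom (algebraMap A (FractionRing A)))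
  have h4 : Polynomial.aeval τ (g'.map (algebraMap A (FractionRing A))) = 0 := by
    have h5 := congrArg (Polynomial.aeval τ) hmap
    rw [map_mul, map_mul, Polynomial.aeval_C, minpoly.aeval, mul_zero] at h5
    rcases mul_eq_zero.1 h5 with h6 | h6
    · exact absurd ((FaithfulSMul.algebraMap_injective (FractionRing A) K)
        (h6.trans (map_zero _).symm)) hcont
    · exact h6
  have h7 := hunit2.map (Polynomial.aeval τ)
  rw [h4] at h7
  exact not_isUnit_zero h7

/-! ## The generic line -/

section Line
variable (R s : Type*) [CommRing R]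

/-- `u ↦ u + ε t v`, where `u` are the right variables and `v` the left ones. -/
def lineHom2 (ε : R) :
    Polynomial (MvPolynomial (s ⊕ s) R) →ₐ[R] Polynomial (MvPolynomial (s ⊕ s) R) :=
  Polynomial.eval₂AlgHom (MvPolynomial.aeval (Sum.elim
    (fun i => Polynomial.C (X (Sum.inl i)))
    (fun i => Polynomial.C (X (Sum.inr i)) +
      Polynomial.C (C ε) * Polynomial.X * Polynomial.C (X (Sum.inl i)))))
    Polynomial.X (fun _ => Commute.all _ _)

theorem lineHom2_X (ε : R) : lineHom2 R s ε Polynomial.X = Polynomial.X := by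
  simp [lineHom2]

theorem lineHom2_C (ε : R) (a : MvPolynomial (s ⊕ s) R) :
    lineHom2 R s ε (Polynomial.C a) = MvPolynomial.aeval (Sum.elim
    (fun i => Polynomial.C (X (Sum.inl i)))
    (fun i => Polynomial.C (X (Sum.inr i)) +
      Polynomial.C (C ε) * Polynomial.X * Polynomial.C (X (Sum.inl i)))) a := by
  simp [lineHom2]

theorem lineHom2_comp (ε δ : R) (h : ε + δ = 0) :
    (lineHom2 R s ε).comp (lineHom2 R s δ) = AlgHom.id R _ := by
  apply Polynomial.algHom_ext'
  · apply MvPolynomial.algHom_ext
    rintro (i | i)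
    · simp [lineHom2_C]
    · have hC : lineHom2 R s ε (Polynomial.C (C δ)) = Polynomial.C (C δ) := by
        simp [lineHom2_C]
      have h1 : (Polynomial.C (C ε) : Polynomial (MvPolynomial (s ⊕ s) R)) +
          Polynomial.C (C δ) = 0 := by
        rw [← map_add, ← map_add, h, map_zero, map_zero]
      have h2 : lineHom2 R s δ (Polynomial.C (X (Sum.inr i))) = Polynomial.C (X (Sum.inr i)) +
          Polynomial.C (C δ) * Polynomial.X * Polynomial.C (X (Sum.inl i)) := by
        simp [lineHom2_C]
      have h3 : lineHom2 R s ε (Polynomial.C (X (Sum.inr i))) = Polynomial.C (X (Sum.inr i)) +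
          Polynomial.C (C ε) * Polynomial.X * Polynomial.C (X (Sum.inl i)) := by
        simp [lineHom2_C]
      have h4 : lineHom2 R s ε (Polynomial.C (X (Sum.inl i))) = Polynomial.C (X (Sum.inl i)) := by
        simp [lineHom2_C]
      show lineHom2 R s ε (lineHom2 R s δ (Polynomial.C (X (Sum.inr i)))) =
        Polynomial.C (X (Sum.inr i))
      rw [h2, map_add, map_mul, map_mul, h3, hC, lineHom2_X, h4]
      linear_combination (Polynomial.X * Polynomial.C (X (Sum.inl i))) * h1
  · simp [lineHom2_X]

/-- The automorphism `u ↦ u + t v`. -/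
def lineEquiv2 : Polynomial (MvPolynomial (s ⊕ s) R) ≃ₐ[R] Polynomial (MvPolynomial (s ⊕ s) R) :=
  AlgEquiv.ofAlgHom (lineHom2 R s 1) (lineHom2 R s (-1)) (lineHom2_comp R s 1 (-1) (by ring))
    (lineHom2_comp R s (-1) 1 (by ring))

variable {R s}

theorem isRelPrime_line2 [IsDomain R] {P Q : MvPolynomial s R} (h : IsRelPrime P Q) :
    IsRelPrime (lineHom2 R s 1 (Polynomial.C (rename Sum.inr P)))
      (lineHom2 R s 1 (Polynomial.C (rename Sum.inr Q))) := by
  apply IsRelPrime.of_map (lineEquiv2 R s).symm
  have e : ∀ z, (lineEquiv2 R s).symm (lineHom2 R s 1 z) = z := fun z =>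
    (lineEquiv2 R s).symm_apply_apply z
  rw [e, e]
  exact isRelPrime_C2 (isRelPrime_rename2 h)

theorem lineHom2_eval {K : Type*} [Field K] [Algebra R K] (x : s ⊕ s → K)
    (P : MvPolynomial s R) (τ : K) :
    (lineHom2 R s 1 (Polynomial.C (rename Sum.inr P))).eval₂ (aeval x).toRingHom τ =
      aeval (fun i => x (Sum.inr i) + τ * x (Sum.inl i)) P := by
  set f : MvPolynomial (s ⊕ s) R →ₐ[R] K := aeval x with hf
  let g : Polynomial (MvPolynomial (s ⊕ s) R) →ₐ[R] K :=
    Polynomial.eval₂AlgHom f τ (fun _ => Commute.all _ _)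
  have key : (g.comp (lineHom2 R s 1)).comp ((Polynomial.CAlgHom (R := R)).comp
      (rename (Sum.inr : s → s ⊕ s))) =
      aeval (fun i => x (Sum.inr i) + τ * x (Sum.inl i)) := by
    apply MvPolynomial.algHom_ext
    intro i
    have h3 : lineHom2 R s 1 (Polynomial.C (X (Sum.inr i))) = Polynomial.C (X (Sum.inr i)) +
        Polynomial.C (C 1) * Polynomial.X * Polynomial.C (X (Sum.inl i)) := by
      simp [lineHom2_C]
    show g (lineHom2 R s 1 (Polynomial.C (rename Sum.inr (X i)))) = _
    rw [rename_X, h3]
    simp [g, hf]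
    ring
  exact DFunLike.congr_fun key P

end Line

/-- **Row GL.** Relatively prime polynomials have no common root on the generic line. -/
theorem no_common_root2 {R s K : Type*} [CommRing R] [IsDomain R] [UniqueFactorizationMonoid R]
    [Field K] [Algebra R K] (u v : s → K) (hx : AlgebraicIndependent R (Sum.elim u v))
    {P Q : MvPolynomial s R} (h : IsRelPrime P Q) (τ : K)
    (hP : aeval (fun i => u i + τ * v i) P = 0) (hQ : aeval (fun i => u i + τ * v i) Q = 0) :
    False := by
  set x : s ⊕ s → K := Sum.elim v u with hxd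
  have hx' : AlgebraicIndependent R x := by
    have := hx.comp (Sum.swap : s ⊕ s → s ⊕ s) (Equiv.sumComm s s).injective
    convert this using 1
    funext i
    rcases i with i | i <;> rfl
  have hinj : Function.Injective (aeval x : MvPolynomial (s ⊕ s) R →ₐ[R] K).toRingHom := hx'
  refine no_root2 (aeval x : MvPolynomial (s ⊕ s) R →ₐ[R] K).toRingHom hinj
    (isRelPrime_line2 h) τ ?_ ?_
  · rw [lineHom2_eval]
    exact hP
  · rw [lineHom2_eval]
    exact hQ

theorem line_eval2 {R s K : Type*} [CommRing R] [Field K] [Algebra R K] (u v : s → K)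
    (P : MvPolynomial s R) (τ : K) :
    (aeval (fun i => Polynomial.C (u i) + Polynomial.X * Polynomial.C (v i)) P).eval τ =
      aeval (fun i => u i + τ * v i) P := by
  have key : ((Polynomial.aeval τ).restrictScalars R).comp
      (aeval (fun i => Polynomial.C (u i) + Polynomial.X * Polynomial.C (v i)) :
        MvPolynomial s R →ₐ[R] Polynomial K) = aeval (fun i => u i + τ * v i) := by
    apply MvPolynomial.algHom_ext
    intro i
    simp
    ring
  exact DFunLike.congr_fun key P

/-- **Row GL, second form.** The restrictions of relatively prime polynomials to the generic line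
are coprime. -/
theorem isCoprime_line2 {R s K : Type*} [CommRing R] [IsDomain R] [UniqueFactorizationMonoid R]
    [Field K] [Algebra R K] (u v : s → K) (hx : AlgebraicIndependent R (Sum.elim u v))
    {P Q : MvPolynomial s R} (h : IsRelPrime P Q) :
    IsCoprime
      (aeval (fun i => Polynomial.C (u i) + Polynomial.X * Polynomial.C (v i)) P : Polynomial K)
      (aeval (fun i => Polynomial.C (u i) + Polynomial.X * Polynomial.C (v i)) Q) := by
  rw [Polynomial.isCoprime_iff_aeval_ne_zero_of_isAlgClosed K (AlgebraicClosure K)]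
  intro τ
  by_contra hcon
  push Not at hcon
  obtain ⟨hP, hQ⟩ := hcon
  have hx' : AlgebraicIndependent R (Sum.elim (fun i => algebraMap K (AlgebraicClosure K) (u i))
      (fun i => algebraMap K (AlgebraicClosure K) (v i))) := by
    have h1 := hx.map' (f := IsScalarTower.toAlgHom R K (AlgebraicClosure K))
      (FaithfulSMul.algebraMap_injective K (AlgebraicClosure K))
    convert h1 using 1
    funext i
    rcases i with i | i <;> rfl
  have e : ∀ P : MvPolynomial s R, Polynomial.aeval τ
      (aeval (fun i => Polynomial.C (u i) + Polynomial.X * Polynomial.C (v i)) P : Polynomial K) =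
      aeval (fun i => algebraMap K (AlgebraicClosure K) (u i) +
        τ * algebraMap K (AlgebraicClosure K) (v i)) P := by
    intro P
    have key : ((Polynomial.aeval τ).restrictScalars R).comp
        (aeval (fun i => Polynomial.C (u i) + Polynomial.X * Polynomial.C (v i)) :
          MvPolynomial s R →ₐ[R] Polynomial K) =
        aeval (fun i => algebraMap K (AlgebraicClosure K) (u i) +
          τ * algebraMap K (AlgebraicClosure K) (v i)) := by
      apply MvPolynomial.algHom_ext
      intro i
      simp
      ring
    exact DFunLike.congr_fun key P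
  rw [e] at hP hQ
  exact no_common_root2 _ _ hx' h τ hP hQ

/-! ## Some variables stay fixed -/

section Sum
variable {F Y Z K : Type*} [Field F] [Field K] [Algebra F K]

/-- `P (y, z)` as a polynomial in `z` over the polynomials in `y`. -/
def inner2 (F Y Z : Type*) [Field F] :
    MvPolynomial (Y ⊕ Z) F ≃ₐ[F] MvPolynomial Z (MvPolynomial Y F) :=
  (renameEquiv F (Equiv.sumComm Y Z)).trans (sumAlgEquiv F Z Y)

theorem inner2_inl (i : Y) : inner2 F Y Z (X (Sum.inl i)) = C (X i) := by
  simp [inner2]

theorem inner2_inr (i : Z) : inner2 F Y Z (X (Sum.inr i)) = X i := by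
  simp [inner2]

theorem isRelPrime_inner2 {P Q : MvPolynomial (Y ⊕ Z) F} (h : IsRelPrime P Q) :
    IsRelPrime (inner2 F Y Z P) (inner2 F Y Z Q) := by
  apply IsRelPrime.of_map (inner2 F Y Z).symm
  rw [AlgEquiv.symm_apply_apply, AlgEquiv.symm_apply_apply]
  exact h

/-- **Row GL, third form.** The variables `Y` stay at the generic point `y`, the variables `Z` run
over the generic line `u + τ v`. -/
theorem no_common_root_sum2 (y : Y → K) (u v : Z → K)
    (hx : AlgebraicIndependent F (Sum.elim y (Sum.elim u v)))
    {P Q : MvPolynomial (Y ⊕ Z) F} (h : IsRelPrime P Q) (τ : K)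
    (hP : aeval (Sum.elim y (fun i => u i + τ * v i)) P = 0)
    (hQ : aeval (Sum.elim y (fun i => u i + τ * v i)) Q = 0) : False := by
  let f : MvPolynomial Y F →ₐ[F] K := aeval y
  let _ : Algebra (MvPolynomial Y F) K := f.toRingHom.toAlgebra
  have hmap : ∀ a : MvPolynomial Y F, algebraMap (MvPolynomial Y F) K a = aeval y a := fun _ => rfl
  have _ : IsScalarTower F (MvPolynomial Y F) K := IsScalarTower.of_algebraMap_eq fun a => by
    rw [hmap, MvPolynomial.algebraMap_eq, aeval_C]
  have e : ∀ P : MvPolynomial (Y ⊕ Z) F, aeval (fun i => u i + τ * v i) (inner2 F Y Z P) =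
      aeval (Sum.elim y (fun i => u i + τ * v i)) P := by
    intro P
    have key : ((aeval (fun i => u i + τ * v i) : MvPolynomial Z (MvPolynomial Y F)
        →ₐ[MvPolynomial Y F] K).restrictScalars F).comp (inner2 F Y Z).toAlgHom =
        aeval (Sum.elim y (fun i => u i + τ * v i)) := by
      apply MvPolynomial.algHom_ext
      rintro (i | i)
      · show aeval (fun i => u i + τ * v i) (inner2 F Y Z (X (Sum.inl i))) = _
        rw [inner2_inl, aeval_C, hmap, aeval_X, aeval_X, Sum.elim_inl]
      · show aeval (fun i => u i + τ * v i) (inner2 F Y Z (X (Sum.inr i))) = _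
        rw [inner2_inr, aeval_X, aeval_X, Sum.elim_inr]
    exact DFunLike.congr_fun key P
  have hx' : AlgebraicIndependent (MvPolynomial Y F) (Sum.elim u v) := by
    have e2 : ∀ P : MvPolynomial (Y ⊕ (Z ⊕ Z)) F, aeval (Sum.elim u v) (inner2 F Y (Z ⊕ Z) P) =
        aeval (Sum.elim y (Sum.elim u v)) P := by
      intro P
      have key : ((aeval (Sum.elim u v) : MvPolynomial (Z ⊕ Z) (MvPolynomial Y F)
          →ₐ[MvPolynomial Y F] K).restrictScalars F).comp (inner2 F Y (Z ⊕ Z)).toAlgHom =
          aeval (Sum.elim y (Sum.elim u v)) := by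
        apply MvPolynomial.algHom_ext
        rintro (i | i)
        · show aeval (Sum.elim u v) (inner2 F Y (Z ⊕ Z) (X (Sum.inl i))) = _
          rw [inner2_inl, aeval_C, hmap, aeval_X, aeval_X, Sum.elim_inl]
        · show aeval (Sum.elim u v) (inner2 F Y (Z ⊕ Z) (X (Sum.inr i))) = _
          rw [inner2_inr, aeval_X, aeval_X, Sum.elim_inr]
      exact DFunLike.congr_fun key P
    intro a b hab
    have h1 : aeval (Sum.elim y (Sum.elim u v)) ((inner2 F Y (Z ⊕ Z)).symm a) =
        aeval (Sum.elim y (Sum.elim u v)) ((inner2 F Y (Z ⊕ Z)).symm b) := by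
      rw [← e2, ← e2, AlgEquiv.apply_symm_apply, AlgEquiv.apply_symm_apply]
      exact hab
    exact (inner2 F Y (Z ⊕ Z)).symm.injective (hx h1)
  exact no_common_root2 u v hx' (isRelPrime_inner2 h) τ ((e P).trans hP) ((e Q).trans hQ)

end Sum

end

end S3
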