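import Mathlib

set_option autoImplicit false

/-!
# Sums of three products of forms of low degree: the definitions and the statements of the rows

`gen F m s` is the generator `x_k ↦ ∑_{i < s} z_i ∏_{j ≠ k} (y_i - j)` (`y = inl`, `z = inr`),
`Phi F m s e` is `P ↦ P (G (y, z) + s e)` in `F[y, z][s]`.
-/

namespace Pool.Agent.Lib.MP_64d474_lc.S3

open MvPolynomial

universe u

/-- the image of the variable `x_k` under the generator with `s` seeds -/
noncomputable def genX (F : Type u) [Field F] (m s : ℕ) (k : Fin m) :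
    MvPolynomial (Fin s ⊕ Fin s) F :=
  ∑ i : Fin s, X (Sum.inr i) * ∏ j ∈ Finset.univ.erase k, (X (Sum.inl i) - C ((j : ℕ) : F))

/-- the generator with `s` seeds -/
noncomputable def gen (F : Type u) [Field F] (m s : ℕ) :
    MvPolynomial (Fin m) F →ₐ[F] MvPolynomial (Fin s ⊕ Fin s) F :=
  aeval (genX F m s)

/-- `P ↦ P (G (y, z) + t e)`, with `t` the polynomial variable -/
noncomputable def Phi (F : Type u) [Field F] (m s : ℕ) (e : Fin m → F) :
    MvPolynomial (Fin m) F →ₐ[F] Polynomial (MvPolynomial (Fin s ⊕ Fin s) F) :=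
  aeval fun k => Polynomial.C (genX F m s k) + Polynomial.X * Polynomial.C (C (e k))

/-- all members of `T` are forms of degree at most `d` -/
def Forms {F : Type u} [Field F] {m : ℕ} (d : ℕ) (T : Multiset (MvPolynomial (Fin m) F)) : Prop :=
  ∀ P ∈ T, ∃ k ≤ d, P.IsHomogeneous k

/-- Row A: the generator with `s ≥ d + 2` seeds keeps forms of degree at most `d` coprime. -/
def StGlue : Prop :=
  ∀ (F : Type u) [Field F] [CharZero F] (m d s : ℕ), d + 2 ≤ s →
    (∀ (k : ℕ) (P : MvPolynomial (Fin m) F), k ≤ d → P.IsHomogeneous k → P ≠ 0 →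
      gen F m s P ≠ 0) ∧
    ∀ (k l : ℕ) (P Q : MvPolynomial (Fin m) F), k ≤ d → l ≤ d → P.IsHomogeneous k →
      Q.IsHomogeneous l → P ≠ 0 → Q ≠ 0 → IsRelPrime P Q → IsRelPrime (gen F m s P) (gen F m s Q)

/-- Row BR: two products modulo an irreducible form `B`. -/
def StBR : Prop :=
  ∀ (F : Type u) [Field F] [CharZero F] (m d s n b : ℕ) (e : Fin m → F)
    (B : MvPolynomial (Fin m) F) (T₁ T₂ : Multiset (MvPolynomial (Fin m) F)),
    2 * d ^ 2 + 2 ≤ s → b ≤ d → B.IsHomogeneous b → Irreducible B → eval e B ≠ 0 →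
    Forms d T₁ → Forms d T₂ → T₁.prod.IsHomogeneous n → T₂.prod.IsHomogeneous n →
    ¬ B ∣ T₁.prod → ¬ B ∣ T₂.prod →
    Phi F m s e B ∣ Phi F m s e (T₁.prod + T₂.prod) → B ∣ T₁.prod + T₂.prod

/-- The core: three products, one special direction `e` at which no factor vanishes. -/
def StCore : Prop :=
  ∀ (F : Type u) [Field F] [CharZero F] (m d s n : ℕ) (e : Fin m → F)
    (T : Fin 3 → Multiset (MvPolynomial (Fin m) F)),
    2 * d ^ 2 + 2 ≤ s → d + 2 ≤ s → (∀ i, Forms d (T i)) → (∀ i, (T i).prod.IsHomogeneous n) →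
    (∀ i, ∀ P ∈ T i, eval e P ≠ 0) →
    Phi F m s e (∑ i, (T i).prod) = 0 → ∑ i, (T i).prod = 0

/-- Two products (`s ≥ d + 2` seeds, no direction needed). -/
def StTwo : Prop :=
  ∀ (F : Type u) [Field F] [CharZero F] (m d s : ℕ) (T₁ T₂ : Multiset (MvPolynomial (Fin m) F)),
    d + 2 ≤ s → Forms d T₁ → Forms d T₂ →
    gen F m s (T₁.prod + T₂.prod) = 0 → T₁.prod + T₂.prod = 0

end Pool.Agent.Lib.MP_64d474_lc.S3
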