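import Mathlib
import Pool.Agent.Lib.MP_64d474_lc.S3.Defs69

/-!
# The generator and the grid of its points

`pt y z` is the point with coordinates `∑ i, z i * ∏ (j ≠ k), (y i - j)`, over any commutative ring.
-/

namespace Pool.Agent.Lib.MP_64d474_lc.S3

open MvPolynomial

/-- The point with coordinates `∑ i, z i * ∏ (j ≠ k), (y i - j)`. -/
def pt {R : Type*} [CommRing R] {m s : ℕ} (y z : Fin s → R) : Fin m → R :=
  fun k => ∑ i, z i * ∏ j ∈ Finset.univ.erase k, (y i - ((j : ℕ) : R))

theorem map_pt {R S : Type*} [CommRing R] [CommRing S] (φ : R →+* S) {m s : ℕ}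
    (y z : Fin s → R) (k : Fin m) : φ (pt y z k) = pt (fun i => φ (y i)) (fun i => φ (z i)) k := by
  simp [pt, map_sum, map_prod]

theorem pt_append {R : Type*} [CommRing R] {m s₀ s₁ : ℕ} (y₀ z₀ : Fin s₀ → R)
    (y₁ z₁ : Fin s₁ → R) (k : Fin m) :
    pt (Fin.append y₀ y₁) (Fin.append z₀ z₁) k = pt y₀ z₀ k + pt y₁ z₁ k := by
  simp [pt, Fin.sum_univ_add]

theorem pt_smul {R : Type*} [CommRing R] {m s : ℕ} (y z : Fin s → R) (t : R) (k : Fin m) :
    pt y (fun i => t * z i) k = t * pt y z k := by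
  simp only [pt, Finset.mul_sum]
  exact Finset.sum_congr rfl fun i _ => by ring

theorem genX_eq_pt (F : Type*) [Field F] (m s : ℕ) :
    genX F m s = pt (fun i => X (Sum.inl i)) (fun i => X (Sum.inr i)) := by
  funext k
  simp only [genX, pt, map_natCast]

/-- The generator at a point of seeds. -/
theorem aeval_gen {F : Type*} [Field F] {m s : ℕ} (f : MvPolynomial (Fin m) F)
    {R : Type*} [CommRing R] [Algebra F R] (x : Fin s ⊕ Fin s → R) :
    aeval x (gen F m s f) = aeval (pt (fun i => x (Sum.inl i)) (fun i => x (Sum.inr i))) f := by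
  rw [gen, genX_eq_pt, ← AlgHom.comp_apply]
  congr 1
  apply MvPolynomial.algHom_ext
  intro k
  rw [AlgHom.comp_apply, aeval_X, aeval_X]
  have h2 := map_pt (m := m) ((aeval x : MvPolynomial (Fin s ⊕ Fin s) F →ₐ[F] R).toRingHom)
    (fun i => X (Sum.inl i)) (fun i => X (Sum.inr i)) k
  simp only [AlgHom.toRingHom_eq_coe, RingHom.coe_coe, aeval_X] at h2
  exact h2

theorem eval_gen {F : Type*} [Field F] {m s : ℕ} (f : MvPolynomial (Fin m) F)
    (x : Fin s ⊕ Fin s → F) :
    eval x (gen F m s f) = eval (pt (fun i => x (Sum.inl i)) (fun i => x (Sum.inr i))) f := by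
  have h := aeval_gen f x
  rwa [aeval_eq_eval, aeval_eq_eval] at h

/-- If `f` composed with the generator is zero, then `f` vanishes on all points of the generator
over all algebras. -/
theorem aeval_pt_of_gen {F : Type*} [Field F] {m s : ℕ} {f : MvPolynomial (Fin m) F}
    (hf : gen F m s f = 0) {R : Type*} [CommRing R] [Algebra F R] (y z : Fin s → R) :
    aeval (pt y z) f = 0 := by
  have h := aeval_gen f (Sum.elim y z)
  rw [hf, map_zero] at h
  exact h.symm

/-- One part of the seeds of the generator is spent on a vector `e` where a given polynomial does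
not vanish. -/
theorem exists_direction {F : Type*} [Field F] [Infinite F] {m D₀ D₁ : ℕ}
    {f Q : MvPolynomial (Fin m) F} (hf : gen F m (D₀ + D₁) f = 0) (hQ : gen F m D₀ Q ≠ 0) :
    ∃ e : Fin m → F, eval e Q ≠ 0 ∧
      ∀ {R : Type*} [CommRing R] [Algebra F R] (y z : Fin D₁ → R) (t : R),
        aeval (fun k => pt y z k + t * algebraMap F R (e k)) f = 0 := by
  obtain ⟨x, hx⟩ : ∃ x : Fin D₀ ⊕ Fin D₀ → F, eval x (gen F m D₀ Q) ≠ 0 := by
    by_contra h
    exact hQ (MvPolynomial.funext fun x => by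
      rw [map_zero]; by_contra hx; exact h ⟨x, hx⟩)
  refine ⟨pt (fun i => x (Sum.inl i)) (fun i => x (Sum.inr i)), ?_, ?_⟩
  · rwa [← eval_gen]
  · intro R _ _ y z t
    have h5 := aeval_pt_of_gen hf
      (Fin.append (fun i => algebraMap F R (x (Sum.inl i))) y)
      (Fin.append (fun i => t * algebraMap F R (x (Sum.inr i))) z)
    have h6 : (fun k => pt y z k + t * algebraMap F R
        (pt (fun i => x (Sum.inl i)) (fun i => x (Sum.inr i)) k)) =
        (pt (Fin.append (fun i => algebraMap F R (x (Sum.inl i))) y)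
          (Fin.append (fun i => t * algebraMap F R (x (Sum.inr i))) z) : Fin m → R) := by
      funext k
      rw [pt_append, pt_smul, map_pt (algebraMap F R)]
      ring
    rw [h6]
    exact h5

/-! ### Degrees -/

theorem degreeOf_aeval_le {F σ τ : Type*} [Field F] [DecidableEq τ] (g : σ → MvPolynomial τ F)
    (j : τ) (b : ℕ) (hg : ∀ k, (g k).degreeOf j ≤ b) (f : MvPolynomial σ F) :
    (aeval g f).degreeOf j ≤ f.totalDegree * b := by
  rw [aeval_def, eval₂_eq]
  refine (degreeOf_sum_le _ _ _).trans (Finset.sup_le fun d hd => ?_)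
  refine (degreeOf_mul_le _ _ _).trans ?_
  have h1 : (algebraMap F (MvPolynomial τ F) (coeff d f)).degreeOf j = 0 := by
    rw [algebraMap_eq]; exact degreeOf_C _ _
  rw [h1, zero_add]
  refine (degreeOf_prod_le _ _ _).trans ?_
  calc ∑ i ∈ d.support, (g i ^ d i).degreeOf j ≤ ∑ i ∈ d.support, d i * b := by
        refine Finset.sum_le_sum fun i _ => (degreeOf_pow_le _ _ _).trans ?_
        exact Nat.mul_le_mul_left _ (hg i)
    _ = (∑ i ∈ d.support, d i) * b := by rw [Finset.sum_mul]
    _ ≤ f.totalDegree * b := Nat.mul_le_mul_right _ (le_totalDegree hd)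

theorem degreeOf_gen_inr {F : Type*} [Field F] {m s : ℕ} (f : MvPolynomial (Fin m) F)
    (i : Fin s) : (gen F m s f).degreeOf (Sum.inr i) ≤ f.totalDegree := by
  classical
  refine (degreeOf_aeval_le _ _ 1 (fun k => ?_) f).trans (by simp)
  simp only [genX_eq_pt, pt]
  refine (degreeOf_sum_le _ _ _).trans (Finset.sup_le fun a _ => ?_)
  refine (degreeOf_mul_le _ _ _).trans ?_
  have h1 : (X (Sum.inr a) : MvPolynomial (Fin s ⊕ Fin s) F).degreeOf (Sum.inr i) ≤ 1 := by
    rw [degreeOf_X]; split_ifs <;> simp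
  have h2 : (∏ j ∈ Finset.univ.erase k, ((X (Sum.inl a) : MvPolynomial (Fin s ⊕ Fin s) F) -
      (((j : Fin m) : ℕ) : MvPolynomial (Fin s ⊕ Fin s) F))).degreeOf (Sum.inr i) ≤ 0 := by
    refine (degreeOf_prod_le _ _ _).trans ?_
    rw [nonpos_iff_eq_zero, Finset.sum_eq_zero_iff]
    intro j _
    rw [← nonpos_iff_eq_zero, ← map_natCast (C : F →+* MvPolynomial (Fin s ⊕ Fin s) F)]
    refine (degreeOf_sub_le _ _ _).trans ?_
    rw [degreeOf_X, degreeOf_C]
    simp
  omega

theorem degreeOf_gen_inl {F : Type*} [Field F] {m s : ℕ} (f : MvPolynomial (Fin m) F)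
    (i : Fin s) : (gen F m s f).degreeOf (Sum.inl i) ≤ f.totalDegree * (m - 1) := by
  classical
  refine (degreeOf_aeval_le _ _ (m - 1) (fun k => ?_) f)
  simp only [genX_eq_pt, pt]
  refine (degreeOf_sum_le _ _ _).trans (Finset.sup_le fun a _ => ?_)
  refine (degreeOf_mul_le _ _ _).trans ?_
  have h1 : (X (Sum.inr a) : MvPolynomial (Fin s ⊕ Fin s) F).degreeOf (Sum.inl i) = 0 := by
    rw [degreeOf_X]; simp
  have h2 : (∏ j ∈ Finset.univ.erase k, ((X (Sum.inl a) : MvPolynomial (Fin s ⊕ Fin s) F) -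
      (((j : Fin m) : ℕ) : MvPolynomial (Fin s ⊕ Fin s) F))).degreeOf (Sum.inl i) ≤ m - 1 := by
    refine (degreeOf_prod_le _ _ _).trans ?_
    calc _ ≤ ∑ j ∈ Finset.univ.erase k, 1 := by
          refine Finset.sum_le_sum fun j _ => ?_
          rw [← map_natCast (C : F →+* MvPolynomial (Fin s ⊕ Fin s) F)]
          refine (degreeOf_sub_le _ _ _).trans ?_
          rw [degreeOf_X, degreeOf_C]
          split_ifs <;> simp
      _ = m - 1 := by simp
  omega

/-- The test points: all seeds `y` in `[0, n (m - 1)]` and `z` in `[0, n]`. -/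
def grid (m n s : ℕ) : Finset (Fin m → ℤ) :=
  Finset.univ.image fun p : (Fin s → Fin (n * (m - 1) + 1)) × (Fin s → Fin (n + 1)) =>
    pt (fun i => ((p.1 i : ℕ) : ℤ)) (fun i => ((p.2 i : ℕ) : ℤ))

theorem card_grid (m n s : ℕ) :
    (grid m n s).card ≤ ((n * (m - 1) + 1) * (n + 1)) ^ s := by
  refine Finset.card_image_le.trans ?_
  simp [Fintype.card_prod, mul_pow]

theorem gen_eq_zero_of_grid {F : Type*} [Field F] [CharZero F] {m n s : ℕ}
    (f : MvPolynomial (Fin m) F) (hd : f.totalDegree ≤ n)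
    (h : ∀ x ∈ grid m n s, eval (fun k => ((x k : ℤ) : F)) f = 0) : gen F m s f = 0 := by
  classical
  refine eq_zero_of_eval_zero_at_prod_finset (gen F m s f)
    (Sum.elim (fun _ => (Finset.range (n * (m - 1) + 1)).image (fun a : ℕ => (a : F)))
      (fun _ => (Finset.range (n + 1)).image (fun a : ℕ => (a : F)))) ?_ ?_
  · rintro (i | i)
    · simp only [Sum.elim_inl]
      rw [Finset.card_image_of_injective _ Nat.cast_injective, Finset.card_range]
      exact Nat.lt_succ_of_le ((degreeOf_gen_inl f i).trans (Nat.mul_le_mul_right _ hd))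
    · simp only [Sum.elim_inr]
      rw [Finset.card_image_of_injective _ Nat.cast_injective, Finset.card_range]
      exact Nat.lt_succ_of_le ((degreeOf_gen_inr f i).trans hd)
  · intro x hx
    have hl : ∀ i : Fin s, ∃ a : Fin (n * (m - 1) + 1), ((a : ℕ) : F) = x (Sum.inl i) := by
      intro i
      have := hx (Sum.inl i)
      simp only [Sum.elim_inl, Finset.mem_image, Finset.mem_range] at this
      obtain ⟨a, ha, ha2⟩ := this
      exact ⟨⟨a, ha⟩, ha2⟩
    have hr : ∀ i : Fin s, ∃ a : Fin (n + 1), ((a : ℕ) : F) = x (Sum.inr i) := by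
      intro i
      have := hx (Sum.inr i)
      simp only [Sum.elim_inr, Finset.mem_image, Finset.mem_range] at this
      obtain ⟨a, ha, ha2⟩ := this
      exact ⟨⟨a, ha⟩, ha2⟩
    choose p hp using hl
    choose r hr using hr
    have h1 := h (pt (fun i => ((p i : ℕ) : ℤ)) (fun i => ((r i : ℕ) : ℤ)))
      (Finset.mem_image.2 ⟨(p, r), Finset.mem_univ _, rfl⟩)
    have h2 : (fun k => ((pt (m := m) (fun i => ((p i : ℕ) : ℤ)) (fun i => ((r i : ℕ) : ℤ)) k
        : ℤ) : F)) = pt (fun i => x (Sum.inl i)) (fun i => x (Sum.inr i)) := by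
      funext k
      have h3 := map_pt (Int.castRingHom F) (m := m)
        (fun i => ((p i : ℕ) : ℤ)) (fun i => ((r i : ℕ) : ℤ)) k
      simp only [eq_intCast, Int.cast_natCast] at h3
      rw [h3]
      congr 1
      · funext i; exact hp i
      · funext i; exact hr i
    rw [h2] at h1
    rw [eval_gen]
    exact h1

end Pool.Agent.Lib.MP_64d474_lc.S3
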