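import Mathlib
import Pool.Agent.Lib.MP_64d474_lc.S3.Hit35

/-!
# The generator does not kill polynomials of small degree
-/

namespace Pool.Agent.Lib.MP_64d474_lc.S3

open MvPolynomial

theorem exists_seeds_card {F : Type*} [Field F] [CharZero F] {m : ℕ} (T : Finset (Fin m)) :
    ∀ x : Fin m → F, (∀ k, k ∉ T → x k = 0) → ∃ y z : Fin T.card → F, pt y z = x := by
  classical
  induction T using Finset.induction_on with
  | empty =>
    intro x hx
    refine ⟨fun _ => 0, fun _ => 0, ?_⟩
    funext k
    rw [hx k (Finset.notMem_empty k)]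
    simp [pt]
  | insert a T ha ih =>
    intro x hx
    obtain ⟨y, z, h⟩ := ih (fun k => if k = a then 0 else x k) (by
      intro k hk
      by_cases hka : k = a
      · simp [hka]
      · simp only [hka, if_false]
        exact hx k (by simp [hka, hk]))
    rw [Finset.card_insert_of_notMem ha]
    have hne : ∏ j ∈ Finset.univ.erase a, (((a : ℕ) : F) - ((j : ℕ) : F)) ≠ 0 := by
      rw [Finset.prod_ne_zero_iff]
      intro j hj
      rw [sub_ne_zero]
      intro h1
      exact (Finset.ne_of_mem_erase hj) (Fin.ext (Nat.cast_injective h1)).symm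
    refine ⟨Fin.append y (fun _ : Fin 1 => ((a : ℕ) : F)),
      Fin.append z (fun _ : Fin 1 => x a *
        (∏ j ∈ Finset.univ.erase a, (((a : ℕ) : F) - ((j : ℕ) : F)))⁻¹), ?_⟩
    funext k
    rw [pt_append, congrFun h k]
    by_cases hka : k = a
    · subst hka
      simp only [if_true, zero_add, pt, Fin.sum_univ_one]
      rw [mul_assoc, inv_mul_cancel₀ hne, mul_one]
    · simp only [hka, if_false, pt, Fin.sum_univ_one]
      have h0 : ∏ j ∈ Finset.univ.erase k, (((a : ℕ) : F) - ((j : ℕ) : F)) = 0 :=
        Finset.prod_eq_zero (i := a) (by simp [Ne.symm hka]) (sub_self _)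
      rw [h0, mul_zero, add_zero]

/-- Every vector with at most `s` nonzero coordinates is a value of the generator. -/
theorem exists_seeds {F : Type*} [Field F] [CharZero F] {m s : ℕ} (T : Finset (Fin m))
    (hT : T.card ≤ s) (x : Fin m → F) (hx : ∀ k, k ∉ T → x k = 0) :
    ∃ y z : Fin s → F, pt y z = x := by
  obtain ⟨r, rfl⟩ := Nat.exists_eq_add_of_le hT
  obtain ⟨y, z, h⟩ := exists_seeds_card T x hx
  refine ⟨Fin.append y (fun _ => 0), Fin.append z (fun _ => 0), ?_⟩
  funext k
  rw [pt_append, congrFun h k]
  simp [pt]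

/-- A nonzero polynomial of degree at most `s` is nonzero at some vector with at most `s` nonzero
coordinates. -/
theorem exists_sparse_point {F : Type*} [Field F] [Infinite F] {m s : ℕ}
    {P : MvPolynomial (Fin m) F} (hP : P ≠ 0) (hd : P.totalDegree ≤ s) :
    ∃ T : Finset (Fin m), T.card ≤ s ∧ ∃ x : Fin m → F, (∀ k, k ∉ T → x k = 0) ∧
      eval x P ≠ 0 := by
  classical
  obtain ⟨d, hd0⟩ := MvPolynomial.support_nonempty.2 hP
  refine ⟨d.support, ?_, ?_⟩
  · refine le_trans ?_ ((le_totalDegree hd0).trans hd)
    rw [Finsupp.sum, Finset.card_eq_sum_ones]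
    exact Finset.sum_le_sum fun i hi => Nat.one_le_iff_ne_zero.2 (Finsupp.mem_support_iff.1 hi)
  · by_contra hno
    have hz : (aeval (fun k => if k ∈ d.support then (X k : MvPolynomial (Fin m) F) else 0) P)
        = 0 := by
      refine MvPolynomial.funext fun x => ?_
      rw [map_zero]
      by_contra hx
      refine hno ⟨fun k => if k ∈ d.support then x k else 0, fun k hk => by simp [hk], ?_⟩
      intro h0
      apply hx
      have h1 := MvPolynomial.comp_aeval_apply
        (fun k => if k ∈ d.support then (X k : MvPolynomial (Fin m) F) else 0)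
        (aeval x : MvPolynomial (Fin m) F →ₐ[F] F) P
      rw [aeval_eq_eval] at h1
      rw [h1, ← h0]
      have h2 : (fun i => (eval x) (if i ∈ d.support then (X i : MvPolynomial (Fin m) F) else 0)) =
          fun k => if k ∈ d.support then x k else 0 := by
        funext k
        by_cases hk : k ∈ d.support
        · rw [if_pos hk, if_pos hk, eval_X]
        · rw [if_neg hk, if_neg hk, map_zero]
      rw [h2, aeval_eq_eval]
    have hc : coeff d (aeval (fun k => if k ∈ d.support then (X k : MvPolynomial (Fin m) F)
        else 0) P) = coeff d P := by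
      rw [aeval_def, eval₂_eq', coeff_sum]
      rw [Finset.sum_eq_single d]
      · have h2 : (∏ i : Fin m, (if i ∈ d.support then (X i : MvPolynomial (Fin m) F) else 0) ^ d i)
            = monomial d 1 := by
          rw [monomial_eq, C_1, one_mul, Finsupp.prod_fintype _ _ (by simp)]
          refine Finset.prod_congr rfl fun i _ => ?_
          by_cases hi : i ∈ d.support
          · rw [if_pos hi]
          · rw [Finsupp.notMem_support_iff.1 hi, pow_zero, pow_zero]
        rw [h2, algebraMap_eq, coeff_C_mul, coeff_monomial, if_pos rfl, mul_one]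
      · intro e _ hed
        rw [algebraMap_eq, coeff_C_mul]
        by_cases hs : e.support ⊆ d.support
        · have h2 : (∏ i : Fin m, (if i ∈ d.support then (X i : MvPolynomial (Fin m) F) else 0) ^
              e i) = monomial e 1 := by
            rw [monomial_eq, C_1, one_mul, Finsupp.prod_fintype _ _ (by simp)]
            refine Finset.prod_congr rfl fun i _ => ?_
            by_cases hi : i ∈ d.support
            · rw [if_pos hi]
            · rw [Finsupp.notMem_support_iff.1 (fun h => hi (hs h)), pow_zero, pow_zero]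
          rw [h2, coeff_monomial, if_neg hed, mul_zero]
        · obtain ⟨i, hi1, hi2⟩ := Finset.not_subset.1 hs
          have h2 : (∏ i : Fin m, (if i ∈ d.support then (X i : MvPolynomial (Fin m) F) else 0) ^
              e i) = 0 := by
            refine Finset.prod_eq_zero (Finset.mem_univ i) ?_
            rw [if_neg hi2, zero_pow (Finsupp.mem_support_iff.1 hi1)]
          rw [h2, coeff_zero, mul_zero]
      · intro h; exact absurd hd0 h
    rw [hz, coeff_zero] at hc
    exact (mem_support_iff.1 hd0) hc.symm

/-- The generator with `s` seeds does not kill a nonzero polynomial of degree at most `s`. -/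
theorem gen_ne_zero {F : Type*} [Field F] [CharZero F] {m s : ℕ} {P : MvPolynomial (Fin m) F}
    (hP : P ≠ 0) (hd : P.totalDegree ≤ s) : gen F m s P ≠ 0 := by
  obtain ⟨T, hT, x, hx, hne⟩ := exists_sparse_point hP hd
  obtain ⟨y, z, hyz⟩ := exists_seeds T hT x hx
  intro h0
  apply hne
  have h1 := eval_gen (s := s) P (Sum.elim y z)
  rw [h0, map_zero] at h1
  simp only [Sum.elim_inl, Sum.elim_inr] at h1
  rw [← hyz]
  exact h1.symm

/-- The generator does not kill a product of polynomials of degree at most `s`. -/
theorem gen_prod_ne_zero {F : Type*} [Field F] [CharZero F] {m s : ℕ}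
    (A : Multiset (MvPolynomial (Fin m) F))
    (h : ∀ P ∈ A, P ≠ 0 ∧ P.totalDegree ≤ s) : gen F m s A.prod ≠ 0 := by
  rw [map_multiset_prod, Ne, Multiset.prod_eq_zero_iff, Multiset.mem_map]
  rintro ⟨P, hP, h0⟩
  exact gen_ne_zero (h P hP).1 (h P hP).2 h0

/-- The homomorphism `X_i ↦ X_i + t e_i` into polynomials in one variable more. -/
theorem exists_direction' {F : Type*} [Field F] [CharZero F] {m D₀ D₁ : ℕ}
    {f : MvPolynomial (Fin m) F} (hf : gen F m (D₀ + D₁) f = 0)
    (A : Multiset (MvPolynomial (Fin m) F)) (h : ∀ P ∈ A, P ≠ 0 ∧ P.totalDegree ≤ D₀) :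
    ∃ e : Fin m → F, (∀ P ∈ A, eval e P ≠ 0) ∧
      ∀ {R : Type*} [CommRing R] [Algebra F R] (y z : Fin D₁ → R) (t : R),
        aeval (fun k => pt y z k + t * algebraMap F R (e k)) f = 0 := by
  obtain ⟨e, he, h2⟩ := exists_direction hf (gen_prod_ne_zero A h)
  refine ⟨e, fun P hP h0 => he ?_, fun y z t => h2 y z t⟩
  rw [map_multiset_prod, Multiset.prod_eq_zero_iff, Multiset.mem_map]
  exact ⟨P, hP, h0⟩

end Pool.Agent.Lib.MP_64d474_lc.S3
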