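import Mathlib

/-!
Divisors of forms are forms; the substitution `x ↦ x + s e`.
-/

set_option autoImplicit false

namespace Pool.Agent.Lib.MP_64d474_lc.S3

open MvPolynomial

variable {σ k : Type*} [Field k]

/-- the substitution `x ↦ T x` -/
noncomputable def scaleT (σ k : Type*) [Field k] :
    MvPolynomial σ k →ₐ[k] Polynomial (MvPolynomial σ k) :=
  aeval (fun i => Polynomial.C (X i) * Polynomial.X)

theorem scaleT_hom {P : MvPolynomial σ k} {n : ℕ} (hP : P.IsHomogeneous n) :
    scaleT σ k P = Polynomial.C P * Polynomial.X ^ n := by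
  classical
  have h : ∀ d ∈ P.support, scaleT σ k (monomial d (P.coeff d))
      = Polynomial.C (monomial d (P.coeff d)) * Polynomial.X ^ n := by
    intro d hd
    have hdeg : d.sum (fun _ e => e) = n := by
      have := hP (mem_support_iff.mp hd)
      rw [← this]
      simp [Finsupp.weight_apply, Finsupp.sum]
    unfold scaleT
    rw [aeval_monomial]
    rw [Finsupp.prod, Finset.prod_congr rfl (fun i _ => mul_pow _ _ _), Finset.prod_mul_distrib,
      Finset.prod_pow_eq_pow_sum]
    have h1 : ∑ i ∈ d.support, d i = n := hdeg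
    rw [h1, ← mul_assoc]
    congr 1
    rw [monomial_eq, Polynomial.C_mul, Finsupp.prod, map_prod]
    exact congrArg₂ (· * ·) rfl (Finset.prod_congr rfl fun i _ => by rw [Polynomial.C_pow])
  conv_lhs => rw [P.as_sum, map_sum]
  rw [Finset.sum_congr rfl h, ← Finset.sum_mul, ← map_sum, ← P.as_sum]

theorem scaleT_coeff (P : MvPolynomial σ k) (j : ℕ) :
    (scaleT σ k P).coeff j = homogeneousComponent j P := by
  classical
  have h1 : scaleT σ k P = ∑ i ∈ Finset.range (P.totalDegree + 1),
      Polynomial.C (homogeneousComponent i P) * Polynomial.X ^ i := by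
    conv_lhs => rw [← sum_homogeneousComponent P, map_sum]
    exact Finset.sum_congr rfl fun i _ => scaleT_hom (homogeneousComponent_isHomogeneous i P)
  rw [h1, Polynomial.finsetSum_coeff]
  simp only [Polynomial.coeff_C_mul_X_pow]
  rw [Finset.sum_ite_eq]
  split_ifs with h
  · rfl
  · rw [Finset.mem_range, not_lt] at h
    exact (homogeneousComponent_eq_zero j P (by omega)).symm

theorem hom_of_dvd {P Q : MvPolynomial σ k} {n : ℕ} (hP : P.IsHomogeneous n) (h0 : P ≠ 0)
    (h : Q ∣ P) : ∃ m, m ≤ n ∧ Q.IsHomogeneous m := by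
  obtain ⟨R, hR⟩ := h
  have hQ0 : Q ≠ 0 := by rintro rfl; exact h0 (by rw [hR, zero_mul])
  have hR0 : R ≠ 0 := by rintro rfl; exact h0 (by rw [hR, mul_zero])
  have hinj : ∀ F : MvPolynomial σ k, F ≠ 0 → scaleT σ k F ≠ 0 := by
    intro F hF hc
    apply hF
    rw [← sum_homogeneousComponent F]
    refine Finset.sum_eq_zero fun i _ => ?_
    rw [← scaleT_coeff, hc, Polynomial.coeff_zero]
  have h1 : scaleT σ k Q * scaleT σ k R = Polynomial.C P * Polynomial.X ^ n := by
    rw [← map_mul, ← hR, scaleT_hom hP]
  have hd : (scaleT σ k Q).natDegree + (scaleT σ k R).natDegree = n := by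
    rw [← Polynomial.natDegree_mul (hinj Q hQ0) (hinj R hR0), h1,
      Polynomial.natDegree_C_mul_X_pow n P h0]
  have ht : (scaleT σ k Q).natTrailingDegree + (scaleT σ k R).natTrailingDegree = n := by
    rw [← Polynomial.natTrailingDegree_mul (hinj Q hQ0) (hinj R hR0), h1,
      Polynomial.C_mul_X_pow_eq_monomial, Polynomial.natTrailingDegree_monomial h0]
  have hle : (scaleT σ k Q).natTrailingDegree ≤ (scaleT σ k Q).natDegree :=
    Polynomial.natTrailingDegree_le_natDegree _
  have hle' : (scaleT σ k R).natTrailingDegree ≤ (scaleT σ k R).natDegree :=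
    Polynomial.natTrailingDegree_le_natDegree _
  set m := (scaleT σ k Q).natDegree with hm
  have hmt : (scaleT σ k Q).natTrailingDegree = m := by omega
  refine ⟨m, by omega, ?_⟩
  have h2 : Q = homogeneousComponent m Q := by
    conv_lhs => rw [← sum_homogeneousComponent Q]
    rw [Finset.sum_eq_single m]
    · intro i _ hi
      rw [← scaleT_coeff]
      rcases lt_or_gt_of_ne hi with h | h
      · exact Polynomial.coeff_eq_zero_of_lt_natTrailingDegree (by omega)
      · exact Polynomial.coeff_eq_zero_of_natDegree_lt (by omega)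
    · intro hnot
      rw [Finset.mem_range, not_lt] at hnot
      exact homogeneousComponent_eq_zero m Q (by omega)
  rw [h2]
  exact homogeneousComponent_isHomogeneous m Q

/-- the substitution `x ↦ x + s e` -/
noncomputable def sh (e : σ → k) : MvPolynomial σ k →ₐ[k] Polynomial (MvPolynomial σ k) :=
  aeval (fun i => Polynomial.C (X i) + Polynomial.C (C (e i)) * Polynomial.X)

/-- the coefficient of `s^j` is a form of degree `n - j` -/
def HomS (n : ℕ) (f : Polynomial (MvPolynomial σ k)) : Prop :=
  ∀ j, (j ≤ n → (f.coeff j).IsHomogeneous (n - j)) ∧ (n < j → f.coeff j = 0)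

theorem HomS.zero (n : ℕ) : HomS n (0 : Polynomial (MvPolynomial σ k)) := fun j =>
  ⟨fun _ => by rw [Polynomial.coeff_zero]; exact isHomogeneous_zero _ _ _,
    fun _ => Polynomial.coeff_zero _⟩

theorem HomS.add {n : ℕ} {f g : Polynomial (MvPolynomial σ k)} (hf : HomS n f) (hg : HomS n g) :
    HomS n (f + g) := fun j =>
  ⟨fun h => by rw [Polynomial.coeff_add]; exact ((hf j).1 h).add ((hg j).1 h),
    fun h => by rw [Polynomial.coeff_add, (hf j).2 h, (hg j).2 h, add_zero]⟩

theorem HomS.sum {n : ℕ} {ι : Type*} (s : Finset ι) (f : ι → Polynomial (MvPolynomial σ k))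
    (hf : ∀ i ∈ s, HomS n (f i)) : HomS n (∑ i ∈ s, f i) := by
  classical
  induction s using Finset.induction_on with
  | empty => exact HomS.zero n
  | insert a s ha ih =>
    rw [Finset.sum_insert ha]
    exact (hf a (Finset.mem_insert_self a s)).add
      (ih fun i hi => hf i (Finset.mem_insert_of_mem hi))

theorem HomS.mul {n m : ℕ} {f g : Polynomial (MvPolynomial σ k)} (hf : HomS n f)
    (hg : HomS m g) : HomS (n + m) (f * g) := by
  classical
  intro j
  constructor
  · intro h
    rw [Polynomial.coeff_mul]
    apply IsHomogeneous.sum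
    rintro ⟨a, b⟩ hab
    have hab := Finset.HasAntidiagonal.mem_antidiagonal.mp hab
    simp only at hab ⊢
    by_cases ha : a ≤ n
    · by_cases hb : b ≤ m
      · have := ((hf a).1 ha).mul ((hg b).1 hb)
        have he : n - a + (m - b) = n + m - j := by omega
        rwa [he] at this
      · rw [(hg b).2 (by omega), mul_zero]
        exact isHomogeneous_zero _ _ _
    · rw [(hf a).2 (by omega), zero_mul]
      exact isHomogeneous_zero _ _ _
  · intro h
    rw [Polynomial.coeff_mul]
    apply Finset.sum_eq_zero
    rintro ⟨a, b⟩ hab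
    have hab := Finset.HasAntidiagonal.mem_antidiagonal.mp hab
    simp only at hab ⊢
    by_cases ha : a ≤ n
    · rw [(hg b).2 (by omega), mul_zero]
    · rw [(hf a).2 (by omega), zero_mul]

theorem HomS.C {n : ℕ} {P : MvPolynomial σ k} (hP : P.IsHomogeneous n) :
    HomS n (Polynomial.C P) := by
  intro j
  constructor
  · intro h
    rw [Polynomial.coeff_C]
    split_ifs with h0
    · subst h0
      simpa using hP
    · exact isHomogeneous_zero _ _ _
  · intro h
    rw [Polynomial.coeff_C, if_neg (by omega)]

theorem HomS.one : HomS 0 (1 : Polynomial (MvPolynomial σ k)) := by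
  rw [← Polynomial.C_1]
  exact HomS.C (isHomogeneous_one _ _)

theorem HomS.pow {n : ℕ} {f : Polynomial (MvPolynomial σ k)} (hf : HomS n f) (m : ℕ) :
    HomS (m * n) (f ^ m) := by
  induction m with
  | zero => rw [zero_mul, pow_zero]; exact HomS.one
  | succ m ih =>
    rw [pow_succ, Nat.succ_mul]
    exact ih.mul hf

theorem HomS.prod {ι : Type*} (s : Finset ι) (f : ι → Polynomial (MvPolynomial σ k))
    (n : ι → ℕ) (hf : ∀ i ∈ s, HomS (n i) (f i)) : HomS (∑ i ∈ s, n i) (∏ i ∈ s, f i) := by
  classical
  induction s using Finset.induction_on with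
  | empty => simpa using HomS.one
  | insert a s ha ih =>
    rw [Finset.prod_insert ha, Finset.sum_insert ha]
    exact (hf a (Finset.mem_insert_self a s)).mul
      (ih fun i hi => hf i (Finset.mem_insert_of_mem hi))

theorem homS_X (e : σ → k) (i : σ) :
    HomS 1 (Polynomial.C (X i) + Polynomial.C (MvPolynomial.C (e i)) * Polynomial.X :
      Polynomial (MvPolynomial σ k)) := by
  apply HomS.add
  · exact HomS.C (isHomogeneous_X _ _)
  · intro j
    constructor
    · intro h
      rw [Polynomial.coeff_C_mul_X]
      split_ifs with h1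
      · subst h1
        simpa using isHomogeneous_C σ (e i)
      · exact isHomogeneous_zero _ _ _
    · intro h
      rw [Polynomial.coeff_C_mul_X, if_neg (by omega)]

theorem sh_homS (e : σ → k) {P : MvPolynomial σ k} {n : ℕ} (hP : P.IsHomogeneous n) :
    HomS n (sh e P) := by
  classical
  rw [P.as_sum, map_sum]
  apply HomS.sum
  intro d hd
  have hdeg : ∑ i ∈ d.support, d i = n := by
    have := hP (mem_support_iff.mp hd)
    rw [← this]
    simp [Finsupp.weight_apply, Finsupp.sum]
  unfold sh
  rw [aeval_monomial]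
  have h0 : HomS 0 (algebraMap k (Polynomial (MvPolynomial σ k)) (P.coeff d)) := by
    rw [IsScalarTower.algebraMap_apply k (MvPolynomial σ k) (Polynomial (MvPolynomial σ k))]
    exact HomS.C (isHomogeneous_C σ _)
  have h1 : HomS n (d.prod fun i m =>
      (Polynomial.C (X i) + Polynomial.C (MvPolynomial.C (e i)) * Polynomial.X :
        Polynomial (MvPolynomial σ k)) ^ m) := by
    rw [← hdeg]
    apply HomS.prod
    intro i _
    have := (homS_X e i).pow (d i)
    rwa [mul_one] at this
  have := h0.mul h1
  rwa [zero_add] at this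

theorem sh_coeff_top (e : σ → k) {P : MvPolynomial σ k} {n : ℕ} (hP : P.IsHomogeneous n) :
    (sh e P).coeff n = C (eval e P) := by
  -- the coefficient is a form of degree zero, evaluate at x = 0
  have h1 := ((sh_homS e hP) n).1 le_rfl
  rw [Nat.sub_self] at h1
  obtain ⟨c, hc⟩ : ∃ c, (sh e P).coeff n = C c := by
    refine ⟨((sh e P).coeff n).coeff 0, ?_⟩
    exact (totalDegree_eq_zero_iff_eq_C).mp (Nat.le_zero.mp (h1.totalDegree_le))
  rw [hc]
  congr 1
  -- compare with the substitution x = 0
  have h2 : (Polynomial.mapRingHom (eval (fun _ : σ => (0 : k)))).comp (sh e).toRingHom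
      = (Polynomial.mapRingHom (eval e)).comp (scaleT σ k).toRingHom := by
    apply MvPolynomial.ringHom_ext
    · intro a
      simp [sh, scaleT, IsScalarTower.algebraMap_apply k (MvPolynomial σ k)
        (Polynomial (MvPolynomial σ k)), MvPolynomial.algebraMap_eq]
    · intro i
      simp [sh, scaleT]
  have h3 := congrArg (fun f => (f P).coeff n) h2
  simp only [RingHom.comp_apply, Polynomial.coe_mapRingHom, Polynomial.coeff_map,
    AlgHom.toRingHom_eq_coe, RingHom.coe_coe, scaleT_coeff] at h3
  rw [hc, eval_C] at h3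
  rw [h3]
  congr 1
  exact homogeneousComponent_of_mem hP |>.trans (if_pos rfl)

end Pool.Agent.Lib.MP_64d474_lc.S3
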