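import Mathlib

/-! # Row N: norms of polynomials modulo a monic polynomial -/

namespace S3Norm97

open Polynomial

noncomputable section

variable {A B : Type*} [CommRing A] [CommRing B]

/-- The norm of `h` modulo the monic polynomial `β`. -/
def nrm (β h : A[X]) : A := resultant β h β.natDegree h.natDegree

theorem nrm_eq {β : A[X]} (hβ : β.Monic) (h : A[X]) (n : ℕ) (hn : h.natDegree ≤ n) :
    resultant β h β.natDegree n = nrm β h := by
  obtain ⟨k, rfl⟩ := Nat.exists_eq_add_of_le hn
  rw [resultant_add_right_deg _ _ _ _ _ le_rfl, coeff_natDegree, hβ.leadingCoeff, one_pow, one_mul,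
    nrm]

/-- (N1) naturality -/
theorem nrm_map (φ : A →+* B) {β : A[X]} (hβ : β.Monic) (h : A[X]) :
    nrm (β.map φ) (h.map φ) = φ (nrm β h) := by
  nontriviality B
  rw [← nrm_eq (hβ.map φ) _ _ natDegree_map_le, hβ.natDegree_map φ, resultant_map_map, nrm]

/-- (N2) the product over the roots -/
theorem nrm_prod [Nontrivial A] {b : ℕ} (θ : Fin b → A) (h : A[X]) :
    nrm (∏ i, (X - C (θ i))) h = ∏ i, h.eval (θ i) := by
  rw [nrm, resultant_prod_left _ _ _ _ (by simp) le_rfl]
  refine Finset.prod_congr rfl fun i _ => ?_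
  rw [natDegree_X_sub_C, resultant_X_sub_C_left _ _ _ le_rfl]

theorem nrm_one {β : A[X]} (hβ : β.Monic) : nrm β 1 = 1 := by
  rw [nrm, resultant_one_right, coeff_natDegree, hβ.leadingCoeff, one_pow]

/-- (N3) multiplicativity -/
theorem nrm_mul {β : A[X]} (hβ : β.Monic) (h k : A[X]) :
    nrm β (h * k) = nrm β h * nrm β k := by
  rw [← nrm_eq hβ _ _ (natDegree_mul_le (p := h) (q := k)),
    resultant_mul_right _ _ _ _ le_rfl, nrm, nrm]

theorem nrm_prod_right {β : A[X]} (hβ : β.Monic) {ι : Type*} (s : Finset ι) (h : ι → A[X]) :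
    nrm β (∏ i ∈ s, h i) = ∏ i ∈ s, nrm β (h i) := by
  classical
  induction s using Finset.induction with
  | empty => rw [Finset.prod_empty, Finset.prod_empty, nrm_one hβ]
  | insert a s ha ih => rw [Finset.prod_insert ha, Finset.prod_insert ha, nrm_mul hβ, ih]

theorem nrm_C {β : A[X]} (hβ : β.Monic) (a : A) : nrm β (C a) = a ^ β.natDegree := by
  rw [nrm, resultant_C_right, coeff_natDegree, hβ.leadingCoeff, one_pow, one_mul]

theorem nrm_zero {β : A[X]} (hβ : β.Monic) (hb : 0 < β.natDegree) : nrm β 0 = 0 := by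
  rw [← C_0, nrm_C hβ, zero_pow hb.ne']

/-- (N4) the norm vanishes only for multiples -/
theorem dvd_of_nrm_eq_zero [IsDomain A] [IsIntegrallyClosed A] {β : A[X]} (hβ : β.Monic)
    (hirr : Irreducible β) (h : A[X]) (h0 : nrm β h = 0) : β ∣ h := by
  have hinj : Function.Injective (algebraMap A (FractionRing A)) := IsFractionRing.injective _ _
  have h1 : nrm (β.map (algebraMap A (FractionRing A))) (h.map (algebraMap A (FractionRing A))) =
      0 := by
    rw [nrm_map _ hβ, h0, map_zero]
  have h2 := (resultant_eq_zero_iff.1 h1).2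
  have h3 : Irreducible (β.map (algebraMap A (FractionRing A))) :=
    (hβ.irreducible_iff_irreducible_map_fraction_map (K := FractionRing A)).1 hirr
  have h4 : β.map (algebraMap A (FractionRing A)) ∣ h.map (algebraMap A (FractionRing A)) := by
    by_contra hcon
    exact h2 ((h3.coprime_iff_not_dvd).2 hcon)
  exact (Polynomial.map_dvd_map _ hinj hβ).1 h4

theorem nrm_eq_zero_of_dvd [IsDomain A] {β : A[X]} (hβ : β.Monic) (hb : 0 < β.natDegree)
    {h : A[X]} (hd : β ∣ h) : nrm β h = 0 := by
  obtain ⟨k, rfl⟩ := hd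
  rw [nrm_mul hβ, nrm, resultant_self, zero_pow hb.ne', zero_mul]

/-- The characteristic polynomial of `g` modulo `β`. -/
def chr (β g : A[X]) : A[X] := nrm (β.map C) (C X - g.map C)

theorem chr_map (φ : A →+* B) {β : A[X]} (hβ : β.Monic) (g : A[X]) :
    chr (β.map φ) (g.map φ) = (chr β g).map φ := by
  have h1 := nrm_map (mapRingHom φ) (hβ.map (C : A →+* A[X])) (C X - g.map C)
  rw [coe_mapRingHom] at h1
  rw [chr, chr, ← h1]
  congr 1
  · rw [Polynomial.map_map, Polynomial.map_map]
    congr 1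
    ext a
    simp
  · rw [Polynomial.map_sub, Polynomial.map_map, Polynomial.map_map, map_C]
    congr 2
    · simp
    · ext a
      simp

theorem chr_prod [Nontrivial A] {b : ℕ} (θ : Fin b → A) (g : A[X]) :
    chr (∏ i, (X - C (θ i))) g = ∏ i, (X - C (g.eval (θ i))) := by
  rw [chr]
  have h1 : (∏ i, (X - C (θ i))).map (C : A →+* A[X]) = ∏ i, (X - C (C (θ i))) := by
    rw [Polynomial.map_prod]
    refine Finset.prod_congr rfl fun i _ => ?_
    rw [Polynomial.map_sub, map_X, map_C]
  rw [h1, nrm_prod]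
  refine Finset.prod_congr rfl fun i _ => ?_
  rw [eval_sub, eval_C, eval_map, eval₂_at_apply]

end

end S3Norm97
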