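import Mathlib
import Pool.Agent.Lib.MP_64d474_lc.S3.Norm97

/-! # Row N, homogeneity -/

namespace S3Norm97

open Polynomial

noncomputable section

variable {R : Type*} [CommRing R]

/-- A family of additive subgroups closed under products. -/
structure Grad (P : ℕ → AddSubgroup R) : Prop where
  one : (1 : R) ∈ P 0
  mul : ∀ {i j : ℕ} {a b : R}, a ∈ P i → b ∈ P j → a * b ∈ P (i + j)

/-- The polynomials which are homogeneous of degree `d` if the variable has degree `γ`. -/
def QQ (P : ℕ → AddSubgroup R) (γ d : ℕ) : AddSubgroup R[X] where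
  carrier := {p | ∀ k, (∀ e, e + γ * k = d → p.coeff k ∈ P e) ∧ (d < γ * k → p.coeff k = 0)}
  zero_mem' := fun k => ⟨fun e _ => by rw [coeff_zero]; exact zero_mem _, fun _ => coeff_zero k⟩
  add_mem' := by
    intro p q hp hq k
    refine ⟨fun e he => ?_, fun h => ?_⟩
    · rw [coeff_add]
      exact add_mem ((hp k).1 e he) ((hq k).1 e he)
    · rw [coeff_add, (hp k).2 h, (hq k).2 h, add_zero]
  neg_mem' := by
    intro p hp k
    refine ⟨fun e he => ?_, fun h => ?_⟩
    · rw [coeff_neg]
      exact neg_mem ((hp k).1 e he)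
    · rw [coeff_neg, (hp k).2 h, neg_zero]

theorem mem_QQ {P : ℕ → AddSubgroup R} {γ d : ℕ} {p : R[X]} : p ∈ QQ P γ d ↔
    ∀ k, (∀ e, e + γ * k = d → p.coeff k ∈ P e) ∧ (d < γ * k → p.coeff k = 0) := Iff.rfl

theorem Grad.prod {P : ℕ → AddSubgroup R} (hP : Grad P) {ι : Type*} (s : Finset ι) (f : ι → R)
    (e : ι → ℕ) (h : ∀ i ∈ s, f i ∈ P (e i)) : ∏ i ∈ s, f i ∈ P (∑ i ∈ s, e i) := by
  classical
  induction s using Finset.induction with
  | empty => rw [Finset.prod_empty, Finset.sum_empty]; exact hP.one
  | insert a s ha ih =>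
    rw [Finset.prod_insert ha, Finset.sum_insert ha]
    exact hP.mul (h a (Finset.mem_insert_self _ _))
      (ih fun i hi => h i (Finset.mem_insert_of_mem hi))

theorem Grad.QQ {P : ℕ → AddSubgroup R} (hP : Grad P) (γ : ℕ) : Grad (QQ P γ) where
  one := by
    intro k
    refine ⟨fun e he => ?_, fun h => ?_⟩
    · rw [coeff_one]
      split_ifs with hk
      · subst hk
        have : e = 0 := by omega
        subst this
        exact hP.one
      · exact zero_mem _
    · rw [coeff_one, if_neg]
      rintro rfl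
      omega
  mul := by
    intro i j a b ha hb k
    have key : ∀ x ∈ (Finset.HasAntidiagonal.antidiagonal k : Finset (ℕ × ℕ)), (∀ e, e + γ * k = i + j →
        a.coeff x.1 * b.coeff x.2 ∈ P e) ∧ (i + j < γ * k → a.coeff x.1 * b.coeff x.2 = 0) := by
      rintro ⟨x, y⟩ hxy
      rw [Finset.HasAntidiagonal.mem_antidiagonal] at hxy
      dsimp only at hxy ⊢
      have hk : γ * k = γ * x + γ * y := by rw [← hxy, Nat.mul_add]
      constructor
      · intro e he
        rcases Nat.lt_or_ge i (γ * x) with h1 | h1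
        · rw [(ha x).2 h1, zero_mul]
          exact zero_mem _
        · rcases Nat.lt_or_ge j (γ * y) with h2 | h2
          · rw [(hb y).2 h2, mul_zero]
            exact zero_mem _
          · have h3 := hP.mul ((ha x).1 (i - γ * x) (by omega)) ((hb y).1 (j - γ * y) (by omega))
            have h4 : i - γ * x + (j - γ * y) = e := by omega
            rwa [h4] at h3
      · intro h
        rcases Nat.lt_or_ge i (γ * x) with h1 | h1
        · rw [(ha x).2 h1, zero_mul]
        · rw [(hb y).2 (by omega), mul_zero]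
    refine ⟨fun e he => ?_, fun h => ?_⟩
    · rw [coeff_mul]
      exact sum_mem fun x hx => (key x hx).1 e he
    · rw [coeff_mul]
      exact Finset.sum_eq_zero fun x hx => (key x hx).2 h

/-- The degree of a determinant. -/
theorem Grad.det {P : ℕ → AddSubgroup R} (hP : Grad P) {N : ℕ} (M : Matrix (Fin N) (Fin N) R)
    (u : Fin N → ℕ) (D : ℕ)
    (hM : ∀ i c : Fin N, (∀ e, e + (i : ℕ) = u c → M i c ∈ P e) ∧ (u c < (i : ℕ) → M i c = 0))
    (hD : ∑ c, u c = D + ∑ i : Fin N, (i : ℕ)) : M.det ∈ P D := by
  rw [Matrix.det_apply]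
  refine sum_mem fun σ _ => ?_
  rw [Units.smul_def]
  refine zsmul_mem ?_ _
  by_cases h : ∃ c, u c < σ c
  · obtain ⟨c, hc⟩ := h
    have h0 : ∏ i, M (σ i) i = 0 :=
      Finset.prod_eq_zero (f := fun i => M (σ i) i) (Finset.mem_univ c) ((hM (σ c) c).2 hc)
    rw [h0]
    exact zero_mem _
  · push Not at h
    have h1 := hP.prod Finset.univ (fun c => M (σ c) c) (fun c => u c - σ c)
      (fun c _ => (hM (σ c) c).1 _ (Nat.sub_add_cancel (h c)))
    have h2 : ∑ c, (u c - (σ c : ℕ)) = D := by
      have h3 : ∑ c, (u c - (σ c : ℕ)) + ∑ c, (σ c : ℕ) = ∑ c, u c := by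
        rw [← Finset.sum_add_distrib]
        exact Finset.sum_congr rfl fun c _ => Nat.sub_add_cancel (h c)
      have h4 : ∑ c, (σ c : ℕ) = ∑ i : Fin N, (i : ℕ) := Equiv.sum_comp σ (fun i => (i : ℕ))
      omega
    rwa [h2] at h1

/-- (N6) the norm is homogeneous. -/
theorem nrm_grad {P : ℕ → AddSubgroup R} (hP : Grad P) {β h : R[X]} (hβ : β.Monic)
    (hβP : β ∈ QQ P 1 β.natDegree) {n : ℕ} (hh : h ∈ QQ P 1 n) :
    nrm β h ∈ P (β.natDegree * n) := by
  have hn : h.natDegree ≤ n := by
    rw [natDegree_le_iff_coeff_eq_zero]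
    intro k hk
    exact (hh k).2 (by omega)
  rw [← nrm_eq hβ h n hn, resultant]
  set b := β.natDegree with hb
  refine hP.det _ (fun c => c.addCases (fun j : Fin b => n + (j : ℕ)) (fun j : Fin n => b + (j : ℕ)))
    _ ?_ ?_
  · intro i c
    induction c using Fin.addCases with
    | left j =>
      simp only [sylvester, Matrix.of_apply, Fin.addCases_left, Set.mem_Icc]
      split_ifs with hij
      · exact ⟨fun e he => (hh (i - j)).1 e (by omega), fun hlt => by omega⟩
      · exact ⟨fun e he => zero_mem _, fun _ => rfl⟩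
    | right j =>
      simp only [sylvester, Matrix.of_apply, Fin.addCases_right, Set.mem_Icc]
      split_ifs with hij
      · exact ⟨fun e he => (hβP (i - j)).1 e (by omega), fun hlt => by omega⟩
      · exact ⟨fun e he => zero_mem _, fun _ => rfl⟩
  · rw [Fin.sum_univ_add, Fin.sum_univ_add]
    simp only [Fin.addCases_left, Fin.addCases_right, Fin.val_castAdd, Fin.val_natAdd,
      Finset.sum_add_distrib, Finset.sum_const, Finset.card_univ, Fintype.card_fin, smul_eq_mul]
    ring

/-- (N6) the coefficients of the characteristic polynomial are homogeneous. -/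
theorem chr_grad {P : ℕ → AddSubgroup R} (hP : Grad P) {β g : R[X]} (hβ : β.Monic)
    (hβP : β ∈ QQ P 1 β.natDegree) {γ : ℕ} (hg : g ∈ QQ P 1 γ) :
    chr β g ∈ QQ P γ (β.natDegree * γ) := by
  nontriviality R
  have hC : ∀ (d : ℕ) (a : R), a ∈ P d → (C a : R[X]) ∈ QQ P γ d := by
    intro d a ha k
    refine ⟨fun e he => ?_, fun h => ?_⟩
    · rw [coeff_C]
      split_ifs with hk
      · subst hk
        have : e = d := by omega
        rwa [this]
      · exact zero_mem _
    · rw [coeff_C, if_neg]
      rintro rfl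
      omega
  have hmap : ∀ (d : ℕ) (p : R[X]), p ∈ QQ P 1 d → p.map (C : R →+* R[X]) ∈
      QQ (QQ P γ) 1 d := by
    intro d p hp k
    refine ⟨fun e he => ?_, fun h => ?_⟩
    · rw [coeff_map]
      exact hC e _ ((hp k).1 e he)
    · rw [coeff_map, (hp k).2 h, C_0]
  have h1 : (C X : R[X][X]) ∈ QQ (QQ P γ) 1 γ := by
    intro k
    refine ⟨fun e he => ?_, fun h => ?_⟩
    · rw [coeff_C]
      split_ifs with hk
      · subst hk
        have : e = γ := by omega
        subst this
        intro l
        refine ⟨fun f hf => ?_, fun h => ?_⟩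
        · rw [coeff_X]
          split_ifs with hl
          · subst hl
            have : f = 0 := by omega
            subst this
            exact hP.one
          · exact zero_mem _
        · rw [coeff_X, if_neg]
          rintro rfl
          omega
      · exact zero_mem _
    · rw [coeff_C, if_neg]
      rintro rfl
      omega
  have h2 := nrm_grad (hP.QQ γ) (hβ.map (C : R →+* R[X])) (h := C X - g.map C) (n := γ) (by
    rw [hβ.natDegree_map]
    exact hmap _ _ hβP) (sub_mem h1 (hmap _ _ hg))
  rwa [hβ.natDegree_map] at h2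

/-! ## Multivariate polynomials -/

/-- The grading of the polynomial ring. -/
def PP (τ k : Type*) [CommRing k] (n : ℕ) : AddSubgroup (MvPolynomial τ k) :=
  (MvPolynomial.homogeneousSubmodule τ k n).toAddSubgroup

theorem mem_PP {τ k : Type*} [CommRing k] {n : ℕ} {p : MvPolynomial τ k} :
    p ∈ PP τ k n ↔ p.IsHomogeneous n := Iff.rfl

theorem grad_PP (τ k : Type*) [CommRing k] : Grad (PP τ k) where
  one := MvPolynomial.isHomogeneous_one τ k
  mul := fun ha hb => MvPolynomial.IsHomogeneous.mul ha hb

end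

end S3Norm97
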