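import Mathlib
import Pool.Agent.Lib.MP_64d474_lc.S3.NormHom97
import Pool.Agent.Lib.MP_64d474_lc.S3.Hom64

/-! # Row N, homogeneity of norms and the shift -/

set_option autoImplicit false

namespace Pool.Agent.Lib.MP_64d474_lc.S3

open MvPolynomial S3Norm97

noncomputable section

variable {σ k : Type*} [Field k]

theorem homS_iff {n : ℕ} {f : Polynomial (MvPolynomial σ k)} :
    HomS n f ↔ f ∈ QQ (PP σ k) 1 n := by
  constructor
  · intro h j
    refine ⟨fun e he => ?_, fun hlt => (h j).2 (by omega)⟩
    have h1 := (h j).1 (by omega)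
    have h2 : n - j = e := by omega
    rw [h2] at h1
    exact h1
  · intro h j
    exact ⟨fun hj => (h j).1 (n - j) (by omega), fun hlt => (h j).2 (by omega)⟩

/-- the norm is a form -/
theorem nrm_homS {β h : Polynomial (MvPolynomial σ k)} (hβ : β.Monic)
    (hβS : HomS β.natDegree β) {n : ℕ} (hh : HomS n h) :
    (nrm β h).IsHomogeneous (β.natDegree * n) :=
  nrm_grad (grad_PP σ k) hβ (homS_iff.1 hβS) (homS_iff.1 hh)

/-- the coefficients of the characteristic polynomial are forms -/
theorem chr_coeff_hom {β g : Polynomial (MvPolynomial σ k)} (hβ : β.Monic)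
    (hβS : HomS β.natDegree β) {n : ℕ} (hg : HomS n g) (j : ℕ) (hj : j ≤ β.natDegree) :
    ((chr β g).coeff j).IsHomogeneous ((β.natDegree - j) * n) := by
  have h1 := chr_grad (grad_PP σ k) hβ (homS_iff.1 hβS) (homS_iff.1 hg)
  refine (h1 j).1 _ ?_
  rw [Nat.sub_mul, mul_comm n j]
  exact Nat.sub_add_cancel (Nat.mul_le_mul_right n hj)

theorem multiset_prod97 {L M : Type*} [CommMonoid M] (s : Multiset L) (n : ℕ)
    (h : Multiset.card s = n) (f : L → M) :
    ∃ θ : Fin n → L, (s.map f).prod = ∏ i, f (θ i) := by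
  induction s using Quotient.inductionOn with
  | h l =>
    subst h
    exact ⟨fun i => l[i.1], (Fin.prod_univ_fun_getElem l f).symm⟩

/-- A monic polynomial over a domain splits in a field. -/
theorem exists_split97 {A : Type*} [CommRing A] [IsDomain A] {β : Polynomial A}
    (hβ : β.Monic) : ∃ θ : Fin β.natDegree → AlgebraicClosure (FractionRing A),
      β.map (algebraMap A (AlgebraicClosure (FractionRing A))) =
        ∏ i, (Polynomial.X - Polynomial.C (θ i)) := by
  classical
  set φ := algebraMap A (AlgebraicClosure (FractionRing A)) with hφ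
  have h1 : (β.map φ).Splits := IsAlgClosed.splits _
  have h2 : (β.map φ).Monic := hβ.map φ
  have h3 : Multiset.card (β.map φ).roots = β.natDegree := by
    rw [← h1.natDegree_eq_card_roots, hβ.natDegree_map]
  obtain ⟨θ, hθ⟩ := multiset_prod97 (β.map φ).roots β.natDegree h3
    (fun x => (Polynomial.X - Polynomial.C x : Polynomial (AlgebraicClosure (FractionRing A))))
  refine ⟨θ, ?_⟩
  conv_lhs => rw [h1.eq_prod_roots, h2.leadingCoeff, Polynomial.C_1, one_mul]
  exact hθ

theorem inj97 {A : Type*} [CommRing A] [IsDomain A] :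
    Function.Injective (algebraMap A (AlgebraicClosure (FractionRing A))) := by
  rw [IsScalarTower.algebraMap_eq A (FractionRing A) (AlgebraicClosure (FractionRing A))]
  exact (algebraMap (FractionRing A) (AlgebraicClosure (FractionRing A))).injective.comp
    (IsFractionRing.injective A (FractionRing A))

/-- `chr` is monic of the degree of `β` -/
theorem chr_monic {A : Type*} [CommRing A] [IsDomain A] {β : Polynomial A} (hβ : β.Monic)
    (g : Polynomial A) : (chr β g).Monic ∧ (chr β g).natDegree = β.natDegree := by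
  obtain ⟨θ, hθ⟩ := exists_split97 hβ
  have h1 := chr_map (algebraMap A (AlgebraicClosure (FractionRing A))) hβ g
  rw [hθ, chr_prod] at h1
  have h2 : (∏ i, (Polynomial.X - Polynomial.C (Polynomial.eval (θ i)
      (g.map (algebraMap A (AlgebraicClosure (FractionRing A))))))).Monic :=
    Polynomial.monic_prod_of_monic _ _ fun i _ => Polynomial.monic_X_sub_C _
  have h3 : (chr β g).Monic := by
    apply Polynomial.monic_of_injective (inj97 (A := A))
    rw [← h1]
    exact h2
  refine ⟨h3, ?_⟩
  rw [← h3.natDegree_map (algebraMap A (AlgebraicClosure (FractionRing A))), ← h1,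
    Polynomial.natDegree_prod_of_monic _ _ fun i _ => Polynomial.monic_X_sub_C _]
  simp

/-! ## The shift -/

/-- the endomorphism `x ↦ x + s e`, `s ↦ s` -/
def shX (e : σ → k) : Polynomial (MvPolynomial σ k) →+* Polynomial (MvPolynomial σ k) :=
  Polynomial.eval₂RingHom (sh e).toRingHom Polynomial.X

theorem shX_C (e : σ → k) (P : MvPolynomial σ k) : shX e (Polynomial.C P) = sh e P := by
  simp [shX]

theorem shX_X (e : σ → k) : shX e (Polynomial.X) = Polynomial.X := by
  simp [shX]

theorem sh_C97 (e : σ → k) (a : k) : sh e (C a) = Polynomial.C (C a) := by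
  have h := (sh e).commutes a
  rw [MvPolynomial.algebraMap_eq] at h
  rw [h, IsScalarTower.algebraMap_apply k (MvPolynomial σ k) (Polynomial (MvPolynomial σ k)),
    MvPolynomial.algebraMap_eq, Polynomial.algebraMap_eq]

theorem sh_X97 (e : σ → k) (i : σ) :
    sh e (X i) = Polynomial.C (X i) + Polynomial.C (C (e i)) * Polynomial.X := by
  rw [sh, aeval_X]

theorem shX_shX (e : σ → k) : (shX (-e)).comp (shX e) = RingHom.id _ := by
  apply Polynomial.ringHom_ext'
  · apply MvPolynomial.ringHom_ext
    · intro a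
      simp only [RingHom.comp_apply, RingHom.id_apply]
      rw [shX_C, sh_C97, shX_C, sh_C97]
    · intro i
      simp only [RingHom.comp_apply, RingHom.id_apply]
      rw [shX_C, sh_X97, map_add, map_mul, shX_C, sh_X97, shX_C, sh_C97, shX_X, Pi.neg_apply,
        map_neg, map_neg]
      ring
  · simp only [RingHom.comp_apply, RingHom.id_apply]
    rw [shX_X, shX_X]

/-- the automorphism -/
def shE (e : σ → k) : Polynomial (MvPolynomial σ k) ≃+* Polynomial (MvPolynomial σ k) :=
  RingEquiv.ofRingHom (shX e) (shX (-e)) (by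
    have h := shX_shX (-e)
    rwa [neg_neg] at h) (shX_shX e)

theorem prime_sh (e : σ → k) {P : MvPolynomial σ k} (hP : Prime P) : Prime (sh e P) := by
  rw [← shX_C]
  exact (MulEquiv.prime_iff (shE e).toMulEquiv).2 (Polynomial.prime_C_iff.2 hP)

theorem sh_eval_zero (e : σ → k) (P : MvPolynomial σ k) :
    (sh e P).eval 0 = P := by
  have h : (Polynomial.evalRingHom (0 : MvPolynomial σ k)).comp (sh e).toRingHom =
      RingHom.id _ := by
    apply MvPolynomial.ringHom_ext
    · intro a
      simp only [RingHom.comp_apply, RingHom.id_apply, AlgHom.toRingHom_eq_coe, RingHom.coe_coe]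
      rw [sh_C97]
      simp
    · intro i
      simp only [RingHom.comp_apply, RingHom.id_apply, AlgHom.toRingHom_eq_coe, RingHom.coe_coe]
      rw [sh_X97]
      simp
  exact congrArg (fun f => f P) h

/-- the monic form of `B (x + s e)` -/
def beta (e : σ → k) (B : MvPolynomial σ k) : Polynomial (MvPolynomial σ k) :=
  Polynomial.C (C (eval e B)⁻¹) * sh e B

theorem sh_natDegree (e : σ → k) {B : MvPolynomial σ k} {b : ℕ} (hB : B.IsHomogeneous b)
    (he : eval e B ≠ 0) : (sh e B).natDegree = b := by
  apply Polynomial.natDegree_eq_of_le_of_coeff_ne_zero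
  · rw [Polynomial.natDegree_le_iff_coeff_eq_zero]
    intro j hj
    exact (sh_homS e hB j).2 hj
  · rw [sh_coeff_top e hB]
    intro h
    exact he (by simpa using h)

theorem beta_natDegree (e : σ → k) {B : MvPolynomial σ k} {b : ℕ} (hB : B.IsHomogeneous b)
    (he : eval e B ≠ 0) : (beta e B).natDegree = b := by
  rw [beta, Polynomial.natDegree_C_mul, sh_natDegree e hB he]
  intro h
  exact inv_ne_zero he (by simpa using h)

theorem beta_monic (e : σ → k) {B : MvPolynomial σ k} {b : ℕ} (hB : B.IsHomogeneous b)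
    (he : eval e B ≠ 0) : (beta e B).Monic := by
  rw [Polynomial.Monic, Polynomial.leadingCoeff, beta_natDegree e hB he, beta,
    Polynomial.coeff_C_mul, sh_coeff_top e hB, ← C_mul, inv_mul_cancel₀ he, C_1]

theorem beta_homS (e : σ → k) {B : MvPolynomial σ k} {b : ℕ} (hB : B.IsHomogeneous b) :
    HomS b (beta e B) := by
  have h := (HomS.C (isHomogeneous_C σ (eval e B)⁻¹)).mul (sh_homS e hB)
  rwa [zero_add] at h

theorem beta_unit (e : σ → k) {B : MvPolynomial σ k} (he : eval e B ≠ 0) :
    IsUnit (Polynomial.C (C (eval e B)⁻¹) : Polynomial (MvPolynomial σ k)) := by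
  have h : IsUnit (eval e B)⁻¹ := (inv_ne_zero he).isUnit
  exact (h.map (C : k →+* MvPolynomial σ k)).map Polynomial.C

theorem beta_prime (e : σ → k) {B : MvPolynomial σ k} (he : eval e B ≠ 0) (hB : Prime B) :
    Prime (beta e B) := by
  have h := prime_sh e hB
  have h2 : Associated (sh e B) (beta e B) := by
    obtain ⟨u, hu⟩ := beta_unit e he
    exact ⟨u, by rw [hu, beta, mul_comm]⟩
  exact h2.prime h

theorem dvd_of_beta_dvd (e : σ → k) {B T : MvPolynomial σ k}
    (h : beta e B ∣ sh e T) : B ∣ T := by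
  obtain ⟨Q, hQ⟩ := h
  have h1 := congrArg (Polynomial.eval 0) hQ
  rw [sh_eval_zero, beta, Polynomial.eval_mul, Polynomial.eval_mul, Polynomial.eval_C,
    sh_eval_zero] at h1
  exact ⟨C (eval e B)⁻¹ * Q.eval 0, by rw [h1]; ring⟩

theorem beta_dvd_iff (e : σ → k) {B : MvPolynomial σ k} (he : eval e B ≠ 0)
    (f : Polynomial (MvPolynomial σ k)) : beta e B ∣ f ↔ sh e B ∣ f := by
  obtain ⟨u, hu⟩ := beta_unit e he
  rw [beta, ← hu, Units.mul_left_dvd]

end

end Pool.Agent.Lib.MP_64d474_lc.S3
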