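import Mathlib

namespace Pool.Agent.Lib.MP_64d474_lc.S3.A92

open MvPolynomial

section Gen

variable {K : Type*} [Field K] {m : ℕ} {ι : Type*} [Fintype ι] [DecidableEq ι]

/-- the point of the generator with the seeds `(y i, z i)` -/
noncomputable def gpt {L : Type*} [CommRing L] [Algebra K L] (l : Fin m → Polynomial K)
    (y z : ι → L) (k : Fin m) : L := ∑ i, z i * Polynomial.aeval (y i) (l k)

/-- the generator as a homomorphism; the first summand is `y`, the second is `z` -/
noncomputable def gen (ι : Type*) [Fintype ι] (l : Fin m → Polynomial K) :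
    MvPolynomial (Fin m) K →ₐ[K] MvPolynomial (ι ⊕ ι) K :=
  aeval (gpt l (fun i => X (Sum.inl i)) (fun i => X (Sum.inr i)))

/-- evaluation at the seeds -/
noncomputable def ev {L : Type*} [CommRing L] [Algebra K L] (y z : ι → L) :
    MvPolynomial (ι ⊕ ι) K →ₐ[K] L := aeval (Sum.elim y z)

omit [Fintype ι] [DecidableEq ι] in
@[simp] theorem ev_inl {L : Type*} [CommRing L] [Algebra K L] (y z : ι → L) (i : ι) :
    ev (K := K) y z (X (Sum.inl i)) = y i := by simp [ev]

omit [Fintype ι] [DecidableEq ι] in
@[simp] theorem ev_inr {L : Type*} [CommRing L] [Algebra K L] (y z : ι → L) (i : ι) :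
    ev (K := K) y z (X (Sum.inr i)) = z i := by simp [ev]

omit [DecidableEq ι] in
theorem map_gpt {L M : Type*} [CommRing L] [Algebra K L] [CommRing M] [Algebra K M]
    (φ : L →ₐ[K] M) (l : Fin m → Polynomial K) (y z : ι → L) (k : Fin m) :
    φ (gpt l y z k) = gpt l (fun i => φ (y i)) (fun i => φ (z i)) k := by
  unfold gpt
  rw [map_sum]
  refine Finset.sum_congr rfl fun i _ => ?_
  rw [map_mul, Polynomial.aeval_algHom_apply]

omit [DecidableEq ι] in
theorem ev_gen {L : Type*} [CommRing L] [Algebra K L] (l : Fin m → Polynomial K)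
    (y z : ι → L) (P : MvPolynomial (Fin m) K) :
    ev y z (gen ι l P) = aeval (gpt l y z) P := by
  have h : (ev y z).comp (gen ι l) = aeval (gpt l y z) := by
    apply MvPolynomial.algHom_ext
    intro k
    simp only [AlgHom.comp_apply, gen, aeval_X]
    rw [map_gpt]
    simp
  rw [← h]; rfl

omit [Fintype ι] [DecidableEq ι] in
theorem comp_ev {L M : Type*} [CommRing L] [Algebra K L] [CommRing M] [Algebra K M]
    (φ : L →ₐ[K] M) (y z : ι → L) (g : MvPolynomial (ι ⊕ ι) K) :
    φ (ev y z g) = ev (fun i => φ (y i)) (fun i => φ (z i)) g := by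
  have h : φ.comp (ev y z) = ev (fun i => φ (y i)) (fun i => φ (z i)) := by
    apply MvPolynomial.algHom_ext
    intro k
    rcases k with i | i <;> simp
  rw [← h]; rfl

omit [Fintype ι] [DecidableEq ι] in
theorem ev_X (g : MvPolynomial (ι ⊕ ι) K) :
    ev (fun i => X (Sum.inl i)) (fun i => X (Sum.inr i)) g = g := by
  have h : (ev (fun i => X (Sum.inl i)) (fun i => X (Sum.inr i))) =
      AlgHom.id K (MvPolynomial (ι ⊕ ι) K) := by
    apply MvPolynomial.algHom_ext
    intro k
    rcases k with i | i <;> simp
  rw [h]; rfl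

/-! ### placements -/

/-- put the values `x k`, `k ∈ T`, at the seeds `p k` -/
def place {L : Type*} [CommRing L] (T : Finset (Fin m)) (p : Fin m → ι) (x : Fin m → L)
    (i : ι) : L := ∑ k ∈ T with p k = i, x k

omit [Fintype ι] in
theorem filter_single {T : Finset (Fin m)} {p : Fin m → ι} (hp : Set.InjOn p T)
    {k : Fin m} (hk : k ∈ T) : T.filter (fun j => p j = p k) = {k} := by
  ext j
  simp only [Finset.mem_filter, Finset.mem_singleton]
  constructor
  · rintro ⟨hj, h⟩; exact hp hj hk h
  · rintro rfl; exact ⟨hk, rfl⟩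

omit [Fintype ι] in
theorem place_apply {L : Type*} [CommRing L] {T : Finset (Fin m)} {p : Fin m → ι}
    (hp : Set.InjOn p T) (x : Fin m → L) {k : Fin m} (hk : k ∈ T) :
    place T p x (p k) = x k := by
  unfold place
  rw [filter_single hp hk, Finset.sum_singleton]

omit [Fintype ι] in
theorem place_of_notMem {L : Type*} [CommRing L] {T : Finset (Fin m)} {p : Fin m → ι}
    (x : Fin m → L) {i : ι} (hi : ∀ k ∈ T, p k ≠ i) : place T p x i = 0 := by
  unfold place
  rw [Finset.filter_false_of_mem (fun k hk => hi k hk), Finset.sum_empty]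

theorem gpt_place {L : Type*} [CommRing L] [Algebra K L] (l : Fin m → Polynomial K)
    {T : Finset (Fin m)} {p : Fin m → ι} (hp : Set.InjOn p T) (α x : Fin m → L) (j : Fin m) :
    gpt l (place T p α) (place T p x) j = ∑ k ∈ T, x k * Polynomial.aeval (α k) (l j) := by
  unfold gpt
  rw [← Finset.sum_fiberwise T p (fun k => x k * Polynomial.aeval (α k) (l j))]
  refine Finset.sum_congr rfl fun i _ => ?_
  rw [place, Finset.sum_mul]
  refine Finset.sum_congr rfl fun k hk => ?_
  rw [Finset.mem_filter] at hk
  rw [← hk.2, place_apply hp α hk.1]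

omit [Fintype ι] in
theorem injOn_update {T : Finset (Fin m)} {p : Fin m → ι}
    (hp : Set.InjOn p T) {k : Fin m} {q : ι} (hq : ∀ j ∈ T, p j ≠ q) :
    Set.InjOn (Function.update p k q) T := by
  intro a ha b hb hab
  by_cases h1 : a = k <;> by_cases h2 : b = k
  · rw [h1, h2]
  · subst h1
    rw [Function.update_self, Function.update_of_ne h2] at hab
    exact absurd hab.symm (hq b hb)
  · subst h2
    rw [Function.update_self, Function.update_of_ne h1] at hab
    exact absurd hab (hq a ha)
  · rw [Function.update_of_ne h1, Function.update_of_ne h2] at hab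
    exact hp ha hb hab

omit [Fintype ι] in
theorem place_update {L : Type*} [CommRing L] {T : Finset (Fin m)} {p : Fin m → ι}
    (hp : Set.InjOn p T) (x : Fin m → L) {k : Fin m} (hk : k ∈ T) {q : ι}
    (hq : ∀ j ∈ T, p j ≠ q) :
    place T (Function.update p k q) x
      = Function.update (Function.update (place T p x) (p k) 0) q (x k) := by
  have hp' : Set.InjOn (Function.update p k q) T := injOn_update hp hq
  funext i
  by_cases h1 : i = q
  · subst h1
    rw [Function.update_self]
    have := place_apply hp' x hk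
    rwa [Function.update_self] at this
  · rw [Function.update_of_ne h1]
    by_cases h2 : i = p k
    · subst h2
      rw [Function.update_self]
      apply place_of_notMem
      intro j hj
      by_cases h3 : j = k
      · subst h3; rw [Function.update_self]; exact fun h => h1 h.symm
      · rw [Function.update_of_ne h3]; exact fun h => h3 (hp hj hk h)
    · rw [Function.update_of_ne h2]
      by_cases h3 : ∃ j ∈ T, p j = i
      · obtain ⟨j, hj, rfl⟩ := h3
        have h4 : j ≠ k := fun h => h2 (by rw [h])
        rw [place_apply hp x hj]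
        have := place_apply hp' x hj
        rwa [Function.update_of_ne h4] at this
      · push Not at h3
        rw [place_of_notMem x h3, place_of_notMem x]
        intro j hj
        by_cases h4 : j = k
        · subst h4; rw [Function.update_self]; exact fun h => h1 h.symm
        · rw [Function.update_of_ne h4]; exact h3 j hj

/-! ### restriction to coordinate subspaces -/

/-- `x k ↦ 0` for `k ∉ T` -/
noncomputable def restr (T : Finset (Fin m)) :
    MvPolynomial (Fin m) K →ₐ[K] MvPolynomial (Fin m) K :=
  aeval (fun k => if k ∈ T then X k else 0)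

theorem restr_monomial (T : Finset (Fin m)) (b : Fin m →₀ ℕ) (c : K) :
    restr T (monomial b c) = if b.support ⊆ T then monomial b c else 0 := by
  unfold restr
  rw [aeval_monomial]
  by_cases h : b.support ⊆ T
  · rw [if_pos h, monomial_eq]
    congr 1
    refine Finset.prod_congr rfl fun k hk => ?_
    simp [h hk]
  · rw [if_neg h]
    rw [Finset.not_subset] at h
    obtain ⟨k, hk, hkT⟩ := h
    have : b.prod (fun i n => (if i ∈ T then (X i : MvPolynomial (Fin m) K) else 0) ^ n) = 0 := by
      apply Finset.prod_eq_zero hk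
      simp only [if_neg hkT]
      exact zero_pow (Finsupp.mem_support_iff.mp hk)
    rw [this, mul_zero]

theorem coeff_restr (T : Finset (Fin m)) (b : Fin m →₀ ℕ) (F : MvPolynomial (Fin m) K) :
    coeff b (restr T F) = if b.support ⊆ T then coeff b F else 0 := by
  induction F using MvPolynomial.induction_on' with
  | monomial u c =>
    rw [restr_monomial, coeff_monomial]
    by_cases hub : u = b
    · subst hub
      by_cases h : u.support ⊆ T
      · simp [h]
      · simp [h]
    · by_cases h : u.support ⊆ T
      · simp [h, hub]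
      · simp [h, hub]
  | add p q hp hq =>
    rw [map_add, coeff_add, coeff_add, hp, hq]
    split_ifs <;> simp

/-! ### evaluation at a placement -/

/-- the multipliers `c k = l k (a k)` -/
noncomputable def scl (l : Fin m → Polynomial K) (a : Fin m → K) :
    MvPolynomial (Fin m) K →ₐ[K] MvPolynomial (Fin m) K :=
  aeval (fun k => C ((l k).eval (a k)) * X k)

/-- evaluation at the placement `p` of the labels of `T` -/
noncomputable def evp (a : Fin m → K) (T : Finset (Fin m)) (p : Fin m → ι) :
    MvPolynomial (ι ⊕ ι) K →ₐ[K] MvPolynomial (Fin m) K :=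
  ev (place T p (fun k => C (a k))) (place T p X)

theorem evp_gen (l : Fin m → Polynomial K) (a : Fin m → K)
    (hl : ∀ j k, j ≠ k → (l k).eval (a j) = 0)
    {T : Finset (Fin m)} {p : Fin m → ι} (hp : Set.InjOn p T) (P : MvPolynomial (Fin m) K) :
    evp a T p (gen ι l P) = restr T (scl l a P) := by
  unfold evp
  rw [ev_gen]
  have h : (aeval (gpt l (place T p (fun k => C (a k))) (place T p X)) :
      MvPolynomial (Fin m) K →ₐ[K] MvPolynomial (Fin m) K) = (restr T).comp (scl l a) := by
    apply MvPolynomial.algHom_ext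
    intro j
    rw [aeval_X, gpt_place l hp]
    simp only [AlgHom.comp_apply, scl, aeval_X, map_mul, restr, algHom_C, algebraMap_eq]
    have h2 : ∀ k, (Polynomial.aeval (C (a k) : MvPolynomial (Fin m) K)) (l j)
        = C ((l j).eval (a k)) := by
      intro k
      have := Polynomial.aeval_algebraMap_apply (MvPolynomial (Fin m) K) (a k) (l j)
      rw [algebraMap_eq] at this
      rw [this, Polynomial.coe_aeval_eq_eval]
    simp only [h2]
    by_cases hj : j ∈ T
    · rw [if_pos hj, Finset.sum_eq_single j]
      · rw [mul_comm]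
      · intro k _ hkj
        rw [hl k j hkj, C_0, mul_zero]
      · intro h; exact absurd hj h
    · rw [if_neg hj, mul_zero]
      apply Finset.sum_eq_zero
      intro k hk
      have : k ≠ j := fun h => hj (h ▸ hk)
      rw [hl k j this, C_0, mul_zero]
  rw [h]; rfl

theorem scl_inv (l : Fin m → Polynomial K) (a : Fin m → K)
    (hl0 : ∀ k, (l k).eval (a k) ≠ 0) (P : MvPolynomial (Fin m) K) :
    scl (fun k => Polynomial.C (((l k).eval (a k))⁻¹)) a (scl l a P) = P := by
  have h : (scl (fun k => Polynomial.C (((l k).eval (a k))⁻¹)) a).comp (scl l a)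
      = AlgHom.id K _ := by
    apply MvPolynomial.algHom_ext
    intro k
    simp only [AlgHom.comp_apply, scl, aeval_X, map_mul, algHom_C, algebraMap_eq,
      Polynomial.eval_C, AlgHom.id_apply]
    rw [← mul_assoc, ← C_mul, mul_inv_cancel₀ (hl0 k), C_1, one_mul]
  rw [← AlgHom.comp_apply, h]; rfl

theorem scl_inv' (l : Fin m → Polynomial K) (a : Fin m → K)
    (hl0 : ∀ k, (l k).eval (a k) ≠ 0) (P : MvPolynomial (Fin m) K) :
    scl l a (scl (fun k => Polynomial.C (((l k).eval (a k))⁻¹)) a P) = P := by
  have h : (scl l a).comp (scl (fun k => Polynomial.C (((l k).eval (a k))⁻¹)) a)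
      = AlgHom.id K _ := by
    apply MvPolynomial.algHom_ext
    intro k
    simp only [AlgHom.comp_apply, scl, aeval_X, map_mul, algHom_C, algebraMap_eq,
      Polynomial.eval_C, AlgHom.id_apply]
    rw [← mul_assoc, ← C_mul, inv_mul_cancel₀ (hl0 k), C_1, one_mul]
  rw [← AlgHom.comp_apply, h]; rfl

theorem scl_homog (l : Fin m → Polynomial K) (a : Fin m → K) {n : ℕ}
    {P : MvPolynomial (Fin m) K} (hP : P.IsHomogeneous n) : (scl l a P).IsHomogeneous n := by
  unfold scl
  have := hP.eval₂ (C : K →+* MvPolynomial (Fin m) K)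
    (fun k => C ((l k).eval (a k)) * X k) (n := 1)
    (fun r => isHomogeneous_C _ r) (fun k => by
      simpa using (isHomogeneous_C (Fin m) ((l k).eval (a k))).mul (isHomogeneous_X K k))
  rw [one_mul] at this
  rw [aeval_def, algebraMap_eq]
  exact this

theorem coeff_scl (l : Fin m → Polynomial K) (a : Fin m → K) (b : Fin m →₀ ℕ)
    (F : MvPolynomial (Fin m) K) :
    coeff b (scl l a F) = (b.prod fun k n => ((l k).eval (a k)) ^ n) * coeff b F := by
  induction F using MvPolynomial.induction_on' with
  | monomial u c =>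
    have h : scl l a (monomial u c)
        = monomial u ((u.prod fun k n => ((l k).eval (a k)) ^ n) * c) := by
      unfold scl
      rw [aeval_monomial, monomial_eq, algebraMap_eq, C_mul]
      simp only [mul_pow, Finsupp.prod_mul]
      rw [map_finsuppProd]
      simp only [map_pow]
      ring
    rw [h, coeff_monomial, coeff_monomial]
    by_cases hub : u = b
    · subst hub; simp
    · simp [hub]
  | add p q hp hq =>
    rw [map_add, coeff_add, coeff_add, hp, hq, mul_add]

/-! ### the generator hits -/

theorem exists_placement [Nonempty ι] {T : Finset (Fin m)} (hT : T.card ≤ Fintype.card ι) :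
    ∃ p : Fin m → ι, Set.InjOn p T := by
  obtain ⟨f⟩ : Nonempty (T ↪ ι) := by
    apply Function.Embedding.nonempty_of_card_le
    simpa using hT
  classical
  refine ⟨fun k => if hk : k ∈ T then f ⟨k, hk⟩ else Classical.arbitrary ι, ?_⟩
  intro x hx y hy hxy
  have hx' : x ∈ T := hx
  have hy' : y ∈ T := hy
  simp only [hx', hy', dif_pos] at hxy
  exact congrArg Subtype.val (f.injective hxy)

theorem exists_placement_ne {T : Finset (Fin m)} (hT : T.card < Fintype.card ι) (j : ι) :
    ∃ p : Fin m → ι, Set.InjOn p T ∧ ∀ k ∈ T, p k ≠ j := by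
  by_cases hne : T = ∅
  · subst hne
    exact ⟨fun _ => j, by simp, by simp⟩
  obtain ⟨f⟩ : Nonempty (T ↪ {i : ι // i ≠ j}) := by
    apply Function.Embedding.nonempty_of_card_le
    have : Fintype.card {i : ι // i ≠ j} = Fintype.card ι - 1 := by
      rw [Fintype.card_subtype_compl, Fintype.card_subtype_eq]
    rw [this]
    simp only [Fintype.card_coe]
    omega
  obtain ⟨k0, hk0⟩ := Finset.nonempty_iff_ne_empty.mpr hne
  classical
  refine ⟨fun k => if hk : k ∈ T then (f ⟨k, hk⟩ : ι) else j, ?_, ?_⟩
  · intro x hx y hy hxy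
    have hx' : x ∈ T := hx
    have hy' : y ∈ T := hy
    simp only [hx', hy', dif_pos] at hxy
    exact congrArg Subtype.val (f.injective (Subtype.ext hxy))
  · intro k hk
    simp only [hk, dif_pos]
    exact (f ⟨k, hk⟩).2

/-- hypotheses on the nodes -/
structure Nodes (l : Fin m → Polynomial K) (a : Fin m → K) : Prop where
  off : ∀ j k, j ≠ k → (l k).eval (a j) = 0
  on : ∀ k, (l k).eval (a k) ≠ 0

theorem restr_scl_ne_zero {l : Fin m → Polynomial K} {a : Fin m → K} (hla : Nodes l a)
    {P : MvPolynomial (Fin m) K} {b : Fin m →₀ ℕ} (hb : b ∈ P.support) {T : Finset (Fin m)}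
    (hT : b.support ⊆ T) : restr T (scl l a P) ≠ 0 := by
  intro h
  have h2 : coeff b (restr T (scl l a P)) = 0 := by rw [h, coeff_zero]
  rw [coeff_restr, if_pos hT, coeff_scl] at h2
  rcases mul_eq_zero.mp h2 with h3 | h3
  · rw [Finsupp.prod, Finset.prod_eq_zero_iff] at h3
    obtain ⟨k, _, hk⟩ := h3
    exact hla.on k (eq_zero_of_pow_eq_zero hk)
  · exact (mem_support_iff.mp hb) h3

/-- `gen` with one seed switched off is not zero -/
theorem gen_off_ne_zero {l : Fin m → Polynomial K} {a : Fin m → K} (hla : Nodes l a)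
    {P : MvPolynomial (Fin m) K} (hP : P ≠ 0)
    (hs : ∀ b ∈ P.support, b.support.card < Fintype.card ι) (j : ι) :
    ev (fun i => X (Sum.inl i)) (Function.update (fun i => X (Sum.inr i)) j 0) (gen ι l P)
      ≠ (0 : MvPolynomial (ι ⊕ ι) K) := by
  obtain ⟨b, hb⟩ := (support_nonempty (p := P)).mpr hP
  obtain ⟨p, hp, hpj⟩ := exists_placement_ne (hs b hb) j
  intro h
  have h2 := congrArg (evp a b.support p) h
  rw [map_zero] at h2
  unfold evp at h2
  rw [comp_ev] at h2
  have h3 : (fun i => (ev (K := K) (place b.support p fun k => C (a k)) (place b.support p X))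
      (Function.update (fun i => X (Sum.inr i)) j (0 : MvPolynomial (ι ⊕ ι) K) i))
      = place b.support p (X : Fin m → MvPolynomial (Fin m) K) := by
    funext i
    by_cases hi : i = j
    · subst hi
      rw [Function.update_self, map_zero, place_of_notMem X hpj]
    · rw [Function.update_of_ne hi, ev_inr]
  rw [h3] at h2
  simp only [ev_inl] at h2
  have h4 := evp_gen l a hla.off hp P
  unfold evp at h4
  rw [h4] at h2
  exact restr_scl_ne_zero hla hb (Finset.Subset.refl _) h2

theorem gen_ne_zero {l : Fin m → Polynomial K} {a : Fin m → K} (hla : Nodes l a)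
    [Nonempty ι] {P : MvPolynomial (Fin m) K} (hP : P ≠ 0)
    (hs : ∀ b ∈ P.support, b.support.card ≤ Fintype.card ι) : gen ι l P ≠ 0 := by
  obtain ⟨b, hb⟩ := (support_nonempty (p := P)).mpr hP
  obtain ⟨p, hp⟩ := exists_placement (ι := ι) (hs b hb)
  intro h
  have h2 := congrArg (evp a b.support p) h
  rw [map_zero, evp_gen l a hla.off hp P] at h2
  exact restr_scl_ne_zero hla hb (Finset.Subset.refl _) h2

/-! ### divisors do not see what the generator does not see -/

theorem const_of_dvd_C {R : Type*} [CommRing R] [IsDomain R] {G : Polynomial R} {f : R}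
    (hf : f ≠ 0) (h : G ∣ Polynomial.C f) : ∃ r, G = Polynomial.C r := by
  have h1 : Polynomial.C f ≠ 0 := by simpa using hf
  have h2 := Polynomial.natDegree_le_of_dvd h h1
  rw [Polynomial.natDegree_C, Nat.le_zero] at h2
  exact ⟨_, Polynomial.eq_C_of_natDegree_eq_zero h2⟩

/-- evaluate a polynomial over the seed ring -/
noncomputable def evV {L : Type*} [CommRing L] [Algebra K L] (y z : ι → L) (v : L) :
    Polynomial (MvPolynomial (ι ⊕ ι) K) →ₐ[K] L :=
  Polynomial.eval₂AlgHom (ev y z) v (fun _ => Commute.all _ _)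

omit [Fintype ι] [DecidableEq ι] in
@[simp] theorem evV_C {L : Type*} [CommRing L] [Algebra K L] (y z : ι → L) (v : L)
    (g : MvPolynomial (ι ⊕ ι) K) : evV y z v (Polynomial.C g) = ev y z g := by
  simp [evV]

omit [Fintype ι] [DecidableEq ι] in
@[simp] theorem evV_X {L : Type*} [CommRing L] [Algebra K L] (y z : ι → L) (v : L) :
    evV (K := K) y z v Polynomial.X = v := by
  simp [evV]


theorem ev_congr_gpt {L : Type*} [CommRing L] [Algebra K L] (l : Fin m → Polynomial K)
    {y z y' z' : ι → L} (h : ∀ k, gpt l y z k = gpt l y' z' k) (P : MvPolynomial (Fin m) K) :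
    ev y z (gen ι l P) = ev y' z' (gen ι l P) := by
  rw [ev_gen, ev_gen]
  have : gpt l y z = gpt l y' z' := funext h
  rw [this]

theorem off_indep {l : Fin m → Polynomial K} {a : Fin m → K} (hla : Nodes l a)
    {P : MvPolynomial (Fin m) K} (hP : P ≠ 0)
    (hs : ∀ b ∈ P.support, b.support.card < Fintype.card ι)
    {g : MvPolynomial (ι ⊕ ι) K} (hg : g ∣ gen ι l P)
    {L : Type*} [CommRing L] [Algebra K L] (y z : ι → L) (j : ι) (hj : z j = 0) (v : L) :
    ev (Function.update y j v) z g = ev y z g := by
  set y1 : ι → Polynomial (MvPolynomial (ι ⊕ ι) K) :=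
    Function.update (fun i => Polynomial.C ((X (Sum.inl i) : MvPolynomial (ι ⊕ ι) K))) j Polynomial.X with hy1
  set z1 : ι → Polynomial (MvPolynomial (ι ⊕ ι) K) :=
    Function.update (fun i => Polynomial.C ((X (Sum.inr i) : MvPolynomial (ι ⊕ ι) K))) j 0 with hz1
  have h1 : ev y1 z1 (gen ι l P)
      = Polynomial.C (ev (fun i => (X (Sum.inl i) : MvPolynomial (ι ⊕ ι) K)) (Function.update (fun i => (X (Sum.inr i) : MvPolynomial (ι ⊕ ι) K)) j 0) (gen ι l P)) := by
    have h2 : Polynomial.C (ev (fun i => (X (Sum.inl i) : MvPolynomial (ι ⊕ ι) K)) (Function.update (fun i => (X (Sum.inr i) : MvPolynomial (ι ⊕ ι) K)) j 0) (gen ι l P))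
        = (Polynomial.CAlgHom : MvPolynomial (ι ⊕ ι) K →ₐ[K] _)
            (ev (fun i => (X (Sum.inl i) : MvPolynomial (ι ⊕ ι) K)) (Function.update (fun i => (X (Sum.inr i) : MvPolynomial (ι ⊕ ι) K)) j 0) (gen ι l P)) := rfl
    rw [h2, comp_ev]
    apply ev_congr_gpt
    intro k
    unfold gpt
    refine Finset.sum_congr rfl fun i _ => ?_
    by_cases hi : i = j
    · subst hi
      simp [hz1]
    · simp [hy1, hz1, Function.update_of_ne hi]
  obtain ⟨r, hr⟩ := const_of_dvd_C (gen_off_ne_zero hla hP hs j)
    (h1 ▸ (map_dvd (ev y1 z1) hg))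
  have key : ∀ w : L, ev (Function.update y j w) z g = ev y z r := by
    intro w
    have h3 := congrArg (evV y z w) hr
    rw [evV_C, comp_ev] at h3
    rw [← h3]
    congr 2
    · funext i
      by_cases hi : i = j
      · subst hi; simp [hy1]
      · simp [hy1, Function.update_of_ne hi]
    · funext i
      by_cases hi : i = j
      · subst hi; simp [hz1, hj]
      · simp [hz1, Function.update_of_ne hi]
  rw [key v, ← key (y j), Function.update_eq_self]

theorem off_indep' {l : Fin m → Polynomial K} {a : Fin m → K} (hla : Nodes l a)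
    {P : MvPolynomial (Fin m) K} (hP : P ≠ 0)
    (hs : ∀ b ∈ P.support, b.support.card < Fintype.card ι)
    {g : MvPolynomial (ι ⊕ ι) K} (hg : g ∣ gen ι l P)
    {L : Type*} [CommRing L] [Algebra K L] (y y' z : ι → L)
    (h : ∀ j, y j = y' j ∨ z j = 0) :
    ev y' z g = ev y z g := by
  have key : ∀ J : Finset ι, ev (fun j => if j ∈ J then y' j else y j) z g = ev y z g := by
    intro J
    induction J using Finset.induction_on with
    | empty => simp
    | insert j J hj ih =>
      have h1 : (fun i => if i ∈ insert j J then y' i else y i)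
          = Function.update (fun i => if i ∈ J then y' i else y i) j (y' j) := by
        funext i
        by_cases hi : i = j
        · subst hi; simp
        · simp [hi]
      rcases h j with h2 | h2
      · rw [← ih]
        congr 2
        funext i
        by_cases hi : i = j
        · subst hi; simp [hj, h2]
        · simp [hi]
      · rw [h1, off_indep hla hP hs hg _ _ j h2, ih]
  have := key Finset.univ
  simpa using this

theorem sum_split {R : Type*} [AddCommMonoid R] {i j : ι} (hij : i ≠ j) (F : ι → R) :
    ∑ t, F t = F i + F j + ∑ t ∈ (Finset.univ \ {i, j}), F t := by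
  rw [← Finset.sum_pair hij, add_comm]
  exact (Finset.sum_sdiff (Finset.subset_univ _)).symm

theorem merge_indep {l : Fin m → Polynomial K} {a : Fin m → K} (hla : Nodes l a)
    {P : MvPolynomial (Fin m) K} (hP : P ≠ 0)
    (hs : ∀ b ∈ P.support, b.support.card < Fintype.card ι)
    {g : MvPolynomial (ι ⊕ ι) K} (hg : g ∣ gen ι l P)
    {L : Type*} [CommRing L] [Algebra K L] (y z : ι → L) {i j : ι} (hij : i ≠ j)
    (hy : y j = y i) (hj : z j = 0) :
    ev y (Function.update (Function.update z i 0) j (z i)) g = ev y z g := by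
  set y1 : ι → Polynomial (MvPolynomial (ι ⊕ ι) K) :=
    Function.update (fun t => Polynomial.C ((X (Sum.inl t) : MvPolynomial (ι ⊕ ι) K))) j (Polynomial.C ((X (Sum.inl i) : MvPolynomial (ι ⊕ ι) K))) with hy1
  set z1 : ι → Polynomial (MvPolynomial (ι ⊕ ι) K) :=
    Function.update (Function.update (fun t => Polynomial.C ((X (Sum.inr t) : MvPolynomial (ι ⊕ ι) K))) i
      (Polynomial.C ((X (Sum.inr i) : MvPolynomial (ι ⊕ ι) K)) * (1 - Polynomial.X))) j (Polynomial.C ((X (Sum.inr i) : MvPolynomial (ι ⊕ ι) K)) * Polynomial.X) with hz1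
  have h1 : ev y1 z1 (gen ι l P)
      = Polynomial.C (ev (fun i => (X (Sum.inl i) : MvPolynomial (ι ⊕ ι) K)) (Function.update (fun i => (X (Sum.inr i) : MvPolynomial (ι ⊕ ι) K)) j 0) (gen ι l P)) := by
    have h2 : Polynomial.C (ev (fun i => (X (Sum.inl i) : MvPolynomial (ι ⊕ ι) K)) (Function.update (fun i => (X (Sum.inr i) : MvPolynomial (ι ⊕ ι) K)) j 0) (gen ι l P))
        = (Polynomial.CAlgHom : MvPolynomial (ι ⊕ ι) K →ₐ[K] _)
            (ev (fun i => (X (Sum.inl i) : MvPolynomial (ι ⊕ ι) K)) (Function.update (fun i => (X (Sum.inr i) : MvPolynomial (ι ⊕ ι) K)) j 0) (gen ι l P)) := rfl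
    rw [h2, comp_ev]
    apply ev_congr_gpt
    intro k
    unfold gpt
    rw [sum_split hij, sum_split hij]
    congr 1
    · simp [hy1, hz1, Function.update_of_ne hij]
      ring
    · refine Finset.sum_congr rfl fun t ht => ?_
      simp only [Finset.mem_sdiff, Finset.mem_univ, true_and, Finset.mem_insert,
        Finset.mem_singleton, not_or] at ht
      simp [hy1, hz1, Function.update_of_ne ht.1, Function.update_of_ne ht.2]
  obtain ⟨r, hr⟩ := const_of_dvd_C (gen_off_ne_zero hla hP hs j)
    (h1 ▸ (map_dvd (ev y1 z1) hg))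
  have key : ∀ w : L, ev y (Function.update (Function.update z i (z i * (1 - w))) j (z i * w)) g
      = ev y z r := by
    intro w
    have h3 := congrArg (evV y z w) hr
    rw [evV_C, comp_ev] at h3
    rw [← h3]
    congr 2
    · funext t
      by_cases ht : t = j
      · subst ht; simp [hy1, hy]
      · simp [hy1, Function.update_of_ne ht]
    · funext t
      by_cases ht : t = j
      · subst ht; simp [hz1]
      · by_cases ht' : t = i
        · subst ht'; simp [hz1, Function.update_of_ne ht]
        · simp [hz1, Function.update_of_ne ht, Function.update_of_ne ht']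
  have k0 := key 0
  have k1 := key 1
  simp only [sub_zero, mul_one, sub_self, mul_zero, Function.update_eq_self] at k0 k1
  rw [k1, ← k0]
  congr 2
  rw [← hj, Function.update_eq_self]

theorem move {l : Fin m → Polynomial K} {a : Fin m → K} (hla : Nodes l a)
    {P : MvPolynomial (Fin m) K} (hP : P ≠ 0)
    (hs : ∀ b ∈ P.support, b.support.card < Fintype.card ι)
    {g : MvPolynomial (ι ⊕ ι) K} (hg : g ∣ gen ι l P)
    {L : Type*} [CommRing L] [Algebra K L] (y z : ι → L) {i j : ι} (hij : i ≠ j)
    (hj : z j = 0) :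
    ev (Function.update (Function.update y i 0) j (y i))
      (Function.update (Function.update z i 0) j (z i)) g = ev y z g := by
  have h1 := off_indep hla hP hs hg y z j hj (y i)
  have h2 := merge_indep hla hP hs hg (Function.update y j (y i)) z hij
    (by rw [Function.update_self, Function.update_of_ne hij]) hj
  have h3 := off_indep hla hP hs hg (Function.update y j (y i))
    (Function.update (Function.update z i 0) j (z i)) i
    (by rw [Function.update_of_ne hij, Function.update_self]) 0
  rw [Function.update_comm hij.symm] at h3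
  rw [h3, h2, h1]

/-! ### independence of the placement -/

theorem conn {β : Type*} (F : (Fin m → ι) → β) (T : Finset (Fin m))
    (hT : T.card < Fintype.card ι)
    (hmove : ∀ (p : Fin m → ι) (k : Fin m) (q : ι), Set.InjOn p T → k ∈ T →
      (∀ j ∈ T, p j ≠ q) → F (Function.update p k q) = F p)
    (hcongr : ∀ p p' : Fin m → ι, (∀ k ∈ T, p k = p' k) → F p = F p') :
    ∀ (n : ℕ) (p p' : Fin m → ι), Set.InjOn p T → Set.InjOn p' T →
      (T.filter (fun k => p k ≠ p' k)).card ≤ n → F p = F p' := by
  intro n
  induction n with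
  | zero =>
    intro p p' _ _ h
    apply hcongr
    intro k hk
    by_contra hne
    have : k ∈ T.filter (fun k => p k ≠ p' k) := by simp [hk, hne]
    rw [Nat.le_zero, Finset.card_eq_zero] at h
    rw [h] at this
    simp at this
  | succ n ih =>
    intro p p' hp hp' h
    by_cases hall : ∀ k ∈ T, p k = p' k
    · exact hcongr p p' hall
    push Not at hall
    obtain ⟨k, hk, hkne⟩ := hall
    by_cases hocc : ∃ k' ∈ T, p k' = p' k
    · obtain ⟨k', hk', hkk'⟩ := hocc
      have hk'k : k' ≠ k := fun h => hkne (h ▸ hkk')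
      obtain ⟨q, hq⟩ : ∃ q : ι, ∀ j ∈ T, p j ≠ q := by
        by_contra hcon
        push Not at hcon
        have h1 : Fintype.card ι ≤ (T.image p).card := by
          rw [← Finset.card_univ]
          apply Finset.card_le_card
          intro q _
          obtain ⟨j, hj, hjq⟩ := hcon q
          exact Finset.mem_image.mpr ⟨j, hj, hjq⟩
        have h2 := Finset.card_image_le (s := T) (f := p)
        omega
      set p1 := Function.update p k' q with hp1
      have hp1i : Set.InjOn p1 T := injOn_update hp hq
      have hfree : ∀ j ∈ T, p1 j ≠ p' k := by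
        intro j hj
        by_cases hjk : j = k'
        · subst hjk
          rw [hp1, Function.update_self]
          intro h3
          exact hq _ hj (hkk'.trans h3.symm)
        · rw [hp1, Function.update_of_ne hjk, ← hkk']
          intro h3
          exact hjk (hp hj hk' h3)
      have hp2i : Set.InjOn (Function.update p1 k (p' k)) T := injOn_update hp1i hfree
      have h4 := hmove p1 k (p' k) hp1i hk hfree
      have h5 := hmove p k' q hp hk' hq
      rw [← h5, ← h4]
      apply ih _ _ hp2i hp'
      have hsub : T.filter (fun j => Function.update p1 k (p' k) j ≠ p' j)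
          ⊆ (T.filter (fun j => p j ≠ p' j)).erase k := by
        intro j hj
        simp only [Finset.mem_filter] at hj
        rw [Finset.mem_erase, Finset.mem_filter]
        have hjk : j ≠ k := by
          intro h6
          rw [h6, Function.update_self] at hj
          exact hj.2 rfl
        refine ⟨hjk, hj.1, ?_⟩
        by_cases hjk' : j = k'
        · subst hjk'
          intro h6
          exact hjk (hp' hj.1 hk (h6.symm.trans hkk'))
        · have := hj.2
          rwa [Function.update_of_ne hjk, hp1, Function.update_of_ne hjk'] at this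
      have hmem : k ∈ T.filter (fun j => p j ≠ p' j) := by simp [hk, hkne]
      have := Finset.card_le_card hsub
      rw [Finset.card_erase_of_mem hmem] at this
      omega
    · push Not at hocc
      have h4 := hmove p k (p' k) hp hk hocc
      rw [← h4]
      apply ih _ _ (injOn_update hp hocc) hp'
      have hsub : T.filter (fun j => Function.update p k (p' k) j ≠ p' j)
          ⊆ (T.filter (fun j => p j ≠ p' j)).erase k := by
        intro j hj
        simp only [Finset.mem_filter] at hj
        rw [Finset.mem_erase, Finset.mem_filter]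
        have hjk : j ≠ k := by
          intro h6
          rw [h6, Function.update_self] at hj
          exact hj.2 rfl
        refine ⟨hjk, hj.1, ?_⟩
        have := hj.2
        rwa [Function.update_of_ne hjk] at this
      have hmem : k ∈ T.filter (fun j => p j ≠ p' j) := by simp [hk, hkne]
      have := Finset.card_le_card hsub
      rw [Finset.card_erase_of_mem hmem] at this
      omega

theorem evp_indep {l : Fin m → Polynomial K} {a : Fin m → K} (hla : Nodes l a)
    {P : MvPolynomial (Fin m) K} (hP : P ≠ 0)
    (hs : ∀ b ∈ P.support, b.support.card < Fintype.card ι)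
    {g : MvPolynomial (ι ⊕ ι) K} (hg : g ∣ gen ι l P)
    {T : Finset (Fin m)} (hT : T.card < Fintype.card ι) {p p' : Fin m → ι}
    (hp : Set.InjOn p T) (hp' : Set.InjOn p' T) : evp a T p g = evp a T p' g := by
  apply conn (fun p => evp a T p g) T hT ?_ ?_ _ p p' hp hp' le_rfl
  · intro p k q hp hk hq
    show evp a T (Function.update p k q) g = evp a T p g
    unfold evp
    rw [place_update hp _ hk hq, place_update hp _ hk hq]
    have h1 := move hla hP hs hg (place T p fun k => (C (a k) : MvPolynomial (Fin m) K))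
      (place T p X) (i := p k) (j := q) (hq k hk) (place_of_notMem X hq)
    rw [place_apply hp _ hk, place_apply hp _ hk] at h1
    exact h1
  · intro p p' h
    show evp a T p g = evp a T p' g
    unfold evp
    have h1 : ∀ x : Fin m → MvPolynomial (Fin m) K, place T p x = place T p' x := by
      intro x
      funext i
      unfold place
      congr 1
      exact Finset.filter_congr (fun k hk => by rw [h k hk])
    rw [h1, h1]

theorem restr_evp {l : Fin m → Polynomial K} {a : Fin m → K} (hla : Nodes l a)
    {P : MvPolynomial (Fin m) K} (hP : P ≠ 0)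
    (hs : ∀ b ∈ P.support, b.support.card < Fintype.card ι)
    {g : MvPolynomial (ι ⊕ ι) K} (hg : g ∣ gen ι l P)
    {T T' : Finset (Fin m)} (hTT : T' ⊆ T) {p : Fin m → ι} (hp : Set.InjOn p T) :
    restr T' (evp a T p g) = evp a T' p g := by
  unfold evp
  rw [comp_ev]
  have h1 : (fun i => restr T' (place T p (fun k => (C (a k) : MvPolynomial (Fin m) K)) i))
      = place T p (fun k => C (a k)) := by
    funext i
    unfold place
    rw [map_sum]
    refine Finset.sum_congr rfl fun k _ => ?_
    unfold restr
    rw [algHom_C, algebraMap_eq]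
  have h2 : (fun i => restr T' (place T p (X : Fin m → MvPolynomial (Fin m) K) i))
      = place T' p X := by
    funext i
    unfold place
    rw [map_sum]
    have : T'.filter (fun k => p k = i) = (T.filter (fun k => p k = i)).filter (· ∈ T') := by
      ext k
      simp only [Finset.mem_filter]
      constructor
      · rintro ⟨h3, h4⟩; exact ⟨⟨hTT h3, h4⟩, h3⟩
      · rintro ⟨⟨_, h4⟩, h3⟩; exact ⟨h3, h4⟩
    rw [this, Finset.sum_filter (p := (· ∈ T'))]
    refine Finset.sum_congr rfl fun k _ => ?_
    unfold restr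
    rw [aeval_X]
  rw [h1, h2]
  symm
  apply off_indep' hla hP hs hg
  intro j
  have hp' : Set.InjOn p T' := hp.mono (by exact_mod_cast hTT)
  by_cases hj : ∃ k ∈ T', p k = j
  · obtain ⟨k, hk, rfl⟩ := hj
    left
    rw [place_apply hp _ (hTT hk), place_apply hp' _ hk]
  · push Not at hj
    right
    exact place_of_notMem X hj

/-! ### homogeneity in `z` -/

theorem monomial_of_mul {R : Type*} [CommRing R] [IsDomain R] {G H : Polynomial R} {f : R}
    {n : ℕ} (hf : f ≠ 0) (h : G * H = Polynomial.C f * Polynomial.X ^ n) :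
    ∃ (r s : R) (i j : ℕ), G = Polynomial.C r * Polynomial.X ^ i ∧
      H = Polynomial.C s * Polynomial.X ^ j ∧ i + j = n := by
  have h0 : Polynomial.C f * Polynomial.X ^ n ≠ 0 :=
    mul_ne_zero (by simpa using hf) (pow_ne_zero _ Polynomial.X_ne_zero)
  have hG : G ≠ 0 := by rintro rfl; rw [zero_mul] at h; exact h0 h.symm
  have hH : H ≠ 0 := by rintro rfl; rw [mul_zero] at h; exact h0 h.symm
  have d1 : G.natDegree + H.natDegree = n := by
    rw [← Polynomial.natDegree_mul hG hH, h, Polynomial.natDegree_C_mul_X_pow n f hf]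
  have d2 : G.natTrailingDegree + H.natTrailingDegree = n := by
    rw [← Polynomial.natTrailingDegree_mul hG hH, h, Polynomial.C_mul_X_pow_eq_monomial,
      Polynomial.natTrailingDegree_monomial hf]
  have e1 := Polynomial.natTrailingDegree_le_natDegree G
  have e2 := Polynomial.natTrailingDegree_le_natDegree H
  have key : ∀ F : Polynomial R, F.natTrailingDegree = F.natDegree →
      F = Polynomial.C F.leadingCoeff * Polynomial.X ^ F.natDegree := by
    intro F hF
    ext t
    rw [Polynomial.coeff_C_mul_X_pow]
    split_ifs with ht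
    · rw [ht]; rfl
    · rcases lt_or_gt_of_ne ht with h3 | h3
      · exact Polynomial.coeff_eq_zero_of_lt_natTrailingDegree (hF ▸ h3)
      · exact Polynomial.coeff_eq_zero_of_natDegree_lt h3
  exact ⟨_, _, _, _, key G (by omega), key H (by omega), d1⟩

/-- `g (y, V z)` -/
noncomputable def scal (g : MvPolynomial (ι ⊕ ι) K) : Polynomial (MvPolynomial (ι ⊕ ι) K) :=
  ev (fun i => Polynomial.C (X (Sum.inl i))) (fun i => Polynomial.C (X (Sum.inr i)) * Polynomial.X) g

omit [DecidableEq ι] in
theorem scal_gen (l : Fin m → Polynomial K) {P : MvPolynomial (Fin m) K} {n : ℕ}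
    (hP : P.IsHomogeneous n) :
    scal (gen ι l P) = Polynomial.C (gen ι l P) * Polynomial.X ^ n := by
  unfold scal
  rw [ev_gen]
  have h1 : (gpt l (fun i => Polynomial.C (X (Sum.inl i)))
      (fun i => Polynomial.C (X (Sum.inr i)) * Polynomial.X) :
        Fin m → Polynomial (MvPolynomial (ι ⊕ ι) K))
      = fun k => Polynomial.X * Polynomial.C (gpt l (fun i => X (Sum.inl i))
        (fun i => X (Sum.inr i)) k) := by
    funext k
    have h2 := map_gpt (Polynomial.CAlgHom : MvPolynomial (ι ⊕ ι) K →ₐ[K] _) l
      (fun i => X (Sum.inl i)) (fun i => X (Sum.inr i)) k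
    have h3 : (Polynomial.CAlgHom : MvPolynomial (ι ⊕ ι) K →ₐ[K] _)
        (gpt l (fun i => X (Sum.inl i)) (fun i => X (Sum.inr i)) k)
        = Polynomial.C (gpt l (fun i => X (Sum.inl i)) (fun i => X (Sum.inr i)) k) := rfl
    rw [← h3, h2]
    unfold gpt
    rw [Finset.mul_sum]
    refine Finset.sum_congr rfl fun i _ => ?_
    simp only [Polynomial.CAlgHom_apply]
    ring
  rw [h1]
  have h4 : ∀ (c : Fin m → Polynomial (MvPolynomial (ι ⊕ ι) K)),
      aeval (fun k => Polynomial.X * c k) P = Polynomial.X ^ n * aeval c P := by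
    intro c
    rw [aeval_def, aeval_def, eval₂_eq, eval₂_eq, Finset.mul_sum]
    refine Finset.sum_congr rfl fun b hb => ?_
    have hbn : b.degree = n := by
      by_contra hbn
      exact mem_support_iff.mp hb (hP.coeff_eq_zero hbn)
    simp only [mul_pow, Finset.prod_mul_distrib]
    rw [Finset.prod_pow_eq_pow_sum]
    have : ∑ i ∈ b.support, b i = n := hbn
    rw [this]
    ring
  rw [h4]
  have h5 : (Polynomial.CAlgHom : MvPolynomial (ι ⊕ ι) K →ₐ[K] _) (gen ι l P)
      = aeval (fun k => Polynomial.C (gpt l (fun i => X (Sum.inl i))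
        (fun i => X (Sum.inr i)) k)) P := by
    unfold gen
    rw [← AlgHom.comp_apply, comp_aeval]
    rfl
  rw [← h5, mul_comm]
  rfl

omit [Fintype ι] [DecidableEq ι] in
theorem evV_scal {L : Type*} [CommRing L] [Algebra K L] (y z : ι → L) (v : L)
    (g : MvPolynomial (ι ⊕ ι) K) : evV y z v (scal g) = ev y (fun i => z i * v) g := by
  unfold scal
  rw [comp_ev]
  congr 2
  · funext i; simp
  · funext i; simp

omit [Fintype ι] [DecidableEq ι] in
theorem scal_one {g r : MvPolynomial (ι ⊕ ι) K} {i : ℕ}
    (h : scal g = Polynomial.C r * Polynomial.X ^ i) : r = g := by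
  have h1 := congrArg (evV (fun i => X (Sum.inl i)) (fun i => X (Sum.inr i))
    (1 : MvPolynomial (ι ⊕ ι) K)) h
  rw [evV_scal, map_mul, map_pow, evV_C, evV_X, one_pow, mul_one, ev_X] at h1
  simp only [mul_one] at h1
  rw [ev_X] at h1
  exact h1.symm

/-- the two complementary divisors are homogeneous in `z`, of complementary degrees -/
theorem scaling {l : Fin m → Polynomial K} {P : MvPolynomial (Fin m) K} {n : ℕ}
    (hPn : P.IsHomogeneous n) (h0 : gen ι l P ≠ 0) {g h : MvPolynomial (ι ⊕ ι) K}
    (hgh : g * h = gen ι l P) :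
    ∃ i j : ℕ, i + j = n ∧ scal g = Polynomial.C g * Polynomial.X ^ i ∧
      scal h = Polynomial.C h * Polynomial.X ^ j := by
  have h1 : scal g * scal h = Polynomial.C (gen ι l P) * Polynomial.X ^ n := by
    rw [← scal_gen l hPn, ← hgh]
    unfold scal
    rw [map_mul]
  obtain ⟨r, s, i, j, hr, hs, hij⟩ := monomial_of_mul h0 h1
  refine ⟨i, j, hij, ?_, ?_⟩
  · rw [hr, scal_one hr]
  · rw [hs, scal_one hs]

theorem scale_coeff (F : MvPolynomial (Fin m) K) (t : ℕ) :
    (aeval (fun k => Polynomial.C (X k) * Polynomial.X) F :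
      Polynomial (MvPolynomial (Fin m) K)).coeff t = homogeneousComponent t F := by
  induction F using MvPolynomial.induction_on' with
  | monomial u c =>
    have h1 : (aeval (fun k => Polynomial.C (X k) * Polynomial.X) (monomial u c) :
        Polynomial (MvPolynomial (Fin m) K)) = Polynomial.C (monomial u c) *
          Polynomial.X ^ u.degree := by
      rw [aeval_monomial, monomial_eq, map_mul]
      simp only [mul_pow, Finsupp.prod_mul]
      rw [map_finsuppProd]
      simp only [map_pow]
      have : (u.prod fun _ k => (Polynomial.X : Polynomial (MvPolynomial (Fin m) K)) ^ k)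
          = Polynomial.X ^ u.degree := by
        rw [Finsupp.prod, Finset.prod_pow_eq_pow_sum]; rfl
      rw [this, mul_assoc]
      rfl
    rw [h1, Polynomial.coeff_C_mul_X_pow]
    split_ifs with h
    · subst h
      exact (homogeneousComponent_of_mem ((mem_homogeneousSubmodule _ _).mpr
        (isHomogeneous_monomial c rfl))).symm ▸ (if_pos rfl).symm
    · have := homogeneousComponent_of_mem (n := u.degree) (m := t)
        ((mem_homogeneousSubmodule _ _).mpr (isHomogeneous_monomial (R := K) (d := u) c rfl))
      rw [this, if_neg h]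
  | add p q hp hq =>
    rw [map_add, Polynomial.coeff_add, hp, hq, map_add]

theorem isHomogeneous_of_scale {F G : MvPolynomial (Fin m) K} {d : ℕ}
    (h : (aeval (fun k => Polynomial.C (X k) * Polynomial.X) F :
      Polynomial (MvPolynomial (Fin m) K)) = Polynomial.C G * Polynomial.X ^ d) :
    F.IsHomogeneous d := by
  have h1 : ∀ t, t ≠ d → homogeneousComponent t F = 0 := by
    intro t ht
    rw [← scale_coeff, h, Polynomial.coeff_C_mul_X_pow, if_neg ht]
  have h2 : F = homogeneousComponent d F := by
    conv_lhs => rw [← sum_homogeneousComponent F]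
    by_cases hd : d ∈ Finset.range (F.totalDegree + 1)
    · rw [Finset.sum_eq_single_of_mem d hd]
      intro t _ ht
      exact h1 t ht
    · rw [Finset.sum_eq_zero, homogeneousComponent_eq_zero]
      · rw [Finset.mem_range] at hd; omega
      · intro t ht
        exact h1 t (fun h3 => hd (h3 ▸ ht))
  rw [h2]
  exact homogeneousComponent_isHomogeneous d F

theorem evp_homog {a : Fin m → K} {T : Finset (Fin m)} {p : Fin m → ι}
    {g : MvPolynomial (ι ⊕ ι) K} {d : ℕ} (hg : scal g = Polynomial.C g * Polynomial.X ^ d) :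
    (evp a T p g).IsHomogeneous d := by
  apply isHomogeneous_of_scale (G := evp a T p g)
  set y : ι → Polynomial (MvPolynomial (Fin m) K) :=
    fun i => Polynomial.C (place T p (fun k => C (a k)) i) with hy
  set z : ι → Polynomial (MvPolynomial (Fin m) K) :=
    fun i => Polynomial.C (place T p X i) with hz
  have h1 := congrArg (evV y z Polynomial.X) hg
  rw [evV_scal, map_mul, map_pow, evV_C, evV_X] at h1
  have h2 : ev y z g = Polynomial.C (evp a T p g) := by
    have : Polynomial.C (evp a T p g) = (Polynomial.CAlgHom : MvPolynomial (Fin m) K →ₐ[K] _)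
      (evp a T p g) := rfl
    rw [this]
    unfold evp
    rw [comp_ev]
    rfl
  rw [h2] at h1
  rw [← h1]
  unfold evp
  rw [comp_ev]
  congr 2
  · funext i
    simp only [hy, place]
    rw [map_sum, map_sum]
    refine Finset.sum_congr rfl fun k _ => ?_
    rw [algHom_C]
    rfl
  · funext i
    simp only [hz, place]
    rw [map_sum, map_sum, Finset.sum_mul]
    refine Finset.sum_congr rfl fun k _ => ?_
    rw [aeval_X]

/-! ### gluing -/

theorem glue (e n : ℕ) (hne : n ≤ e) (G : Finset (Fin m) → MvPolynomial (Fin m) K)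
    (hG : ∀ T : Finset (Fin m), T.card ≤ e → (G T).IsHomogeneous n)
    (hc : ∀ T T' : Finset (Fin m), T' ⊆ T → T.card ≤ e → restr T' (G T) = G T') :
    ∃ F : MvPolynomial (Fin m) K, F.IsHomogeneous n ∧
      ∀ T : Finset (Fin m), T.card ≤ e → restr T F = G T := by
  classical
  have hcard : ∀ b : Fin m →₀ ℕ, b.degree = n → b.support.card ≤ e := by
    intro b hb
    refine le_trans ?_ hne
    rw [← hb, Finsupp.degree, Finset.card_eq_sum_ones]
    apply Finset.sum_le_sum
    intro k hk
    exact Nat.one_le_iff_ne_zero.mpr (Finsupp.mem_support_iff.mp hk)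
  set F : MvPolynomial (Fin m) K := ∑ b ∈ (Finset.univ : Finset (Fin m)).finsuppAntidiag n,
    monomial b (coeff b (G b.support)) with hF
  have hmem : ∀ b : Fin m →₀ ℕ, b ∈ (Finset.univ : Finset (Fin m)).finsuppAntidiag n
      ↔ b.degree = n := by
    intro b
    rw [Finset.mem_finsuppAntidiag']
    simp only [Finset.subset_univ, and_true]
    exact Iff.rfl
  have hcoef : ∀ b : Fin m →₀ ℕ, b.degree = n → coeff b F = coeff b (G b.support) := by
    intro b hb
    rw [hF, coeff_sum, Finset.sum_eq_single b]
    · rw [coeff_monomial, if_pos rfl]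
    · intro b' _ hb'
      rw [coeff_monomial, if_neg hb']
    · intro h; exact absurd ((hmem b).mpr hb) h
  have hhom : F.IsHomogeneous n := by
    rw [hF]
    apply IsHomogeneous.sum
    intro b hb
    exact isHomogeneous_monomial _ ((hmem b).mp hb)
  refine ⟨F, hhom, fun T hT => ?_⟩
  ext b
  rw [coeff_restr]
  by_cases hb : b.degree = n
  · split_ifs with h
    · rw [hcoef b hb, ← hc T b.support h hT, coeff_restr, if_pos (Finset.Subset.refl _)]
    · rw [← hc T T (Finset.Subset.refl _) hT, coeff_restr, if_neg h]
  · have h1 : coeff b F = 0 := hhom.coeff_eq_zero hb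
    have h2 : coeff b (G T) = 0 := (hG T hT).coeff_eq_zero hb
    rw [h1, h2, ite_self]

/-- divisors of `gen P` glue: every divisor comes from a form in the variables `x` -/
theorem glue_dvd {l : Fin m → Polynomial K} {a : Fin m → K} (hla : Nodes l a)
    {P : MvPolynomial (Fin m) K} (hP : P ≠ 0) {e : ℕ} (he : e < Fintype.card ι)
    (hs : ∀ b ∈ P.support, b.support.card ≤ e)
    {g : MvPolynomial (ι ⊕ ι) K} (hg : g ∣ gen ι l P) {n : ℕ} (hn : n ≤ e)
    (hgn : scal g = Polynomial.C g * Polynomial.X ^ n) :
    ∃ F : MvPolynomial (Fin m) K, F.IsHomogeneous n ∧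
      ∀ (T : Finset (Fin m)) (p : Fin m → ι), T.card ≤ e → Set.InjOn p T →
        evp a T p g = restr T F := by
  have hne : Nonempty ι := Fintype.card_pos_iff.mp (by omega)
  have hs' : ∀ b ∈ P.support, b.support.card < Fintype.card ι :=
    fun b hb => lt_of_le_of_lt (hs b hb) he
  choose! q hq using fun (T : Finset (Fin m)) (hT : T.card ≤ Fintype.card ι) =>
    exists_placement (ι := ι) hT
  obtain ⟨F, hF, hF2⟩ := glue (K := K) e n hn (fun T => evp a T (q T) g)
    (fun T _ => evp_homog hgn)
    (by
      intro T T' hTT hT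
      have hT' : T'.card ≤ e := (Finset.card_le_card hTT).trans hT
      have h1 : Set.InjOn (q T) T := hq T (by omega)
      rw [restr_evp hla hP hs' hg hTT h1]
      exact evp_indep hla hP hs' hg (by omega) (h1.mono (by exact_mod_cast hTT))
        (hq T' (by omega)))
  refine ⟨F, hF, fun T p hT hp => ?_⟩
  rw [hF2 T hT]
  exact evp_indep hla hP hs' hg (by omega) hp (hq T (by omega))

theorem card_support_le {b : Fin m →₀ ℕ} {n : ℕ} (h : b.degree = n) : b.support.card ≤ n := by
  rw [← h, Finsupp.degree, Finset.card_eq_sum_ones]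
  apply Finset.sum_le_sum
  intro k hk
  exact Nat.one_le_iff_ne_zero.mpr (Finsupp.mem_support_iff.mp hk)

/-- a divisor `g` of `gen P` gives a divisor `F` of the (scaled) form `P` -/
theorem dvd_of_dvd_gen {l : Fin m → Polynomial K} {a : Fin m → K} (hla : Nodes l a)
    {P : MvPolynomial (Fin m) K} (hP : P ≠ 0) {k e n : ℕ} (hk : k ≤ e) (hPk : P.IsHomogeneous k)
    (he : e < Fintype.card ι) {g h : MvPolynomial (ι ⊕ ι) K} (hgh : g * h = gen ι l P)
    (hgn : scal g = Polynomial.C g * Polynomial.X ^ n)
    {F : MvPolynomial (Fin m) K} (hF : F.IsHomogeneous n)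
    (hF2 : ∀ (T : Finset (Fin m)) (p : Fin m → ι), T.card ≤ e → Set.InjOn p T →
        evp a T p g = restr T F) :
    F ∣ scl l a P := by
  have hne : Nonempty ι := Fintype.card_pos_iff.mp (by omega)
  have hsupp : ∀ b ∈ P.support, b.support.card ≤ e := fun b hb =>
    (card_support_le (by
      by_contra hbn
      exact mem_support_iff.mp hb (hPk.coeff_eq_zero hbn))).trans hk
  have h0 : gen ι l P ≠ 0 := gen_ne_zero hla hP (fun b hb => (hsupp b hb).trans he.le)
  obtain ⟨i, j, hij, hi, hj⟩ := scaling hPk h0 hgh
  have hg0 : g ≠ 0 := by rintro rfl; rw [zero_mul] at hgh; exact h0 hgh.symm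
  have hin : i = n := by
    have h1 : Polynomial.C g * Polynomial.X ^ i = Polynomial.C g * Polynomial.X ^ n := by
      rw [← hi, hgn]
    have h2 := congrArg Polynomial.natDegree h1
    rwa [Polynomial.natDegree_C_mul_X_pow i g hg0, Polynomial.natDegree_C_mul_X_pow n g hg0]
      at h2
  obtain ⟨H, hH, hH2⟩ := glue_dvd hla hP he hsupp (Dvd.intro_left g hgh) (n := j)
    (by omega) hj
  refine ⟨H, ?_⟩
  have hFH : (F * H).IsHomogeneous k := by
    have := hF.mul hH
    rwa [← hin, hij] at this
  ext b
  by_cases hb : b.degree = k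
  · have hT : b.support.card ≤ e := (card_support_le hb).trans hk
    obtain ⟨p, hp⟩ := exists_placement (ι := ι) (T := b.support) (by omega)
    have h3 := evp_gen l a hla.off hp P
    rw [← hgh, map_mul, hF2 _ p hT hp, hH2 _ p hT hp, ← map_mul] at h3
    have h4 := congrArg (coeff b) h3
    rw [coeff_restr, coeff_restr, if_pos (Finset.Subset.refl _),
      if_pos (Finset.Subset.refl _)] at h4
    exact h4.symm
  · rw [(scl_homog l a hPk).coeff_eq_zero hb, hFH.coeff_eq_zero hb]

/-- a divisor of `gen P` of degree `0` in `z` is a constant -/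
theorem const_of_scal {l : Fin m → Polynomial K} {a : Fin m → K} (hla : Nodes l a)
    {P : MvPolynomial (Fin m) K} (hP : P ≠ 0)
    (hs : ∀ b ∈ P.support, b.support.card < Fintype.card ι)
    {g : MvPolynomial (ι ⊕ ι) K} (hg : g ∣ gen ι l P)
    (hg0 : scal g = Polynomial.C g * Polynomial.X ^ 0) : ∃ c : K, g = C c := by
  have h1 := congrArg (evV (fun i => X (Sum.inl i)) (fun i => X (Sum.inr i))
    (0 : MvPolynomial (ι ⊕ ι) K)) hg0
  rw [evV_scal, map_mul, map_pow, evV_C, evV_X, pow_zero, mul_one, ev_X] at h1
  simp only [mul_zero] at h1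
  have h2 := off_indep' hla hP hs hg (L := MvPolynomial (ι ⊕ ι) K)
    (fun i => X (Sum.inl i)) (fun _ => 0) (fun _ => 0) (fun j => Or.inr rfl)
  rw [h1] at h2
  refine ⟨ev (L := K) (fun _ => 0) (fun _ => 0) g, ?_⟩
  conv_lhs => rw [← h2]
  have h3 := comp_ev (Algebra.ofId K (MvPolynomial (ι ⊕ ι) K)) (fun _ => (0 : K))
    (fun _ => (0 : K)) g
  simp only [map_zero] at h3
  rw [← h3]
  rfl

theorem relPrime_gen {l : Fin m → Polynomial K} {a : Fin m → K} (hla : Nodes l a)
    {P Q : MvPolynomial (Fin m) K} (hP : P ≠ 0) (hQ : Q ≠ 0) {e k k' : ℕ} (hk : k ≤ e)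
    (hk' : k' ≤ e) (hPk : P.IsHomogeneous k) (hQk : Q.IsHomogeneous k')
    (he : e < Fintype.card ι) (hPQ : IsRelPrime P Q) :
    IsRelPrime (gen ι l P) (gen ι l Q) := by
  have hne : Nonempty ι := Fintype.card_pos_iff.mp (by omega)
  have hsP : ∀ b ∈ P.support, b.support.card ≤ e := fun b hb =>
    (card_support_le (by
      by_contra hbn
      exact mem_support_iff.mp hb (hPk.coeff_eq_zero hbn))).trans hk
  have h0 : gen ι l P ≠ 0 := gen_ne_zero hla hP (fun b hb => (hsP b hb).trans he.le)
  intro g hgP hgQ
  obtain ⟨h, hh⟩ := hgP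
  obtain ⟨h', hh'⟩ := hgQ
  obtain ⟨n, j, hnj, hn, hj⟩ := scaling hPk h0 hh.symm
  obtain ⟨F, hF, hF2⟩ := glue_dvd hla hP he hsP (Dvd.intro _ hh.symm) (n := n) (by omega) hn
  have d1 : F ∣ scl l a P := dvd_of_dvd_gen hla hP hk hPk he hh.symm hn hF hF2
  have d2 : F ∣ scl l a Q := dvd_of_dvd_gen hla hQ hk' hQk he hh'.symm hn hF hF2
  have hu : IsUnit F := by
    have e1 := map_dvd (scl (fun k => Polynomial.C (((l k).eval (a k))⁻¹)) a) d1
    have e2 := map_dvd (scl (fun k => Polynomial.C (((l k).eval (a k))⁻¹)) a) d2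
    rw [scl_inv l a hla.on] at e1 e2
    have e3 := hPQ e1 e2
    have e4 := e3.map (scl l a)
    rwa [scl_inv' l a hla.on] at e4
  have hn0 : n = 0 := by
    by_contra hn0
    rw [MvPolynomial.isUnit_iff_eq_C_of_isReduced] at hu
    obtain ⟨c, hc, rfl⟩ := hu
    have h2 := hF.coeff_eq_zero (d := 0) (by simpa using Ne.symm hn0)
    rw [coeff_C, if_pos rfl] at h2
    exact hc.ne_zero h2
  subst hn0
  obtain ⟨c, rfl⟩ := const_of_scal hla hP (fun b hb => lt_of_le_of_lt (hsP b hb) he)
    (Dvd.intro _ hh.symm) hn
  have hc : c ≠ 0 := by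
    rintro rfl
    rw [C_0, zero_mul] at hh
    exact h0 hh
  exact (isUnit_iff_ne_zero.mpr hc).map C

end Gen

end Pool.Agent.Lib.MP_64d474_lc.S3.A92
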