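import Mathlib

set_option autoImplicit false

namespace MP64d474
namespace S3
namespace Ga8

open Polynomial

/-- An additive valuation as a bare function with values in the extended naturals. -/
structure IsVal {R : Type*} [CommRing R] (w : R → ℕ∞) : Prop where
  zero : w 0 = ⊤
  one : w 1 = 0
  mul : ∀ x y, w (x * y) = w x + w y
  add : ∀ x y, min (w x) (w y) ≤ w (x + y)

namespace IsVal

variable {R : Type*} [CommRing R] {w : R → ℕ∞}

theorem neg_one (h : IsVal w) : w (-1) = 0 := by
  have h1 : w (-1) + w (-1) = 0 := by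
    rw [← h.mul]
    simpa using h.one
  have := (add_eq_zero (a := w (-1)) (b := w (-1))).1 h1
  exact this.1

theorem neg (h : IsVal w) (x : R) : w (-x) = w x := by
  have : -x = (-1) * x := by ring
  rw [this, h.mul, h.neg_one, zero_add]

theorem sub (h : IsVal w) (x y : R) : min (w x) (w y) ≤ w (x - y) := by
  rw [sub_eq_add_neg]
  have := h.add x (-y)
  rwa [h.neg] at this

theorem sub_eq_left (h : IsVal w) {x y : R} (hxy : w x < w y) : w (x - y) = w x := by
  apply le_antisymm
  · by_contra hlt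
    push Not at hlt
    have h1 := h.add (x - y) y
    rw [sub_add_cancel] at h1
    have h2 : w x < min (w (x - y)) (w y) := lt_min hlt hxy
    exact absurd h1 (not_le.2 h2)
  · have h1 := h.sub x y
    rwa [min_eq_left hxy.le] at h1

theorem sub_eq_right (h : IsVal w) {x y : R} (hxy : w y < w x) : w (x - y) = w y := by
  have : x - y = -(y - x) := by ring
  rw [this, h.neg, h.sub_eq_left hxy]

theorem prod (h : IsVal w) {ι : Type*} (s : Finset ι) (g : ι → R) :
    w (∏ i ∈ s, g i) = ∑ i ∈ s, w (g i) := by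
  classical
  induction s using Finset.induction_on with
  | empty => simpa using h.one
  | insert a s ha ih => rw [Finset.prod_insert ha, Finset.sum_insert ha, h.mul, ih]

theorem pow (h : IsVal w) (x : R) (n : ℕ) : w (x ^ n) = n * w x := by
  induction n with
  | zero => simpa using h.one
  | succ n ih => rw [pow_succ, h.mul, ih]; push_cast; ring

/-- A positive integer multiple of a valuation is one. -/
theorem nsmul (h : IsVal w) (e : ℕ) (he : e ≠ 0) : IsVal (fun x => (e : ℕ∞) * w x) where
  zero := by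
    rw [h.zero]
    exact ENat.mul_top (by exact_mod_cast he)
  one := by rw [h.one, mul_zero]
  mul := by intro x y; rw [h.mul, mul_add]
  add := by
    intro x y
    rcases min_le_iff.1 (le_refl (min (w x) (w y))) with h1 | h1
    · have h2 : w x ≤ w (x + y) := by
        have := h.add x y
        rw [← min_eq_left_iff.2 (le_trans h1 (min_le_right _ _))]
        exact this
      exact (min_le_left _ _).trans (mul_le_mul_right h2 _)
    · have h2 : w y ≤ w (x + y) := by
        have := h.add x y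
        rw [← min_eq_right_iff.2 (le_trans h1 (min_le_left _ _))]
        exact this
      exact (min_le_right _ _).trans (mul_le_mul_right h2 _)

end IsVal

/-- The Gauss function of a polynomial at the slope M. -/
noncomputable def gn {R : Type*} [CommRing R] (w : R → ℕ∞) (M : ℕ) (p : R[X]) : ℕ∞ :=
  ⨅ k : ℕ, (w (p.coeff k) + ((k * M : ℕ) : ℕ∞))

section

variable {R : Type*} [CommRing R] {w : R → ℕ∞}

theorem gn_le (M : ℕ) (p : R[X]) (k : ℕ) : gn w M p ≤ w (p.coeff k) + ((k * M : ℕ) : ℕ∞) :=
  iInf_le _ k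

theorem gn_exists (M : ℕ) (p : R[X]) :
    ∃ k, w (p.coeff k) + ((k * M : ℕ) : ℕ∞) = gn w M p :=
  ENat.exists_eq_iInf _

theorem gn_exists_last (h : IsVal w) (M : ℕ) (p : R[X]) (hp : gn w M p ≠ ⊤) :
    ∃ k, w (p.coeff k) + ((k * M : ℕ) : ℕ∞) = gn w M p ∧
      ∀ j, k < j → gn w M p < w (p.coeff j) + ((j * M : ℕ) : ℕ∞) := by
  classical
  have hb : ∀ k, w (p.coeff k) + ((k * M : ℕ) : ℕ∞) = gn w M p → k ≤ p.natDegree := by
    intro k hk
    by_contra hlt
    push Not at hlt
    rw [coeff_eq_zero_of_natDegree_lt hlt, h.zero, top_add] at hk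
    exact hp hk.symm
  obtain ⟨k0, hk0⟩ := gn_exists (w := w) M p
  refine ⟨Nat.findGreatest (fun k => w (p.coeff k) + ((k * M : ℕ) : ℕ∞) = gn w M p)
    p.natDegree, ?_, ?_⟩
  · exact Nat.findGreatest_spec (P := fun k => w (p.coeff k) + ((k * M : ℕ) : ℕ∞) = gn w M p)
      (hb k0 hk0) hk0
  · intro j hj
    apply lt_of_le_of_ne (gn_le M p j)
    intro he
    have h2 := hb j he.symm
    exact absurd he.symm (Nat.findGreatest_is_greatest hj h2)

theorem gn_one (h : IsVal w) (M : ℕ) : gn w M (1 : R[X]) = 0 := by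
  apply le_antisymm _ (by simp)
  have := gn_le (w := w) M (1 : R[X]) 0
  simpa [h.one] using this

theorem gn_mul (h : IsVal w) (M : ℕ) (p : R[X]) (g : R) (hp : gn w M p ≠ ⊤) :
    gn w M (p * (X - C g)) = gn w M p + min (w g) (M : ℕ∞) := by
  apply le_antisymm
  · -- an attained index
    obtain ⟨k, hk, hlast⟩ := gn_exists_last h M p hp
    have hwk : w (p.coeff k) ≠ ⊤ := by
      intro h1
      rw [h1, top_add] at hk
      exact hp hk.symm
    rcases lt_or_ge (w g) (M : ℕ∞) with hlt | hge
    · -- w g < M: the coefficient k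
      rw [min_eq_left hlt.le]
      have hg : w g ≠ ⊤ := ne_top_of_lt hlt
      refine (gn_le M _ k).trans ?_
      have hval : w ((p * (X - C g)).coeff k) = w (p.coeff k) + w g := by
        cases k with
        | zero =>
          have : (p * (X - C g)).coeff 0 = -(p.coeff 0 * g) := by
            rw [mul_coeff_zero]
            simp
          rw [this, h.neg, h.mul]
        | succ k =>
          rw [coeff_mul_X_sub_C]
          have h1 : w (p.coeff (k + 1) * g) < w (p.coeff k) := by
            rw [h.mul]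
            have h2 := gn_le (w := w) M p k
            rw [← hk] at h2
            by_contra hcon
            push Not at hcon
            obtain ⟨a, ha⟩ := ENat.ne_top_iff_exists.1 hwk
            obtain ⟨b, hb⟩ := ENat.ne_top_iff_exists.1 hg
            rw [← ha, ← hb] at hcon
            rw [← ha] at h2
            rw [← hb] at hlt
            have hc : w (p.coeff k) ≠ ⊤ := ne_top_of_le_ne_top (by simp) hcon
            obtain ⟨c, hc⟩ := ENat.ne_top_iff_exists.1 hc
            rw [← hc] at hcon h2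
            norm_cast at hcon h2 hlt
            nlinarith
          rw [h.sub_eq_right h1, h.mul]
      rw [hval, ← hk]
      apply le_of_eq
      ring
    · -- M ≤ w g: the coefficient k + 1
      rw [min_eq_right hge]
      refine (gn_le M _ (k + 1)).trans ?_
      rw [coeff_mul_X_sub_C]
      have h1 : w (p.coeff k) < w (p.coeff (k + 1) * g) := by
        rw [h.mul]
        have h2 := hlast (k + 1) (Nat.lt_succ_self k)
        rw [← hk] at h2
        obtain ⟨a, ha⟩ := ENat.ne_top_iff_exists.1 hwk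
        rw [← ha] at h2 ⊢
        by_contra hcon
        push Not at hcon
        have hc : w (p.coeff (k + 1)) + w g ≠ ⊤ := ne_top_of_le_ne_top (by simp) hcon
        have hc1 : w (p.coeff (k + 1)) ≠ ⊤ := fun h3 => hc (by rw [h3, top_add])
        have hc2 : w g ≠ ⊤ := fun h3 => hc (by rw [h3, add_top])
        obtain ⟨b, hb⟩ := ENat.ne_top_iff_exists.1 hc1
        obtain ⟨c, hc⟩ := ENat.ne_top_iff_exists.1 hc2
        rw [← hb, ← hc] at hcon
        rw [← hb] at h2
        rw [← hc] at hge
        norm_cast at hcon h2 hge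
        nlinarith
      rw [h.sub_eq_left h1, ← hk]
      apply le_of_eq
      push_cast
      ring
  · apply le_iInf
    intro k
    cases k with
    | zero =>
      have : (p * (X - C g)).coeff 0 = -(p.coeff 0 * g) := by
        rw [mul_coeff_zero]
        simp
      rw [this, h.neg, h.mul]
      have h2 := gn_le (w := w) M p 0
      simp only [zero_mul, Nat.cast_zero, add_zero] at h2 ⊢
      exact add_le_add h2 (min_le_left _ _)
    | succ k =>
      rw [coeff_mul_X_sub_C]
      have h1 := h.sub (p.coeff k) (p.coeff (k + 1) * g)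
      have h2 := gn_le (w := w) M p k
      have h3 := gn_le (w := w) M p (k + 1)
      have h4 : gn w M p + min (w g) (M : ℕ∞) ≤
          min (w (p.coeff k)) (w (p.coeff (k + 1) * g)) + (((k + 1) * M : ℕ) : ℕ∞) := by
        rcases min_choice (w (p.coeff k)) (w (p.coeff (k + 1) * g)) with h5 | h5
        · rw [h5]
          calc gn w M p + min (w g) (M : ℕ∞) ≤ (w (p.coeff k) + ((k * M : ℕ) : ℕ∞)) + (M : ℕ∞) :=
                add_le_add h2 (min_le_right _ _)
            _ = w (p.coeff k) + (((k + 1) * M : ℕ) : ℕ∞) := by push_cast; ring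
        · rw [h5, h.mul]
          calc gn w M p + min (w g) (M : ℕ∞) ≤
                (w (p.coeff (k + 1)) + (((k + 1) * M : ℕ) : ℕ∞)) + w g :=
                add_le_add h3 (min_le_left _ _)
            _ = w (p.coeff (k + 1)) + w g + (((k + 1) * M : ℕ) : ℕ∞) := by ring
      exact h4.trans (add_le_add h1 le_rfl)

/-- (d), first half: the sums of the truncated values are read off the coefficients. -/
theorem gn_prod (h : IsVal w) (M : ℕ) {ι : Type*} (s : Finset ι) (g : ι → R) :
    gn w M (∏ i ∈ s, (X - C (g i))) = ∑ i ∈ s, min (w (g i)) (M : ℕ∞) := by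
  classical
  induction s using Finset.induction_on with
  | empty => simpa using gn_one h M
  | insert a s ha ih =>
    have hfin : gn w M (∏ i ∈ s, (X - C (g i))) ≠ ⊤ := by
      rw [ih]
      have : ∑ i ∈ s, min (w (g i)) (M : ℕ∞) ≤ ∑ i ∈ s, (M : ℕ∞) :=
        Finset.sum_le_sum fun i _ => min_le_right _ _
      refine ne_top_of_le_ne_top ?_ this
      rw [Finset.sum_const, nsmul_eq_mul]
      exact_mod_cast ENat.natCast_ne_top (s.card * M)
    rw [Finset.prod_insert ha, mul_comm, gn_mul h M _ _ hfin, ih, Finset.sum_insert ha,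
      add_comm]

end

theorem gn_congr {R : Type*} [CommRing R] {w : R → ℕ∞} {R' : Type*} [CommRing R'] {w' : R' → ℕ∞}
    {p : R[X]} {p' : R'[X]} (hc : ∀ k, w (p.coeff k) = w' (p'.coeff k)) (M : ℕ) :
    gn w M p = gn w' M p' := by
  unfold gn
  simp only [hc]

/-- Sums of squares from sums of truncations. -/
theorem sum_sq_of_min {ι ι' : Type*} [Fintype ι] [Fintype ι'] (a : ι → ℕ) (a' : ι' → ℕ)
    (h : ∀ M : ℕ, ∑ i, min (a i) M = ∑ i, min (a' i) M) :
    ∑ i, a i ^ 2 = ∑ i, a' i ^ 2 := by
  classical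
  have key : ∀ (T x : ℕ), x ≤ T →
      (x ^ 2 : ℤ) = ∑ M ∈ Finset.range T, (2 * (M : ℤ) + 1) * ((min x (M + 1) : ℕ) - (min x M : ℕ)) := by
    intro T x
    induction T generalizing x with
    | zero => intro hx; interval_cases x; simp
    | succ T ih =>
      intro hx
      rw [Finset.sum_range_succ]
      rcases Nat.lt_or_ge T x with h1 | h1
      · have hx' : x = T + 1 := by omega
        subst hx'
        have h2 : ∑ M ∈ Finset.range T, (2 * (M : ℤ) + 1) *
            ((min (T + 1) (M + 1) : ℕ) - (min (T + 1) M : ℕ)) =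
            ∑ M ∈ Finset.range T, (2 * (M : ℤ) + 1) * ((min T (M + 1) : ℕ) - (min T M : ℕ)) := by
          apply Finset.sum_congr rfl
          intro M hM
          rw [Finset.mem_range] at hM
          rw [min_eq_right (by omega : M + 1 ≤ T + 1), min_eq_right (by omega : M ≤ T + 1),
            min_eq_right (by omega : M + 1 ≤ T), min_eq_right (by omega : M ≤ T)]
        rw [h2, ← ih T le_rfl, min_self, min_eq_right (Nat.le_succ T)]
        push_cast
        ring
      · rw [← ih x h1, min_eq_left h1, min_eq_left (by omega : x ≤ T + 1)]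
        simp
  set T := (Finset.univ.sup a) + (Finset.univ.sup a') with hT
  have hA : ∀ i, a i ≤ T := fun i => (Finset.le_sup (f := a) (Finset.mem_univ i)).trans (by omega)
  have hA' : ∀ i, a' i ≤ T := fun i => (Finset.le_sup (f := a') (Finset.mem_univ i)).trans (by omega)
  have e1 : (∑ i, (a i : ℤ) ^ 2) =
      ∑ M ∈ Finset.range T, (2 * (M : ℤ) + 1) * (((∑ i, min (a i) (M + 1) : ℕ) : ℤ) -
        ((∑ i, min (a i) M : ℕ) : ℤ)) := by
    rw [Finset.sum_congr rfl (fun i _ => key T (a i) (hA i)), Finset.sum_comm]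
    apply Finset.sum_congr rfl
    intro M _
    rw [← Finset.mul_sum, Finset.sum_sub_distrib]
    push_cast
    rfl
  have e2 : (∑ i, (a' i : ℤ) ^ 2) =
      ∑ M ∈ Finset.range T, (2 * (M : ℤ) + 1) * (((∑ i, min (a' i) (M + 1) : ℕ) : ℤ) -
        ((∑ i, min (a' i) M : ℕ) : ℤ)) := by
    rw [Finset.sum_congr rfl (fun i _ => key T (a' i) (hA' i)), Finset.sum_comm]
    apply Finset.sum_congr rfl
    intro M _
    rw [← Finset.mul_sum, Finset.sum_sub_distrib]
    push_cast
    rfl
  have : (∑ i, (a i : ℤ) ^ 2) = ∑ i, (a' i : ℤ) ^ 2 := by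
    rw [e1, e2]
    apply Finset.sum_congr rfl
    intro M _
    rw [h, h]
  exact_mod_cast this

/-- ROW GA: two systems whose characteristic polynomials have coefficients of equal value have
equal sums of squares of the values of the roots. -/
theorem sum_sq {R : Type*} [CommRing R] {w : R → ℕ∞} (h : IsVal w)
    {R' : Type*} [CommRing R'] {w' : R' → ℕ∞} (h' : IsVal w')
    {ι ι' : Type*} [Fintype ι] [Fintype ι'] (g : ι → R) (g' : ι' → R')
    (a : ι → ℕ) (a' : ι' → ℕ) (ha : ∀ i, w (g i) = a i) (ha' : ∀ i, w' (g' i) = a' i)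
    (hc : ∀ k, w ((∏ i, (X - C (g i))).coeff k) = w' ((∏ i, (X - C (g' i))).coeff k)) :
    ∑ i, a i ^ 2 = ∑ i, a' i ^ 2 := by
  apply sum_sq_of_min
  intro M
  have h1 := gn_congr hc M
  rw [gn_prod h, gn_prod h'] at h1
  have e : ∀ x : ℕ, min (x : ℕ∞) (M : ℕ∞) = ((min x M : ℕ) : ℕ∞) := by
    intro x
    rcases le_total x M with h2 | h2
    · rw [min_eq_left h2, min_eq_left (by exact_mod_cast h2)]
    · rw [min_eq_right h2, min_eq_right (by exact_mod_cast h2)]
  simp only [ha, ha', e] at h1
  exact_mod_cast h1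

/-- Polarisation: the mixed sums agree when the sums of squares of a, b and a + b do. -/
theorem sum_mul_of_sq {ι ι' : Type*} [Fintype ι] [Fintype ι'] (a b : ι → ℕ) (a' b' : ι' → ℕ)
    (h1 : ∑ i, a i ^ 2 = ∑ i, a' i ^ 2) (h2 : ∑ i, b i ^ 2 = ∑ i, b' i ^ 2)
    (h3 : ∑ i, (a i + b i) ^ 2 = ∑ i, (a' i + b' i) ^ 2) :
    ∑ i, a i * b i = ∑ i, a' i * b' i := by
  have e1 : ∑ i, (a i + b i) ^ 2 = ∑ i, a i ^ 2 + ∑ i, b i ^ 2 + 2 * ∑ i, a i * b i := by
    rw [Finset.mul_sum, ← Finset.sum_add_distrib, ← Finset.sum_add_distrib]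
    exact Finset.sum_congr rfl fun i _ => by ring
  have e2 : ∑ i, (a' i + b' i) ^ 2 = ∑ i, a' i ^ 2 + ∑ i, b' i ^ 2 + 2 * ∑ i, a' i * b' i := by
    rw [Finset.mul_sum, ← Finset.sum_add_distrib, ← Finset.sum_add_distrib]
    exact Finset.sum_congr rfl fun i _ => by ring
  omega

/-- ROW GA with polarisation: if for g = P, Q and P Q the characteristic polynomials have
coefficients of equal value, then the sums of w P_i * w Q_i agree. -/
theorem sum_mul {R : Type*} [CommRing R] {w : R → ℕ∞} (h : IsVal w)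
    {R' : Type*} [CommRing R'] {w' : R' → ℕ∞} (h' : IsVal w')
    {ι ι' : Type*} [Fintype ι] [Fintype ι'] (p q : ι → R) (p' q' : ι' → R')
    (a b : ι → ℕ) (a' b' : ι' → ℕ)
    (ha : ∀ i, w (p i) = a i) (hb : ∀ i, w (q i) = b i)
    (ha' : ∀ i, w' (p' i) = a' i) (hb' : ∀ i, w' (q' i) = b' i)
    (h1 : ∀ k, w ((∏ i, (X - C (p i))).coeff k) = w' ((∏ i, (X - C (p' i))).coeff k))
    (h2 : ∀ k, w ((∏ i, (X - C (q i))).coeff k) = w' ((∏ i, (X - C (q' i))).coeff k))
    (h3 : ∀ k, w ((∏ i, (X - C (p i * q i))).coeff k) =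
      w' ((∏ i, (X - C (p' i * q' i))).coeff k)) :
    ∑ i, a i * b i = ∑ i, a' i * b' i := by
  apply sum_mul_of_sq
  · exact sum_sq h h' p p' a a' ha ha' h1
  · exact sum_sq h h' q q' b b' hb hb' h2
  · apply sum_sq h h' (fun i => p i * q i) (fun i => p' i * q' i) (fun i => a i + b i)
      (fun i => a' i + b' i)
    · intro i
      rw [h.mul, ha, hb]
      push_cast
      rfl
    · intro i
      rw [h'.mul, ha', hb']
      push_cast
      rfl
    · exact h3

/-- The conclusion (f): two products of factors. A and B are the lists of values of the factors of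
T1 and T2; on the primed side the two products have equal value at every root. Then they have
equal value at every root on the unprimed side. -/
theorem eq_of_pairs {ι ι' : Type*} [Fintype ι] [Fintype ι'] {κ : Type*} [DecidableEq κ] (s t : Finset κ)
    (a : κ → ι → ℕ) (a' : κ → ι' → ℕ)
    (hp : ∀ x ∈ s ∪ t, ∀ y ∈ s ∪ t, ∑ i, a x i * a y i = ∑ i, a' x i * a' y i)
    (heq : ∀ i, ∑ x ∈ s, a' x i = ∑ x ∈ t, a' x i) :
    ∀ i, ∑ x ∈ s, a x i = ∑ x ∈ t, a x i := by
  classical
  have hpZ : ∀ x ∈ s ∪ t, ∀ y ∈ s ∪ t,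
      (∑ i, (a x i : ℤ) * a y i) = ∑ i, (a' x i : ℤ) * a' y i := by
    intro x hx y hy
    exact_mod_cast hp x hx y hy
  have ex : ∀ (u v : Finset κ), u ⊆ s ∪ t → v ⊆ s ∪ t →
      (∑ i, (∑ x ∈ u, (a x i : ℤ)) * (∑ y ∈ v, (a y i : ℤ))) =
      ∑ i, (∑ x ∈ u, (a' x i : ℤ)) * (∑ y ∈ v, (a' y i : ℤ)) := by
    intro u v hu hv
    have hL : (∑ i, (∑ x ∈ u, (a x i : ℤ)) * (∑ y ∈ v, (a y i : ℤ))) =
        ∑ x ∈ u, ∑ y ∈ v, ∑ i, (a x i : ℤ) * a y i := by
      simp only [Finset.sum_mul_sum]
      rw [Finset.sum_comm]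
      exact Finset.sum_congr rfl fun x _ => Finset.sum_comm
    have hR : (∑ i, (∑ x ∈ u, (a' x i : ℤ)) * (∑ y ∈ v, (a' y i : ℤ))) =
        ∑ x ∈ u, ∑ y ∈ v, ∑ i, (a' x i : ℤ) * a' y i := by
      simp only [Finset.sum_mul_sum]
      rw [Finset.sum_comm]
      exact Finset.sum_congr rfl fun x _ => Finset.sum_comm
    rw [hL, hR]
    exact Finset.sum_congr rfl fun x hx => Finset.sum_congr rfl fun y hy =>
      hpZ x (hu hx) y (hv hy)
  have h0 : (∑ i, ((∑ x ∈ s, (a x i : ℤ)) - ∑ x ∈ t, (a x i : ℤ)) ^ 2) = 0 := by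
    have e : ∀ (f g : ι → ℤ), (∑ i, (f i - g i) ^ 2) =
        ∑ i, f i * f i - 2 * ∑ i, f i * g i + ∑ i, g i * g i := by
      intro f g
      rw [Finset.mul_sum, ← Finset.sum_sub_distrib, ← Finset.sum_add_distrib]
      exact Finset.sum_congr rfl fun i _ => by ring
    have e' : ∀ (f g : ι' → ℤ), (∑ i, (f i - g i) ^ 2) =
        ∑ i, f i * f i - 2 * ∑ i, f i * g i + ∑ i, g i * g i := by
      intro f g
      rw [Finset.mul_sum, ← Finset.sum_sub_distrib, ← Finset.sum_add_distrib]
      exact Finset.sum_congr rfl fun i _ => by ring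
    rw [e, ex s s Finset.subset_union_left Finset.subset_union_left,
      ex s t Finset.subset_union_left Finset.subset_union_right,
      ex t t Finset.subset_union_right Finset.subset_union_right, ← e']
    apply Finset.sum_eq_zero
    intro i _
    have := heq i
    have h2 : (∑ x ∈ s, (a' x i : ℤ)) = ∑ x ∈ t, (a' x i : ℤ) := by exact_mod_cast this
    rw [h2]
    ring
  intro i
  have h1 := (Finset.sum_eq_zero_iff_of_nonneg (fun i _ => sq_nonneg
    ((∑ x ∈ s, (a x i : ℤ)) - ∑ x ∈ t, (a x i : ℤ)))).1 h0 i (Finset.mem_univ i)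
  have h2 := pow_eq_zero_iff (two_ne_zero) |>.1 h1
  have h3 : (∑ x ∈ s, (a x i : ℤ)) = ∑ x ∈ t, (a x i : ℤ) := by linarith
  exact_mod_cast h3

end Ga8
end S3
end MP64d474
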