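import Pool.Agent.Lib.MP_64d474_lc.S3.Place91
import Pool.Agent.Lib.MP_64d474_lc.S3.Gauss8
import Pool.Agent.Lib.MP_64d474_lc.S3.Norm97
import Pool.Agent.Lib.MP_64d474_lc.S3.Hom64
import Pool.Agent.Lib.MP_64d474_lc.S3.Shift97
import Pool.Agent.Lib.MP_64d474_lc.S3.Defs69

/-!
The bracket: two products of forms modulo an irreducible form.
-/

set_option autoImplicit false

namespace Pool.Agent.Lib.MP_64d474_lc.S3.B64

open Polynomial S3Norm97 Pool.Agent.Lib.MP_64d474_lc.S3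

variable {σ F : Type*} [Field F]

/-- a ring homomorphism to polynomials in one variable which preserves coprimality of forms of
degree at most D -/
structure Good {K : Type*} [Field K] (χ : MvPolynomial σ F →+* K[X]) (D : ℕ) : Prop where
  cop : ∀ (P Q : MvPolynomial σ F) (p q : ℕ), P.IsHomogeneous p → Q.IsHomogeneous q → p ≤ D →
    q ≤ D → P ≠ 0 → Q ≠ 0 → IsRelPrime P Q → ∀ τ : K, ¬ ((χ P).eval τ = 0 ∧ (χ Q).eval τ = 0)
  root : ∀ (S : MvPolynomial σ F) (n : ℕ), S.IsHomogeneous n → 0 < n → n ≤ D → S ≠ 0 →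
    ∃ τ : K, (χ S).eval τ = 0
  inj : ∀ (P : MvPolynomial σ F) (n : ℕ), P.IsHomogeneous n → n ≤ D → P ≠ 0 → χ P ≠ 0

/-- scaling -/
theorem val_scale {Ω : Type*} [CommRing Ω] {w : Ω → ℕ∞} (hw : IsVal w) (a : ℕ∞) (ha : a ≠ 0)
    (ha' : a ≠ ⊤) : IsVal (fun x => a * w x) where
  mul x y := by rw [hw.mul, mul_add]
  add x y := by
    have h := hw.add x y
    rcases le_total (w x) (w y) with h1 | h1
    · rw [min_eq_left h1] at h
      exact (min_le_left _ _).trans (mul_le_mul_right h a)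
    · rw [min_eq_right h1] at h
      exact (min_le_right _ _).trans (mul_le_mul_right h a)
  top x := by
    rw [← hw.top x]
    constructor
    · intro h
      by_contra hx
      exact WithTop.mul_ne_top ha' hx h
    · intro h
      rw [h, ENat.mul_top ha]
  one := by rw [hw.one, mul_zero]

theorem val_neg {Ω : Type*} [CommRing Ω] {w : Ω → ℕ∞} (hw : IsVal w) (x : Ω) :
    w (-x) = w x := by
  have h1 : w (-1) = 0 := by
    have h := hw.mul (-1) (-1)
    rw [neg_one_mul, neg_neg, hw.one] at h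
    have := h.symm
    rw [add_eq_zero] at this
    exact this.1
  rw [← neg_one_mul, hw.mul, h1, zero_add]

theorem val_pow {Ω : Type*} [CommRing Ω] {w : Ω → ℕ∞} (hw : IsVal w) (x : Ω) (n : ℕ) :
    w (x ^ n) = n * w x := by
  induction n with
  | zero => rw [pow_zero, hw.one, Nat.cast_zero, zero_mul]
  | succ n ih => rw [pow_succ, hw.mul, ih, Nat.cast_succ, add_mul, one_mul]

theorem val_prod {Ω : Type*} [CommRing Ω] {w : Ω → ℕ∞} (hw : IsVal w) {ι : Type*}
    (s : Finset ι) (f : ι → Ω) : w (∏ i ∈ s, f i) = ∑ i ∈ s, w (f i) := by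
  classical
  induction s using Finset.induction_on with
  | empty => rw [Finset.prod_empty, Finset.sum_empty, hw.one]
  | insert a s ha ih => rw [Finset.prod_insert ha, Finset.sum_insert ha, hw.mul, ih]

/-- the value of a form at a place over the line -/
theorem val_form {K Ω : Type*} [Field K] [CommRing Ω] {χ : MvPolynomial σ F →+* K[X]} {D : ℕ}
    (hG : Good χ D) {S : MvPolynomial σ F} {m : ℕ} (hS : Irreducible S)
    (hSh : S.IsHomogeneous m) (hm : m ≤ D) {τ : K} (hτ : (χ S).eval τ = 0)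
    {w : Ω → ℕ∞} (hw : IsVal w) {φ : K[X] →+* Ω} (h0 : ∀ c : K[X], c.eval τ ≠ 0 → w (φ c) = 0)
    (hpos : w (φ (χ S)) ≠ 0) {c : MvPolynomial σ F} {n : ℕ} (hc : c.IsHomogeneous n)
    (hn : n ≤ D) : w (φ (χ c)) = emultiplicity S c * w (φ (χ S)) := by
  classical
  by_cases hc0 : c = 0
  · subst hc0
    rw [map_zero, map_zero, emultiplicity_zero, ENat.top_mul hpos]
    exact (hw.top 0).mpr rfl
  have hfin : FiniteMultiplicity S c := FiniteMultiplicity.of_not_isUnit hS.not_isUnit hc0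
  obtain ⟨c1, hc1, hndvd⟩ := hfin.exists_eq_pow_mul_and_not_dvd
  have hc10 : c1 ≠ 0 := by
    rintro rfl
    exact hndvd (dvd_zero _)
  obtain ⟨n1, hn1, hc1h⟩ := hom_of_dvd hc hc0 ⟨S ^ multiplicity S c, by
    conv_lhs => rw [hc1]
    rw [mul_comm]⟩
  have hrel : IsRelPrime S c1 := hS.isRelPrime_iff_not_dvd.mpr hndvd
  have hev : (χ c1).eval τ ≠ 0 := by
    intro h
    exact hG.cop S c1 m n1 hSh hc1h hm (hn1.trans hn) hS.ne_zero hc10 hrel τ ⟨hτ, h⟩
  conv_lhs => rw [hc1]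
  rw [map_mul, map_mul, map_pow, map_pow, hw.mul, val_pow hw, h0 _ hev, add_zero,
    hfin.emultiplicity_eq_multiplicity]

theorem val_ga8 {Ω : Type*} [CommRing Ω] {w : Ω → ℕ∞} (hw : IsVal w) :
    MP64d474.S3.Ga8.IsVal w where
  zero := (hw.top 0).mpr rfl
  one := hw.one
  mul := hw.mul
  add := hw.add

section Step

variable {κ : Type*} [DecidableEq κ] {β : (MvPolynomial σ F)[X]} {b d n : ℕ} {e : σ → F}

/-- the value of `h` at the root number `i` -/
noncomputable def evi {Ω : Type*} [CommRing Ω] (e : σ → F) (ψ : MvPolynomial σ F →+* Ω) (θ : Ω) :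
    MvPolynomial σ F →+* Ω :=
  ((evalRingHom θ).comp (mapRingHom ψ)).comp (sh e).toRingHom

theorem evi_apply {Ω : Type*} [CommRing Ω] (e : σ → F) (ψ : MvPolynomial σ F →+* Ω) (θ : Ω)
    (P : MvPolynomial σ F) : evi e ψ θ P = ((sh e P).map ψ).eval θ := rfl

/-- the step for one irreducible form -/
theorem step_S {K K1 : Type*} [Field K] [CharZero K] [Field K1] [CharZero K1]
    {χ : MvPolynomial σ F →+* K[X]} {χ1 : MvPolynomial σ F →+* K1[X]}
    (hG : ∀ D, Good χ D) {D : ℕ} (hG1 : Good χ1 D) (hD : 2 * d ^ 2 ≤ D)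
    (hbd : b ≤ d) (hβ : β.Monic)
    (hnh : ∀ (h : (MvPolynomial σ F)[X]) (m : ℕ), HomS m h →
      (nrm β h).IsHomogeneous (b * m))
    (hch : ∀ (g : (MvPolynomial σ F)[X]) (m k : ℕ), HomS m g →
      ((chr β g).coeff k).IsHomogeneous ((b - k) * m))
    (s t : Finset κ) (P : κ → MvPolynomial σ F) (dg : κ → ℕ)
    (hP : ∀ x ∈ s ∪ t, (P x).IsHomogeneous (dg x)) (hdg : ∀ x ∈ s ∪ t, dg x ≤ d)
    (hBP : ∀ x ∈ s ∪ t, nrm β (sh e (P x)) ≠ 0)
    (hs : (∏ x ∈ s, P x).IsHomogeneous n) (ht : (∏ x ∈ t, P x).IsHomogeneous n)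
    (hdiv : β.map χ1 ∣ (sh e (∏ x ∈ s, P x + ∏ x ∈ t, P x)).map χ1)
    {S : MvPolynomial σ F} {m : ℕ} (hS : Irreducible S) (hSh : S.IsHomogeneous m) (hm0 : 0 < m)
    (hm : m ≤ D) :
    emultiplicity S (nrm β (sh e (∏ x ∈ s, P x))) ≤
      emultiplicity S (nrm β (sh e (∏ x ∈ s, P x + ∏ x ∈ t, P x))) := by
  classical
  obtain ⟨τ, hτ⟩ := (hG m).root S m hSh hm0 le_rfl hS.ne_zero
  obtain ⟨τ1, hτ1⟩ := hG1.root S m hSh hm0 hm hS.ne_zero
  obtain ⟨Ω, _, _, w, φ, θ, hw, hφ, hprod, hwτ, hw0⟩ := exists_place (β.map χ) (hβ.map χ) τ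
  obtain ⟨Ω1, _, _, w1, φ1, θ1, hw1, hφ1, hprod1, hwτ1, hw01⟩ :=
    exists_place (β.map χ1) (hβ.map χ1) τ1
  -- values of S
  have hSpos : w (φ (χ S)) ≠ 0 := by
    obtain ⟨q, hq⟩ := dvd_iff_isRoot.mpr hτ
    rw [hq, map_mul, hw.mul]
    intro h
    rw [add_eq_zero] at h
    exact hwτ.ne' h.1
  have hSfin : w (φ (χ S)) ≠ ⊤ := by
    intro h
    rw [hw.top] at h
    have := hφ (h.trans (map_zero φ).symm)
    exact (hG m).inj S m hSh le_rfl hS.ne_zero this
  have hS1pos : w1 (φ1 (χ1 S)) ≠ 0 := by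
    obtain ⟨q, hq⟩ := dvd_iff_isRoot.mpr hτ1
    rw [hq, map_mul, hw1.mul]
    intro h
    rw [add_eq_zero] at h
    exact hwτ1.ne' h.1
  have hS1fin : w1 (φ1 (χ1 S)) ≠ ⊤ := by
    intro h
    rw [hw1.top] at h
    have := hφ1 (h.trans (map_zero φ1).symm)
    exact hG1.inj S m hSh hm hS.ne_zero this
  set E := w (φ (χ S)) with hE
  set E1 := w1 (φ1 (χ1 S)) with hE1
  have hW : IsVal (fun x => E1 * w x) := val_scale hw E1 hS1pos hS1fin
  have hW1 : IsVal (fun x => E * w1 x) := val_scale hw1 E hSpos hSfin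
  set ψ : MvPolynomial σ F →+* Ω := φ.comp χ with hψ
  set ψ1 : MvPolynomial σ F →+* Ω1 := φ1.comp χ1 with hψ1
  -- equal values on low degree forms
  have hval : ∀ (c : MvPolynomial σ F) (r : ℕ), c.IsHomogeneous r →
      w (ψ c) = emultiplicity S c * E := fun c r hc =>
    val_form (hG (max m r)) hS hSh (le_max_left _ _) hτ hw hw0 hSpos hc (le_max_right _ _)
  have heq : ∀ (c : MvPolynomial σ F) (r : ℕ), c.IsHomogeneous r → r ≤ D →
      E1 * w (ψ c) = E * w1 (ψ1 c) := by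
    intro c r hc hr
    have h2 : w1 (ψ1 c) = emultiplicity S c * E1 :=
      val_form hG1 hS hSh hm hτ1 hw1 hw01 hS1pos hc hr
    rw [hval c r hc, h2]
    ring
  have hmapβ : β.map ψ = ∏ i, (X - C (θ i)) := by
    rw [hψ, ← Polynomial.map_map, hprod]
  have hmapβ1 : β.map ψ1 = ∏ i, (X - C (θ1 i)) := by
    rw [hψ1, ← Polynomial.map_map, hprod1]
  have hnrm : ∀ Q : MvPolynomial σ F, ψ (nrm β (sh e Q)) = ∏ i, evi e ψ (θ i) Q := by
    intro Q
    rw [← nrm_map ψ hβ, hmapβ, nrm_prod]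
    rfl
  have hnrm1 : ∀ Q : MvPolynomial σ F, ψ1 (nrm β (sh e Q)) = ∏ i, evi e ψ1 (θ1 i) Q := by
    intro Q
    rw [← nrm_map ψ1 hβ, hmapβ1, nrm_prod]
    rfl
  have hchr : ∀ (Q : MvPolynomial σ F) (k : ℕ),
      ψ ((chr β (sh e Q)).coeff k) = (∏ i, (X - C (evi e ψ (θ i) Q))).coeff k := by
    intro Q k
    have h1 := chr_map ψ hβ (sh e Q)
    rw [hmapβ, chr_prod] at h1
    rw [← coeff_map, ← h1]
    rfl
  have hchr1 : ∀ (Q : MvPolynomial σ F) (k : ℕ),
      ψ1 ((chr β (sh e Q)).coeff k) = (∏ i, (X - C (evi e ψ1 (θ1 i) Q))).coeff k := by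
    intro Q k
    have h1 := chr_map ψ1 hβ (sh e Q)
    rw [hmapβ1, chr_prod] at h1
    rw [← coeff_map, ← h1]
    rfl
  have hcoef : ∀ (Q : MvPolynomial σ F) (r : ℕ), Q.IsHomogeneous r → r ≤ 2 * d → ∀ k,
      E1 * w ((∏ i, (X - C (evi e ψ (θ i) Q))).coeff k) =
        E * w1 ((∏ i, (X - C (evi e ψ1 (θ1 i) Q))).coeff k) := by
    intro Q r hQ hr k
    rw [← hchr, ← hchr1]
    apply heq _ _ (hch _ r k (sh_homS e hQ))
    calc (b - k) * r ≤ d * (2 * d) := Nat.mul_le_mul ((Nat.sub_le b k).trans hbd) hr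
      _ = 2 * d ^ 2 := by ring
      _ ≤ D := hD
  -- the values of the factors are finite
  have hfin : ∀ x ∈ s ∪ t, ∀ i, evi e ψ (θ i) (P x) ≠ 0 := by
    intro x hx i h0
    have h1 : ψ (nrm β (sh e (P x))) = 0 := by
      rw [hnrm]
      exact Finset.prod_eq_zero (Finset.mem_univ i) h0
    have h2 := hφ (h1.trans (map_zero φ).symm)
    exact (hG _).inj _ _ (hnh _ _ (sh_homS e (hP x hx))) le_rfl (hBP x hx) h2
  have hfin1 : ∀ x ∈ s ∪ t, ∀ i, evi e ψ1 (θ1 i) (P x) ≠ 0 := by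
    intro x hx i h0
    have h1 : ψ1 (nrm β (sh e (P x))) = 0 := by
      rw [hnrm1]
      exact Finset.prod_eq_zero (Finset.mem_univ i) h0
    have h2 := hφ1 (h1.trans (map_zero φ1).symm)
    refine hG1.inj _ _ (hnh _ _ (sh_homS e (hP x hx))) ?_ (hBP x hx) h2
    calc b * dg x ≤ d * d := Nat.mul_le_mul hbd (hdg x hx)
      _ ≤ 2 * d ^ 2 := by nlinarith
      _ ≤ D := hD
  let a : κ → Fin (β.map χ).natDegree → ℕ := fun x i => (E1 * w (evi e ψ (θ i) (P x))).toNat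
  let a1 : κ → Fin (β.map χ1).natDegree → ℕ :=
    fun x i => (E * w1 (evi e ψ1 (θ1 i) (P x))).toNat
  have ha : ∀ x ∈ s ∪ t, ∀ i, E1 * w (evi e ψ (θ i) (P x)) = (a x i : ℕ∞) := by
    intro x hx i
    refine (ENat.natCast_toNat ?_).symm
    intro h
    exact hfin x hx i ((hW.top _).mp h)
  have ha1 : ∀ x ∈ s ∪ t, ∀ i, E * w1 (evi e ψ1 (θ1 i) (P x)) = (a1 x i : ℕ∞) := by
    intro x hx i
    refine (ENat.natCast_toNat ?_).symm
    intro h
    exact hfin1 x hx i ((hW1.top _).mp h)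
  have hpairs : ∀ x ∈ s ∪ t, ∀ y ∈ s ∪ t, ∑ i, a x i * a y i = ∑ i, a1 x i * a1 y i := by
    intro x hx y hy
    refine MP64d474.S3.Ga8.sum_mul (val_ga8 hW) (val_ga8 hW1) (fun i => evi e ψ (θ i) (P x))
      (fun i => evi e ψ (θ i) (P y)) (fun i => evi e ψ1 (θ1 i) (P x))
      (fun i => evi e ψ1 (θ1 i) (P y)) (a x) (a y) (a1 x) (a1 y) (ha x hx) (ha y hy) (ha1 x hx)
      (ha1 y hy) ?_ ?_ ?_
    · exact hcoef (P x) (dg x) (hP x hx) ((hdg x hx).trans (by omega))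
    · exact hcoef (P y) (dg y) (hP y hy) ((hdg y hy).trans (by omega))
    · have h3 := hcoef (P x * P y) (dg x + dg y) ((hP x hx).mul (hP y hy))
        (by have := hdg x hx; have := hdg y hy; omega)
      intro k
      have h4 := h3 k
      have e1 : ∀ i, evi e ψ (θ i) (P x * P y) = evi e ψ (θ i) (P x) * evi e ψ (θ i) (P y) :=
        fun i => map_mul _ _ _
      have e2 : ∀ i, evi e ψ1 (θ1 i) (P x * P y) =
          evi e ψ1 (θ1 i) (P x) * evi e ψ1 (θ1 i) (P y) := fun i => map_mul _ _ _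
      simp only [e1, e2] at h4
      exact h4
  -- values of the two products
  have hsum : ∀ (u : Finset κ), u ⊆ s ∪ t → ∀ i,
      E1 * w (evi e ψ (θ i) (∏ x ∈ u, P x)) = ((∑ x ∈ u, a x i : ℕ) : ℕ∞) := by
    intro u hu i
    rw [map_prod, val_prod hw, Finset.mul_sum, Nat.cast_sum]
    exact Finset.sum_congr rfl fun x hx => ha x (hu hx) i
  have hsum1 : ∀ (u : Finset κ), u ⊆ s ∪ t → ∀ i,
      E * w1 (evi e ψ1 (θ1 i) (∏ x ∈ u, P x)) = ((∑ x ∈ u, a1 x i : ℕ) : ℕ∞) := by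
    intro u hu i
    rw [map_prod, val_prod hw1, Finset.mul_sum, Nat.cast_sum]
    exact Finset.sum_congr rfl fun x hx => ha1 x (hu hx) i
  have hL : ∀ i, ∑ x ∈ s, a1 x i = ∑ x ∈ t, a1 x i := by
    intro i
    have h1 : evi e ψ1 (θ1 i) (∏ x ∈ s, P x + ∏ x ∈ t, P x) = 0 := by
      obtain ⟨q, hq⟩ := hdiv
      rw [evi_apply, hψ1, ← Polynomial.map_map, hq, Polynomial.map_mul, hprod1, eval_mul,
        eval_prod, Finset.prod_eq_zero (Finset.mem_univ i), zero_mul]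
      rw [eval_sub, eval_X, eval_C, sub_self]
    rw [map_add] at h1
    have h2 : evi e ψ1 (θ1 i) (∏ x ∈ s, P x) = - evi e ψ1 (θ1 i) (∏ x ∈ t, P x) :=
      eq_neg_of_add_eq_zero_left h1
    have h3 := hsum1 s Finset.subset_union_left i
    rw [h2, val_neg hw1, hsum1 t Finset.subset_union_right i] at h3
    exact_mod_cast h3.symm
  have hR := MP64d474.S3.Ga8.eq_of_pairs s t a a1 hpairs hL
  have hWeq : ∀ i, E1 * w (evi e ψ (θ i) (∏ x ∈ s, P x)) =
      E1 * w (evi e ψ (θ i) (∏ x ∈ t, P x)) := by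
    intro i
    rw [hsum s Finset.subset_union_left i, hsum t Finset.subset_union_right i, hR i]
  -- the norms
  have hle : E1 * w (ψ (nrm β (sh e (∏ x ∈ s, P x)))) ≤
      E1 * w (ψ (nrm β (sh e (∏ x ∈ s, P x + ∏ x ∈ t, P x)))) := by
    rw [hnrm, hnrm, val_prod hw, val_prod hw, Finset.mul_sum, Finset.mul_sum]
    apply Finset.sum_le_sum
    intro i _
    rw [map_add]
    refine le_trans ?_ (hW.add _ _)
    rw [← hWeq i, min_self]
  have hh1 : (nrm β (sh e (∏ x ∈ s, P x))).IsHomogeneous (b * n) :=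
    hnh _ _ (sh_homS e hs)
  have hh2 : (nrm β (sh e (∏ x ∈ s, P x + ∏ x ∈ t, P x))).IsHomogeneous (b * n) :=
    hnh _ _ (sh_homS e (hs.add ht))
  rw [hval _ _ hh1, hval _ _ hh2] at hle
  -- cancel
  obtain ⟨x, hx⟩ := ENat.ne_top_iff_exists.mp hSfin
  obtain ⟨y, hy⟩ := ENat.ne_top_iff_exists.mp hS1fin
  rw [← hx, ← hy] at hle
  have hx0 : x ≠ 0 := by
    rintro rfl
    exact hSpos (by rw [← hx]; rfl)
  have hy0 : y ≠ 0 := by
    rintro rfl
    exact hS1pos (by rw [← hy]; rfl)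
  by_contra hcon
  rw [not_le] at hcon
  obtain ⟨u, hu⟩ := ENat.ne_top_iff_exists.mp (ne_top_of_lt hcon)
  rw [← hu] at hcon hle
  by_cases htop : emultiplicity S (nrm β (sh e (∏ x ∈ s, P x))) = ⊤
  · rw [htop, ENat.top_mul (by exact_mod_cast hx0), ENat.mul_top (by exact_mod_cast hy0)] at hle
    have : ((y * (u * x) : ℕ) : ℕ∞) = ⊤ := by
      push_cast
      exact top_le_iff.mp hle
    exact ENat.natCast_ne_top _ this
  · obtain ⟨v, hv⟩ := ENat.ne_top_iff_exists.mp htop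
    rw [← hv] at hcon hle
    norm_cast at hcon hle
    have h5 : v * x ≤ u * x := Nat.le_of_mul_le_mul_left hle (Nat.pos_of_ne_zero hy0)
    have h6 : v ≤ u := Nat.le_of_mul_le_mul_right h5 (Nat.pos_of_ne_zero hx0)
    omega

/-- the bracket, with the facts on norms as hypotheses -/
theorem bracket_core {K K1 : Type*} [Field K] [CharZero K] [Field K1] [CharZero K1]
    {χ : MvPolynomial σ F →+* K[X]} {χ1 : MvPolynomial σ F →+* K1[X]}
    (hG : ∀ D, Good χ D) {D : ℕ} (hG1 : Good χ1 D) (hD : 2 * d ^ 2 ≤ D)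
    (hbd : b ≤ d) (hb0 : 0 < b) (hβ : β.Monic) (hβd : β.natDegree = b)
    (hirr : Irreducible β)
    (hnh : ∀ (h : (MvPolynomial σ F)[X]) (m : ℕ), HomS m h →
      (nrm β h).IsHomogeneous (b * m))
    (hch : ∀ (g : (MvPolynomial σ F)[X]) (m k : ℕ), HomS m g →
      ((chr β g).coeff k).IsHomogeneous ((b - k) * m))
    (s t : Finset κ) (P : κ → MvPolynomial σ F) (dg : κ → ℕ)
    (hP : ∀ x ∈ s ∪ t, (P x).IsHomogeneous (dg x)) (hdg : ∀ x ∈ s ∪ t, dg x ≤ d)
    (hBP : ∀ x ∈ s ∪ t, ¬ β ∣ sh e (P x))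
    (hs : (∏ x ∈ s, P x).IsHomogeneous n) (ht : (∏ x ∈ t, P x).IsHomogeneous n)
    (hdiv : β.map χ1 ∣ (sh e (∏ x ∈ s, P x + ∏ x ∈ t, P x)).map χ1) :
    β ∣ sh e (∏ x ∈ s, P x + ∏ x ∈ t, P x) := by
  classical
  have hBP' : ∀ x ∈ s ∪ t, nrm β (sh e (P x)) ≠ 0 := fun x hx h0 =>
    hBP x hx (dvd_of_nrm_eq_zero hβ hirr _ h0)
  set N1 := nrm β (sh e (∏ x ∈ s, P x)) with hN1
  set N2 := nrm β (sh e (∏ x ∈ s, P x + ∏ x ∈ t, P x)) with hN2
  have hN1p : N1 = ∏ x ∈ s, nrm β (sh e (P x)) := by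
    rw [hN1, map_prod, nrm_prod_right hβ]
  have hN1h : N1.IsHomogeneous (b * n) := hnh _ _ (sh_homS e hs)
  have hN2h : N2.IsHomogeneous (b * n) := hnh _ _ (sh_homS e (hs.add ht))
  have hN10 : N1 ≠ 0 := by
    rw [hN1p]
    exact Finset.prod_ne_zero_iff.mpr fun x hx => hBP' x (Finset.mem_union_left _ hx)
  have hdvd : N1 ∣ N2 := by
    rw [UniqueFactorizationMonoid.dvd_iff_emultiplicity_le hN10]
    intro S hS
    by_cases hSN : S ∣ N1
    · rw [hN1p, hS.dvd_finsetProd_iff] at hSN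
      obtain ⟨x, hx, hSx⟩ := hSN
      have hx' : x ∈ s ∪ t := Finset.mem_union_left _ hx
      obtain ⟨m, hm, hSh⟩ := hom_of_dvd (hnh _ _ (sh_homS e (hP x hx'))) (hBP' x hx') hSx
      have hmD : m ≤ D := by
        calc m ≤ b * dg x := hm
          _ ≤ d * d := Nat.mul_le_mul hbd (hdg x hx')
          _ ≤ 2 * d ^ 2 := by nlinarith
          _ ≤ D := hD
      have hm0 : 0 < m := by
        rcases Nat.eq_zero_or_pos m with h0 | h0
        · exfalso
          subst h0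
          have h1 : S = MvPolynomial.C (S.coeff 0) :=
            (MvPolynomial.totalDegree_eq_zero_iff_eq_C).mp (Nat.le_zero.mp hSh.totalDegree_le)
          have h2 : S.coeff 0 ≠ 0 := by
            intro h3
            rw [h3, MvPolynomial.C_0] at h1
            exact hS.ne_zero h1
          apply hS.not_isUnit
          rw [h1]
          exact (isUnit_iff_ne_zero.mpr h2).map MvPolynomial.C
        · exact h0
      exact step_S hG hG1 hD hbd hβ hnh hch s t P dg hP hdg hBP' hs ht hdiv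
        hS.irreducible hSh hm0 hmD
    · rw [emultiplicity_eq_zero.mpr hSN]
      exact bot_le
  apply dvd_of_nrm_eq_zero hβ hirr
  rw [← hN2]
  by_contra hN20
  obtain ⟨q, hq⟩ := hdvd
  have hq0 : q ≠ 0 := by
    rintro rfl
    exact hN20 (by rw [hq, mul_zero])
  obtain ⟨m, _, hqh⟩ := hom_of_dvd hN2h hN20 (Dvd.intro_left N1 hq.symm)
  have hdeg : b * n + m = b * n := by
    have h1 := hN1h.mul hqh
    rw [← hq] at h1
    exact h1.inj_right hN2h hN20
  have hm0 : m = 0 := by omega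
  subst hm0
  have hqC : q = MvPolynomial.C (q.coeff 0) :=
    (MvPolynomial.totalDegree_eq_zero_iff_eq_C).mp (Nat.le_zero.mp hqh.totalDegree_le)
  have hc0 : q.coeff 0 ≠ 0 := by
    intro h3
    rw [h3, MvPolynomial.C_0] at hqC
    exact hq0 hqC
  -- on the line
  have hz : χ1 N2 = 0 := by
    rw [hN2, ← nrm_map χ1 hβ]
    apply nrm_eq_zero_of_dvd (hβ.map χ1) _ hdiv
    rw [hβ.natDegree_map, hβd]
    exact hb0
  rw [hq, map_mul] at hz
  rcases mul_eq_zero.mp hz with h | h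
  · rw [hN1p, map_prod, Finset.prod_eq_zero_iff] at h
    obtain ⟨x, hx, h⟩ := h
    have hx' : x ∈ s ∪ t := Finset.mem_union_left _ hx
    refine hG1.inj _ _ (hnh _ _ (sh_homS e (hP x hx'))) ?_ (hBP' x hx') h
    calc b * dg x ≤ d * d := Nat.mul_le_mul hbd (hdg x hx')
      _ ≤ 2 * d ^ 2 := by nlinarith
      _ ≤ D := hD
  · rw [hqC] at h
    have h1 : IsUnit (χ1 (MvPolynomial.C (q.coeff 0))) :=
      ((isUnit_iff_ne_zero.mpr hc0).map MvPolynomial.C).map χ1
    exact h1.ne_zero h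

end Step

/-- the bracket for indexed products, from the ambient line and the special line -/
theorem bracket_fin {K K1 : Type*} [Field K] [CharZero K] [Field K1] [CharZero K1]
    {χ : MvPolynomial σ F →+* K[X]} {χ1 : MvPolynomial σ F →+* K1[X]}
    (hG : ∀ D, Good χ D) {D d b n : ℕ} (hG1 : Good χ1 D) (hD : 2 * d ^ 2 ≤ D)
    (hbd : b ≤ d) {e : σ → F} {B : MvPolynomial σ F} (hB : B.IsHomogeneous b)
    (hBi : Irreducible B) (he : MvPolynomial.eval e B ≠ 0)
    {κ : Type*} [DecidableEq κ] (s t : Finset κ) (P : κ → MvPolynomial σ F) (dg : κ → ℕ)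
    (hP : ∀ x ∈ s ∪ t, (P x).IsHomogeneous (dg x)) (hdg : ∀ x ∈ s ∪ t, dg x ≤ d)
    (hBP : ∀ x ∈ s ∪ t, ¬ B ∣ P x)
    (hs : (∏ x ∈ s, P x).IsHomogeneous n) (ht : (∏ x ∈ t, P x).IsHomogeneous n)
    (hdiv : (sh e B).map χ1 ∣ (sh e (∏ x ∈ s, P x + ∏ x ∈ t, P x)).map χ1) :
    B ∣ ∏ x ∈ s, P x + ∏ x ∈ t, P x := by
  classical
  have hb0 : 0 < b := by
    rcases Nat.eq_zero_or_pos b with h0 | h0
    · exfalso
      subst h0
      have h1 : B = MvPolynomial.C (B.coeff 0) :=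
        (MvPolynomial.totalDegree_eq_zero_iff_eq_C).mp (Nat.le_zero.mp hB.totalDegree_le)
      have h2 : B.coeff 0 ≠ 0 := by
        intro h3
        rw [h3, MvPolynomial.C_0] at h1
        exact hBi.ne_zero h1
      apply hBi.not_isUnit
      rw [h1]
      exact (isUnit_iff_ne_zero.mpr h2).map MvPolynomial.C
    · exact h0
  have hβd := beta_natDegree e hB he
  have hβ := beta_monic e hB he
  have hβS : HomS (beta e B).natDegree (beta e B) := by
    rw [hβd]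
    exact beta_homS e hB
  have hdiv' : (beta e B).map χ1 ∣ (sh e (∏ x ∈ s, P x + ∏ x ∈ t, P x)).map χ1 := by
    obtain ⟨u, hu⟩ := beta_unit (k := F) e he
    have h1 : (beta e B).map χ1 =
        (Polynomial.C (MvPolynomial.C (MvPolynomial.eval e B)⁻¹)).map χ1 * (sh e B).map χ1 := by
      rw [beta, Polynomial.map_mul]
    have h2 : IsUnit ((Polynomial.C (MvPolynomial.C (MvPolynomial.eval e B)⁻¹)).map χ1) :=
      (beta_unit (k := F) e he).map (Polynomial.mapRingHom χ1)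
    rw [h1]
    exact h2.mul_left_dvd.mpr hdiv
  apply dvd_of_beta_dvd e
  refine bracket_core hG hG1 hD hbd hb0 hβ hβd
    (beta_prime e he (UniqueFactorizationMonoid.irreducible_iff_prime.mp hBi)).irreducible
    ?_ ?_ s t P dg hP hdg ?_ hs ht hdiv'
  · intro h m hh
    have := nrm_homS hβ hβS hh
    rwa [hβd] at this
  · intro g m k hg
    by_cases hk : k ≤ b
    · have := chr_coeff_hom hβ hβS hg k (by rw [hβd]; exact hk)
      rwa [hβd] at this
    · have h1 := (chr_monic hβ g).2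
      rw [Polynomial.coeff_eq_zero_of_natDegree_lt (by rw [h1, hβd]; omega)]
      exact MvPolynomial.isHomogeneous_zero _ _ _
  · intro x hx h
    exact hBP x hx (dvd_of_beta_dvd e h)

end Pool.Agent.Lib.MP_64d474_lc.S3.B64
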