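import Mathlib

/-!
Places of the splitting field of a monic polynomial over `K[t]`.
-/

namespace Pool.Agent.Lib.MP_64d474_lc.S3

open Polynomial

universe u

/-- The additive functions used below. -/
structure IsVal {Ω : Type*} [CommRing Ω] (w : Ω → ℕ∞) : Prop where
  mul : ∀ x y, w (x * y) = w x + w y
  add : ∀ x y, min (w x) (w y) ≤ w (x + y)
  top : ∀ x, w x = ⊤ ↔ x = 0
  one : w 1 = 0

theorem exists_place {K : Type u} [Field K] [CharZero K] (β : (K[X])[X]) (hβ : β.Monic) (τ : K) :
    ∃ (Ω : Type u) (_ : CommRing Ω) (_ : IsDomain Ω) (w : Ω → ℕ∞) (φ : K[X] →+* Ω)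
      (θ : Fin β.natDegree → Ω),
      IsVal w ∧ Function.Injective φ ∧ β.map φ = ∏ i, (X - C (θ i)) ∧
      0 < w (φ (X - C τ)) ∧ ∀ c : K[X], c.eval τ ≠ 0 → w (φ c) = 0 := by
  classical
  let L := FractionRing K[X]
  let f : L[X] := β.map (algebraMap K[X] L)
  let E := f.SplittingField
  have : IsScalarTower K[X] L E := inferInstance
  have : CharZero L := charZero_of_injective_algebraMap (IsFractionRing.injective K[X] L)
  have : FiniteDimensional L E := inferInstance
  have : Algebra.IsSeparable L E := inferInstance
  let B := integralClosure K[X] E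
  have : IsDedekindDomain B := integralClosure.isDedekindDomain K[X] L E
  have hinjE : Function.Injective (algebraMap K[X] E) := by
    have h1 : (algebraMap K[X] E) = (algebraMap L E).comp (algebraMap K[X] L) :=
      IsScalarTower.algebraMap_eq K[X] L E
    rw [h1]
    exact (algebraMap L E).injective.comp (IsFractionRing.injective K[X] L)
  have hinjB : Function.Injective (algebraMap K[X] B) := by
    intro x y hxy
    apply hinjE
    have h2 : algebraMap K[X] E = (algebraMap B E).comp (algebraMap K[X] B) :=
      IsScalarTower.algebraMap_eq K[X] B E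
    rw [h2, RingHom.comp_apply, RingHom.comp_apply, hxy]
  have : Algebra.IsIntegral K[X] B := IsIntegralClosure.isIntegral_algebra K[X] E
  set P : Ideal K[X] := Ideal.span {X - C τ} with hP
  have hPmax : P.IsMaximal := by
    apply PrincipalIdealRing.isMaximal_of_irreducible
    exact irreducible_X_sub_C τ
  obtain ⟨Q, hQmax, hQ⟩ := Ideal.exists_ideal_over_maximal_of_isIntegral (S := B) P (by
    rw [(RingHom.injective_iff_ker_eq_bot _).mp hinjB]
    exact bot_le)
  have : Q.IsPrime := hQmax.isPrime
  have hτQ : algebraMap K[X] B (X - C τ) ∈ Q := by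
    rw [← Ideal.mem_comap, hQ, hP]
    exact Ideal.mem_span_singleton_self _
  have hQne : Q ≠ ⊥ := by
    intro h
    rw [h, Ideal.mem_bot] at hτQ
    have := hinjB (hτQ.trans (map_zero _).symm)
    exact X_sub_C_ne_zero τ this
  let Ω := Localization.AtPrime Q
  have : IsDiscreteValuationRing Ω :=
    IsLocalization.AtPrime.isDiscreteValuationRing_of_dedekind_domain B hQne Ω
  have hinjΩ : Function.Injective (algebraMap B Ω) :=
    IsLocalization.injective Ω (Ideal.primeCompl_le_nonZeroDivisors Q)
  -- the roots
  have hsp : (f.map (algebraMap L E)).Splits := SplittingField.splits f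
  have hfmap : f.map (algebraMap L E) = β.map (algebraMap K[X] E) := by
    rw [Polynomial.map_map, ← IsScalarTower.algebraMap_eq K[X] L E]
  have hmon : (β.map (algebraMap K[X] E)).Monic := hβ.map _
  rw [hfmap] at hsp
  have hroots := hsp.eq_prod_roots_of_monic hmon
  set R := (β.map (algebraMap K[X] E)).roots with hR
  have hcard : R.card = β.natDegree := by
    have h1 := hsp.natDegree_eq_card_roots
    rw [hβ.natDegree_map] at h1
    exact h1.symm
  have hint : ∀ x ∈ R, IsIntegral K[X] x := by
    intro x hx
    rw [hR, mem_roots hmon.ne_zero] at hx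
    refine ⟨β, hβ, ?_⟩
    rw [IsRoot.def, eval_map] at hx
    exact hx
  obtain ⟨l, hl⟩ : ∃ l : List E, (l : Multiset E) = R := ⟨R.toList, R.coe_toList⟩
  have hlen : l.length = β.natDegree := by
    rw [← hcard, ← hl, Multiset.coe_card]
  let θE : Fin β.natDegree → E := fun i => l.get (i.cast hlen.symm)
  have hθmem : ∀ i, θE i ∈ R := by
    intro i
    rw [← hl, Multiset.mem_coe]
    exact List.get_mem _ _
  have hprod : β.map (algebraMap K[X] E) = ∏ i, (X - C (θE i)) := by
    rw [hroots, ← hl, Multiset.map_coe, Multiset.prod_coe]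
    have h1 : (l.map fun x => (X - C x : E[X])).prod =
        ∏ i : Fin l.length, (X - C (l.get i)) :=
      (Fin.prod_univ_fun_getElem l (fun x => (X - C x : E[X]))).symm
    rw [h1]
    exact (Fintype.prod_equiv (finCongr hlen.symm) _ _ (fun i => rfl)).symm
  let θB : Fin β.natDegree → B := fun i => ⟨θE i, hint _ (hθmem i)⟩
  have hprodB : β.map (algebraMap K[X] B) = ∏ i, (X - C (θB i)) := by
    have hinj : Function.Injective (Polynomial.map (algebraMap B E)) :=
      Polynomial.map_injective _ (FaithfulSMul.algebraMap_injective B E)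
    apply hinj
    rw [Polynomial.map_map, ← IsScalarTower.algebraMap_eq K[X] B E, hprod, Polynomial.map_prod]
    refine Finset.prod_congr rfl fun i _ => ?_
    rw [Polynomial.map_sub, map_X, map_C]
    rfl
  refine ⟨Ω, inferInstance, inferInstance, fun x => IsDiscreteValuationRing.addVal Ω x,
    (algebraMap B Ω).comp (algebraMap K[X] B), fun i => algebraMap B Ω (θB i), ?_, ?_, ?_, ?_, ?_⟩
  · exact ⟨fun x y => (IsDiscreteValuationRing.addVal Ω).map_mul x y,
      fun x y => (IsDiscreteValuationRing.addVal Ω).map_add x y,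
      fun x => IsDiscreteValuationRing.addVal_eq_top_iff,
      (IsDiscreteValuationRing.addVal Ω).map_one⟩
  · exact hinjΩ.comp hinjB
  · rw [← Polynomial.map_map, hprodB, Polynomial.map_prod]
    refine Finset.prod_congr rfl fun i _ => ?_
    rw [Polynomial.map_sub, map_X, map_C]
  · have h1 : ¬ IsUnit (algebraMap B Ω (algebraMap K[X] B (X - C τ))) := by
      rw [← mem_nonunits_iff, ← IsLocalRing.mem_maximalIdeal,
        IsLocalization.AtPrime.to_map_mem_maximal_iff Ω Q]
      exact hτQ
    rw [pos_iff_ne_zero]
    intro h2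
    apply h1
    exact IsDiscreteValuationRing.addVal_eq_zero_iff.1 h2
  · intro c hc
    have h1 : IsUnit (algebraMap B Ω (algebraMap K[X] B c)) := by
      rw [IsLocalization.AtPrime.isUnit_to_map_iff Ω Q]
      intro h2
      have h3 : c ∈ P := by
        rw [← hQ, Ideal.mem_comap]
        exact h2
      rw [hP, Ideal.mem_span_singleton, dvd_iff_isRoot] at h3
      exact hc h3
    exact IsDiscreteValuationRing.addVal_eq_zero_iff.2 h1

end Pool.Agent.Lib.MP_64d474_lc.S3
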