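import Mathlib
import Pool.Agent.Lib.MP_64d474_lc.S3.Gauss8
import Pool.Agent.Lib.MP_64d474_lc.S3.Place91
import Pool.Agent.Lib.MP_64d474_lc.S3.Norm97

/-! Row BR2: steps (f) and (g) of the bracket, from two places with equal values. -/

set_option autoImplicit false

namespace MP64d474
namespace S3
namespace Br8

open Polynomial Pool.Agent.Lib.MP_64d474_lc.S3 S3Norm97

universe u

/-- Two places, one over the ambient line and one over the line of the section, with the same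
values on the elements of `good`; the first one is centred at the prime `S`. -/
def TwoPlaces {A : Type*} [CommRing A] {L : Type*} [CommRing L] (χ : A →+* L) (β : A[X])
    (good : A → Prop) (S : A) : Prop :=
  ∃ (Ω : Type u) (_ : CommRing Ω) (_ : IsDomain Ω) (w : Ω → ℕ∞) (ψ : A →+* Ω)
    (θ : Fin β.natDegree → Ω)
    (Ω' : Type u) (_ : CommRing Ω') (_ : IsDomain Ω') (w' : Ω' → ℕ∞) (φ : L →+* Ω')
    (θ' : Fin β.natDegree → Ω'),
    IsVal w ∧ IsVal w' ∧ Function.Injective ψ ∧ Function.Injective φ ∧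
    β.map ψ = ∏ i, (X - C (θ i)) ∧ β.map (φ.comp χ) = ∏ i, (X - C (θ' i)) ∧
    (∀ c, good c → w (ψ c) = w' (φ (χ c))) ∧ 0 < w (ψ S) ∧ ∀ c, ¬ S ∣ c → w (ψ c) = 0

theorem ga_of {Ω : Type*} [CommRing Ω] {w : Ω → ℕ∞} (h : IsVal w) : Ga8.IsVal w where
  zero := (h.top 0).2 rfl
  one := h.one
  mul := h.mul
  add := h.add

/-- In a factorial ring divisibility is checked at the primes. -/
theorem dvd_of_primes {A : Type*} [CommRing A] [IsDomain A] [UniqueFactorizationMonoid A]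
    (a : A) (ha : a ≠ 0) : ∀ c : A, (∀ S, Prime S → ∀ j, S ^ j ∣ a → S ^ j ∣ c) → a ∣ c := by
  induction a using UniqueFactorizationMonoid.induction_on_prime with
  | h₁ => exact absurd rfl ha
  | h₂ x hx => intro c _; exact hx.dvd
  | h₃ a p ha0 hp ih =>
    intro c hc
    have h1 : p ^ 1 ∣ c := hc p hp 1 (by rw [pow_one]; exact dvd_mul_right _ _)
    rw [pow_one] at h1
    obtain ⟨c', rfl⟩ := h1
    apply mul_dvd_mul_left
    apply ih ha0
    intro S hS j hj
    by_cases hSp : S ∣ p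
    · have hassoc : Associated S p := hS.irreducible.associated_of_dvd hp.irreducible hSp
      have h2 : S ^ (j + 1) ∣ p * a := by
        rw [pow_succ, mul_comm]
        exact mul_dvd_mul hSp hj
      have h3 := hc S hS (j + 1) h2
      obtain ⟨v, hv⟩ := hassoc
      rw [← hv, pow_succ', mul_assoc] at h3
      have h4 := (mul_dvd_mul_iff_left hS.ne_zero).1 h3
      exact (Units.dvd_mul_left).1 h4
    · have h2 : S ^ j ∣ p * c' := hc S hS j (hj.mul_left p)
      exact hS.pow_dvd_of_dvd_mul_left j hSp h2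

/-- (f) + (g): the norm of the first product divides the norm of the sum. -/
theorem nrm_dvd {A : Type*} [CommRing A] [IsDomain A] [UniqueFactorizationMonoid A]
    {L : Type*} [CommRing L] [IsDomain L] (χ : A →+* L) (β : A[X]) (hβ : β.Monic)
    (good : A → Prop) {κ : Type*} [DecidableEq κ] (s t : Finset κ) (P : κ → A[X])
    (hplaces : ∀ S : A, Prime S → S ∣ nrm β (∏ x ∈ s, P x) → TwoPlaces.{u} χ β good S)
    (hgood1 : ∀ x ∈ s ∪ t, ∀ k, good ((chr β (P x)).coeff k))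
    (hgood2 : ∀ x ∈ s ∪ t, ∀ y ∈ s ∪ t, ∀ k, good ((chr β (P x * P y)).coeff k))
    (hne : ∀ x ∈ s ∪ t, χ (nrm β (P x)) ≠ 0)
    (hsum : β.map χ ∣ (∏ x ∈ s, P x + ∏ x ∈ t, P x).map χ) :
    nrm β (∏ x ∈ s, P x) ∣ nrm β (∏ x ∈ s, P x + ∏ x ∈ t, P x) := by
  have hne0 : ∀ x ∈ s ∪ t, nrm β (P x) ≠ 0 := fun x hx h0 => hne x hx (by rw [h0, map_zero])
  have hN : nrm β (∏ x ∈ s, P x) ≠ 0 := by
    rw [nrm_prod_right hβ]
    exact Finset.prod_ne_zero_iff.2 fun x hx => hne0 x (Finset.mem_union_left _ hx)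
  apply dvd_of_primes _ hN
  intro S hS j hj
  rcases Nat.eq_zero_or_pos j with rfl | hjpos
  · simp
  have hSN : S ∣ nrm β (∏ x ∈ s, P x) := (dvd_pow_self S hjpos.ne').trans hj
  obtain ⟨Ω, _, _, w, ψ, θ, Ω', _, _, w', φ, θ', hw, hw', hψ, hφ, hθ, hθ', hval, hSpos, hunit⟩ :=
    hplaces S hS hSN
  have gw := ga_of hw
  have gw' := ga_of hw'
  -- norms and characteristic polynomials at the two places
  have en : ∀ h : A[X], ψ (nrm β h) = ∏ i, eval (θ i) (h.map ψ) := by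
    intro h
    rw [← nrm_map ψ hβ, hθ, nrm_prod]
  have en' : ∀ h : A[X], φ (χ (nrm β h)) = ∏ i, eval (θ' i) (h.map (φ.comp χ)) := by
    intro h
    rw [← RingHom.comp_apply, ← nrm_map (φ.comp χ) hβ, hθ', nrm_prod]
  have ec : ∀ h : A[X], (∏ i, (X - C (eval (θ i) (h.map ψ)))) = (chr β h).map ψ := by
    intro h
    rw [← chr_map ψ hβ, hθ, chr_prod]
  have ec' : ∀ h : A[X], (∏ i, (X - C (eval (θ' i) (h.map (φ.comp χ))))) =
      (chr β h).map (φ.comp χ) := by
    intro h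
    rw [← chr_map (φ.comp χ) hβ, hθ', chr_prod]
  have hfin : ∀ x ∈ s ∪ t, ∀ i, w (eval (θ i) ((P x).map ψ)) =
      (((w (eval (θ i) ((P x).map ψ))).toNat : ℕ) : ℕ∞) := by
    intro x hx i
    have h1 : ψ (nrm β (P x)) ≠ 0 := (map_ne_zero_iff ψ hψ).2 (hne0 x hx)
    rw [en] at h1
    have h2 := Finset.prod_ne_zero_iff.1 h1 i (Finset.mem_univ i)
    exact (ENat.natCast_toNat fun h3 => h2 ((hw.top _).1 h3)).symm
  have hfin' : ∀ x ∈ s ∪ t, ∀ i, w' (eval (θ' i) ((P x).map (φ.comp χ))) =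
      (((w' (eval (θ' i) ((P x).map (φ.comp χ)))).toNat : ℕ) : ℕ∞) := by
    intro x hx i
    have h1 : φ (χ (nrm β (P x))) ≠ 0 := (map_ne_zero_iff φ hφ).2 (hne x hx)
    rw [en'] at h1
    have h2 := Finset.prod_ne_zero_iff.1 h1 i (Finset.mem_univ i)
    exact (ENat.natCast_toNat fun h3 => h2 ((hw'.top _).1 h3)).symm
  have hcoef : ∀ h : A[X], (∀ k, good ((chr β h).coeff k)) → ∀ k,
      w ((∏ i, (X - C (eval (θ i) (h.map ψ)))).coeff k) =
      w' ((∏ i, (X - C (eval (θ' i) (h.map (φ.comp χ))))).coeff k) := by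
    intro h hg k
    rw [ec, ec', coeff_map, coeff_map, hval _ (hg k)]
    rfl
  -- (f)
  have hf : ∀ i, ∑ x ∈ s, (w (eval (θ i) ((P x).map ψ))).toNat =
      ∑ x ∈ t, (w (eval (θ i) ((P x).map ψ))).toNat := by
    apply Ga8.eq_of_pairs s t (fun x i => (w (eval (θ i) ((P x).map ψ))).toNat)
      (fun x i => (w' (eval (θ' i) ((P x).map (φ.comp χ)))).toNat)
    · intro x hx y hy
      apply Ga8.sum_mul gw gw' (fun i => eval (θ i) ((P x).map ψ))
        (fun i => eval (θ i) ((P y).map ψ)) (fun i => eval (θ' i) ((P x).map (φ.comp χ)))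
        (fun i => eval (θ' i) ((P y).map (φ.comp χ)))
      · exact hfin x hx
      · exact hfin y hy
      · exact hfin' x hx
      · exact hfin' y hy
      · exact hcoef _ (hgood1 x hx)
      · exact hcoef _ (hgood1 y hy)
      · have := hcoef _ (hgood2 x hx y hy)
        simpa only [Polynomial.map_mul, eval_mul] using this
    · intro i
      have h1 : (β.map (φ.comp χ)) ∣ (∏ x ∈ s, P x + ∏ x ∈ t, P x).map (φ.comp χ) := by
        rw [← Polynomial.map_map, ← Polynomial.map_map]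
        exact Polynomial.map_dvd φ hsum
      have h2 : eval (θ' i) (β.map (φ.comp χ)) = 0 := by
        rw [hθ', eval_prod]
        exact Finset.prod_eq_zero (Finset.mem_univ i) (by simp)
      have h3 : eval (θ' i) ((∏ x ∈ s, P x + ∏ x ∈ t, P x).map (φ.comp χ)) = 0 := by
        obtain ⟨q, hq⟩ := h1
        rw [hq, eval_mul, h2, zero_mul]
      rw [Polynomial.map_add, eval_add, Polynomial.map_prod, Polynomial.map_prod, eval_prod,
        eval_prod] at h3
      have h4 : ∏ x ∈ s, eval (θ' i) ((P x).map (φ.comp χ)) =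
          -∏ x ∈ t, eval (θ' i) ((P x).map (φ.comp χ)) := eq_neg_of_add_eq_zero_left h3
      have h5 : w' (∏ x ∈ s, eval (θ' i) ((P x).map (φ.comp χ))) =
          w' (∏ x ∈ t, eval (θ' i) ((P x).map (φ.comp χ))) := by
        rw [h4, gw'.neg]
      rw [gw'.prod, gw'.prod,
        Finset.sum_congr rfl (fun x hx => hfin' x (Finset.mem_union_left _ hx) i),
        Finset.sum_congr rfl (fun x hx => hfin' x (Finset.mem_union_right _ hx) i)] at h5
      exact_mod_cast h5
  have hf2 : ∀ i, w (eval (θ i) ((∏ x ∈ s, P x).map ψ)) =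
      w (eval (θ i) ((∏ x ∈ t, P x).map ψ)) := by
    intro i
    rw [Polynomial.map_prod, Polynomial.map_prod, eval_prod, eval_prod, gw.prod, gw.prod,
      Finset.sum_congr rfl (fun x hx => hfin x (Finset.mem_union_left _ hx) i),
      Finset.sum_congr rfl (fun x hx => hfin x (Finset.mem_union_right _ hx) i)]
    exact_mod_cast congrArg (fun n : ℕ => (n : ℕ∞)) (hf i)
  -- (g)
  have hge : w (ψ (nrm β (∏ x ∈ s, P x))) ≤ w (ψ (nrm β (∏ x ∈ s, P x + ∏ x ∈ t, P x))) := by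
    rw [en, en, gw.prod, gw.prod]
    apply Finset.sum_le_sum
    intro i _
    rw [Polynomial.map_add, eval_add]
    refine le_trans ?_ (hw.add _ _)
    rw [← hf2 i, min_self]
  -- compare the powers of S
  by_contra hcon
  have hc0 : nrm β (∏ x ∈ s, P x + ∏ x ∈ t, P x) ≠ 0 := by
    intro h0
    exact hcon (by rw [h0]; exact dvd_zero _)
  obtain ⟨m, c1, hc1, hc⟩ := WfDvdMonoid.max_power_factor hc0 hS.irreducible
  obtain ⟨r, hr⟩ := hj
  have hSfin : w (ψ S) ≠ ⊤ := fun h0 => hS.ne_zero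
    ((map_eq_zero_iff ψ hψ).1 ((hw.top _).1 h0))
  obtain ⟨v, hv⟩ := ENat.ne_top_iff_exists.1 hSfin
  have h1 : w (ψ (nrm β (∏ x ∈ s, P x + ∏ x ∈ t, P x))) = m * w (ψ S) := by
    rw [hc, map_mul, map_pow, hw.mul, gw.pow, hunit _ hc1, add_zero]
  have h2 : (j : ℕ∞) * w (ψ S) ≤ w (ψ (nrm β (∏ x ∈ s, P x))) := by
    rw [hr, map_mul, map_pow, hw.mul, gw.pow]
    exact le_self_add
  have h3 := h2.trans (hge.trans h1.le)
  rw [← hv] at h3 hSpos
  have h4 : j ≤ m := by
    have h5 : j * v ≤ m * v := by exact_mod_cast h3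
    have h6 : 0 < v := by exact_mod_cast hSpos
    exact Nat.le_of_mul_le_mul_right h5 h6
  exact hcon (by rw [hc]; exact (pow_dvd_pow S h4).mul_right _)

/-- The conclusion: `β` divides the sum of the two products. -/
theorem bracket {A : Type*} [CommRing A] [IsDomain A] [UniqueFactorizationMonoid A]
    {L : Type*} [CommRing L] [IsDomain L] (χ : A →+* L) (β : A[X]) (hβ : β.Monic)
    (hirr : Irreducible β) (hb : 0 < β.natDegree)
    (good : A → Prop) {κ : Type*} [DecidableEq κ] (s t : Finset κ) (P : κ → A[X])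
    (hplaces : ∀ S : A, Prime S → S ∣ nrm β (∏ x ∈ s, P x) → TwoPlaces.{u} χ β good S)
    (hgood1 : ∀ x ∈ s ∪ t, ∀ k, good ((chr β (P x)).coeff k))
    (hgood2 : ∀ x ∈ s ∪ t, ∀ y ∈ s ∪ t, ∀ k, good ((chr β (P x * P y)).coeff k))
    (hne : ∀ x ∈ s ∪ t, χ (nrm β (P x)) ≠ 0)
    (hquot : ∀ c, nrm β (∏ x ∈ s, P x + ∏ x ∈ t, P x) = nrm β (∏ x ∈ s, P x) * c →
      χ c = 0 → c = 0)
    (hsum : β.map χ ∣ (∏ x ∈ s, P x + ∏ x ∈ t, P x).map χ) :
    β ∣ ∏ x ∈ s, P x + ∏ x ∈ t, P x := by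
  obtain ⟨c, hc⟩ := nrm_dvd χ β hβ good s t P hplaces hgood1 hgood2 hne hsum
  have h1 : χ (nrm β (∏ x ∈ s, P x + ∏ x ∈ t, P x)) = 0 := by
    rw [← nrm_map χ hβ]
    exact nrm_eq_zero_of_dvd (hβ.map χ) (by rwa [hβ.natDegree_map χ]) hsum
  have h2 : χ (nrm β (∏ x ∈ s, P x)) ≠ 0 := by
    rw [nrm_prod_right hβ, map_prod]
    exact Finset.prod_ne_zero_iff.2 fun x hx => hne x (Finset.mem_union_left _ hx)
  rw [hc, map_mul] at h1
  have h3 : c = 0 := hquot c hc ((mul_eq_zero.1 h1).resolve_left h2)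
  rw [h3, mul_zero] at hc
  exact dvd_of_nrm_eq_zero hβ hirr _ hc

/-- `hquot` for forms of the same degree. -/
theorem quot_const {σ k : Type*} [Field k] {L : Type*} [CommRing L] [IsDomain L]
    (χ : MvPolynomial σ k →+* L) {M : ℕ} {f g : MvPolynomial σ k} (hf : f.IsHomogeneous M)
    (hg : g.IsHomogeneous M) (hg0 : g ≠ 0) (c : MvPolynomial σ k) (hc : f = g * c)
    (h : χ c = 0) : c = 0 := by
  by_contra hc0
  have hf0 : f ≠ 0 := by rw [hc]; exact mul_ne_zero hg0 hc0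
  have h1 := MvPolynomial.totalDegree_mul_of_isDomain hg0 hc0
  rw [← hc, hf.totalDegree hf0, hg.totalDegree hg0] at h1
  have h2 : c.totalDegree = 0 := by omega
  rw [MvPolynomial.totalDegree_eq_zero_iff_eq_C] at h2
  rw [h2] at h
  have h3 : (χ.comp MvPolynomial.C) (c.coeff 0) = 0 := h
  have h4 := (map_eq_zero_iff (χ.comp MvPolynomial.C) (RingHom.injective _)).1 h3
  exact hc0 (by rw [h2, h4, map_zero])

end Br8
end S3
end MP64d474
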