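import Pool.Agent.Lib.MP_64d474_lc.S3.Place91

/-!
Two places with the same values on the forms of low degree.
-/

namespace Pool.Agent.Lib.MP_64d474_lc.S3

open Polynomial

universe u v u' v'

/-- The curve `χ` separates the forms of degree at most `D`. -/
structure Good {F : Type u} [Field F] {σ : Type v} {K : Type u'} [Field K]
    (χ : MvPolynomial σ F →+* K[X]) (D : ℕ∞) : Prop where
  ne : ∀ (P : MvPolynomial σ F) (n : ℕ), P.IsHomogeneous n → (n : ℕ∞) ≤ D → P ≠ 0 → χ P ≠ 0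
  root : ∀ (P : MvPolynomial σ F) (n : ℕ), P.IsHomogeneous n → 0 < n → (n : ℕ∞) ≤ D → P ≠ 0 →
    ∃ τ, (χ P).eval τ = 0
  coprime : ∀ (P Q : MvPolynomial σ F) (m n : ℕ), P.IsHomogeneous m → Q.IsHomogeneous n →
    (m : ℕ∞) ≤ D → (n : ℕ∞) ≤ D → P ≠ 0 → Q ≠ 0 → IsRelPrime P Q →
    ∀ τ, ¬ ((χ P).eval τ = 0 ∧ (χ Q).eval τ = 0)

section hom

variable {F : Type u} [Field F] {σ : Type v}

/-- the cofactor of a form is a form -/
theorem hom_div {p q : MvPolynomial σ F} {m n : ℕ} (hp : p.IsHomogeneous m) (hp0 : p ≠ 0)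
    (hpq : (p * q).IsHomogeneous n) (hq0 : q ≠ 0) : m ≤ n ∧ q.IsHomogeneous (n - m) := by
  classical
  have hc : ∀ i, MvPolynomial.homogeneousComponent (m + i) (p * q) =
      p * MvPolynomial.homogeneousComponent i q := by
    intro i
    conv_lhs => rw [← MvPolynomial.sum_homogeneousComponent q, Finset.mul_sum, map_sum]
    have h1 : ∀ i' ∈ Finset.range (q.totalDegree + 1),
        MvPolynomial.homogeneousComponent (m + i) (p * MvPolynomial.homogeneousComponent i' q) =
        if i = i' then p * MvPolynomial.homogeneousComponent i' q else 0 := by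
      intro i' _
      have h2 : p * MvPolynomial.homogeneousComponent i' q ∈
          MvPolynomial.homogeneousSubmodule σ F (m + i') :=
        hp.mul (MvPolynomial.homogeneousComponent_isHomogeneous i' q)
      rw [MvPolynomial.homogeneousComponent_of_mem h2]
      simp
    rw [Finset.sum_congr rfl h1, Finset.sum_ite_eq]
    split_ifs with h3
    · rfl
    · rw [Finset.mem_range] at h3
      rw [MvPolynomial.homogeneousComponent_eq_zero _ _ (by omega), mul_zero]
  have hz : ∀ i, m + i ≠ n → MvPolynomial.homogeneousComponent i q = 0 := by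
    intro i hi
    have h1 := hc i
    rw [MvPolynomial.homogeneousComponent_of_mem (m := m + i) (n := n) hpq, if_neg (by omega)] at h1
    rcases mul_eq_zero.1 h1.symm with h2 | h2
    · exact absurd h2 hp0
    · exact h2
  have hmn : m ≤ n := by
    by_contra hlt
    apply hq0
    rw [← MvPolynomial.sum_homogeneousComponent q]
    exact Finset.sum_eq_zero fun i _ => hz i (by omega)
  refine ⟨hmn, ?_⟩
  have h1 : q = MvPolynomial.homogeneousComponent (n - m) q := by
    conv_lhs => rw [← MvPolynomial.sum_homogeneousComponent q]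
    by_cases h2 : n - m ∈ Finset.range (q.totalDegree + 1)
    · rw [Finset.sum_eq_single_of_mem _ h2]
      intro i _ hi
      exact hz i (by omega)
    · rw [Finset.mem_range] at h2
      rw [MvPolynomial.homogeneousComponent_eq_zero _ _ (by omega : q.totalDegree < n - m)]
      refine Finset.sum_eq_zero fun i hi => hz i ?_
      rw [Finset.mem_range] at hi
      omega
  rw [h1]
  exact MvPolynomial.homogeneousComponent_isHomogeneous _ _

/-- powers of an irreducible form -/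
theorem exists_pow_mul {S c : MvPolynomial σ F} (hS : Irreducible S) {s n : ℕ}
    (hs : S.IsHomogeneous s) (hc : c.IsHomogeneous n) (hc0 : c ≠ 0) :
    ∃ (j : ℕ) (c1 : MvPolynomial σ F), c = S ^ j * c1 ∧ ¬ S ∣ c1 ∧ c1 ≠ 0 ∧
      c1.IsHomogeneous (n - s * j) := by
  obtain ⟨j, c1, h1, h2⟩ := WfDvdMonoid.max_power_factor hc0 hS
  have hc1 : c1 ≠ 0 := by
    rintro rfl
    exact h1 (dvd_zero _)
  refine ⟨j, c1, h2, h1, hc1, ?_⟩
  rw [h2] at hc
  exact (hom_div (hs.pow j) (pow_ne_zero _ hS.ne_zero) hc hc1).2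

end hom

theorem IsVal.pow {Ω : Type*} [CommRing Ω] {w : Ω → ℕ∞} (h : IsVal w) (x : Ω) (j : ℕ) :
    w (x ^ j) = j * w x := by
  induction j with
  | zero => rw [pow_zero, h.one]; simp
  | succ j ih => rw [pow_succ, h.mul, ih]; push_cast; ring

/-- multiples -/
theorem IsVal.scale {Ω : Type*} [CommRing Ω] {w : Ω → ℕ∞} (h : IsVal w) (e : ℕ) (he : e ≠ 0) :
    IsVal (fun x => (e : ℕ∞) * w x) where
  mul := fun x y => by rw [h.mul, mul_add]
  add := fun x y => by
    have h1 := h.add x y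
    rcases min_le_iff.1 (le_refl (min (w x) (w y))) with h2 | h2
    · have h3 : w x ≤ w (x + y) := h2.trans h1
      exact (min_le_left _ _).trans (mul_le_mul_right h3 _)
    · have h3 : w y ≤ w (x + y) := h2.trans h1
      exact (min_le_right _ _).trans (mul_le_mul_right h3 _)
  top := fun x => by
    rw [← h.top]
    constructor
    · intro h1
      by_contra h2
      obtain ⟨n, hn⟩ := ENat.ne_top_iff_exists.1 h2
      rw [← hn] at h1
      have h3 : ((e * n : ℕ) : ℕ∞) = ⊤ := by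
        rw [← h1]
        push_cast
        rfl
      exact absurd h3 (ENat.natCast_ne_top _)
    · intro h1
      rw [h1]
      exact ENat.mul_top (by exact_mod_cast he)
  one := by rw [h.one, mul_zero]

section one

variable {F : Type u} [Field F] {σ : Type v} {K : Type u'} [Field K]

/-- The value of a form at a place over a root of an irreducible form. -/
theorem val_form {Ω : Type*} [CommRing Ω] [IsDomain Ω] {w : Ω → ℕ∞} (hw : IsVal w)
    {χ : MvPolynomial σ F →+* K[X]} {D : ℕ∞} (hχ : Good χ D) {φ : K[X] →+* Ω} {τ : K}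
    (h0 : ∀ c : K[X], c.eval τ ≠ 0 → w (φ c) = 0)
    {S : MvPolynomial σ F} {s : ℕ} (hs : S.IsHomogeneous s) (hS : Irreducible S)
    (hsD : (s : ℕ∞) ≤ D) (hτ : (χ S).eval τ = 0) {c1 : MvPolynomial σ F} {n : ℕ}
    (hc : c1.IsHomogeneous n) (hn : (n : ℕ∞) ≤ D) (hc0 : c1 ≠ 0) (hdvd : ¬ S ∣ c1) (j : ℕ) :
    w (φ (χ (S ^ j * c1))) = j * w (φ (χ S)) := by
  have h1 : w (φ (χ c1)) = 0 := by
    apply h0
    intro h2
    exact hχ.coprime S c1 s n hs hc hsD hn hS.ne_zero hc0 (hS.isRelPrime_iff_not_dvd.2 hdvd) τ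
      ⟨hτ, h2⟩
  rw [map_mul, map_mul, map_pow, map_pow, hw.mul, hw.pow, h1, add_zero]

end one

/-- Row BR1: two places with the same values on the forms of low degree. -/
theorem exists_places {F : Type u} [Field F] {σ : Type v} {K : Type u'} [Field K] [CharZero K]
    {K' : Type v'} [Field K'] [CharZero K']
    (χ : MvPolynomial σ F →+* K[X]) (χ' : MvPolynomial σ F →+* K'[X]) (D : ℕ)
    (hχ : Good χ ⊤) (hχ' : Good χ' D) (β : (MvPolynomial σ F)[X]) (hβ : β.Monic)
    (S : MvPolynomial σ F) (hS : Irreducible S) (s : ℕ) (hs : S.IsHomogeneous s) (hs0 : 0 < s)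
    (hsD : s ≤ D) :
    ∃ (Ω : Type u') (_ : CommRing Ω) (_ : IsDomain Ω) (Ω' : Type v') (_ : CommRing Ω')
      (_ : IsDomain Ω') (w : Ω → ℕ∞) (w' : Ω' → ℕ∞) (φ : K[X] →+* Ω) (φ' : K'[X] →+* Ω')
      (θ : Fin β.natDegree → Ω) (θ' : Fin β.natDegree → Ω'),
      IsVal w ∧ IsVal w' ∧
      β.map (φ.comp χ) = ∏ i, (X - C (θ i)) ∧ β.map (φ'.comp χ') = ∏ i, (X - C (θ' i)) ∧
      (∀ (c : MvPolynomial σ F) (n : ℕ), c.IsHomogeneous n → n ≤ D →
        w (φ (χ c)) = w' (φ' (χ' c))) ∧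
      (∀ (c : MvPolynomial σ F) (n : ℕ), c.IsHomogeneous n → ¬ S ∣ c → w (φ (χ c)) = 0) ∧
      0 < w (φ (χ S)) ∧
      (∀ (c : MvPolynomial σ F) (n : ℕ), c.IsHomogeneous n → c ≠ 0 → w (φ (χ c)) ≠ ⊤) ∧
      (∀ (c : MvPolynomial σ F) (n : ℕ), c.IsHomogeneous n → n ≤ D → c ≠ 0 →
        w' (φ' (χ' c)) ≠ ⊤) := by
  obtain ⟨τ, hτ⟩ := hχ.root S s hs hs0 le_top hS.ne_zero
  obtain ⟨τ', hτ'⟩ := hχ'.root S s hs hs0 (by exact_mod_cast hsD) hS.ne_zero
  obtain ⟨Ω, i1, i2, w, φ, θ, hw, hφ, hsplit, hpos, hzero⟩ := exists_place (β.map χ) (hβ.map χ) τ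
  obtain ⟨Ω', i1', i2', w', φ', θ', hw', hφ', hsplit', hpos', hzero'⟩ :=
    exists_place (β.map χ') (hβ.map χ') τ'
  have hdeg : (β.map χ).natDegree = β.natDegree := hβ.natDegree_map χ
  have hdeg' : (β.map χ').natDegree = β.natDegree := hβ.natDegree_map χ'
  have hS1 : χ S ≠ 0 := hχ.ne S s hs le_top hS.ne_zero
  have hS1' : χ' S ≠ 0 := hχ'.ne S s hs (by exact_mod_cast hsD) hS.ne_zero
  have ht : w (φ (χ S)) ≠ ⊤ := by
    rw [Ne, hw.top]
    intro h
    exact hS1 (hφ (h.trans (map_zero φ).symm))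
  have ht' : w' (φ' (χ' S)) ≠ ⊤ := by
    rw [Ne, hw'.top]
    intro h
    exact hS1' (hφ' (h.trans (map_zero φ').symm))
  have hp : w (φ (χ S)) ≠ 0 := by
    obtain ⟨g, hg⟩ := (dvd_iff_isRoot.2 hτ : X - C τ ∣ χ S)
    rw [hg, map_mul, hw.mul]
    intro h
    rw [add_eq_zero] at h
    exact hpos.ne' h.1
  have hp' : w' (φ' (χ' S)) ≠ 0 := by
    obtain ⟨g, hg⟩ := (dvd_iff_isRoot.2 hτ' : X - C τ' ∣ χ' S)
    rw [hg, map_mul, hw'.mul]
    intro h
    rw [add_eq_zero] at h
    exact hpos'.ne' h.1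
  obtain ⟨e, he⟩ := ENat.ne_top_iff_exists.1 ht
  obtain ⟨e', he'⟩ := ENat.ne_top_iff_exists.1 ht'
  have hne : e ≠ 0 := by
    rintro rfl
    exact hp (by rw [← he]; rfl)
  have hne' : e' ≠ 0 := by
    rintro rfl
    exact hp' (by rw [← he']; rfl)
  refine ⟨Ω, i1, i2, Ω', i1', i2', fun x => (e' : ℕ∞) * w x, fun x => (e : ℕ∞) * w' x, φ, φ',
    fun i => θ (i.cast hdeg.symm), fun i => θ' (i.cast hdeg'.symm), hw.scale e' hne',
    hw'.scale e hne, ?_, ?_, ?_, ?_, ?_, ?_, ?_⟩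
  · rw [← Polynomial.map_map, hsplit]
    exact Fintype.prod_equiv (finCongr hdeg) _ _ (fun i => rfl)
  · rw [← Polynomial.map_map, hsplit']
    exact Fintype.prod_equiv (finCongr hdeg') _ _ (fun i => rfl)
  · intro c n hc hn
    by_cases hc0 : c = 0
    · subst hc0
      simp only [map_zero]
      rw [(hw.top 0).2 rfl, (hw'.top 0).2 rfl, ENat.mul_top (by exact_mod_cast hne'),
        ENat.mul_top (by exact_mod_cast hne)]
    · obtain ⟨j, c1, h1, h2, h3, h4⟩ := exists_pow_mul hS hs hc hc0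
      have h5 : ((n - s * j : ℕ) : ℕ∞) ≤ (D : ℕ∞) := by
        exact_mod_cast (Nat.sub_le _ _).trans hn
      show (e' : ℕ∞) * w (φ (χ c)) = (e : ℕ∞) * w' (φ' (χ' c))
      rw [h1, val_form hw hχ hzero hs hS le_top hτ h4 le_top h3 h2 j,
        val_form hw' hχ' hzero' hs hS (by exact_mod_cast hsD) hτ' h4 h5 h3 h2 j, ← he, ← he']
      ring
  · intro c n hc hdvd
    have hc0 : c ≠ 0 := by
      rintro rfl
      exact hdvd (dvd_zero _)
    have h1 := val_form hw hχ hzero hs hS le_top hτ hc le_top hc0 hdvd 0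
    rw [pow_zero, one_mul] at h1
    simp only [h1, Nat.cast_zero, zero_mul, mul_zero]
  · simp only
    rw [pos_iff_ne_zero]
    intro h
    rcases mul_eq_zero.1 h with h1 | h1
    · exact hne' (by exact_mod_cast h1)
    · exact hp h1
  · intro c n hc hc0
    rw [Ne, (hw.scale e' hne').top]
    intro h
    exact hχ.ne c n hc le_top hc0 (hφ (h.trans (map_zero φ).symm))
  · intro c n hc hn hc0
    rw [Ne, (hw'.scale e hne).top]
    intro h
    exact hχ'.ne c n hc (by exact_mod_cast hn) hc0 (hφ' (h.trans (map_zero φ').symm))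

end Pool.Agent.Lib.MP_64d474_lc.S3
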