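import Mathlib
import Pool.Agent.Lib.MP_64d474_lc.S3.Br8
import Pool.Agent.Lib.MP_64d474_lc.S3.Br91
import Pool.Agent.Lib.MP_64d474_lc.S3.Shift97

/-! Row BR3: the bracket for two products of forms, from `Good` (91) and the norms (97). -/

set_option autoImplicit false

namespace MP64d474
namespace S3
namespace Br8

open Polynomial Pool.Agent.Lib.MP_64d474_lc.S3 S3Norm97

universe u v u' v'

variable {F : Type u} [Field F] {σ : Type v} {K : Type u'} [Field K] [CharZero K]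
  {K' : Type v'} [Field K'] [CharZero K']

/-- (f) + (g) for forms. -/
theorem nrm_dvd2 (χ : MvPolynomial σ F →+* K[X]) (χ' : MvPolynomial σ F →+* K'[X]) (D : ℕ)
    (hχ : Good χ ⊤) (hχ' : Good χ' D) (β : (MvPolynomial σ F)[X]) (hβ : β.Monic)
    {κ : Type*} [DecidableEq κ] (s t : Finset κ) (P : κ → (MvPolynomial σ F)[X])
    (hg1 : ∀ x ∈ s ∪ t, ∀ k, ∃ n ≤ D, ((chr β (P x)).coeff k).IsHomogeneous n)
    (hg2 : ∀ x ∈ s ∪ t, ∀ y ∈ s ∪ t, ∀ k, ∃ n ≤ D, ((chr β (P x * P y)).coeff k).IsHomogeneous n)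
    (hg0 : ∀ x ∈ s ∪ t, ∃ n ≤ D, (nrm β (P x)).IsHomogeneous n)
    (hne0 : ∀ x ∈ s ∪ t, nrm β (P x) ≠ 0)
    (M : ℕ) (hM1 : (nrm β (∏ x ∈ s, P x)).IsHomogeneous M)
    (hM2 : (nrm β (∏ x ∈ s, P x + ∏ x ∈ t, P x)).IsHomogeneous M)
    (hsum : β.map χ' ∣ (∏ x ∈ s, P x + ∏ x ∈ t, P x).map χ') :
    nrm β (∏ x ∈ s, P x) ∣ nrm β (∏ x ∈ s, P x + ∏ x ∈ t, P x) := by
  have hN : nrm β (∏ x ∈ s, P x) ≠ 0 := by
    rw [nrm_prod_right hβ]
    exact Finset.prod_ne_zero_iff.2 fun x hx => hne0 x (Finset.mem_union_left _ hx)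
  apply dvd_of_primes _ hN
  intro S hS j hj
  rcases Nat.eq_zero_or_pos j with rfl | hjpos
  · simp
  have hSN : S ∣ nrm β (∏ x ∈ s, P x) := (dvd_pow_self S hjpos.ne').trans hj
  -- S is a form of low positive degree
  obtain ⟨x0, hx0, hSx0⟩ : ∃ x ∈ s, S ∣ nrm β (P x) := by
    rw [nrm_prod_right hβ] at hSN
    exact (Prime.dvd_finsetProd_iff hS _).1 hSN
  obtain ⟨n0, hn0, hhom0⟩ := hg0 x0 (Finset.mem_union_left _ hx0)
  obtain ⟨d0, hd0, hShom⟩ := hom_of_dvd hhom0 (hne0 x0 (Finset.mem_union_left _ hx0)) hSx0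
  have hd0pos : 0 < d0 := by
    rcases Nat.eq_zero_or_pos d0 with h0 | h0
    · exfalso
      rw [h0] at hShom
      have h1 : S.totalDegree = 0 := hShom.totalDegree hS.ne_zero
      rw [MvPolynomial.totalDegree_eq_zero_iff_eq_C] at h1
      apply hS.not_isUnit
      rw [h1]
      have h2 : S.coeff 0 ≠ 0 := by
        intro h2
        exact hS.ne_zero (by rw [h1, h2, map_zero])
      exact h2.isUnit.map MvPolynomial.C
    · exact h0
  obtain ⟨Ω, _, _, Ω', _, _, w, w', φ0, φ, θ, θ', hw, hw', hθ, hθ', hval, hunit, hSpos, hfinw,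
    hfinw'⟩ := exists_places χ χ' D hχ hχ' β hβ S hS.irreducible d0 hShom hd0pos (hd0.trans hn0)
  have gw := ga_of hw
  have gw' := ga_of hw'
  have en : ∀ h : (MvPolynomial σ F)[X], (φ0.comp χ) (nrm β h) =
      ∏ i, eval (θ i) (h.map (φ0.comp χ)) := by
    intro h
    rw [← nrm_map (φ0.comp χ) hβ, hθ, nrm_prod]
  have en' : ∀ h : (MvPolynomial σ F)[X], (φ.comp χ') (nrm β h) =
      ∏ i, eval (θ' i) (h.map (φ.comp χ')) := by
    intro h
    rw [← nrm_map (φ.comp χ') hβ, hθ', nrm_prod]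
  have ec : ∀ h : (MvPolynomial σ F)[X], (∏ i, (X - C (eval (θ i) (h.map (φ0.comp χ))))) =
      (chr β h).map (φ0.comp χ) := by
    intro h
    rw [← chr_map (φ0.comp χ) hβ, hθ, chr_prod]
  have ec' : ∀ h : (MvPolynomial σ F)[X], (∏ i, (X - C (eval (θ' i) (h.map (φ.comp χ'))))) =
      (chr β h).map (φ.comp χ') := by
    intro h
    rw [← chr_map (φ.comp χ') hβ, hθ', chr_prod]
  have hfin : ∀ x ∈ s ∪ t, ∀ i, w (eval (θ i) ((P x).map (φ0.comp χ))) =
      (((w (eval (θ i) ((P x).map (φ0.comp χ)))).toNat : ℕ) : ℕ∞) := by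
    intro x hx i
    obtain ⟨n, _, hn⟩ := hg0 x hx
    have h0 := hfinw _ n hn (hne0 x hx)
    have h1 : (φ0.comp χ) (nrm β (P x)) ≠ 0 := fun h2 => h0 ((hw.top _).2 h2)
    rw [en] at h1
    have h2 := Finset.prod_ne_zero_iff.1 h1 i (Finset.mem_univ i)
    exact (ENat.natCast_toNat fun h3 => h2 ((hw.top _).1 h3)).symm
  have hfin' : ∀ x ∈ s ∪ t, ∀ i, w' (eval (θ' i) ((P x).map (φ.comp χ'))) =
      (((w' (eval (θ' i) ((P x).map (φ.comp χ')))).toNat : ℕ) : ℕ∞) := by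
    intro x hx i
    obtain ⟨n, hnD, hn⟩ := hg0 x hx
    have h0 := hfinw' _ n hn hnD (hne0 x hx)
    have h1 : (φ.comp χ') (nrm β (P x)) ≠ 0 := fun h2 => h0 ((hw'.top _).2 h2)
    rw [en'] at h1
    have h2 := Finset.prod_ne_zero_iff.1 h1 i (Finset.mem_univ i)
    exact (ENat.natCast_toNat fun h3 => h2 ((hw'.top _).1 h3)).symm
  have hcoef : ∀ h : (MvPolynomial σ F)[X],
      (∀ k, ∃ n ≤ D, ((chr β h).coeff k).IsHomogeneous n) → ∀ k,
      w ((∏ i, (X - C (eval (θ i) (h.map (φ0.comp χ))))).coeff k) =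
      w' ((∏ i, (X - C (eval (θ' i) (h.map (φ.comp χ'))))).coeff k) := by
    intro h hg k
    obtain ⟨n, hnD, hn⟩ := hg k
    rw [ec, ec', coeff_map, coeff_map]
    exact hval _ n hn hnD
  -- (f)
  have hf : ∀ i, ∑ x ∈ s, (w (eval (θ i) ((P x).map (φ0.comp χ)))).toNat =
      ∑ x ∈ t, (w (eval (θ i) ((P x).map (φ0.comp χ)))).toNat := by
    apply Ga8.eq_of_pairs s t (fun x i => (w (eval (θ i) ((P x).map (φ0.comp χ)))).toNat)
      (fun x i => (w' (eval (θ' i) ((P x).map (φ.comp χ')))).toNat)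
    · intro x hx y hy
      apply Ga8.sum_mul gw gw' (fun i => eval (θ i) ((P x).map (φ0.comp χ)))
        (fun i => eval (θ i) ((P y).map (φ0.comp χ)))
        (fun i => eval (θ' i) ((P x).map (φ.comp χ')))
        (fun i => eval (θ' i) ((P y).map (φ.comp χ')))
      · exact hfin x hx
      · exact hfin y hy
      · exact hfin' x hx
      · exact hfin' y hy
      · exact hcoef _ (hg1 x hx)
      · exact hcoef _ (hg1 y hy)
      · have := hcoef _ (hg2 x hx y hy)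
        simpa only [Polynomial.map_mul, eval_mul] using this
    · intro i
      have h1 : (β.map (φ.comp χ')) ∣ (∏ x ∈ s, P x + ∏ x ∈ t, P x).map (φ.comp χ') := by
        rw [← Polynomial.map_map, ← Polynomial.map_map]
        exact Polynomial.map_dvd φ hsum
      have h2 : eval (θ' i) (β.map (φ.comp χ')) = 0 := by
        rw [hθ', eval_prod]
        exact Finset.prod_eq_zero (Finset.mem_univ i) (by simp)
      have h3 : eval (θ' i) ((∏ x ∈ s, P x + ∏ x ∈ t, P x).map (φ.comp χ')) = 0 := by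
        obtain ⟨q, hq⟩ := h1
        rw [hq, eval_mul, h2, zero_mul]
      rw [Polynomial.map_add, eval_add, Polynomial.map_prod, Polynomial.map_prod, eval_prod,
        eval_prod] at h3
      have h4 : ∏ x ∈ s, eval (θ' i) ((P x).map (φ.comp χ')) =
          -∏ x ∈ t, eval (θ' i) ((P x).map (φ.comp χ')) := eq_neg_of_add_eq_zero_left h3
      have h5 : w' (∏ x ∈ s, eval (θ' i) ((P x).map (φ.comp χ'))) =
          w' (∏ x ∈ t, eval (θ' i) ((P x).map (φ.comp χ'))) := by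
        rw [h4, gw'.neg]
      rw [gw'.prod, gw'.prod,
        Finset.sum_congr rfl (fun x hx => hfin' x (Finset.mem_union_left _ hx) i),
        Finset.sum_congr rfl (fun x hx => hfin' x (Finset.mem_union_right _ hx) i)] at h5
      exact_mod_cast h5
  have hf2 : ∀ i, w (eval (θ i) ((∏ x ∈ s, P x).map (φ0.comp χ))) =
      w (eval (θ i) ((∏ x ∈ t, P x).map (φ0.comp χ))) := by
    intro i
    rw [Polynomial.map_prod, Polynomial.map_prod, eval_prod, eval_prod, gw.prod, gw.prod,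
      Finset.sum_congr rfl (fun x hx => hfin x (Finset.mem_union_left _ hx) i),
      Finset.sum_congr rfl (fun x hx => hfin x (Finset.mem_union_right _ hx) i)]
    exact_mod_cast congrArg (fun n : ℕ => (n : ℕ∞)) (hf i)
  -- (g)
  have hge : w ((φ0.comp χ) (nrm β (∏ x ∈ s, P x))) ≤
      w ((φ0.comp χ) (nrm β (∏ x ∈ s, P x + ∏ x ∈ t, P x))) := by
    rw [en, en, gw.prod, gw.prod]
    apply Finset.sum_le_sum
    intro i _
    rw [Polynomial.map_add, eval_add]
    refine le_trans ?_ (hw.add _ _)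
    rw [← hf2 i, min_self]
  -- compare the powers of S
  by_contra hcon
  have hc0 : nrm β (∏ x ∈ s, P x + ∏ x ∈ t, P x) ≠ 0 := by
    intro h0
    exact hcon (by rw [h0]; exact dvd_zero _)
  obtain ⟨m, c1, hc1, hc⟩ := WfDvdMonoid.max_power_factor hc0 hS.irreducible
  obtain ⟨r, hr⟩ := hj
  obtain ⟨n1, _, hn1⟩ := hom_of_dvd hM2 hc0 (show c1 ∣ _ from ⟨S ^ m, by rw [hc]; ring⟩)
  have hSfin : w ((φ0.comp χ) S) ≠ ⊤ := hfinw S d0 hShom hS.ne_zero
  have hSpos' : 0 < w ((φ0.comp χ) S) := hSpos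
  obtain ⟨v, hv⟩ := ENat.ne_top_iff_exists.1 hSfin
  have h1 : w ((φ0.comp χ) (nrm β (∏ x ∈ s, P x + ∏ x ∈ t, P x))) = m * w ((φ0.comp χ) S) := by
    have h0 : w ((φ0.comp χ) c1) = 0 := hunit c1 n1 hn1 hc1
    rw [hc, map_mul, map_pow, hw.mul, gw.pow, h0, add_zero]
  have h2 : (j : ℕ∞) * w ((φ0.comp χ) S) ≤ w ((φ0.comp χ) (nrm β (∏ x ∈ s, P x))) := by
    rw [hr, map_mul, map_pow, hw.mul, gw.pow]
    exact le_self_add
  have h3 := h2.trans (hge.trans h1.le)
  rw [← hv] at h3 hSpos'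
  have h4 : j ≤ m := by
    have h5 : j * v ≤ m * v := by exact_mod_cast h3
    have h6 : 0 < v := by exact_mod_cast hSpos'
    exact Nat.le_of_mul_le_mul_right h5 h6
  exact hcon (by rw [hc]; exact (pow_dvd_pow S h4).mul_right _)

/-- The conclusion: `β` divides the sum of the two products. -/
theorem bracket2 (χ : MvPolynomial σ F →+* K[X]) (χ' : MvPolynomial σ F →+* K'[X]) (D : ℕ)
    (hχ : Good χ ⊤) (hχ' : Good χ' D) (β : (MvPolynomial σ F)[X]) (hβ : β.Monic)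
    (hirr : Irreducible β) (hb : 0 < β.natDegree)
    {κ : Type*} [DecidableEq κ] (s t : Finset κ) (P : κ → (MvPolynomial σ F)[X])
    (hg1 : ∀ x ∈ s ∪ t, ∀ k, ∃ n ≤ D, ((chr β (P x)).coeff k).IsHomogeneous n)
    (hg2 : ∀ x ∈ s ∪ t, ∀ y ∈ s ∪ t, ∀ k, ∃ n ≤ D, ((chr β (P x * P y)).coeff k).IsHomogeneous n)
    (hg0 : ∀ x ∈ s ∪ t, ∃ n ≤ D, (nrm β (P x)).IsHomogeneous n)
    (hne0 : ∀ x ∈ s ∪ t, nrm β (P x) ≠ 0)
    (M : ℕ) (hM1 : (nrm β (∏ x ∈ s, P x)).IsHomogeneous M)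
    (hM2 : (nrm β (∏ x ∈ s, P x + ∏ x ∈ t, P x)).IsHomogeneous M)
    (hsum : β.map χ' ∣ (∏ x ∈ s, P x + ∏ x ∈ t, P x).map χ') :
    β ∣ ∏ x ∈ s, P x + ∏ x ∈ t, P x := by
  obtain ⟨c, hc⟩ := nrm_dvd2 χ χ' D hχ hχ' β hβ s t P hg1 hg2 hg0 hne0 M hM1 hM2 hsum
  have h1 : χ' (nrm β (∏ x ∈ s, P x + ∏ x ∈ t, P x)) = 0 := by
    rw [← nrm_map χ' hβ]
    exact nrm_eq_zero_of_dvd (hβ.map χ') (by rwa [hβ.natDegree_map χ']) hsum
  have h2 : χ' (nrm β (∏ x ∈ s, P x)) ≠ 0 := by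
    rw [nrm_prod_right hβ, map_prod]
    refine Finset.prod_ne_zero_iff.2 fun x hx => ?_
    obtain ⟨n, hnD, hn⟩ := hg0 x (Finset.mem_union_left _ hx)
    exact hχ'.ne _ n hn (by exact_mod_cast hnD) (hne0 x (Finset.mem_union_left _ hx))
  have hN : nrm β (∏ x ∈ s, P x) ≠ 0 := by
    rw [nrm_prod_right hβ]
    exact Finset.prod_ne_zero_iff.2 fun x hx => hne0 x (Finset.mem_union_left _ hx)
  have h1' := h1
  rw [hc, map_mul] at h1'
  have h3 : c = 0 := quot_const χ' hM2 hM1 hN c hc ((mul_eq_zero.1 h1').resolve_left h2)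
  rw [h3, mul_zero] at hc
  exact dvd_of_nrm_eq_zero hβ hirr _ hc

/-- ROW BR3: the bracket in the form of message 63665. -/
theorem bracket3 (χ : MvPolynomial σ F →+* K[X]) (χ' : MvPolynomial σ F →+* K'[X]) (d b n : ℕ)
    (hχ : Good χ ⊤) (hχ' : Good χ' ((2 * d ^ 2 : ℕ) : ℕ∞)) (e : σ → F) (B : MvPolynomial σ F)
    (hbd : b ≤ d) (hB : B.IsHomogeneous b) (hBirr : Irreducible B)
    (he : MvPolynomial.eval e B ≠ 0)
    (T₁ T₂ : Multiset (MvPolynomial σ F))
    (hT₁ : ∀ P ∈ T₁, ∃ k ≤ d, P.IsHomogeneous k) (hT₂ : ∀ P ∈ T₂, ∃ k ≤ d, P.IsHomogeneous k)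
    (hn₁ : T₁.prod.IsHomogeneous n) (hn₂ : T₂.prod.IsHomogeneous n)
    (hB₁ : ¬ B ∣ T₁.prod) (hB₂ : ¬ B ∣ T₂.prod)
    (h : (sh e B).map χ' ∣ (sh e (T₁.prod + T₂.prod)).map χ') :
    B ∣ T₁.prod + T₂.prod := by
  classical
  induction T₁ using Quotient.inductionOn with
  | h l₁ =>
  induction T₂ using Quotient.inductionOn with
  | h l₂ =>
  simp only [Multiset.quot_mk_to_coe, Multiset.prod_coe, Multiset.mem_coe] at *
  set β := beta e B with hβdef
  have hβ : β.Monic := beta_monic e hB he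
  have hdeg : β.natDegree = b := beta_natDegree e hB he
  have hβS : HomS β.natDegree β := by rw [hdeg]; exact beta_homS e hB
  have hirr : Irreducible β := (beta_prime e he hBirr.prime).irreducible
  have hb : 0 < b := by
    rcases Nat.eq_zero_or_pos b with h0 | h0
    · exfalso
      rw [h0] at hB
      have h1 : B.totalDegree = 0 := hB.totalDegree hBirr.ne_zero
      rw [MvPolynomial.totalDegree_eq_zero_iff_eq_C] at h1
      apply hBirr.not_isUnit
      rw [h1]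
      have h2 : B.coeff 0 ≠ 0 := by
        intro h2
        exact hBirr.ne_zero (by rw [h1, h2, map_zero])
      exact h2.isUnit.map MvPolynomial.C
    · exact h0
  let Q : Fin l₁.length ⊕ Fin l₂.length → MvPolynomial σ F :=
    Sum.elim (fun i => l₁[i]) (fun i => l₂[i])
  have hQd : ∀ x, ∃ k ≤ d, (Q x).IsHomogeneous k := by
    rintro (i | i)
    · exact hT₁ _ (List.getElem_mem i.2)
    · exact hT₂ _ (List.getElem_mem i.2)
  have hQB : ∀ x, ¬ B ∣ Q x := by
    rintro (i | i) hdiv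
    · exact hB₁ (hdiv.trans (List.dvd_prod (List.getElem_mem i.2)))
    · exact hB₂ (hdiv.trans (List.dvd_prod (List.getElem_mem i.2)))
  let s : Finset (Fin l₁.length ⊕ Fin l₂.length) := Finset.univ.map Function.Embedding.inl
  let t : Finset (Fin l₁.length ⊕ Fin l₂.length) := Finset.univ.map Function.Embedding.inr
  have hs : ∏ x ∈ s, sh e (Q x) = sh e l₁.prod := by
    rw [Finset.prod_map, ← map_prod]
    congr 1
    exact Fin.prod_univ_getElem l₁
  have ht : ∏ x ∈ t, sh e (Q x) = sh e l₂.prod := by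
    rw [Finset.prod_map, ← map_prod]
    congr 1
    exact Fin.prod_univ_getElem l₂
  have hcoe : ∀ (g : (MvPolynomial σ F)[X]) (k : ℕ), k ≤ 2 * d → HomS k g → ∀ j, ∃ n ≤ 2 * d ^ 2,
      ((chr β g).coeff j).IsHomogeneous n := by
    intro g k hk hg j
    rcases Nat.lt_or_ge β.natDegree j with h1 | h1
    · refine ⟨0, Nat.zero_le _, ?_⟩
      rw [coeff_eq_zero_of_natDegree_lt (by rw [(chr_monic hβ g).2]; exact h1)]
      exact MvPolynomial.isHomogeneous_zero _ _ _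
    · refine ⟨(β.natDegree - j) * k, ?_, chr_coeff_hom hβ hβS hg j h1⟩
      calc (β.natDegree - j) * k ≤ d * (2 * d) := by
            apply Nat.mul_le_mul _ hk
            rw [hdeg]
            omega
        _ = 2 * d ^ 2 := by ring
  have hconc : β ∣ ∏ x ∈ s, sh e (Q x) + ∏ x ∈ t, sh e (Q x) := by
    apply bracket2 χ χ' (2 * d ^ 2) hχ hχ' β hβ hirr (by rw [hdeg]; exact hb) s t
      (fun x => sh e (Q x))
    · intro x _
      obtain ⟨k, hk, hQk⟩ := hQd x
      exact hcoe _ k (by omega) (sh_homS e hQk)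
    · intro x _ y _
      obtain ⟨k, hk, hQk⟩ := hQd x
      obtain ⟨k', hk', hQk'⟩ := hQd y
      exact hcoe _ (k + k') (by omega) ((sh_homS e hQk).mul (sh_homS e hQk'))
    · intro x _
      obtain ⟨k, hk, hQk⟩ := hQd x
      refine ⟨β.natDegree * k, ?_, nrm_homS hβ hβS (sh_homS e hQk)⟩
      calc β.natDegree * k ≤ d * d := Nat.mul_le_mul (by rw [hdeg]; exact hbd) hk
        _ ≤ 2 * d ^ 2 := by nlinarith
    · intro x _ h0
      exact hQB x (dvd_of_beta_dvd e (dvd_of_nrm_eq_zero hβ hirr _ h0))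
    · rw [hs]
      exact nrm_homS hβ hβS (sh_homS e hn₁)
    · rw [hs, ht, ← map_add]
      exact nrm_homS hβ hβS (sh_homS e (hn₁.add hn₂))
    · rw [hs, ht, ← map_add]
      refine dvd_trans ?_ h
      apply Polynomial.map_dvd
      exact (beta_dvd_iff e he _).2 dvd_rfl
  rw [hs, ht, ← map_add] at hconc
  exact dvd_of_beta_dvd e hconc

end Br8
end S3
end MP64d474
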