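import Mathlib
import Pool.Agent.Lib.MP_64d474_lc.S3.Place91
import Pool.Agent.Lib.MP_64d474_lc.S3.Hom64
import Pool.Agent.Lib.MP_64d474_lc.S3.Gauss8

/-!
The two places over an irreducible form.
-/

namespace Pool.Agent.Lib.MP_64d474_lc.S3.Br3

open Polynomial

universe u

/-- The properties of a line that the argument uses. -/
structure Good {F K : Type u} [Field F] [Field K] {m : ℕ}
    (χ : MvPolynomial (Fin m) F →+* K[X]) (D : ℕ) : Prop where
  cop : ∀ (P Q : MvPolynomial (Fin m) F) (p q : ℕ), P.IsHomogeneous p → Q.IsHomogeneous q →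
    p ≤ D → q ≤ D → P ≠ 0 → Q ≠ 0 → IsRelPrime P Q → IsCoprime (χ P) (χ Q)
  deg : ∀ (P : MvPolynomial (Fin m) F) (p : ℕ), P.IsHomogeneous p → p ≤ D → P ≠ 0 →
    (χ P).natDegree = p
  ne : ∀ (P : MvPolynomial (Fin m) F) (p : ℕ), P.IsHomogeneous p → p ≤ D → P ≠ 0 → χ P ≠ 0

section one

variable {F K : Type u} [Field F] [Field K] {m D : ℕ}

/-- one place, one line -/
theorem one_place [IsAlgClosed K] [CharZero K] (χ : MvPolynomial (Fin m) F →+* K[X])
    (h : Good χ D) (β : (MvPolynomial (Fin m) F)[X]) (hβ : β.Monic) (S : MvPolynomial (Fin m) F)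
    (q : ℕ) (hS : Irreducible S) (hSh : S.IsHomogeneous q) (hq : 0 < q) (hqD : q ≤ D) :
    ∃ (Ω : Type u) (_ : CommRing Ω) (_ : IsDomain Ω) (w : Ω → ℕ∞) (φ : K[X] →+* Ω)
      (θ : Fin β.natDegree → Ω),
      IsVal w ∧ Function.Injective φ ∧ (β.map χ).map φ = ∏ i, (X - C (θ i)) ∧
      0 < w (φ (χ S)) ∧
      (∀ (c : MvPolynomial (Fin m) F) (p : ℕ), c.IsHomogeneous p → p ≤ D → c ≠ 0 → ¬ S ∣ c →
        w (φ (χ c)) = 0) := by
  have hSd := h.deg S q hSh hqD hS.ne_zero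
  obtain ⟨τ, hτ⟩ := IsAlgClosed.exists_root (χ S) (by
    rw [Polynomial.degree_eq_natDegree (h.ne S q hSh hqD hS.ne_zero), hSd]
    exact_mod_cast hq.ne')
  obtain ⟨Ω, i1, i2, w, φ, θ, hw, hφ, hprod, hpos, hunit⟩ := exists_place (β.map χ) (hβ.map χ) τ
  have hnd : (β.map χ).natDegree = β.natDegree := hβ.natDegree_map χ
  refine ⟨Ω, i1, i2, w, φ, fun i => θ (i.cast hnd.symm), hw, hφ, ?_, ?_, ?_⟩
  · rw [hprod]
    exact Fintype.prod_equiv (finCongr hnd) _ _ (fun i => rfl)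
  · obtain ⟨r, hr⟩ := (dvd_iff_isRoot.2 hτ)
    rw [hr, map_mul, hw.mul]
    exact lt_of_lt_of_le hpos le_self_add
  · intro c p hc hp hc0 hSc
    apply hunit
    intro hev
    have hcop := h.cop S c q p hSh hc hqD hp hS.ne_zero hc0
      ((hS.isRelPrime_iff_not_dvd).2 hSc)
    obtain ⟨a, b, hab⟩ := hcop
    have := congrArg (Polynomial.eval τ) hab
    rw [Polynomial.eval_add, Polynomial.eval_mul, Polynomial.eval_mul, hev, hτ.eq_zero] at this
    simp at this

/-- the value of a form -/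
theorem val_form {Ω : Type u} [CommRing Ω] [IsDomain Ω] {w : Ω → ℕ∞} (hw : IsVal w)
    {χ : MvPolynomial (Fin m) F →+* Ω} {S : MvPolynomial (Fin m) F} 
    (hu : ∀ (c : MvPolynomial (Fin m) F) (p : ℕ), c.IsHomogeneous p → p ≤ D → c ≠ 0 → ¬ S ∣ c →
        w (χ c) = 0) 
    (c : MvPolynomial (Fin m) F) (p : ℕ) (hc : c.IsHomogeneous p) (hp : p ≤ D) (hc0 : c ≠ 0)
    (j : ℕ) (c' : MvPolynomial (Fin m) F) (hj : c = S ^ j * c') (hc' : ¬ S ∣ c') :
    w (χ c) = j * w (χ S) := by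
  have hc'0 : c' ≠ 0 := by
    rintro rfl
    exact hc' (dvd_zero _)
  obtain ⟨p', hp', hc'h⟩ := hom_of_dvd hc hc0 (Q := c') ⟨S ^ j, by rw [hj, mul_comm]⟩
  rw [hj, map_mul, hw.mul, hu c' p' hc'h (hp'.trans hp) hc'0 hc', add_zero, map_pow]
  clear hj
  induction j with
  | zero => simp [hw.one]
  | succ j ih =>
    rw [pow_succ, hw.mul, ih]
    push_cast
    ring

end one

theorem isVal_smul {Ω : Type u} [CommRing Ω] [IsDomain Ω] {w : Ω → ℕ∞} (hw : IsVal w) (e : ℕ)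
    (he : e ≠ 0) : IsVal (fun x => (e : ℕ∞) * w x) where
  mul := by intro x y; rw [hw.mul, mul_add]
  add := by
    intro x y
    rcases le_total (w x) (w y) with h | h
    · rw [min_eq_left (by gcongr)]
      have := hw.add x y
      rw [min_eq_left h] at this
      gcongr
    · rw [min_eq_right (by gcongr)]
      have := hw.add x y
      rw [min_eq_right h] at this
      gcongr
  top := by
    intro x
    rw [← hw.top x]
    constructor
    · intro h
      by_contra hc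
      obtain ⟨n, hn⟩ : ∃ n : ℕ, w x = n := ⟨_, (ENat.natCast_toNat hc).symm⟩
      rw [hn] at h
      exact absurd h (by exact_mod_cast ENat.natCast_ne_top (e * n))
    · intro h
      rw [h]
      exact ENat.mul_top (by exact_mod_cast he)
  one := by rw [hw.one, mul_zero]

/-- The two places over an irreducible form with the same values on the forms of low degree. -/
theorem places {F K K' : Type u} [Field F] [Field K] [Field K'] [IsAlgClosed K] [CharZero K]
    [IsAlgClosed K'] [CharZero K'] {m D : ℕ} (χ : MvPolynomial (Fin m) F →+* K[X])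
    (χ' : MvPolynomial (Fin m) F →+* K'[X]) (h : ∀ D, Good χ D) (h' : Good χ' D)
    (β : (MvPolynomial (Fin m) F)[X]) (hβ : β.Monic) (S : MvPolynomial (Fin m) F)
    (q : ℕ) (hS : Irreducible S) (hSh : S.IsHomogeneous q) (hq : 0 < q) (hqD : q ≤ D) :
    ∃ (Ω Ω' : Type u) (_ : CommRing Ω) (_ : IsDomain Ω) (_ : CommRing Ω') (_ : IsDomain Ω')
      (w : Ω → ℕ∞) (w' : Ω' → ℕ∞) (ψ : MvPolynomial (Fin m) F →+* Ω) (φ' : K'[X] →+* Ω')
      (θ : Fin β.natDegree → Ω) (θ' : Fin β.natDegree → Ω'),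
      IsVal w ∧ IsVal w' ∧ β.map ψ = ∏ i, (X - C (θ i)) ∧
      (β.map χ').map φ' = ∏ i, (X - C (θ' i)) ∧
      (∀ (c : MvPolynomial (Fin m) F) (p : ℕ), c.IsHomogeneous p → c ≠ 0 → ψ c ≠ 0) ∧
      (∀ (c : MvPolynomial (Fin m) F) (p : ℕ), c.IsHomogeneous p → p ≤ D → c ≠ 0 →
        φ' (χ' c) ≠ 0) ∧
      (∀ (c : MvPolynomial (Fin m) F) (p : ℕ), c.IsHomogeneous p → p ≤ D →
        w (ψ c) = w' (φ' (χ' c))) ∧
      0 < w (ψ S) ∧
      (∀ (c : MvPolynomial (Fin m) F) (p : ℕ), c.IsHomogeneous p → c ≠ 0 → ¬ S ∣ c →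
        w (ψ c) = 0) := by
  classical
  have hall : ∀ E : ℕ, Good χ E := h
  -- ambient place: the argument works for one root for all degrees
  have hSd := (h q).deg S q hSh le_rfl hS.ne_zero
  obtain ⟨τ, hτ⟩ := IsAlgClosed.exists_root (χ S) (by
    rw [Polynomial.degree_eq_natDegree ((h q).ne S q hSh le_rfl hS.ne_zero), hSd]
    exact_mod_cast hq.ne')
  obtain ⟨Ω, i1, i2, w, φ, θ0, hw, hφ, hprod, hpos, hunit⟩ := exists_place (β.map χ) (hβ.map χ) τ
  have hnd : (β.map χ).natDegree = β.natDegree := hβ.natDegree_map χ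
  obtain ⟨Ω', i1', i2', w', φ', θ', hw', hφ', hprod', hpos', hunit'⟩ :=
    one_place χ' h' β hβ S q hS hSh hq hqD
  have hposS : 0 < w (φ (χ S)) := by
    obtain ⟨r, hr⟩ := (dvd_iff_isRoot.2 hτ)
    rw [hr, map_mul, hw.mul]
    exact lt_of_lt_of_le hpos le_self_add
  have hu : ∀ (c : MvPolynomial (Fin m) F) (p : ℕ), c.IsHomogeneous p → c ≠ 0 → ¬ S ∣ c →
      w (φ (χ c)) = 0 := by
    intro c p hc hc0 hSc
    apply hunit
    intro hev
    have hcop := (h (max q p)).cop S c q p hSh hc (le_max_left _ _) (le_max_right _ _) hS.ne_zero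
      hc0 ((hS.isRelPrime_iff_not_dvd).2 hSc)
    obtain ⟨a, b, hab⟩ := hcop
    have := congrArg (Polynomial.eval τ) hab
    rw [Polynomial.eval_add, Polynomial.eval_mul, Polynomial.eval_mul, hev, hτ.eq_zero] at this
    simp at this
  have hne : ∀ (c : MvPolynomial (Fin m) F) (p : ℕ), c.IsHomogeneous p → c ≠ 0 →
      φ (χ c) ≠ 0 := by
    intro c p hc hc0 h0
    exact (h p).ne c p hc le_rfl hc0 (hφ (h0.trans (map_zero φ).symm))
  have hne' : ∀ (c : MvPolynomial (Fin m) F) (p : ℕ), c.IsHomogeneous p → p ≤ D → c ≠ 0 →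
      φ' (χ' c) ≠ 0 := by
    intro c p hc hp hc0 h0
    exact h'.ne c p hc hp hc0 (hφ' (h0.trans (map_zero φ').symm))
  obtain ⟨e, he⟩ : ∃ e : ℕ, w (φ (χ S)) = e := by
    have := (hw.top (φ (χ S))).not.2 (hne S q hSh hS.ne_zero)
    exact ⟨_, (ENat.natCast_toNat this).symm⟩
  obtain ⟨e', he'⟩ : ∃ e' : ℕ, w' (φ' (χ' S)) = e' := by
    have := (hw'.top (φ' (χ' S))).not.2 (hne' S q hSh hqD hS.ne_zero)
    exact ⟨_, (ENat.natCast_toNat this).symm⟩
  have he0 : e ≠ 0 := by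
    rintro rfl
    rw [he] at hposS
    exact absurd hposS (by simp)
  have he0' : e' ≠ 0 := by
    rintro rfl
    rw [he'] at hpos'
    exact absurd hpos' (by simp)
  refine ⟨Ω, Ω', i1, i2, i1', i2', fun x => (e' : ℕ∞) * w x, fun x => (e : ℕ∞) * w' x,
    φ.comp χ, φ', fun i => θ0 (i.cast hnd.symm), θ', isVal_smul hw e' he0', isVal_smul hw' e he0,
    ?_, hprod', ?_, hne', ?_, ?_, ?_⟩
  · rw [← Polynomial.map_map, hprod]
    exact Fintype.prod_equiv (finCongr hnd) _ _ (fun i => rfl)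
  · intro c p hc hc0
    exact hne c p hc hc0
  · intro c p hc hp
    by_cases hc0 : c = 0
    · subst hc0
      simp only [map_zero]
      rw [(hw.top 0).2 rfl, (hw'.top 0).2 rfl, ENat.mul_top (by exact_mod_cast he0'),
        ENat.mul_top (by exact_mod_cast he0)]
    obtain ⟨j, c', hc', hj⟩ := WfDvdMonoid.max_power_factor hc0 hS
    have h1 := val_form (D := p) hw (χ := φ.comp χ) (S := S)
      (fun c p hc _ hc0 hSc => hu c p hc hc0 hSc) c p hc le_rfl hc0 j c' hj hc'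
    have h2 := val_form (D := D) hw' (χ := φ'.comp χ') (S := S)
      (fun c p hc hp hc0 hSc => hunit' c p hc hp hc0 hSc) c p hc hp hc0 j c' hj hc'
    simp only [RingHom.comp_apply] at h1 h2 ⊢
    rw [h1, h2, he, he']
    ring
  · simp only [RingHom.comp_apply]
    rw [he]
    have : 0 < e' * e := Nat.mul_pos (Nat.pos_of_ne_zero he0') (Nat.pos_of_ne_zero he0)
    exact_mod_cast this
  · intro c p hc hc0 hSc
    simp only [RingHom.comp_apply]
    rw [hu c p hc hc0 hSc, mul_zero]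

end Pool.Agent.Lib.MP_64d474_lc.S3.Br3
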