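import Pool.Agent.Lib.MP_64d474_lc.S3.Br91
import Pool.Agent.Lib.MP_64d474_lc.S3.NormHom97
import Pool.Agent.Lib.MP_64d474_lc.S3.Hom64
import Pool.Agent.Lib.MP_64d474_lc.S3.Gauss8

/-!
The bracket: two products modulo an irreducible form.
-/

namespace Pool.Agent.Lib.MP_64d474_lc.S3

open Polynomial S3Norm97

universe u v u' v'

section shift

variable {F : Type u} [Field F] {σ : Type v}

/-- extension of the shift -/
noncomputable def shX (e : σ → F) : (MvPolynomial σ F)[X] →+* (MvPolynomial σ F)[X] :=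
  eval₂RingHom (sh e).toRingHom X

theorem shX_C (e : σ → F) (P : MvPolynomial σ F) : shX e (C P) = sh e P := by
  rw [shX, coe_eval₂RingHom, eval₂_C]
  rfl

theorem shX_X (e : σ → F) : shX e X = X := by
  rw [shX, coe_eval₂RingHom, eval₂_X]

theorem sh_C (e : σ → F) (a : F) : sh e (MvPolynomial.C a) = C (MvPolynomial.C a) :=
  (sh e).commutes a

theorem sh_X (e : σ → F) (i : σ) :
    sh e (MvPolynomial.X i) = C (MvPolynomial.X i) + C (MvPolynomial.C (e i)) * X := by
  rw [sh, MvPolynomial.aeval_X]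

theorem shX_comp (e : σ → F) : (shX (-e)).comp (shX e) = RingHom.id _ := by
  apply Polynomial.ringHom_ext
  · intro P
    have h : ((shX (-e)).comp (shX e)).comp (C : MvPolynomial σ F →+* _) = C := by
      apply MvPolynomial.ringHom_ext
      · intro a
        rw [RingHom.comp_apply, RingHom.comp_apply, shX_C, sh_C, shX_C, sh_C]
      · intro i
        rw [RingHom.comp_apply, RingHom.comp_apply, shX_C, sh_X, map_add, map_mul, shX_C, shX_C,
          shX_X, sh_X, sh_C, Pi.neg_apply, MvPolynomial.C_neg, C_neg]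
        ring
    exact RingHom.congr_fun h P
  · rw [RingHom.comp_apply, shX_X, shX_X, RingHom.id_apply]

theorem prime_sh (e : σ → F) {B : MvPolynomial σ F} (hB : Irreducible B) : Prime (sh e B) := by
  have h1 : (shX e).comp (shX (-e)) = RingHom.id _ := by
    have := shX_comp (-e)
    rwa [neg_neg] at this
  let E : (MvPolynomial σ F)[X] ≃+* (MvPolynomial σ F)[X] :=
    RingEquiv.ofRingHom (shX e) (shX (-e)) h1 (shX_comp e)
  have h2 : Prime (C B : (MvPolynomial σ F)[X]) := prime_C_iff.2 hB.prime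
  have h3 : Prime (E (C B)) := (MulEquiv.prime_iff E.toMulEquiv).2 h2
  have h4 : E (C B) = sh e B := shX_C e B
  rwa [h4] at h3

theorem sh_coeff_zero (e : σ → F) (P : MvPolynomial σ F) : (sh e P).coeff 0 = P := by
  have h : (constantCoeff : (MvPolynomial σ F)[X] →+* _).comp (sh e).toRingHom = RingHom.id _ := by
    apply MvPolynomial.ringHom_ext
    · intro a
      rw [RingHom.comp_apply]
      show constantCoeff (sh e (MvPolynomial.C a)) = _
      rw [sh_C]
      simp
    · intro i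
      rw [RingHom.comp_apply]
      show constantCoeff (sh e (MvPolynomial.X i)) = _
      rw [sh_X]
      simp
  exact RingHom.congr_fun h P

/-- the monic multiple of the shift of `B` -/
noncomputable def bet (e : σ → F) (B : MvPolynomial σ F) : (MvPolynomial σ F)[X] :=
  C (MvPolynomial.C (MvPolynomial.eval e B)⁻¹) * sh e B

theorem natDegree_sh_le (e : σ → F) {B : MvPolynomial σ F} {b : ℕ} (hB : B.IsHomogeneous b) :
    (sh e B).natDegree ≤ b := by
  rw [natDegree_le_iff_coeff_eq_zero]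
  intro k hk
  exact (sh_homS e hB k).2 hk

theorem bet_coeff (e : σ → F) {B : MvPolynomial σ F} {b : ℕ} (hB : B.IsHomogeneous b)
    (h0 : MvPolynomial.eval e B ≠ 0) : (bet e B).coeff b = 1 := by
  rw [bet, coeff_C_mul, sh_coeff_top e hB, ← MvPolynomial.C_mul, inv_mul_cancel₀ h0,
    MvPolynomial.C_1]

theorem bet_natDegree (e : σ → F) {B : MvPolynomial σ F} {b : ℕ} (hB : B.IsHomogeneous b)
    (h0 : MvPolynomial.eval e B ≠ 0) : (bet e B).natDegree = b := by
  apply le_antisymm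
  · exact (natDegree_C_mul_le _ _).trans (natDegree_sh_le e hB)
  · apply le_natDegree_of_ne_zero
    rw [bet_coeff e hB h0]
    exact one_ne_zero

theorem bet_monic (e : σ → F) {B : MvPolynomial σ F} {b : ℕ} (hB : B.IsHomogeneous b)
    (h0 : MvPolynomial.eval e B ≠ 0) : (bet e B).Monic := by
  rw [Monic, leadingCoeff, bet_natDegree e hB h0, bet_coeff e hB h0]

theorem sh_eq_bet (e : σ → F) {B : MvPolynomial σ F} (h0 : MvPolynomial.eval e B ≠ 0) :
    sh e B = C (MvPolynomial.C (MvPolynomial.eval e B)) * bet e B := by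
  rw [bet, ← mul_assoc, ← C_mul, ← MvPolynomial.C_mul, mul_inv_cancel₀ h0, MvPolynomial.C_1, C_1,
    one_mul]

theorem bet_prime (e : σ → F) {B : MvPolynomial σ F} (hB : Irreducible B)
    (h0 : MvPolynomial.eval e B ≠ 0) : Prime (bet e B) := by
  have h1 := prime_sh e hB
  have h2 : IsUnit (C (MvPolynomial.C (MvPolynomial.eval e B)⁻¹) : (MvPolynomial σ F)[X]) := by
    apply IsUnit.map
    apply IsUnit.map
    exact (inv_ne_zero h0).isUnit
  have h3 : Associated (sh e B) (bet e B) := by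
    rw [bet, mul_comm]
    exact (associated_mul_unit_right _ _ h2)
  exact h3.prime h1

theorem dvd_of_bet_dvd (e : σ → F) {B P : MvPolynomial σ F}
    (h : bet e B ∣ sh e P) : B ∣ P := by
  obtain ⟨g, hg⟩ := h
  have h1 := congrArg (fun f : (MvPolynomial σ F)[X] => f.coeff 0) hg
  rw [sh_coeff_zero, mul_coeff_zero, bet, coeff_C_mul, sh_coeff_zero] at h1
  rw [h1]
  exact ⟨MvPolynomial.C (MvPolynomial.eval e B)⁻¹ * g.coeff 0, by ring⟩

theorem mem_QQ_of_homS {n : ℕ} {f : (MvPolynomial σ F)[X]} (h : HomS n f) :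
    f ∈ QQ (PP σ F) 1 n := by
  intro k
  refine ⟨fun e he => ?_, fun hk => (h k).2 (by omega)⟩
  have h1 := (h k).1 (by omega)
  have h2 : n - k = e := by omega
  rw [h2] at h1
  exact h1

theorem bet_homS (e : σ → F) {B : MvPolynomial σ F} {b : ℕ} (hB : B.IsHomogeneous b) :
    HomS b (bet e B) := by
  have h1 : HomS 0 (C (MvPolynomial.C (MvPolynomial.eval e B)⁻¹) : (MvPolynomial σ F)[X]) :=
    HomS.C (MvPolynomial.isHomogeneous_C _ _)
  have h2 := h1.mul (sh_homS e hB)
  rwa [zero_add] at h2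

/-- the norm of a form is a form -/
theorem nrm_hom (e : σ → F) {B P : MvPolynomial σ F} {b p : ℕ} (hB : B.IsHomogeneous b)
    (h0 : MvPolynomial.eval e B ≠ 0) (hP : P.IsHomogeneous p) :
    (nrm (bet e B) (sh e P)).IsHomogeneous (b * p) := by
  have h1 := nrm_grad (grad_PP σ F) (bet_monic e hB h0)
    (by rw [bet_natDegree e hB h0]; exact mem_QQ_of_homS (bet_homS e hB))
    (mem_QQ_of_homS (sh_homS e hP))
  rw [bet_natDegree e hB h0] at h1
  exact h1

theorem chr_hom (e : σ → F) {B P : MvPolynomial σ F} {b p : ℕ} (hB : B.IsHomogeneous b)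
    (h0 : MvPolynomial.eval e B ≠ 0) (hP : P.IsHomogeneous p) (k : ℕ) :
    ∃ n ≤ b * p, ((chr (bet e B) (sh e P)).coeff k).IsHomogeneous n := by
  have h1 := chr_grad (grad_PP σ F) (bet_monic e hB h0)
    (by rw [bet_natDegree e hB h0]; exact mem_QQ_of_homS (bet_homS e hB))
    (mem_QQ_of_homS (sh_homS e hP))
  rw [bet_natDegree e hB h0] at h1
  by_cases h2 : b * p < p * k
  · refine ⟨0, Nat.zero_le _, ?_⟩
    rw [(h1 k).2 h2]
    exact MvPolynomial.isHomogeneous_zero _ _ _
  · refine ⟨b * p - p * k, Nat.sub_le _ _, ?_⟩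
    exact (h1 k).1 _ (by omega)

theorem nrm_ne_zero (e : σ → F) {B P : MvPolynomial σ F} {b : ℕ} (hB : B.IsHomogeneous b)
    (hBi : Irreducible B) (h0 : MvPolynomial.eval e B ≠ 0) (hdvd : ¬ B ∣ P) :
    nrm (bet e B) (sh e P) ≠ 0 := by
  intro h
  exact hdvd (dvd_of_bet_dvd e (dvd_of_nrm_eq_zero (bet_monic e hB h0)
    (bet_prime e hBi h0).irreducible _ h))

end shift

section values

variable {F : Type u} [Field F] {σ : Type v} {Ω : Type*} [CommRing Ω]

/-- the value at a root -/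
noncomputable def ev (ψ : MvPolynomial σ F →+* Ω) (x : Ω) : (MvPolynomial σ F)[X] →+* Ω :=
  eval₂RingHom ψ x

theorem ev_eq (ψ : MvPolynomial σ F →+* Ω) (x : Ω) (h : (MvPolynomial σ F)[X]) :
    (h.map ψ).eval x = ev ψ x h := by
  rw [ev, coe_eval₂RingHom, eval_map]

theorem nrm_ev [Nontrivial Ω] (ψ : MvPolynomial σ F →+* Ω) {β : (MvPolynomial σ F)[X]}
    (hβ : β.Monic) {b : ℕ} (θ : Fin b → Ω) (hθ : β.map ψ = ∏ i, (X - C (θ i)))
    (h : (MvPolynomial σ F)[X]) : ψ (nrm β h) = ∏ i, ev ψ (θ i) h := by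
  rw [← nrm_map ψ hβ, hθ, nrm_prod]
  exact Finset.prod_congr rfl fun i _ => ev_eq _ _ _

theorem chr_ev [Nontrivial Ω] (ψ : MvPolynomial σ F →+* Ω) {β : (MvPolynomial σ F)[X]}
    (hβ : β.Monic) {b : ℕ} (θ : Fin b → Ω) (hθ : β.map ψ = ∏ i, (X - C (θ i)))
    (h : (MvPolynomial σ F)[X]) (k : ℕ) :
    (∏ i, (X - C (ev ψ (θ i) h))).coeff k = ψ ((chr β h).coeff k) := by
  rw [← coeff_map, ← chr_map ψ hβ, hθ, chr_prod]
  simp only [ev_eq]

theorem IsVal.toGa {w : Ω → ℕ∞} (h : IsVal w) : MP64d474.S3.Ga8.IsVal w :=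
  ⟨(h.top 0).2 rfl, h.one, h.mul, h.add⟩

theorem IsVal.prod {w : Ω → ℕ∞} (h : IsVal w) {ι : Type*} (s : Finset ι) (g : ι → Ω) :
    w (∏ i ∈ s, g i) = ∑ i ∈ s, w (g i) := h.toGa.prod s g

end values

/-- The bracket. -/
theorem bracket {F : Type u} [Field F] {σ : Type v} {K : Type u'} [Field K] [CharZero K]
    {K' : Type v'} [Field K'] [CharZero K']
    (χ : MvPolynomial σ F →+* K[X]) (χ' : MvPolynomial σ F →+* K'[X]) (d : ℕ)
    (hχ : Good χ ⊤) (hχ' : Good χ' ((2 * d ^ 2 : ℕ) : ℕ∞)) (e : σ → F) (B : MvPolynomial σ F)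
    (b : ℕ) (hb : b ≤ d) (hBh : B.IsHomogeneous b) (hB : Irreducible B)
    (h0 : MvPolynomial.eval e B ≠ 0) {κ : Type*} [DecidableEq κ] (P : κ → MvPolynomial σ F)
    (deg : κ → ℕ) (hP : ∀ x, (P x).IsHomogeneous (deg x)) (hdeg : ∀ x, deg x ≤ d)
    (s t : Finset κ) (n : ℕ) (hs : ∑ x ∈ s, deg x = n) (ht : ∑ x ∈ t, deg x = n)
    (hBs : ∀ x ∈ s ∪ t, ¬ B ∣ P x)
    (hdvd : (sh e B).map χ' ∣ (sh e (∏ x ∈ s, P x + ∏ x ∈ t, P x)).map χ') :
    B ∣ ∏ x ∈ s, P x + ∏ x ∈ t, P x := by
  classical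
  set T1 := ∏ x ∈ s, P x with hT1
  set T2 := ∏ x ∈ t, P x with hT2
  have hmon := bet_monic e hBh h0
  have hT1h : T1.IsHomogeneous n := by
    rw [hT1, ← hs]
    exact MvPolynomial.IsHomogeneous.prod s P deg fun x _ => hP x
  have hT2h : T2.IsHomogeneous n := by
    rw [hT2, ← ht]
    exact MvPolynomial.IsHomogeneous.prod t P deg fun x _ => hP x
  have hb0 : 0 < b := by
    rcases Nat.eq_zero_or_pos b with h | h
    · exfalso
      subst h
      have h1 : B.totalDegree = 0 := by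
        have := hBh.totalDegree_le
        omega
      rw [MvPolynomial.totalDegree_eq_zero_iff_eq_C] at h1
      apply hB.not_isUnit
      rw [h1] at h0 ⊢
      apply IsUnit.map
      rw [MvPolynomial.eval_C] at h0
      exact h0.isUnit
    · exact h
  -- the norms
  set N1 := nrm (bet e B) (sh e T1) with hN1
  set N12 := nrm (bet e B) (sh e (T1 + T2)) with hN12
  have hN1h : N1.IsHomogeneous (b * n) := nrm_hom e hBh h0 hT1h
  have hN12h : N12.IsHomogeneous (b * n) := nrm_hom e hBh h0 (hT1h.add hT2h)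
  have hN1p : N1 = ∏ x ∈ s, nrm (bet e B) (sh e (P x)) := by
    rw [hN1, hT1, map_prod, nrm_prod_right hmon]
  have hNx : ∀ x ∈ s ∪ t, nrm (bet e B) (sh e (P x)) ≠ 0 := fun x hx =>
    nrm_ne_zero e hBh hB h0 (hBs x hx)
  have hNxh : ∀ x, (nrm (bet e B) (sh e (P x))).IsHomogeneous (b * deg x) := fun x =>
    nrm_hom e hBh h0 (hP x)
  have hbd : ∀ x, b * deg x ≤ 2 * d ^ 2 := by
    intro x
    have := hdeg x
    nlinarith [Nat.mul_le_mul hb this]
  have hN1ne : N1 ≠ 0 := by
    rw [hN1p, Finset.prod_ne_zero_iff]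
    exact fun x hx => hNx x (Finset.mem_union_left _ hx)
  -- the norms on the second curve
  have hN1' : χ' N1 ≠ 0 := by
    rw [hN1p, map_prod, Finset.prod_ne_zero_iff]
    intro x hx
    exact hχ'.ne _ _ (hNxh x) (by exact_mod_cast hbd x) (hNx x (Finset.mem_union_left _ hx))
  have hdvd' : (bet e B).map χ' ∣ (sh e (T1 + T2)).map χ' := by
    refine dvd_trans ?_ hdvd
    rw [sh_eq_bet e h0, Polynomial.map_mul]
    exact dvd_mul_left _ _
  have hN12' : χ' N12 = 0 := by
    rw [hN12, ← nrm_map χ' hmon]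
    apply nrm_eq_zero_of_dvd (hmon.map χ') ?_ hdvd'
    rw [hmon.natDegree_map, bet_natDegree e hBh h0]
    exact hb0
  -- the main step
  have key : ∀ S : MvPolynomial σ F, Prime S → ∀ j : ℕ, S ^ j ∣ N1 → S ^ j ∣ N12 := by
    intro S hS j hj
    rcases Nat.eq_zero_or_pos j with hj0 | hj0
    · subst hj0
      rw [pow_zero]
      exact one_dvd _
    by_cases hN0 : N12 = 0
    · rw [hN0]
      exact dvd_zero _
    have hSN : S ∣ N1 := (dvd_pow_self S hj0.ne').trans hj
    obtain ⟨x0, hx0, hSx⟩ : ∃ x ∈ s, S ∣ nrm (bet e B) (sh e (P x)) := by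
      rw [hN1p] at hSN
      exact (hS.dvd_finsetProd_iff _).1 hSN
    obtain ⟨sd, hsd, hSh⟩ := hom_of_dvd (hNxh x0) (hNx x0 (Finset.mem_union_left _ hx0)) hSx
    have hsD : sd ≤ 2 * d ^ 2 := hsd.trans (hbd x0)
    have hs0 : 0 < sd := by
      rcases Nat.eq_zero_or_pos sd with h | h
      · exfalso
        subst h
        have h1 : S.totalDegree = 0 := by
          have := hSh.totalDegree_le
          omega
        rw [MvPolynomial.totalDegree_eq_zero_iff_eq_C] at h1
        apply hS.not_isUnit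
        have h2 : S ≠ 0 := hS.ne_zero
        rw [h1] at h2 ⊢
        apply IsUnit.map
        apply Ne.isUnit
        rintro h3
        apply h2
        rw [h3, MvPolynomial.C_0]
      · exact h
    obtain ⟨Ω, i1, i2, Ω', i1', i2', w, w', φ, φ', θ, θ', hw, hw', hθ, hθ', hval, hval0, hpos,
      htop, htop'⟩ := exists_places χ χ' (2 * d ^ 2) hχ hχ' (bet e B) hmon S hS.irreducible sd hSh
        hs0 hsD
    set ψ := φ.comp χ with hψ
    set ψ' := φ'.comp χ' with hψ'
    -- finite values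
    have hfin : ∀ x ∈ s ∪ t, ∀ i, w (ev ψ (θ i) (sh e (P x))) ≠ ⊤ := by
      intro x hx i h
      have h1 := htop _ _ (hNxh x) (hNx x hx)
      apply h1
      have h2 : φ (χ (nrm (bet e B) (sh e (P x)))) = ψ (nrm (bet e B) (sh e (P x))) := rfl
      rw [h2, nrm_ev ψ hmon θ hθ, hw.prod]
      exact WithTop.sum_eq_top.2 ⟨i, Finset.mem_univ i, h⟩
    have hfin' : ∀ x ∈ s ∪ t, ∀ i, w' (ev ψ' (θ' i) (sh e (P x))) ≠ ⊤ := by
      intro x hx i h
      have h1 := htop' _ _ (hNxh x) (hbd x) (hNx x hx)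
      apply h1
      have h2 : φ' (χ' (nrm (bet e B) (sh e (P x)))) = ψ' (nrm (bet e B) (sh e (P x))) := rfl
      rw [h2, nrm_ev ψ' hmon θ' hθ', hw'.prod]
      exact WithTop.sum_eq_top.2 ⟨i, Finset.mem_univ i, h⟩
    set a : κ → Fin (bet e B).natDegree → ℕ := fun x i => (w (ev ψ (θ i) (sh e (P x)))).toNat
      with ha
    set a' : κ → Fin (bet e B).natDegree → ℕ := fun x i => (w' (ev ψ' (θ' i) (sh e (P x)))).toNat
      with ha'
    have hwa : ∀ x ∈ s ∪ t, ∀ i, w (ev ψ (θ i) (sh e (P x))) = a x i := by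
      intro x hx i
      exact (ENat.natCast_toNat (hfin x hx i)).symm
    have hwa' : ∀ x ∈ s ∪ t, ∀ i, w' (ev ψ' (θ' i) (sh e (P x))) = a' x i := by
      intro x hx i
      exact (ENat.natCast_toNat (hfin' x hx i)).symm
    -- coefficients
    have hcoef : ∀ (Q : MvPolynomial σ F) (q : ℕ), Q.IsHomogeneous q → q ≤ 2 * d → ∀ k,
        w ((∏ i, (X - C (ev ψ (θ i) (sh e Q)))).coeff k) =
          w' ((∏ i, (X - C (ev ψ' (θ' i) (sh e Q)))).coeff k) := by
      intro Q q hQ hq k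
      rw [chr_ev ψ hmon θ hθ, chr_ev ψ' hmon θ' hθ']
      obtain ⟨m, hm, hh⟩ := chr_hom e hBh h0 hQ k
      refine hval _ m hh ?_
      nlinarith [Nat.mul_le_mul hb hq]
    have hpair : ∀ x ∈ s ∪ t, ∀ y ∈ s ∪ t, ∑ i, a x i * a y i = ∑ i, a' x i * a' y i := by
      intro x hx y hy
      refine MP64d474.S3.Ga8.sum_mul hw.toGa hw'.toGa
        (fun i => ev ψ (θ i) (sh e (P x))) (fun i => ev ψ (θ i) (sh e (P y)))
        (fun i => ev ψ' (θ' i) (sh e (P x))) (fun i => ev ψ' (θ' i) (sh e (P y)))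
        (a x) (a y) (a' x) (a' y) (hwa x hx) (hwa y hy) (hwa' x hx) (hwa' y hy) ?_ ?_ ?_
      · exact hcoef (P x) (deg x) (hP x) (by have := hdeg x; omega)
      · exact hcoef (P y) (deg y) (hP y) (by have := hdeg y; omega)
      · intro k
        have h1 := hcoef (P x * P y) (deg x + deg y) ((hP x).mul (hP y))
          (by have := hdeg x; have := hdeg y; omega) k
        simpa only [map_mul] using h1
    -- the values of the products
    have hsum : ∀ (r : Finset κ), r ⊆ s ∪ t → ∀ i,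
        w (ev ψ (θ i) (sh e (∏ x ∈ r, P x))) = ((∑ x ∈ r, a x i : ℕ) : ℕ∞) := by
      intro r hr i
      rw [map_prod, map_prod, hw.prod, Nat.cast_sum]
      exact Finset.sum_congr rfl fun x hx => hwa x (hr hx) i
    have hsum' : ∀ (r : Finset κ), r ⊆ s ∪ t → ∀ i,
        w' (ev ψ' (θ' i) (sh e (∏ x ∈ r, P x))) = ((∑ x ∈ r, a' x i : ℕ) : ℕ∞) := by
      intro r hr i
      rw [map_prod, map_prod, hw'.prod, Nat.cast_sum]
      exact Finset.sum_congr rfl fun x hx => hwa' x (hr hx) i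
    have heq' : ∀ i, ∑ x ∈ s, a' x i = ∑ x ∈ t, a' x i := by
      intro i
      have h1 : ev ψ' (θ' i) (sh e (T1 + T2)) = 0 := by
        have h2 : ev ψ' (θ' i) (bet e B) = 0 := by
          rw [← ev_eq, hθ', eval_prod]
          apply Finset.prod_eq_zero (Finset.mem_univ i)
          simp
        obtain ⟨g, hg⟩ := hdvd'
        have h3 : ∀ f : (MvPolynomial σ F)[X], ev ψ' (θ' i) f =
            (eval₂RingHom φ' (θ' i)) (f.map χ') := by
          intro f
          rw [ev, coe_eval₂RingHom, coe_eval₂RingHom, eval₂_map, hψ']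
        rw [h3, hg, map_mul, ← h3, h2, zero_mul]
      rw [map_add, map_add] at h1
      have h2 : ev ψ' (θ' i) (sh e T1) = - ev ψ' (θ' i) (sh e T2) := eq_neg_of_add_eq_zero_left h1
      have h3 : w' (ev ψ' (θ' i) (sh e T1)) = w' (ev ψ' (θ' i) (sh e T2)) := by
        rw [h2, hw'.toGa.neg]
      rw [hT1, hT2, hsum' s Finset.subset_union_left i, hsum' t Finset.subset_union_right i] at h3
      exact_mod_cast h3
    have heq : ∀ i, ∑ x ∈ s, a x i = ∑ x ∈ t, a x i :=
      MP64d474.S3.Ga8.eq_of_pairs s t a a' hpair heq'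
    -- the norms
    have hle : w (ψ N1) ≤ w (ψ N12) := by
      rw [hN1, hN12, nrm_ev ψ hmon θ hθ, nrm_ev ψ hmon θ hθ, hw.prod, hw.prod]
      refine Finset.sum_le_sum fun i _ => ?_
      rw [map_add, map_add]
      refine le_trans ?_ (hw.add _ _)
      rw [hT1, hT2, hsum s Finset.subset_union_left i, hsum t Finset.subset_union_right i, heq i,
        min_self]
    -- conclusion
    obtain ⟨c, hc⟩ := hj
    obtain ⟨i, c1, hc1, hdv, hc10, hc1h⟩ := exists_pow_mul hS.irreducible hSh hN12h hN0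
    have hwS : w (ψ S) ≠ ⊤ := htop S sd hSh hS.ne_zero
    have h1 : w (ψ c1) = 0 := hval0 c1 _ hc1h hdv
    have h2 : w (ψ N12) = i * w (ψ S) := by
      rw [hc1, map_mul, map_pow, hw.mul, hw.pow, h1, add_zero]
    have h3 : j * w (ψ S) ≤ w (ψ N1) := by
      rw [hc, map_mul, map_pow, hw.mul, hw.pow]
      exact le_self_add
    have h4 := h3.trans (hle.trans h2.le)
    have hpos2 : 0 < w (ψ S) := hpos
    obtain ⟨m, hm⟩ := ENat.ne_top_iff_exists.1 hwS
    rw [← hm] at h4 hpos2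
    have hm0 : 0 < m := by exact_mod_cast hpos2
    have h5 : j * m ≤ i * m := by exact_mod_cast h4
    have h6 : j ≤ i := Nat.le_of_mul_le_mul_right h5 hm0
    rw [hc1]
    exact (pow_dvd_pow S h6).mul_right _
  have hN : N1 ∣ N12 := by
    by_cases hN0 : N12 = 0
    · rw [hN0]
      exact dvd_zero _
    rw [UniqueFactorizationMonoid.dvd_iff_emultiplicity_le hN1ne]
    intro S hS
    rw [emultiplicity_le_emultiplicity_iff]
    exact key S hS
  have hN12z : N12 = 0 := by
    by_contra hne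
    obtain ⟨q, hq⟩ := hN
    have hq0 : q ≠ 0 := by
      rintro rfl
      exact hne (by rw [hq, mul_zero])
    rw [hq] at hN12h
    have h1 := (hom_div hN1h hN1ne hN12h hq0).2
    rw [Nat.sub_self] at h1
    have h2 : q.totalDegree = 0 := by
      have := h1.totalDegree_le
      omega
    rw [MvPolynomial.totalDegree_eq_zero_iff_eq_C] at h2
    have h3 : IsUnit q := by
      rw [h2] at hq0 ⊢
      apply IsUnit.map
      apply Ne.isUnit
      intro h4
      apply hq0
      rw [h4, MvPolynomial.C_0]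
    have h4 : χ' q ≠ 0 := (h3.map χ').ne_zero
    rw [hq, map_mul, mul_eq_zero] at hN12'
    rcases hN12' with h5 | h5
    · exact hN1' h5
    · exact h4 h5
  exact dvd_of_bet_dvd e (dvd_of_nrm_eq_zero hmon (bet_prime e hB h0).irreducible _ hN12z)

end Pool.Agent.Lib.MP_64d474_lc.S3
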