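import Mathlib

/-!
Factors of a form are forms.
-/

namespace Pool.Agent.Lib.MP_64d474_lc.S3

open MvPolynomial

/-- `f(x) ↦ f(t x)`, as a polynomial in `t`. -/
noncomputable def scal (σ : Type*) (F : Type*) [CommRing F] :
    MvPolynomial σ F →ₐ[F] Polynomial (MvPolynomial σ F) :=
  aeval (fun i => Polynomial.C (X i) * Polynomial.X)

section
variable {σ : Type*} {F : Type*} [CommRing F]

theorem scal_monomial (m : σ →₀ ℕ) (a : F) :
    scal σ F (monomial m a) = Polynomial.C (monomial m a) * Polynomial.X ^ m.degree := by
  classical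
  rw [scal, aeval_monomial]
  have h : (m.prod fun i k => (Polynomial.C (X i : MvPolynomial σ F) * Polynomial.X) ^ k)
      = Polynomial.C (m.prod fun i k => (X i : MvPolynomial σ F) ^ k) * Polynomial.X ^ m.degree := by
    simp only [Finsupp.prod, mul_pow, Finset.prod_mul_distrib, map_prod, map_pow]
    rw [Finset.prod_pow_eq_pow_sum]
    rfl
  rw [h, monomial_eq (s := m) (a := a), map_mul, mul_assoc]
  congr 1

theorem coeff_scal (P : MvPolynomial σ F) (k : ℕ) :
    (scal σ F P).coeff k = homogeneousComponent k P := by
  classical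
  induction P using MvPolynomial.induction_on' with
  | monomial m a =>
    rw [scal_monomial, Polynomial.coeff_C_mul_X_pow]
    ext m'
    rw [coeff_homogeneousComponent]
    by_cases h : m = m'
    · subst h
      by_cases hk : k = m.degree
      · simp [hk]
      · simp [hk, Ne.symm hk]
    · split_ifs <;> simp [coeff_monomial, h]
  | add p q hp hq =>
    rw [map_add, Polynomial.coeff_add, map_add, hp, hq]

theorem scal_of_isHomogeneous {P : MvPolynomial σ F} {n : ℕ} (h : P.IsHomogeneous n) :
    scal σ F P = Polynomial.C P * Polynomial.X ^ n := by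
  ext1 k
  rw [coeff_scal, Polynomial.coeff_C_mul_X_pow]
  split_ifs with hk
  · subst hk
    ext m
    rw [coeff_homogeneousComponent]
    split_ifs with hm
    · rfl
    · exact (h.coeff_eq_zero hm).symm
  · ext m
    rw [coeff_homogeneousComponent]
    split_ifs with hm
    · rw [coeff_zero]
      exact h.coeff_eq_zero (by rw [hm]; exact hk)
    · rfl

theorem scal_injective : Function.Injective (scal σ F) := by
  intro P Q h
  have : ∀ k, homogeneousComponent k P = homogeneousComponent k Q := by
    intro k
    rw [← coeff_scal, ← coeff_scal, h]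
  ext m
  have h1 := congrArg (coeff m) (this m.degree)
  simpa [coeff_homogeneousComponent] using h1

theorem isHomogeneous_of_coeff_scal {P : MvPolynomial σ F} {a : ℕ}
    (h : ∀ k, k ≠ a → (scal σ F P).coeff k = 0) : P.IsHomogeneous a := by
  have h2 : P = homogeneousComponent a P := by
    ext m
    rw [coeff_homogeneousComponent]
    split_ifs with hm
    · rfl
    · have h1 := congrArg (coeff m) (h m.degree hm)
      rw [coeff_scal] at h1
      simpa [coeff_homogeneousComponent] using h1
  rw [h2]
  exact homogeneousComponent_isHomogeneous a P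

end

variable {σ : Type*} {F : Type*} [CommRing F] [IsDomain F]

/-- Factors of a non-zero form are forms. -/
theorem exists_isHomogeneous_of_mul {P Q : MvPolynomial σ F} {n : ℕ}
    (h : (P * Q).IsHomogeneous n) (h0 : P * Q ≠ 0) :
    ∃ a b, a + b = n ∧ P.IsHomogeneous a ∧ Q.IsHomogeneous b := by
  have hP : P ≠ 0 := left_ne_zero_of_mul h0
  have hQ : Q ≠ 0 := right_ne_zero_of_mul h0
  have hP' : scal σ F P ≠ 0 := fun e => hP (scal_injective (by rw [e, map_zero]))
  have hQ' : scal σ F Q ≠ 0 := fun e => hQ (scal_injective (by rw [e, map_zero]))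
  have hPQ : scal σ F P * scal σ F Q = Polynomial.C (P * Q) * Polynomial.X ^ n := by
    rw [← map_mul, scal_of_isHomogeneous h]
  have hd : (scal σ F P).natDegree + (scal σ F Q).natDegree = n := by
    rw [← Polynomial.natDegree_mul hP' hQ', hPQ, Polynomial.natDegree_C_mul_X_pow _ _ h0]
  have ht : (scal σ F P).natTrailingDegree + (scal σ F Q).natTrailingDegree = n := by
    rw [← Polynomial.natTrailingDegree_mul hP' hQ', hPQ,
      Polynomial.natTrailingDegree_mul (Polynomial.C_ne_zero.mpr h0) (pow_ne_zero _ Polynomial.X_ne_zero)]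
    simp [hP, hQ]
  have h1 := Polynomial.natTrailingDegree_le_natDegree (scal σ F P)
  have h2 := Polynomial.natTrailingDegree_le_natDegree (scal σ F Q)
  refine ⟨(scal σ F P).natDegree, (scal σ F Q).natDegree, hd, ?_, ?_⟩
  · apply isHomogeneous_of_coeff_scal
    intro k hk
    rcases lt_or_gt_of_ne hk with hk | hk
    · exact Polynomial.coeff_eq_zero_of_lt_natTrailingDegree (by omega)
    · exact Polynomial.coeff_eq_zero_of_natDegree_lt hk
  · apply isHomogeneous_of_coeff_scal
    intro k hk
    rcases lt_or_gt_of_ne hk with hk | hk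
    · exact Polynomial.coeff_eq_zero_of_lt_natTrailingDegree (by omega)
    · exact Polynomial.coeff_eq_zero_of_natDegree_lt hk

/-- A divisor of a non-zero form is a form. -/
theorem isHomogeneous_of_dvd {P Q : MvPolynomial σ F} {n : ℕ}
    (h : Q.IsHomogeneous n) (h0 : Q ≠ 0) (hd : P ∣ Q) : P.IsHomogeneous P.totalDegree := by
  obtain ⟨R, rfl⟩ := hd
  obtain ⟨a, b, -, ha, -⟩ := exists_isHomogeneous_of_mul h h0
  rw [ha.totalDegree (left_ne_zero_of_mul h0)]
  exact ha

/-- The quotient of a form by a form is a form of the difference degree. -/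
theorem isHomogeneous_of_mul_left {P Q : MvPolynomial σ F} {a n : ℕ}
    (h : (P * Q).IsHomogeneous (a + n)) (h0 : P * Q ≠ 0) (hP : P.IsHomogeneous a) :
    Q.IsHomogeneous n := by
  obtain ⟨a', b', hab, ha, hb⟩ := exists_isHomogeneous_of_mul h h0
  have : a' = a := ha.inj_right hP (left_ne_zero_of_mul h0)
  have : b' = n := by omega
  subst this
  exact hb

end Pool.Agent.Lib.MP_64d474_lc.S3
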