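import Mathlib
import Pool.Agent.Lib.MP_64d474_lc.S3.HomDvd58

/-!
The Mason-Stothers step: three products of low-degree forms of the same degree whose sum vanishes
on the generic line of the generator have sum zero.
-/

namespace Pool.Agent.Lib.MP_64d474_lc.S3

open MvPolynomial

/-- All irreducible factors have degree at most `d`. -/
def IsLow {σ F : Type*} [CommRing F] (d : ℕ) (T : MvPolynomial σ F) : Prop :=
  ∀ B, Irreducible B → B ∣ T → B.totalDegree ≤ d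

theorem IsLow.of_dvd {σ F : Type*} [CommRing F] {d : ℕ} {S T : MvPolynomial σ F}
    (h : IsLow d T) (hd : S ∣ T) : IsLow d S := fun B hB hBS => h B hB (hBS.trans hd)

theorem IsLow.mul {σ F : Type*} [Field F] {d : ℕ} {S T : MvPolynomial σ F}
    (hS : IsLow d S) (hT : IsLow d T) : IsLow d (S * T) := by
  intro B hB h
  rcases (UniqueFactorizationMonoid.irreducible_iff_prime.mp hB).dvd_or_dvd h with h | h
  · exact hS B hB h
  · exact hT B hB h

theorem isLow_of_totalDegree_le {σ F : Type*} [Field F] {d : ℕ} {T : MvPolynomial σ F}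
    (h0 : T ≠ 0) (h : T.totalDegree ≤ d) : IsLow d T := by
  intro B hB hd
  obtain ⟨R, rfl⟩ := hd
  rw [totalDegree_mul_of_isDomain (left_ne_zero_of_mul h0) (right_ne_zero_of_mul h0)] at h
  omega

theorem isLow_multiset_prod {σ F : Type*} [Field F] {d : ℕ} (s : Multiset (MvPolynomial σ F))
    (h : ∀ P ∈ s, P.totalDegree ≤ d) (h0 : s.prod ≠ 0) : IsLow d s.prod := by
  induction s using Multiset.induction_on with
  | empty =>
    intro B hB hd
    rw [Multiset.prod_zero] at hd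
    exact absurd (isUnit_of_dvd_one hd) hB.not_isUnit
  | cons a s ih =>
    rw [Multiset.prod_cons] at h0 ⊢
    exact (isLow_of_totalDegree_le (left_ne_zero_of_mul h0) (h a (Multiset.mem_cons_self a s))).mul
      (ih (fun P hP => h P (Multiset.mem_cons_of_mem hP)) (right_ne_zero_of_mul h0))

theorem isLow_finset_prod {ι σ F : Type*} [Field F] {d : ℕ} (s : Finset ι)
    (P : ι → MvPolynomial σ F)
    (h : ∀ i ∈ s, (P i).totalDegree ≤ d) (h0 : ∏ i ∈ s, P i ≠ 0) : IsLow d (∏ i ∈ s, P i) := by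
  rw [Finset.prod_eq_multiset_prod] at h0 ⊢
  refine isLow_multiset_prod _ ?_ h0
  intro Q hQ
  obtain ⟨i, hi, rfl⟩ := Multiset.mem_map.mp hQ
  exact h i (by simpa using hi)

/-- What the step needs of the restriction to the generic line of the generator. -/
structure LineOK {σ F K : Type*} [Field F] [Field K] (d : ℕ)
    (χ : MvPolynomial σ F →+* Polynomial K) : Prop where
  deg : ∀ B : MvPolynomial σ F, Irreducible B → B.IsHomogeneous B.totalDegree →
    B.totalDegree ≤ d → χ B ≠ 0 ∧ (χ B).natDegree = B.totalDegree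
  cop : ∀ P Q : MvPolynomial σ F, Irreducible P → Irreducible Q →
    P.IsHomogeneous P.totalDegree → Q.IsHomogeneous Q.totalDegree →
    P.totalDegree ≤ d → Q.totalDegree ≤ d → ¬ P ∣ Q → IsCoprime (χ P) (χ Q)

/-- What the step needs of the bracket: `Φ` is the generator, `E` a condition that passes to
divisors (no zero at the special direction). -/
structure BrOK {σ F R : Type*} [Field F] [CommRing R] (d : ℕ)
    (Φ : MvPolynomial σ F →+* R) (E : MvPolynomial σ F → Prop) : Prop where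
  br : ∀ (n : ℕ) (B T₁ T₂ : MvPolynomial σ F), Irreducible B → B.IsHomogeneous B.totalDegree →
    B.totalDegree ≤ d → E B → E T₁ → E T₂ → T₁ ≠ 0 → T₂ ≠ 0 → T₁.IsHomogeneous n →
    T₂.IsHomogeneous n → IsLow d T₁ → IsLow d T₂ → ¬ B ∣ T₁ → ¬ B ∣ T₂ →
    Φ B ∣ Φ (T₁ + T₂) → B ∣ T₁ + T₂
  dvd : ∀ S T : MvPolynomial σ F, S ∣ T → E T → E S

section
variable {σ F K : Type*} [Field F] [Field K]

theorem isHomogeneous_of_isUnit {u : MvPolynomial σ F} (hu : IsUnit u) : u.totalDegree = 0 := by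
  rw [isUnit_iff_totalDegree_of_isReduced] at hu
  exact hu.2

/-- The map to polynomials in one variable keeps the degree of low products of forms. -/
theorem LineOK.degree {d : ℕ} {χ : MvPolynomial σ F →+* Polynomial K} (hχ : LineOK d χ)
    (T : MvPolynomial σ F) : T ≠ 0 → (∃ n, T.IsHomogeneous n) → IsLow d T →
      χ T ≠ 0 ∧ (χ T).natDegree = T.totalDegree := by
  induction T using WfDvdMonoid.induction_on_irreducible with
  | zero => intro h; exact absurd rfl h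
  | unit u hu =>
    intro h0 h1 h2
    have h3 : IsUnit (χ u) := hu.map χ
    refine ⟨h3.ne_zero, ?_⟩
    rw [isHomogeneous_of_isUnit hu]
    exact Polynomial.natDegree_eq_zero_of_isUnit h3
  | mul a i ha hi ih =>
    intro h0 h1 h2
    obtain ⟨n, hn⟩ := h1
    obtain ⟨x, y, -, hx, hy⟩ := exists_isHomogeneous_of_mul hn h0
    have h3 := ih ha ⟨y, hy⟩ (h2.of_dvd (dvd_mul_left a i))
    have hx' : i.totalDegree = x := hx.totalDegree hi.ne_zero
    have h4 := hχ.deg i hi (by rw [hx']; exact hx) (h2 i hi (dvd_mul_right i a))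
    refine ⟨by rw [map_mul]; exact mul_ne_zero h4.1 h3.1, ?_⟩
    rw [map_mul, Polynomial.natDegree_mul h4.1 h3.1, h4.2, h3.2,
      totalDegree_mul_of_isDomain hi.ne_zero ha]

theorem LineOK.isCoprime_irreducible {d : ℕ} {χ : MvPolynomial σ F →+* Polynomial K}
    (hχ : LineOK d χ) {B : MvPolynomial σ F} (hB : Irreducible B)
    (hBh : B.IsHomogeneous B.totalDegree) (hBd : B.totalDegree ≤ d)
    (T : MvPolynomial σ F) : T ≠ 0 → (∃ n, T.IsHomogeneous n) → IsLow d T → ¬ B ∣ T →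
      IsCoprime (χ B) (χ T) := by
  induction T using WfDvdMonoid.induction_on_irreducible with
  | zero => intro h; exact absurd rfl h
  | unit u hu =>
    intro h0 h1 h2 h3
    exact isCoprime_one_right.of_isCoprime_of_dvd_right (hu.map χ).dvd
  | mul a i ha hi ih =>
    intro h0 h1 h2 h3
    obtain ⟨n, hn⟩ := h1
    obtain ⟨x, y, -, hx, hy⟩ := exists_isHomogeneous_of_mul hn h0
    have hx' : i.totalDegree = x := hx.totalDegree hi.ne_zero
    have h4 := ih ha ⟨y, hy⟩ (h2.of_dvd (dvd_mul_left a i)) (fun h => h3 (h.mul_left i))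
    rw [map_mul]
    refine IsCoprime.mul_right ?_ h4
    exact hχ.cop B i hB hi hBh (by rw [hx']; exact hx) hBd (h2 i hi (dvd_mul_right i a))
      (fun h => h3 (h.mul_right a))

theorem LineOK.isCoprime {d : ℕ} {χ : MvPolynomial σ F →+* Polynomial K}
    (hχ : LineOK d χ) {T : MvPolynomial σ F} (hT0 : T ≠ 0) (hTh : ∃ n, T.IsHomogeneous n)
    (hTl : IsLow d T) (S : MvPolynomial σ F) : S ≠ 0 → (∃ n, S.IsHomogeneous n) → IsLow d S →
      (∀ B, Irreducible B → B ∣ S → ¬ B ∣ T) → IsCoprime (χ S) (χ T) := by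
  induction S using WfDvdMonoid.induction_on_irreducible with
  | zero => intro h; exact absurd rfl h
  | unit u hu =>
    intro h0 h1 h2 h3
    exact isCoprime_one_left.of_isCoprime_of_dvd_left (hu.map χ).dvd
  | mul a i ha hi ih =>
    intro h0 h1 h2 h3
    obtain ⟨n, hn⟩ := h1
    obtain ⟨x, y, -, hx, hy⟩ := exists_isHomogeneous_of_mul hn h0
    have hx' : i.totalDegree = x := hx.totalDegree hi.ne_zero
    have h4 := ih ha ⟨y, hy⟩ (h2.of_dvd (dvd_mul_left a i))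
      (fun B hB h => h3 B hB (h.mul_left i))
    rw [map_mul]
    refine IsCoprime.mul_left ?_ h4
    exact hχ.isCoprime_irreducible hi (by rw [hx']; exact hx) (h2 i hi (dvd_mul_right i a)) T hT0
      hTh hTl (h3 i hi (dvd_mul_right i a))

theorem isUnit_of_totalDegree_eq_zero {B : MvPolynomial σ F} (h0 : B ≠ 0)
    (h : B.totalDegree = 0) : IsUnit B := by
  rw [totalDegree_eq_zero_iff_eq_C] at h
  rw [h] at h0 ⊢
  refine (IsUnit.mk0 _ ?_).map C
  intro h1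
  rw [h1, map_zero] at h0
  exact h0 rfl

theorem LineOK.not_dvd_of_dvd {d : ℕ} {χ : MvPolynomial σ F →+* Polynomial K}
    (hχ : LineOK d χ) {T₁ T₂ T₃ : MvPolynomial σ F} (h₁ : T₁ ≠ 0)
    (h₃ : T₃ ≠ 0) (hh₁ : ∃ n, T₁.IsHomogeneous n) (hh₃ : ∃ n, T₃.IsHomogeneous n)
    (hl₁ : IsLow d T₁) (hl₃ : IsLow d T₃)
    (hred : ∀ B, Irreducible B → B ∣ T₁ → B ∣ T₂ → ¬ B ∣ T₃)
    (hz : χ T₁ + χ T₂ + χ T₃ = 0) :
    ∀ B, Irreducible B → B ∣ T₁ → ¬ B ∣ T₂ := by
  intro B hB hB1 hB2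
  have hB3 := hred B hB hB1 hB2
  obtain ⟨n, hn⟩ := hh₁
  have hBh : B.IsHomogeneous B.totalDegree := isHomogeneous_of_dvd hn h₁ hB1
  have hBd := hl₁ B hB hB1
  have hc := hχ.isCoprime_irreducible hB hBh hBd T₃ h₃ hh₃ hl₃ hB3
  have h5 : χ B ∣ χ T₃ := by
    have h6 : χ T₃ = -(χ T₁ + χ T₂) := by linear_combination hz
    rw [h6]
    exact (dvd_neg.mpr (dvd_add (map_dvd χ hB1) (map_dvd χ hB2)))
  have h7 : IsUnit (χ B) := hc.isUnit_of_dvd' dvd_rfl h5
  have h8 := Polynomial.natDegree_eq_zero_of_isUnit h7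
  rw [(hχ.deg B hB hBh hBd).2] at h8
  exact hB.not_isUnit (isUnit_of_totalDegree_eq_zero hB.ne_zero h8)

theorem eq_zero_of_const {χ : MvPolynomial σ F →+* Polynomial K} {f : MvPolynomial σ F}
    (h : f.IsHomogeneous 0) (hz : χ f = 0) : f = 0 := by
  by_contra hf
  have h1 : f.totalDegree = 0 := h.totalDegree hf
  exact ((isUnit_of_totalDegree_eq_zero hf h1).map χ).ne_zero hz

open UniqueFactorizationMonoid in
theorem ms_reduced [CharZero K] {R : Type*} [CommRing R] {d : ℕ}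
    {Φ : MvPolynomial σ F →+* R} {ψ : R →+* Polynomial K} {E : MvPolynomial σ F → Prop}
    (hχ : LineOK d (ψ.comp Φ)) (hΦ : BrOK d Φ E) {n : ℕ} {T₁ T₂ T₃ : MvPolynomial σ F}
    (h₁ : T₁ ≠ 0) (h₂ : T₂ ≠ 0) (h₃ : T₃ ≠ 0) (e₁ : E T₁) (e₂ : E T₂) (e₃ : E T₃)
    (hh₁ : T₁.IsHomogeneous n) (hh₂ : T₂.IsHomogeneous n) (hh₃ : T₃.IsHomogeneous n)
    (hl₁ : IsLow d T₁) (hl₂ : IsLow d T₂) (hl₃ : IsLow d T₃)
    (hred : ∀ B, Irreducible B → B ∣ T₁ → B ∣ T₂ → ¬ B ∣ T₃)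
    (hzΦ : Φ (T₁ + T₂ + T₃) = 0) : T₁ + T₂ + T₃ = 0 := by
  classical
  by_contra hf
  obtain ⟨χ, hχe⟩ : ∃ χ : MvPolynomial σ F →+* Polynomial K, χ = ψ.comp Φ := ⟨_, rfl⟩
  rw [← hχe] at hχ
  have hz : χ (T₁ + T₂ + T₃) = 0 := by
    rw [hχe, RingHom.comp_apply, hzΦ, map_zero]
  have hzΦ' : Φ T₁ + Φ T₂ + Φ T₃ = 0 := by rw [← map_add, ← map_add]; exact hzΦ
  have hz' : χ T₁ + χ T₂ + χ T₃ = 0 := by rw [← map_add, ← map_add]; exact hz
  have h12 := hχ.not_dvd_of_dvd h₁ h₃ ⟨n, hh₁⟩ ⟨n, hh₃⟩ hl₁ hl₃ hred hz'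
  have h13 : ∀ B, Irreducible B → B ∣ T₁ → ¬ B ∣ T₃ :=
    hχ.not_dvd_of_dvd h₁ h₂ ⟨n, hh₁⟩ ⟨n, hh₂⟩ hl₁ hl₂
      (fun B hB hB1 hB3 hB2 => hred B hB hB1 hB2 hB3) (by linear_combination hz')
  have h23 : ∀ B, Irreducible B → B ∣ T₂ → ¬ B ∣ T₃ :=
    hχ.not_dvd_of_dvd h₂ h₁ ⟨n, hh₂⟩ ⟨n, hh₁⟩ hl₂ hl₁
      (fun B hB hB2 hB3 hB1 => hred B hB hB1 hB2 hB3) (by linear_combination hz')
  have hc12 : IsCoprime (χ T₁) (χ T₂) :=
    hχ.isCoprime h₂ ⟨n, hh₂⟩ hl₂ T₁ h₁ ⟨n, hh₁⟩ hl₁ h12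
  have hd1 := hχ.degree T₁ h₁ ⟨n, hh₁⟩ hl₁
  have hd2 := hχ.degree T₂ h₂ ⟨n, hh₂⟩ hl₂
  have hd3 := hχ.degree T₃ h₃ ⟨n, hh₃⟩ hl₃
  rcases Polynomial.abc hd1.1 hd2.1 hd3.1 hc12 hz' with h | h
  · obtain ⟨nm⟩ : Nonempty (NormalizationMonoid (MvPolynomial σ F)) :=
      ⟨(UniqueFactorizationMonoid.strongNormalizationMonoid).toNormalizationMonoid⟩
    set S := T₁ * T₂ * T₃ with hS
    have hS0 : S ≠ 0 := mul_ne_zero (mul_ne_zero h₁ h₂) h₃
    have hSh : S.IsHomogeneous (n + n + n) := (hh₁.mul hh₂).mul hh₃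
    have hSl : IsLow d S := (hl₁.mul hl₂).mul hl₃
    have hr : radical S ∣ T₁ + T₂ + T₃ := by
      rw [radical_dvd_iff_primeFactors_subset hf]
      intro B hB
      rw [mem_primeFactors, mem_normalizedFactors_iff' hS0] at hB
      rw [mem_primeFactors, mem_normalizedFactors_iff' hf]
      obtain ⟨hBi, hBn, hBS⟩ := hB
      refine ⟨hBi, hBn, ?_⟩
      have hBh : B.IsHomogeneous B.totalDegree := isHomogeneous_of_dvd hSh hS0 hBS
      have hBd := hSl B hBi hBS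
      have hBp := UniqueFactorizationMonoid.irreducible_iff_prime.mp hBi
      rw [hS] at hBS
      rcases hBp.dvd_or_dvd hBS with hB' | hB3
      · rcases hBp.dvd_or_dvd hB' with hB1 | hB2
        · have h5 : Φ B ∣ Φ (T₂ + T₃) := by
            have h6 : Φ (T₂ + T₃) = -Φ T₁ := by rw [map_add]; linear_combination hzΦ'
            rw [h6]
            exact dvd_neg.mpr (map_dvd Φ hB1)
          have h6 := hΦ.br n B T₂ T₃ hBi hBh hBd (hΦ.dvd B T₁ hB1 e₁) e₂ e₃ h₂ h₃ hh₂ hh₃ hl₂ hl₃ (h12 B hBi hB1)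
            (h13 B hBi hB1) h5
          rw [add_assoc]
          exact dvd_add hB1 h6
        · have h5 : Φ B ∣ Φ (T₁ + T₃) := by
            have h6 : Φ (T₁ + T₃) = -Φ T₂ := by rw [map_add]; linear_combination hzΦ'
            rw [h6]
            exact dvd_neg.mpr (map_dvd Φ hB2)
          have h6 := hΦ.br n B T₁ T₃ hBi hBh hBd (hΦ.dvd B T₂ hB2 e₂) e₁ e₃ h₁ h₃ hh₁ hh₃ hl₁ hl₃
            (fun hB1 => h12 B hBi hB1 hB2) (h23 B hBi hB2) h5
          have h7 : T₁ + T₂ + T₃ = T₂ + (T₁ + T₃) := by ring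
          rw [h7]
          exact dvd_add hB2 h6
      · have h5 : Φ B ∣ Φ (T₁ + T₂) := by
          have h6 : Φ (T₁ + T₂) = -Φ T₃ := by rw [map_add]; linear_combination hzΦ'
          rw [h6]
          exact dvd_neg.mpr (map_dvd Φ hB3)
        have h6 := hΦ.br n B T₁ T₂ hBi hBh hBd (hΦ.dvd B T₃ hB3 e₃) e₁ e₂ h₁ h₂ hh₁ hh₂ hl₁ hl₂
          (fun hB1 => h13 B hBi hB1 hB3) (fun hB2 => h23 B hBi hB2 hB3) h5
        exact dvd_add h6 hB3
    have hrS : radical S ∣ S := radical_dvd_self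
    obtain ⟨N, hN⟩ := exists_dvd_radical_self_pow hS0
    have hr0 : radical S ≠ 0 := radical_ne_zero
    have hrh : (radical S).IsHomogeneous (radical S).totalDegree :=
      isHomogeneous_of_dvd hSh hS0 hrS
    have hdr := hχ.degree (radical S) hr0 ⟨_, hrh⟩ (hSl.of_dvd hrS)
    have h9 : radical (χ T₁ * χ T₂ * χ T₃) ∣ χ (radical S) := by
      rw [← exists_dvd_pow_iff_radical_dvd (mul_ne_zero (mul_ne_zero hd1.1 hd2.1) hd3.1)]
      refine ⟨N, ?_⟩
      rw [← map_mul, ← map_mul, ← map_pow]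
      exact map_dvd χ hN
    have h10 := Polynomial.natDegree_le_of_dvd h9 hdr.1
    obtain ⟨g, hg⟩ := hr
    have h11 : (T₁ + T₂ + T₃).totalDegree = n :=
      ((hh₁.add hh₂).add hh₃).totalDegree hf
    have hg0 : g ≠ 0 := by
      rintro rfl
      rw [mul_zero] at hg
      exact hf hg
    rw [hg, totalDegree_mul_of_isDomain hr0 hg0] at h11
    have h12' : T₁.totalDegree = n := hh₁.totalDegree h₁
    have h13' := h.1
    rw [hd1.2, h12'] at h13'
    rw [hdr.2] at h10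
    omega
  · have h1 := Polynomial.derivative_eq_zero.mp h.1
    rw [hd1.2, hh₁.totalDegree h₁] at h1
    subst h1
    exact hf (eq_zero_of_const ((hh₁.add hh₂).add hh₃) hz)

/-- Two products. -/
theorem LineOK.two {d : ℕ} {χ : MvPolynomial σ F →+* Polynomial K} (hχ : LineOK d χ) :
    ∀ (n : ℕ) (T₁ T₂ : MvPolynomial σ F), T₁ ≠ 0 → T₂ ≠ 0 → T₁.IsHomogeneous n →
      T₂.IsHomogeneous n → IsLow d T₁ → IsLow d T₂ → χ (T₁ + T₂) = 0 → T₁ + T₂ = 0 := by
  intro n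
  induction n using Nat.strong_induction_on with
  | _ n ih =>
    intro T₁ T₂ h₁ h₂ hh₁ hh₂ hl₁ hl₂ hz
    by_cases hex : ∃ B, Irreducible B ∧ B ∣ T₁ ∧ B ∣ T₂
    · obtain ⟨B, hB, ⟨S₁, hS₁⟩, ⟨S₂, hS₂⟩⟩ := hex
      have hBh : B.IsHomogeneous B.totalDegree := isHomogeneous_of_dvd hh₁ h₁ ⟨S₁, hS₁⟩
      have hBd := hl₁ B hB ⟨S₁, hS₁⟩
      have hB1 : B.totalDegree ≠ 0 := fun h =>
        hB.not_isUnit (isUnit_of_totalDegree_eq_zero hB.ne_zero h)
      have hle : B.totalDegree ≤ n := by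
        have h5 : T₁.totalDegree = n := hh₁.totalDegree h₁
        rw [hS₁, totalDegree_mul_of_isDomain hB.ne_zero
          (by rintro rfl; rw [mul_zero] at hS₁; exact h₁ hS₁)] at h5
        omega
      have hs : n = B.totalDegree + (n - B.totalDegree) := by omega
      have k₁ : S₁.IsHomogeneous (n - B.totalDegree) :=
        isHomogeneous_of_mul_left (by rw [← hS₁, ← hs]; exact hh₁) (by rw [← hS₁]; exact h₁) hBh
      have k₂ : S₂.IsHomogeneous (n - B.totalDegree) :=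
        isHomogeneous_of_mul_left (by rw [← hS₂, ← hs]; exact hh₂) (by rw [← hS₂]; exact h₂) hBh
      have hz2 : χ (S₁ + S₂) = 0 := by
        have h6 : χ B * χ (S₁ + S₂) = 0 := by
          rw [← map_mul, mul_add, ← hS₁, ← hS₂]
          exact hz
        exact (mul_eq_zero.mp h6).resolve_left (hχ.deg B hB hBh hBd).1
      have h7 := ih (n - B.totalDegree) (by omega) S₁ S₂
        (by rintro rfl; rw [mul_zero] at hS₁; exact h₁ hS₁)
        (by rintro rfl; rw [mul_zero] at hS₂; exact h₂ hS₂) k₁ k₂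
        (hl₁.of_dvd ⟨B, by rw [hS₁, mul_comm]⟩) (hl₂.of_dvd ⟨B, by rw [hS₂, mul_comm]⟩) hz2
      rw [hS₁, hS₂, ← mul_add, h7, mul_zero]
    · have hc : IsCoprime (χ T₁) (χ T₂) :=
        hχ.isCoprime h₂ ⟨n, hh₂⟩ hl₂ T₁ h₁ ⟨n, hh₁⟩ hl₁
          (fun B hB hB1 hB2 => hex ⟨B, hB, hB1, hB2⟩)
      have h5 : χ T₁ ∣ χ T₂ := by
        have h6 : χ T₂ = -χ T₁ := by
          rw [map_add] at hz
          linear_combination hz
        rw [h6]
        exact dvd_neg.mpr dvd_rfl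
      have h7 : IsUnit (χ T₁) := hc.isUnit_of_dvd' dvd_rfl h5
      have h8 := Polynomial.natDegree_eq_zero_of_isUnit h7
      rw [(hχ.degree T₁ h₁ ⟨n, hh₁⟩ hl₁).2, hh₁.totalDegree h₁] at h8
      subst h8
      exact eq_zero_of_const (hh₁.add hh₂) hz

/-- Three products, all non-zero. -/
theorem ms_three [CharZero K] {R : Type*} [CommRing R] [IsDomain R] {d : ℕ}
    {Φ : MvPolynomial σ F →+* R} {ψ : R →+* Polynomial K} {E : MvPolynomial σ F → Prop}
    (hχ : LineOK d (ψ.comp Φ)) (hΦ : BrOK d Φ E) :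
    ∀ (n : ℕ) (T₁ T₂ T₃ : MvPolynomial σ F), T₁ ≠ 0 → T₂ ≠ 0 → T₃ ≠ 0 → E T₁ → E T₂ → E T₃ →
      T₁.IsHomogeneous n →
      T₂.IsHomogeneous n → T₃.IsHomogeneous n → IsLow d T₁ → IsLow d T₂ → IsLow d T₃ →
      Φ (T₁ + T₂ + T₃) = 0 → T₁ + T₂ + T₃ = 0 := by
  intro n
  induction n using Nat.strong_induction_on with
  | _ n ih =>
    intro T₁ T₂ T₃ h₁ h₂ h₃ e₁ e₂ e₃ hh₁ hh₂ hh₃ hl₁ hl₂ hl₃ hz
    by_cases hex : ∃ B, Irreducible B ∧ B ∣ T₁ ∧ B ∣ T₂ ∧ B ∣ T₃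
    · obtain ⟨B, hB, ⟨S₁, hS₁⟩, ⟨S₂, hS₂⟩, ⟨S₃, hS₃⟩⟩ := hex
      have hBh : B.IsHomogeneous B.totalDegree := isHomogeneous_of_dvd hh₁ h₁ ⟨S₁, hS₁⟩
      have hBd := hl₁ B hB ⟨S₁, hS₁⟩
      have hB1 : B.totalDegree ≠ 0 := fun h =>
        hB.not_isUnit (isUnit_of_totalDegree_eq_zero hB.ne_zero h)
      have hle : B.totalDegree ≤ n := by
        have h5 : T₁.totalDegree = n := hh₁.totalDegree h₁
        rw [hS₁, totalDegree_mul_of_isDomain hB.ne_zero
          (by rintro rfl; rw [mul_zero] at hS₁; exact h₁ hS₁)] at h5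
        omega
      have hs : n = B.totalDegree + (n - B.totalDegree) := by omega
      have k₁ : S₁.IsHomogeneous (n - B.totalDegree) :=
        isHomogeneous_of_mul_left (by rw [← hS₁, ← hs]; exact hh₁) (by rw [← hS₁]; exact h₁) hBh
      have k₂ : S₂.IsHomogeneous (n - B.totalDegree) :=
        isHomogeneous_of_mul_left (by rw [← hS₂, ← hs]; exact hh₂) (by rw [← hS₂]; exact h₂) hBh
      have k₃ : S₃.IsHomogeneous (n - B.totalDegree) :=
        isHomogeneous_of_mul_left (by rw [← hS₃, ← hs]; exact hh₃) (by rw [← hS₃]; exact h₃) hBh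
      have hz2 : Φ (S₁ + S₂ + S₃) = 0 := by
        have h6 : Φ B * Φ (S₁ + S₂ + S₃) = 0 := by
          rw [← map_mul, mul_add, mul_add, ← hS₁, ← hS₂, ← hS₃]
          exact hz
        refine (mul_eq_zero.mp h6).resolve_left ?_
        intro h8
        apply (hχ.deg B hB hBh hBd).1
        rw [RingHom.comp_apply, h8, map_zero]
      have h7 := ih (n - B.totalDegree) (by omega) S₁ S₂ S₃
        (by rintro rfl; rw [mul_zero] at hS₁; exact h₁ hS₁)
        (by rintro rfl; rw [mul_zero] at hS₂; exact h₂ hS₂)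
        (by rintro rfl; rw [mul_zero] at hS₃; exact h₃ hS₃)
        (hΦ.dvd _ _ ⟨B, by rw [hS₁, mul_comm]⟩ e₁) (hΦ.dvd _ _ ⟨B, by rw [hS₂, mul_comm]⟩ e₂)
        (hΦ.dvd _ _ ⟨B, by rw [hS₃, mul_comm]⟩ e₃) k₁ k₂ k₃
        (hl₁.of_dvd ⟨B, by rw [hS₁, mul_comm]⟩) (hl₂.of_dvd ⟨B, by rw [hS₂, mul_comm]⟩)
        (hl₃.of_dvd ⟨B, by rw [hS₃, mul_comm]⟩) hz2
      rw [hS₁, hS₂, hS₃, ← mul_add, ← mul_add, h7, mul_zero]
    · exact ms_reduced hχ hΦ h₁ h₂ h₃ e₁ e₂ e₃ hh₁ hh₂ hh₃ hl₁ hl₂ hl₃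
        (fun B hB hB1 hB2 hB3 => hex ⟨B, hB, hB1, hB2, hB3⟩) hz

end

end Pool.Agent.Lib.MP_64d474_lc.S3
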