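import Mathlib
import Pool.Agent.Lib.MP_64d474_lc.S3.Defs69
import Pool.Agent.Lib.MP_64d474_lc.S3.MS58

/-!
The core statement from the bracket and the line of the generator.
-/

namespace Pool.Agent.Lib.MP_64d474_lc.S3

open MvPolynomial

universe u

/-- Row L: the generic line of the generator keeps the degree and the coprimality of forms of
degree at most `d`. -/
def StLine : Prop :=
  ∀ (F : Type u) [Field F] [CharZero F] (m d s : ℕ), d + 2 ≤ s →
    ∃ (K : Type u) (_ : Field K) (_ : CharZero K)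
      (ψ : MvPolynomial (Fin s ⊕ Fin s) F →+* Polynomial K),
      (∀ (k : ℕ) (P : MvPolynomial (Fin m) F), k ≤ d → P.IsHomogeneous k → P ≠ 0 →
        ψ (gen F m s P) ≠ 0 ∧ (ψ (gen F m s P)).natDegree = k) ∧
      ∀ (k l : ℕ) (P Q : MvPolynomial (Fin m) F), k ≤ d → l ≤ d → P.IsHomogeneous k →
        Q.IsHomogeneous l → P ≠ 0 → Q ≠ 0 → IsRelPrime P Q →
          IsCoprime (ψ (gen F m s P)) (ψ (gen F m s Q))

/-- A low form is a product of forms of degree at most `d`. -/
theorem exists_forms {F : Type u} [Field F] {m d : ℕ} (T : MvPolynomial (Fin m) F) :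
    T ≠ 0 → (∃ n, T.IsHomogeneous n) → IsLow d T →
      ∃ M : Multiset (MvPolynomial (Fin m) F), Forms d M ∧ M.prod = T := by
  induction T using WfDvdMonoid.induction_on_irreducible with
  | zero => intro h; exact absurd rfl h
  | unit u hu =>
    intro h0 h1 h2
    refine ⟨{u}, ?_, Multiset.prod_singleton u⟩
    intro P hP
    rw [Multiset.mem_singleton] at hP
    subst hP
    obtain ⟨n, hn⟩ := h1
    have h3 : n = 0 := by
      rw [← hn.totalDegree h0]
      exact isHomogeneous_of_isUnit hu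
    subst h3
    exact ⟨0, Nat.zero_le d, hn⟩
  | mul a i ha hi ih =>
    intro h0 h1 h2
    obtain ⟨n, hn⟩ := h1
    obtain ⟨x, y, -, hx, hy⟩ := exists_isHomogeneous_of_mul hn h0
    obtain ⟨M, hM, hM2⟩ := ih ha ⟨y, hy⟩ (h2.of_dvd (dvd_mul_left a i))
    refine ⟨i ::ₘ M, ?_, by rw [Multiset.prod_cons, hM2]⟩
    intro P hP
    rcases Multiset.mem_cons.mp hP with h | h
    · subst h
      refine ⟨x, ?_, hx⟩
      rw [← hx.totalDegree hi.ne_zero]
      exact h2 P hi (dvd_mul_right P a)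
    · exact hM P h

theorem Phi_eval_zero {F : Type u} [Field F] {m s : ℕ} (e : Fin m → F)
    (P : MvPolynomial (Fin m) F) : (Phi F m s e P).eval 0 = gen F m s P := by
  have h : ((Polynomial.evalRingHom (0 : MvPolynomial (Fin s ⊕ Fin s) F)).comp
      (Phi F m s e : MvPolynomial (Fin m) F →+* Polynomial (MvPolynomial (Fin s ⊕ Fin s) F)))
      = (gen F m s : MvPolynomial (Fin m) F →+* MvPolynomial (Fin s ⊕ Fin s) F) := by
    apply MvPolynomial.ringHom_ext
    · intro r
      simp [Phi, gen, algebraMap_eq]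
    · intro k
      simp [Phi, gen]
  exact congrArg (fun f : MvPolynomial (Fin m) F →+* MvPolynomial (Fin s ⊕ Fin s) F => f P) h

/-- **The core**, from the bracket (row BR) and the line (row L). -/
theorem core58 (hBR : StBR.{u}) (hL : StLine.{u}) : StCore.{u} := by
  intro F _ _ m d s n e T hs1 hs2 hT hhom he hz
  obtain ⟨K, iK, iC, ψ, hψ1, hψ2⟩ := hL F m d s hs2
  let Φ : MvPolynomial (Fin m) F →+* Polynomial (MvPolynomial (Fin s ⊕ Fin s) F) :=
    (Phi F m s e : MvPolynomial (Fin m) F →+* Polynomial (MvPolynomial (Fin s ⊕ Fin s) F))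
  let ψ' : Polynomial (MvPolynomial (Fin s ⊕ Fin s) F) →+* Polynomial K :=
    ψ.comp (Polynomial.evalRingHom 0)
  have hψ' : ∀ P, (ψ'.comp Φ) P = ψ (gen F m s P) := by
    intro P
    change ψ ((Phi F m s e P).eval 0) = _
    rw [Phi_eval_zero]
  have hline : LineOK d (ψ'.comp Φ) := by
    constructor
    · intro B hB hBh hBd
      rw [hψ']
      exact hψ1 _ B hBd hBh hB.ne_zero
    · intro P Q hP hQ hPh hQh hPd hQd hPQ
      rw [hψ', hψ']
      exact hψ2 _ _ P Q hPd hQd hPh hQh hP.ne_zero hQ.ne_zero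
        (hP.isRelPrime_iff_not_dvd.mpr hPQ)
  have hbr : BrOK d Φ (fun P => eval e P ≠ 0) := by
    constructor
    · intro n B T₁ T₂ hB hBh hBd hBe _ _ h₁ h₂ hh₁ hh₂ hl₁ hl₂ hn₁ hn₂ hd
      obtain ⟨M₁, hM₁, rfl⟩ := exists_forms T₁ h₁ ⟨n, hh₁⟩ hl₁
      obtain ⟨M₂, hM₂, rfl⟩ := exists_forms T₂ h₂ ⟨n, hh₂⟩ hl₂
      exact hBR F m d s n B.totalDegree e B M₁ M₂ hs1 hBd hBh hB hBe hM₁ hM₂ hh₁ hh₂ hn₁ hn₂ hd
    · rintro S T ⟨R, rfl⟩ h
      rw [map_mul] at h
      exact left_ne_zero_of_mul h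
  have hE : ∀ i, eval e (T i).prod ≠ 0 := by
    intro i
    rw [map_multiset_prod]
    intro h
    rw [Multiset.prod_eq_zero_iff, Multiset.mem_map] at h
    obtain ⟨P, hP, h0⟩ := h
    exact he i P hP h0
  have h0 : ∀ i, (T i).prod ≠ 0 := by
    intro i h
    apply hE i
    rw [h, map_zero]
  have hlow : ∀ i, IsLow d (T i).prod := by
    intro i
    apply isLow_multiset_prod _ _ (h0 i)
    intro P hP
    obtain ⟨k, hk, hPk⟩ := hT i P hP
    exact hPk.totalDegree_le.trans hk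
  rw [Fin.sum_univ_three] at hz ⊢
  exact ms_three hline hbr n _ _ _ (h0 0) (h0 1) (h0 2) (hE 0) (hE 1) (hE 2) (hhom 0) (hhom 1)
    (hhom 2) (hlow 0) (hlow 1) (hlow 2) hz

end Pool.Agent.Lib.MP_64d474_lc.S3
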