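import Pool.Agent.Lib.MP_64d474_lc.S3.Fin68

/-!
Three products: the homogenisation in terms of the degrees of the products.
-/

set_option autoImplicit false

namespace Pool.Agent.Lib.MP_64d474_lc.S3.H68

open MvPolynomial Finset

universe u

variable {F : Type u} [Field F]

theorem totalDegree_prod' {m : ℕ} (T : Multiset (MvPolynomial (Fin m) F)) (h : T.prod ≠ 0) :
    T.prod.totalDegree = (T.map totalDegree).sum := by
  induction T using Multiset.induction_on with
  | empty => simp
  | cons a T ih =>
    rw [Multiset.prod_cons] at h ⊢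
    rw [Multiset.map_cons, Multiset.sum_cons, ← ih (right_ne_zero_of_mul h),
      totalDegree_mul_of_isDomain (left_ne_zero_of_mul h) (right_ne_zero_of_mul h)]

theorem map_hom_isHomogeneous {m : ℕ} (T : Multiset (MvPolynomial (Fin m) F)) :
    (T.map fun P => hom P.totalDegree P).prod.IsHomogeneous (T.map totalDegree).sum := by
  induction T using Multiset.induction_on with
  | empty => simpa using isHomogeneous_one (Fin (m + 1)) F
  | cons a T ih =>
    rw [Multiset.map_cons, Multiset.map_cons, Multiset.prod_cons, Multiset.sum_cons]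
    exact (hom_isHomogeneous _ a).mul ih

open Classical in
/-- The homogenisation of a product of degree at most `n`. -/
noncomputable def homD {m : ℕ} (n : ℕ) (T : Multiset (MvPolynomial (Fin m) F)) :
    Multiset (MvPolynomial (Fin (m + 1)) F) :=
  if T.prod = 0 then {0} else
    X 0 ::ₘ (Multiset.replicate (n - T.prod.totalDegree) (X 0) +
      T.map fun P => hom P.totalDegree P)

theorem homD_forms {m : ℕ} {d n : ℕ} (hd : 0 < d) (T : Multiset (MvPolynomial (Fin m) F))
    (hT : ∀ P ∈ T, P.totalDegree ≤ d) : Forms d (homD n T) := by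
  intro P hP
  rw [homD] at hP
  split_ifs at hP with h
  · rw [Multiset.mem_singleton] at hP
    subst hP
    exact ⟨0, Nat.zero_le _, isHomogeneous_zero _ _ _⟩
  · rw [Multiset.mem_cons, Multiset.mem_add] at hP
    rcases hP with rfl | hP | hP
    · exact ⟨1, hd, isHomogeneous_X _ _⟩
    · rw [Multiset.eq_of_mem_replicate hP]
      exact ⟨1, hd, isHomogeneous_X _ _⟩
    · obtain ⟨Q, hQ, rfl⟩ := Multiset.mem_map.1 hP
      exact ⟨_, hT Q hQ, hom_isHomogeneous _ Q⟩

theorem homD_prod {m : ℕ} {n : ℕ} {T : Multiset (MvPolynomial (Fin m) F)}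
    (hn : T.prod.totalDegree ≤ n) : (homD n T).prod.IsHomogeneous (1 + n) := by
  rw [homD]
  split_ifs with h
  · rw [Multiset.prod_singleton]
    exact isHomogeneous_zero _ _ _
  · rw [Multiset.prod_cons, Multiset.prod_add, Multiset.prod_replicate]
    refine (isHomogeneous_X _ _).mul ?_
    have h1 := (isHomogeneous_X_pow (R := F) (0 : Fin (m + 1))
      (n - T.prod.totalDegree)).mul (map_hom_isHomogeneous T)
    rwa [← totalDegree_prod' T h, Nat.sub_add_cancel hn] at h1

theorem eval_homD {m : ℕ} {n : ℕ} {T : Multiset (MvPolynomial (Fin m) F)} (x : Fin m → F) :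
    eval (Fin.cons 1 x) (homD n T).prod = eval x T.prod := by
  rw [homD]
  split_ifs with h
  · rw [Multiset.prod_singleton, h, map_zero, map_zero]
  · rw [Multiset.prod_cons, Multiset.prod_add, Multiset.prod_replicate, map_mul, map_mul,
      map_pow, eval_X, Fin.cons_zero, one_pow, one_mul, one_mul,
      map_multiset_prod, map_multiset_prod, Multiset.map_map]
    congr 1
    exact Multiset.map_congr rfl fun P _ => eval_hom le_rfl x

theorem dvd_homD {m : ℕ} {n : ℕ} (T : Multiset (MvPolynomial (Fin m) F)) :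
    X 0 ∣ (homD n T).prod := by
  rw [homD]
  split_ifs with h
  · simp
  · rw [Multiset.prod_cons]
    exact dvd_mul_right _ _

/-- From a statement on sums of products of forms to points for sums of products of
polynomials of degree at most `d`, the products having degree at most `n`. -/
theorem exists_point_deg [CharZero F] {ι : Type*} [Fintype ι] {m d n D : ℕ} (hd : 0 < d)
    (H : ∀ T : ι → Multiset (MvPolynomial (Fin (m + 1)) F), (∀ i, Forms d (T i)) →
      (∀ i, (T i).prod.IsHomogeneous (1 + n)) →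
      gen F (m + 1) D (∑ i, (T i).prod) = 0 → ∑ i, (T i).prod = 0)
    (T : ι → Multiset (MvPolynomial (Fin m) F)) (hT : ∀ i, ∀ P ∈ T i, P.totalDegree ≤ d)
    (hN : ∀ i, (T i).prod.totalDegree ≤ n) (h0 : ∑ i, (T i).prod ≠ 0) :
    ∃ y z : Fin D → ℕ, (∀ i, y i ≤ m * (n + 1)) ∧ (∀ i, z i ≤ n + 1) ∧
      (∑ i, (z i : F) ≠ 0) ∧
      eval (fun k : Fin m => (∑ i, (z i : F) * (y i : F) ^ ((k : ℕ) + 1)) / ∑ i, (z i : F))
        (∑ i, (T i).prod) ≠ 0 := by
  set f : MvPolynomial (Fin (m + 1)) F := ∑ i, (homD n (T i)).prod with hfdef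
  have hev : ∀ x : Fin m → F, eval (Fin.cons 1 x) f = eval x (∑ i, (T i).prod) := by
    intro x
    rw [hfdef, map_sum, map_sum]
    exact sum_congr rfl fun i _ => eval_homD x
  have hhom : f.IsHomogeneous (1 + n) :=
    IsHomogeneous.sum _ _ _ fun i _ => homD_prod (hN i)
  have hf0 : f ≠ 0 := by
    intro hf
    apply h0
    refine MvPolynomial.funext fun x => ?_
    rw [← hev x, hf, map_zero, map_zero]
  obtain ⟨A, hA1, hA2, hA3⟩ := exists_lin (F := F) (m + 1) D
  have hg : genM F (m + 1) D f ≠ 0 := by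
    intro hg
    apply hf0
    apply hA2
    have e1 : A f = ∑ i, ((homD n (T i)).map A).prod := by
      rw [hfdef, map_sum]
      exact sum_congr rfl fun i _ => map_multiset_prod A _
    rw [e1]
    apply H (fun i => (homD n (T i)).map A)
    · intro i P hP
      obtain ⟨Q, hQ, rfl⟩ := Multiset.mem_map.1 hP
      obtain ⟨k, hk, hQk⟩ := homD_forms hd (T i) (hT i) Q hQ
      exact ⟨k, hk, hA1 Q k hQk⟩
    · intro i
      have := hA1 _ _ (homD_prod (hN i))
      rwa [map_multiset_prod] at this
    · rw [← e1, hA3, hg]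
  obtain ⟨y, z, hy, hz, hyz⟩ := exists_seeds f hhom.totalDegree_le hg
  set h : Fin (m + 1) → F := fun k => ∑ i, (z i : F) * (y i : F) ^ (k : ℕ) with hh
  have hh0 : h 0 = ∑ i, (z i : F) := by
    rw [hh]
    simp
  have hne : h 0 ≠ 0 := by
    intro h00
    apply hyz
    rw [hfdef, map_sum]
    refine sum_eq_zero fun i _ => ?_
    obtain ⟨q, hq⟩ := dvd_homD (n := n) (T i)
    rw [hq, map_mul, eval_X, h00, zero_mul]
  have hsc : h = fun k => h 0 * (Fin.cons 1 (fun k : Fin m => h k.succ / h 0) :
      Fin (m + 1) → F) k := by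
    funext k
    refine Fin.cases ?_ (fun k => ?_) k
    · rw [Fin.cons_zero, mul_one]
    · rw [Fin.cons_succ, mul_div_cancel₀ _ hne]
  refine ⟨y, z, fun i => ?_, fun i => ?_, hh0 ▸ hne, ?_⟩
  · have := hy i
    have e : (1 + n) * m = m * (n + 1) := by ring
    rw [e] at this
    exact Nat.lt_succ_iff.1 this
  · have := hz i
    omega
  · have h1 : eval h f ≠ 0 := hyz
    rw [hsc, eval_scale hhom, hev] at h1
    have h2 := right_ne_zero_of_mul h1
    rw [← hh0]
    have h3 : (fun k : Fin m => (∑ i, (z i : F) * (y i : F) ^ ((k : ℕ) + 1)) / h 0) =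
        fun k : Fin m => h k.succ / h 0 := by
      funext k
      rw [hh]
      simp
    rw [h3]
    exact h2

end Pool.Agent.Lib.MP_64d474_lc.S3.H68
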