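import Pool.Agent.Lib.MP_64d474_lc.S3.Hom68

/-!
Three products: homogenisation and the grid along the moment curve.
-/

set_option autoImplicit false

namespace Pool.Agent.Lib.MP_64d474_lc.S3.H68

open MvPolynomial Finset

universe u

variable {F : Type u} [Field F]

/-! ### Homogenisation -/

/-- The homogenisation of `P` in degree `d`. -/
noncomputable def hom {m : ℕ} (d : ℕ) (P : MvPolynomial (Fin m) F) :
    MvPolynomial (Fin (m + 1)) F :=
  ∑ i ∈ range (d + 1), X 0 ^ (d - i) * rename Fin.succ (homogeneousComponent i P)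

theorem hom_isHomogeneous {m : ℕ} (d : ℕ) (P : MvPolynomial (Fin m) F) :
    (hom d P).IsHomogeneous d := by
  refine IsHomogeneous.sum _ _ _ fun i hi => ?_
  have h1 := (isHomogeneous_X_pow (R := F) (0 : Fin (m + 1)) (d - i)).mul
    (IsHomogeneous.rename_isHomogeneous (f := Fin.succ) (homogeneousComponent_isHomogeneous i P))
  have h2 : d - i + i = d := Nat.sub_add_cancel (Nat.lt_succ_iff.1 (mem_range.1 hi))
  rwa [h2] at h1

theorem sum_comp {m : ℕ} {d : ℕ} {P : MvPolynomial (Fin m) F} (h : P.totalDegree ≤ d) :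
    ∑ i ∈ range (d + 1), homogeneousComponent i P = P := by
  rw [← sum_subset (range_mono (Nat.succ_le_succ h)), sum_homogeneousComponent]
  intro i _ hi
  exact homogeneousComponent_eq_zero _ _ (by
    rw [mem_range] at hi; omega)

theorem eval_hom {m : ℕ} {d : ℕ} {P : MvPolynomial (Fin m) F} (h : P.totalDegree ≤ d)
    (x : Fin m → F) : eval (Fin.cons 1 x) (hom d P) = eval x P := by
  rw [hom, map_sum]
  conv_rhs => rw [← sum_comp h, map_sum]
  refine sum_congr rfl fun i _ => ?_
  rw [map_mul, map_pow, eval_X, Fin.cons_zero, one_pow, one_mul, eval_rename]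
  congr 1

/-- The homogenisation of a product of at most `N` factors. -/
noncomputable def homT {m : ℕ} (d N : ℕ) (T : Multiset (MvPolynomial (Fin m) F)) :
    Multiset (MvPolynomial (Fin (m + 1)) F) :=
  X 0 ::ₘ (Multiset.replicate (N - Multiset.card T) (X 0 ^ d) + T.map (hom d))

theorem homT_forms {m : ℕ} {d N : ℕ} (hd : 0 < d) (T : Multiset (MvPolynomial (Fin m) F)) :
    Forms d (homT d N T) := by
  intro P hP
  rw [homT, Multiset.mem_cons, Multiset.mem_add] at hP
  rcases hP with rfl | hP | hP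
  · exact ⟨1, hd, isHomogeneous_X _ _⟩
  · rw [Multiset.eq_of_mem_replicate hP]
    exact ⟨d, le_rfl, isHomogeneous_X_pow _ _⟩
  · obtain ⟨Q, -, rfl⟩ := Multiset.mem_map.1 hP
    exact ⟨d, le_rfl, hom_isHomogeneous d Q⟩

theorem prod_isHomogeneous {m d : ℕ} (T : Multiset (MvPolynomial (Fin m) F))
    (h : ∀ P ∈ T, P.IsHomogeneous d) : T.prod.IsHomogeneous (d * Multiset.card T) := by
  induction T using Multiset.induction_on with
  | empty => simpa using isHomogeneous_one (Fin m) F
  | cons a T ih =>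
    rw [Multiset.prod_cons, Multiset.card_cons, Nat.mul_succ, add_comm]
    exact (h a (Multiset.mem_cons_self a T)).mul
      (ih fun P hP => h P (Multiset.mem_cons_of_mem hP))

theorem homT_prod {m : ℕ} {d N : ℕ} {T : Multiset (MvPolynomial (Fin m) F)}
    (hN : Multiset.card T ≤ N) : (homT d N T).prod.IsHomogeneous (1 + d * N) := by
  rw [homT, Multiset.prod_cons]
  refine (isHomogeneous_X _ _).mul ?_
  have h := prod_isHomogeneous (d := d)
    (Multiset.replicate (N - Multiset.card T) (X 0 ^ d : MvPolynomial (Fin (m + 1)) F) +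
      T.map (hom d)) (by
    intro P hP
    rcases Multiset.mem_add.1 hP with hP | hP
    · rw [Multiset.eq_of_mem_replicate hP]
      exact isHomogeneous_X_pow _ _
    · obtain ⟨Q, -, rfl⟩ := Multiset.mem_map.1 hP
      exact hom_isHomogeneous d Q)
  rw [Multiset.card_add, Multiset.card_replicate, Multiset.card_map,
    Nat.sub_add_cancel hN] at h
  exact h

theorem eval_homT {m : ℕ} {d N : ℕ} {T : Multiset (MvPolynomial (Fin m) F)}
    (hT : ∀ P ∈ T, P.totalDegree ≤ d) (x : Fin m → F) :
    eval (Fin.cons 1 x) (homT d N T).prod = eval x T.prod := by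
  rw [homT, Multiset.prod_cons, Multiset.prod_add, Multiset.prod_replicate, map_mul, map_mul,
    map_pow, map_pow, eval_X, Fin.cons_zero, one_pow, one_pow, one_mul, one_mul,
    map_multiset_prod, map_multiset_prod, Multiset.map_map]
  congr 1
  refine Multiset.map_congr rfl fun P hP => ?_
  exact eval_hom (hT P hP) x

/-! ### Scaling -/

theorem eval_scale {m n : ℕ} {f : MvPolynomial (Fin m) F} (hf : f.IsHomogeneous n) (t : F)
    (v : Fin m → F) : eval (fun i => t * v i) f = t ^ n * eval v f := by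
  rw [eval_eq, eval_eq, mul_sum]
  refine sum_congr rfl fun D hD => ?_
  have h1 : ∏ i ∈ D.support, (t * v i) ^ D i = t ^ n * ∏ i ∈ D.support, v i ^ D i := by
    simp_rw [mul_pow]
    rw [prod_mul_distrib, prod_pow_eq_pow_sum]
    congr 2
    exact (hf.degree_eq_sum_deg_support hD).symm
  rw [h1]; ring

/-! ### The grid -/

theorem degreeOf_aeval_le' {σ τ : Type*} [DecidableEq τ] (g : σ → MvPolynomial τ F)
    (j : τ) (b : ℕ) (hg : ∀ k, (g k).degreeOf j ≤ b) (f : MvPolynomial σ F) :
    (aeval g f).degreeOf j ≤ f.totalDegree * b := by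
  rw [aeval_def, eval₂_eq]
  refine (degreeOf_sum_le _ _ _).trans (Finset.sup_le fun d hd => ?_)
  refine (degreeOf_mul_le _ _ _).trans ?_
  have h1 : (algebraMap F (MvPolynomial τ F) (coeff d f)).degreeOf j = 0 := by
    rw [algebraMap_eq]; exact degreeOf_C _ _
  rw [h1, zero_add]
  refine (degreeOf_prod_le _ _ _).trans ?_
  calc ∑ i ∈ d.support, (g i ^ d i).degreeOf j ≤ ∑ i ∈ d.support, d i * b := by
        refine Finset.sum_le_sum fun i _ => (degreeOf_pow_le _ _ _).trans ?_
        exact Nat.mul_le_mul_left _ (hg i)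
    _ = (∑ i ∈ d.support, d i) * b := by rw [Finset.sum_mul]
    _ ≤ f.totalDegree * b := Nat.mul_le_mul_right _ (le_totalDegree hd)

theorem degreeOf_genM_inr {m s : ℕ} (f : MvPolynomial (Fin (m + 1)) F) (i : Fin s) :
    (genM F (m + 1) s f).degreeOf (Sum.inr i) ≤ f.totalDegree := by
  classical
  refine (degreeOf_aeval_le' _ _ 1 (fun k => ?_) f).trans (by simp)
  refine (degreeOf_sum_le _ _ _).trans (Finset.sup_le fun a _ => ?_)
  refine (degreeOf_mul_le _ _ _).trans ?_
  have h1 : (X (Sum.inr a) : MvPolynomial (Fin s ⊕ Fin s) F).degreeOf (Sum.inr i) ≤ 1 := by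
    rw [degreeOf_X]; split_ifs <;> simp
  have h2 : ((X (Sum.inl a) : MvPolynomial (Fin s ⊕ Fin s) F) ^ (k : ℕ)).degreeOf (Sum.inr i)
      ≤ 0 := by
    refine (degreeOf_pow_le _ _ _).trans ?_
    rw [degreeOf_X]
    simp
  omega

theorem degreeOf_genM_inl {m s : ℕ} (f : MvPolynomial (Fin (m + 1)) F) (i : Fin s) :
    (genM F (m + 1) s f).degreeOf (Sum.inl i) ≤ f.totalDegree * m := by
  classical
  refine (degreeOf_aeval_le' _ _ m (fun k => ?_) f)
  refine (degreeOf_sum_le _ _ _).trans (Finset.sup_le fun a _ => ?_)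
  refine (degreeOf_mul_le _ _ _).trans ?_
  have h1 : (X (Sum.inr a) : MvPolynomial (Fin s ⊕ Fin s) F).degreeOf (Sum.inl i) = 0 := by
    rw [degreeOf_X]; simp
  have h2 : ((X (Sum.inl a) : MvPolynomial (Fin s ⊕ Fin s) F) ^ (k : ℕ)).degreeOf (Sum.inl i)
      ≤ m := by
    refine (degreeOf_pow_le _ _ _).trans ?_
    have h3 : (X (Sum.inl a) : MvPolynomial (Fin s ⊕ Fin s) F).degreeOf (Sum.inl i) ≤ 1 := by
      rw [degreeOf_X]; split_ifs <;> simp
    have h4 : (k : ℕ) ≤ m := Nat.lt_succ_iff.1 k.2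
    calc _ ≤ (k : ℕ) * 1 := Nat.mul_le_mul_left _ h3
      _ ≤ m := by omega
  omega

theorem eval_genM {m s : ℕ} (f : MvPolynomial (Fin m) F) (y z : Fin s → F) :
    eval (Sum.elim y z) (genM F m s f) = eval (fun k : Fin m => ∑ i, z i * y i ^ (k : ℕ)) f := by
  have h : ((aeval (Sum.elim y z) : MvPolynomial (Fin s ⊕ Fin s) F →ₐ[F] F).comp
      (genM F m s)) = aeval (fun k : Fin m => ∑ i, z i * y i ^ (k : ℕ)) := by
    apply MvPolynomial.algHom_ext
    intro k
    rw [AlgHom.comp_apply, genM, aeval_X, aeval_X]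
    simp [map_sum]
  have h2 := DFunLike.congr_fun h f
  rw [AlgHom.comp_apply, aeval_eq_eval, aeval_eq_eval] at h2
  exact h2

theorem exists_seeds [CharZero F] {m n s : ℕ} (f : MvPolynomial (Fin (m + 1)) F)
    (hd : f.totalDegree ≤ n) (hf : genM F (m + 1) s f ≠ 0) :
    ∃ y z : Fin s → ℕ, (∀ i, y i < n * m + 1) ∧ (∀ i, z i < n + 1) ∧
      eval (fun k : Fin (m + 1) => ∑ i, (z i : F) * (y i : F) ^ (k : ℕ)) f ≠ 0 := by
  classical
  by_contra hcon
  push Not at hcon
  apply hf
  refine eq_zero_of_eval_zero_at_prod_finset (genM F (m + 1) s f)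
    (Sum.elim (fun _ => (Finset.range (n * m + 1)).image (fun a : ℕ => (a : F)))
      (fun _ => (Finset.range (n + 1)).image (fun a : ℕ => (a : F)))) ?_ ?_
  · rintro (i | i)
    · simp only [Sum.elim_inl]
      rw [Finset.card_image_of_injective _ Nat.cast_injective, Finset.card_range]
      exact Nat.lt_succ_of_le ((degreeOf_genM_inl f i).trans (Nat.mul_le_mul_right _ hd))
    · simp only [Sum.elim_inr]
      rw [Finset.card_image_of_injective _ Nat.cast_injective, Finset.card_range]
      exact Nat.lt_succ_of_le ((degreeOf_genM_inr f i).trans hd)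
  · intro x hx
    have hl : ∀ i : Fin s, ∃ a : ℕ, a < n * m + 1 ∧ (a : F) = x (Sum.inl i) := by
      intro i
      have := hx (Sum.inl i)
      simpa only [Sum.elim_inl, Finset.mem_image, Finset.mem_range] using this
    have hr : ∀ i : Fin s, ∃ a : ℕ, a < n + 1 ∧ (a : F) = x (Sum.inr i) := by
      intro i
      have := hx (Sum.inr i)
      simpa only [Sum.elim_inr, Finset.mem_image, Finset.mem_range] using this
    choose y hy hy2 using hl
    choose z hz hz2 using hr
    have hxe : x = Sum.elim (fun i => (y i : F)) (fun i => (z i : F)) := by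
      funext j
      rcases j with i | i
      · exact (hy2 i).symm
      · exact (hz2 i).symm
    rw [hxe, eval_genM]
    exact hcon y z hy hz

/-! ### The hitting theorem -/

/-- From a statement on sums of products of forms to points for sums of products of
polynomials of degree at most `d`. -/
theorem exists_point [CharZero F] {ι : Type*} [Fintype ι] {m d N D : ℕ} (hd : 0 < d)
    (H : ∀ T : ι → Multiset (MvPolynomial (Fin (m + 1)) F), (∀ i, Forms d (T i)) →
      (∀ i, (T i).prod.IsHomogeneous (1 + d * N)) →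
      gen F (m + 1) D (∑ i, (T i).prod) = 0 → ∑ i, (T i).prod = 0)
    (T : ι → Multiset (MvPolynomial (Fin m) F)) (hT : ∀ i, ∀ P ∈ T i, P.totalDegree ≤ d)
    (hN : ∀ i, Multiset.card (T i) ≤ N) (h0 : ∑ i, (T i).prod ≠ 0) :
    ∃ y z : Fin D → ℕ, (∀ i, y i ≤ m * (d * N + 1)) ∧ (∀ i, z i ≤ d * N + 1) ∧
      (∑ i, (z i : F) ≠ 0) ∧
      eval (fun k : Fin m => (∑ i, (z i : F) * (y i : F) ^ ((k : ℕ) + 1)) / ∑ i, (z i : F))
        (∑ i, (T i).prod) ≠ 0 := by
  set f : MvPolynomial (Fin (m + 1)) F := ∑ i, (homT d N (T i)).prod with hfdef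
  have hev : ∀ x : Fin m → F, eval (Fin.cons 1 x) f = eval x (∑ i, (T i).prod) := by
    intro x
    rw [hfdef, map_sum, map_sum]
    exact sum_congr rfl fun i _ => eval_homT (hT i) x
  have hhom : f.IsHomogeneous (1 + d * N) :=
    IsHomogeneous.sum _ _ _ fun i _ => homT_prod (hN i)
  have hf0 : f ≠ 0 := by
    intro hf
    apply h0
    refine MvPolynomial.funext fun x => ?_
    rw [← hev x, hf, map_zero, map_zero]
  obtain ⟨A, hA1, hA2, hA3⟩ := exists_lin (F := F) (m + 1) D
  have hg : genM F (m + 1) D f ≠ 0 := by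
    intro hg
    apply hf0
    apply hA2
    have e1 : A f = ∑ i, ((homT d N (T i)).map A).prod := by
      rw [hfdef, map_sum]
      exact sum_congr rfl fun i _ => map_multiset_prod A _
    rw [e1]
    apply H (fun i => (homT d N (T i)).map A)
    · intro i P hP
      obtain ⟨Q, hQ, rfl⟩ := Multiset.mem_map.1 hP
      obtain ⟨k, hk, hQk⟩ := homT_forms hd (T i) Q hQ
      exact ⟨k, hk, hA1 Q k hQk⟩
    · intro i
      have := hA1 _ _ (homT_prod (d := d) (hN i))
      rwa [map_multiset_prod] at this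
    · rw [← e1, hA3, hg]
  obtain ⟨y, z, hy, hz, hyz⟩ := exists_seeds f hhom.totalDegree_le hg
  set h : Fin (m + 1) → F := fun k => ∑ i, (z i : F) * (y i : F) ^ (k : ℕ) with hh
  have hh0 : h 0 = ∑ i, (z i : F) := by
    rw [hh]
    simp
  have hne : h 0 ≠ 0 := by
    intro h00
    apply hyz
    rw [hfdef, map_sum]
    refine sum_eq_zero fun i _ => ?_
    rw [homT, Multiset.prod_cons, map_mul, eval_X, h00, zero_mul]
  have hsc : h = fun k => h 0 * (Fin.cons 1 (fun k : Fin m => h k.succ / h 0) :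
      Fin (m + 1) → F) k := by
    funext k
    refine Fin.cases ?_ (fun k => ?_) k
    · rw [Fin.cons_zero, mul_one]
    · rw [Fin.cons_succ, mul_div_cancel₀ _ hne]
  refine ⟨y, z, fun i => ?_, fun i => ?_, hh0 ▸ hne, ?_⟩
  · have := hy i
    have e : (1 + d * N) * m = m * (d * N + 1) := by ring
    rw [e] at this
    exact Nat.lt_succ_iff.1 this
  · have := hz i
    omega
  · have h1 : eval h f ≠ 0 := hyz
    rw [hsc, eval_scale hhom, hev] at h1
    have h2 := right_ne_zero_of_mul h1
    rw [← hh0]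
    have h3 : (fun k : Fin m => (∑ i, (z i : F) * (y i : F) ^ ((k : ℕ) + 1)) / h 0) =
        fun k : Fin m => h k.succ / h 0 := by
      funext k
      rw [hh]
      simp
    rw [h3]
    exact h2

end Pool.Agent.Lib.MP_64d474_lc.S3.H68
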