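import Mathlib

/-!
Gauss norms: the sum of the squares of the values of the roots is determined by the values of the
coefficients.
-/

set_option autoImplicit false

namespace Pool.Agent.Lib.MP_64d474_lc.S3

open Polynomial

/-- a function with values in the natural numbers and infinity that behaves like a valuation -/
structure IsW {O : Type*} [CommRing O] (w : O → ℕ∞) : Prop where
  zero : w 0 = ⊤
  one : w 1 = 0
  mul : ∀ x y, w (x * y) = w x + w y
  add : ∀ x y, min (w x) (w y) ≤ w (x + y)

variable {O : Type*} [CommRing O] {w : O → ℕ∞}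

theorem IsW.neg (hw : IsW w) (x : O) : w (-x) = w x := by
  have h1 : w (-1) = 0 := by
    have h := hw.mul (-1) (-1)
    rw [neg_one_mul, neg_neg, hw.one] at h
    have := h.symm
    rw [add_eq_zero] at this
    exact this.1
  rw [← neg_one_mul, hw.mul, h1, zero_add]

theorem IsW.sub_eq (hw : IsW w) {x y : O} (h : w x < w y) : w (x - y) = w x := by
  apply le_antisymm
  · by_contra hc
    rw [not_le] at hc
    have := hw.add (x - y) y
    rw [sub_add_cancel] at this
    exact absurd (lt_of_lt_of_le (lt_min hc h) this) (lt_irrefl _)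
  · have := hw.add x (-y)
    rw [← sub_eq_add_neg, hw.neg, min_eq_left h.le] at this
    exact this

theorem IsW.sub_le (hw : IsW w) (x y : O) : min (w x) (w y) ≤ w (x - y) := by
  have := hw.add x (-y)
  rwa [← sub_eq_add_neg, hw.neg] at this

/-- the Gauss norm of level M -/
noncomputable def gn (w : O → ℕ∞) (M : ℕ) (f : O[X]) : ℕ∞ := ⨅ k : ℕ, (w (f.coeff k) + (k * M : ℕ))

theorem gn_le (M : ℕ) (f : O[X]) (k : ℕ) : gn w M f ≤ w (f.coeff k) + (k * M : ℕ) :=
  iInf_le _ k

theorem gn_ge (M : ℕ) (f : O[X]) (c : ℕ∞) (h : ∀ k, c ≤ w (f.coeff k) + (k * M : ℕ)) :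
    c ≤ gn w M f := le_iInf h

theorem gn_attained (M : ℕ) (f : O[X]) : ∃ k, gn w M f = w (f.coeff k) + (k * M : ℕ) := by
  obtain ⟨k, hk⟩ := ciInf_mem (fun k : ℕ => w (f.coeff k) + ((k * M : ℕ) : ℕ∞))
  exact ⟨k, hk.symm⟩

theorem gn_one (hw : IsW w) (M : ℕ) : gn w M (1 : O[X]) = 0 := by
  apply le_antisymm _ bot_le
  refine (gn_le M 1 0).trans ?_
  simp [hw.one]

theorem gn_mul_linear (hw : IsW w) (M : ℕ) (g : O) (f : O[X]) :
    gn w M ((X - C g) * f) = gn w M f + min (w g) M := by
  classical
  have hc : ∀ k, ((X - C g) * f).coeff (k + 1) = f.coeff k - g * f.coeff (k + 1) := by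
    intro k
    rw [sub_mul, coeff_sub, coeff_X_mul, coeff_C_mul]
  have hc0 : ((X - C g) * f).coeff 0 = - (g * f.coeff 0) := by
    rw [sub_mul, coeff_sub, coeff_C_mul]
    simp
  apply le_antisymm
  · by_cases htop : gn w M f = ⊤
    · rw [htop, top_add]
      exact le_top
    by_cases hM : (M : ℕ∞) ≤ w g
    · rw [min_eq_right hM]
      -- the largest index where the minimum is attained
      obtain ⟨k0, hk0⟩ := gn_attained (w := w) M f
      have hbd : ∀ k, gn w M f = w (f.coeff k) + (k * M : ℕ) → k ≤ f.natDegree := by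
        intro k hk
        by_contra hlt
        rw [not_le] at hlt
        rw [coeff_eq_zero_of_natDegree_lt hlt, hw.zero, top_add] at hk
        exact htop hk
      obtain ⟨k, hk, hmax⟩ : ∃ k, gn w M f = w (f.coeff k) + (k * M : ℕ) ∧
          ∀ j, k < j → gn w M f ≠ w (f.coeff j) + (j * M : ℕ) := by
        let S := (Finset.range (f.natDegree + 1)).filter
          (fun k => gn w M f = w (f.coeff k) + (k * M : ℕ))
        have hS : S.Nonempty := ⟨k0, Finset.mem_filter.mpr
          ⟨Finset.mem_range.mpr (Nat.lt_succ_of_le (hbd k0 hk0)), hk0⟩⟩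
        refine ⟨S.max' hS, (Finset.mem_filter.mp (S.max'_mem hS)).2, ?_⟩
        intro j hj hcon
        have : j ∈ S := Finset.mem_filter.mpr
          ⟨Finset.mem_range.mpr (Nat.lt_succ_of_le (hbd j hcon)), hcon⟩
        exact absurd (S.le_max' j this) (not_le.mpr hj)
      have hlt : gn w M f < w (f.coeff (k + 1)) + ((k + 1) * M : ℕ) :=
        lt_of_le_of_ne (gn_le M f (k + 1)) (hmax (k + 1) (Nat.lt_succ_self k))
      have hfk : w (f.coeff k) ≠ ⊤ := by
        intro h
        rw [h, top_add] at hk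
        exact htop hk
      have h2 : w (f.coeff k) < w (g * f.coeff (k + 1)) := by
        rw [hw.mul]
        by_contra hcon
        rw [not_lt] at hcon
        have h3 : w (f.coeff (k + 1)) + ((k + 1) * M : ℕ) ≤ gn w M f := by
          rw [hk]
          have : w (f.coeff (k + 1)) + ((k + 1) * M : ℕ)
              = (M + w (f.coeff (k + 1))) + (k * M : ℕ) := by
            push_cast
            ring
          rw [this]
          refine add_le_add ?_ le_rfl
          exact (add_le_add hM le_rfl).trans hcon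
        exact absurd hlt (not_lt.mpr h3)
      refine (gn_le M _ (k + 1)).trans ?_
      rw [hc, hw.sub_eq h2, hk]
      have : w (f.coeff k) + ((k + 1) * M : ℕ) = w (f.coeff k) + (k * M : ℕ) + M := by
        push_cast
        ring
      rw [this]
    · rw [not_le] at hM
      rw [min_eq_left hM.le]
      obtain ⟨k, hk⟩ := gn_attained (w := w) M f
      refine (gn_le M _ k).trans ?_
      have hfk : w (f.coeff k) ≠ ⊤ := by
        intro h
        rw [h, top_add] at hk
        exact htop hk
      have hgt : w g ≠ ⊤ := (lt_of_lt_of_le hM le_top).ne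
      have key : w (((X - C g) * f).coeff k) = w g + w (f.coeff k) := by
        cases k with
        | zero => rw [hc0, hw.neg, hw.mul]
        | succ k =>
          rw [hc]
          have h2 : w (g * f.coeff (k + 1)) < w (f.coeff k) := by
            rw [hw.mul]
            by_contra hcon
            rw [not_lt] at hcon
            have h4 := gn_le (w := w) M f k
            rw [hk] at h4
            -- w f_(k+1) + (k+1) M ≤ w f_k + k M ≤ w g + w f_(k+1) + k M
            have h5 : w (f.coeff (k + 1)) + ((k + 1) * M : ℕ)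
                ≤ w g + w (f.coeff (k + 1)) + (k * M : ℕ) :=
              h4.trans (add_le_add hcon le_rfl)
            obtain ⟨a, ha⟩ := ENat.ne_top_iff_exists.mp hfk
            obtain ⟨b, hb⟩ := ENat.ne_top_iff_exists.mp hgt
            rw [← ha, ← hb] at h5
            rw [← hb] at hM
            norm_cast at h5 hM
            nlinarith
          rw [← neg_sub, hw.neg, hw.sub_eq h2, hw.mul]
      rw [key, hk]
      apply le_of_eq
      ring
  · apply gn_ge
    intro k
    cases k with
    | zero =>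
      rw [hc0, hw.neg, hw.mul]
      have h1 := gn_le (w := w) M f 0
      calc gn w M f + min (w g) M ≤ (w (f.coeff 0) + (0 * M : ℕ)) + w g :=
            add_le_add h1 (min_le_left _ _)
        _ = w g + w (f.coeff 0) + (0 * M : ℕ) := by ring
    | succ k =>
      rw [hc]
      have h1 := gn_le (w := w) M f k
      have h2 := gn_le (w := w) M f (k + 1)
      refine le_trans ?_ (add_le_add (hw.sub_le _ _) le_rfl)
      rw [min_add]
      apply le_min
      · calc gn w M f + min (w g) M ≤ (w (f.coeff k) + (k * M : ℕ)) + M :=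
              add_le_add h1 (min_le_right _ _)
          _ = w (f.coeff k) + ((k + 1) * M : ℕ) := by push_cast; ring
      · rw [hw.mul]
        calc gn w M f + min (w g) M ≤ (w (f.coeff (k + 1)) + ((k + 1) * M : ℕ)) + w g :=
              add_le_add h2 (min_le_left _ _)
          _ = w g + w (f.coeff (k + 1)) + ((k + 1) * M : ℕ) := by ring

theorem gn_prod (hw : IsW w) (M : ℕ) {ι : Type*} (s : Finset ι) (g : ι → O) :
    gn w M (∏ i ∈ s, (X - C (g i))) = ∑ i ∈ s, min (w (g i)) M := by
  classical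
  induction s using Finset.induction_on with
  | empty => simp [gn_one hw]
  | insert a s ha ih =>
    rw [Finset.prod_insert ha, gn_mul_linear hw, ih, Finset.sum_insert ha, add_comm]

/-- an identity for squares -/
theorem sq_eq_sum (N : ℕ) (x : ℕ) (hx : x ≤ N) :
    ((x : ℤ)) ^ 2 = ∑ M ∈ Finset.range N, (2 * (M : ℤ) + 1) *
      (((min x (M + 1) : ℕ) : ℤ) - ((min x M : ℕ) : ℤ)) := by
  induction N generalizing x with
  | zero =>
    have : x = 0 := by omega
    subst this
    simp
  | succ N ih =>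
    rw [Finset.sum_range_succ]
    by_cases h : x ≤ N
    · rw [ih x h, min_eq_left (by omega : x ≤ N + 1), min_eq_left h]
      ring
    · have hxN : x = N + 1 := by omega
      subst hxN
      have h1 : ∀ M ∈ Finset.range N, (2 * (M : ℤ) + 1) *
          (((min (N + 1) (M + 1) : ℕ) : ℤ) - ((min (N + 1) M : ℕ) : ℤ))
          = (2 * (M : ℤ) + 1) * (((min N (M + 1) : ℕ) : ℤ) - ((min N M : ℕ) : ℤ)) := by
        intro M hM
        have hM := Finset.mem_range.mp hM
        rw [min_eq_right (by omega : M + 1 ≤ N + 1), min_eq_right (by omega : M ≤ N + 1),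
          min_eq_right (by omega : M + 1 ≤ N), min_eq_right (by omega : M ≤ N)]
      rw [Finset.sum_congr rfl h1, ← ih N le_rfl, min_self, min_eq_right (by omega : N ≤ N + 1)]
      push_cast
      ring

theorem sum_sq_eq {ι ι' : Type*} [Fintype ι] [Fintype ι'] (a : ι → ℕ) (b : ι' → ℕ)
    (h : ∀ M : ℕ, ∑ i, min (a i) M = ∑ i, min (b i) M) :
    ∑ i, ((a i : ℕ) : ℤ) ^ 2 = ∑ i, ((b i : ℕ) : ℤ) ^ 2 := by
  classical
  obtain ⟨N, hN, hN'⟩ : ∃ N, (∀ i, a i ≤ N) ∧ (∀ i, b i ≤ N) := by
    refine ⟨Finset.univ.sup a + Finset.univ.sup b, fun i => ?_, fun i => ?_⟩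
    · exact (Finset.le_sup (f := a) (Finset.mem_univ i)).trans (Nat.le_add_right _ _)
    · exact (Finset.le_sup (f := b) (Finset.mem_univ i)).trans (Nat.le_add_left _ _)
  have key : ∀ {κ : Type _} [Fintype κ] (c : κ → ℕ), (∀ i, c i ≤ N) →
      ∑ i, ((c i : ℕ) : ℤ) ^ 2 = ∑ M ∈ Finset.range N, (2 * (M : ℤ) + 1) *
        (((∑ i, min (c i) (M + 1) : ℕ) : ℤ) - ((∑ i, min (c i) M : ℕ) : ℤ)) := by
    intro κ _ c hc
    rw [Finset.sum_congr rfl (fun i _ => sq_eq_sum N (c i) (hc i)), Finset.sum_comm]
    refine Finset.sum_congr rfl fun M _ => ?_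
    rw [← Finset.mul_sum, Finset.sum_sub_distrib]
    push_cast
    rfl
  rw [key a hN]
  have key' : ∑ i, ((b i : ℕ) : ℤ) ^ 2 = ∑ M ∈ Finset.range N, (2 * (M : ℤ) + 1) *
        (((∑ i, min (b i) (M + 1) : ℕ) : ℤ) - ((∑ i, min (b i) M : ℕ) : ℤ)) := by
    rw [Finset.sum_congr rfl (fun i _ => sq_eq_sum N (b i) (hN' i)), Finset.sum_comm]
    refine Finset.sum_congr rfl fun M _ => ?_
    rw [← Finset.mul_sum, Finset.sum_sub_distrib]
    push_cast
    rfl
  rw [key']
  refine Finset.sum_congr rfl fun M _ => ?_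
  rw [h (M + 1), h M]

/-- equal values of the coefficients give equal sums of squares of the values of the roots -/
theorem gauss64 {O' : Type*} [CommRing O'] {w' : O' → ℕ∞} (hw : IsW w) (hw' : IsW w')
    {ι ι' : Type*} [Fintype ι] [Fintype ι'] (g : ι → O) (g' : ι' → O')
    (hg : ∀ i, w (g i) ≠ ⊤) (hg' : ∀ i, w' (g' i) ≠ ⊤)
    (h : ∀ k, w ((∏ i, (X - C (g i))).coeff k) = w' ((∏ i, (X - C (g' i))).coeff k)) :
    ∑ i, ((w (g i)).toNat : ℤ) ^ 2 = ∑ i, ((w' (g' i)).toNat : ℤ) ^ 2 := by
  apply sum_sq_eq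
  intro M
  have h1 : gn w M (∏ i, (X - C (g i))) = gn w' M (∏ i, (X - C (g' i))) := by
    unfold gn
    exact iInf_congr fun k => by rw [h k]
  rw [gn_prod hw, gn_prod hw'] at h1
  have h2 : ∀ i, min (w (g i)) (M : ℕ∞) = ((min (w (g i)).toNat M : ℕ) : ℕ∞) := by
    intro i
    obtain ⟨a, ha⟩ := ENat.ne_top_iff_exists.mp (hg i)
    rw [← ha]
    exact (Nat.mono_cast (α := ℕ∞)).map_min.symm
  have h3 : ∀ i, min (w' (g' i)) (M : ℕ∞) = ((min (w' (g' i)).toNat M : ℕ) : ℕ∞) := by
    intro i
    obtain ⟨a, ha⟩ := ENat.ne_top_iff_exists.mp (hg' i)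
    rw [← ha]
    exact (Nat.mono_cast (α := ℕ∞)).map_min.symm
  rw [Finset.sum_congr rfl (fun i _ => h2 i), Finset.sum_congr rfl (fun i _ => h3 i)] at h1
  rw [← Nat.cast_sum, ← Nat.cast_sum] at h1
  exact_mod_cast h1

end Pool.Agent.Lib.MP_64d474_lc.S3
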