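import Mathlib

/-!
The generator `X_j ↦ ∑ i, z_i * l_j (y_i)` keeps coprime forms of low degree coprime.
-/

set_option autoImplicit false

namespace Pool.Agent.Lib.MP_64d474_lc.S3.Glue31

open MvPolynomial

variable {k : Type*} [Field k] {ι κ : Type*}

/-- the generator: `inl` are the `y`, `inr` are the `z` -/
noncomputable def gen (κ : Type*) [Fintype κ] (l : ι → Polynomial k) :
    MvPolynomial ι k →ₐ[k] MvPolynomial (κ ⊕ κ) k :=
  aeval (fun j => ∑ i : κ, X (Sum.inr i) *
    Polynomial.aeval (X (Sum.inl i) : MvPolynomial (κ ⊕ κ) k) (l j))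

/-- evaluation at `y = b`, `z = w` -/
noncomputable def ev (b : κ → k) (w : κ → MvPolynomial ι k) :
    MvPolynomial (κ ⊕ κ) k →ₐ[k] MvPolynomial ι k :=
  aeval (Sum.elim (fun i => C (b i)) w)

section res

variable [DecidableEq ι]

/-- the restriction to the coordinates in `T` -/
noncomputable def res (T : Finset ι) : MvPolynomial ι k →ₐ[k] MvPolynomial ι k :=
  aeval (fun j => if j ∈ T then X j else 0)

theorem res_monomial (T : Finset ι) (β : ι →₀ ℕ) (c : k) :
    res T (monomial β c) = if β.support ⊆ T then monomial β c else 0 := by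
  unfold res
  rw [aeval_monomial]
  split_ifs with h
  · rw [monomial_eq]
    congr 1
    apply Finsupp.prod_congr
    intro j hj
    rw [if_pos (h hj)]
  · obtain ⟨j, hj, hjT⟩ := Finset.not_subset.mp h
    rw [Finsupp.prod, Finset.prod_eq_zero hj, mul_zero]
    rw [if_neg hjT, zero_pow (Finsupp.mem_support_iff.mp hj)]

theorem coeff_res (T : Finset ι) (α : ι →₀ ℕ) (P : MvPolynomial ι k) :
    coeff α (res T P) = if α.support ⊆ T then coeff α P else 0 := by
  induction P using MvPolynomial.induction_on' with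
  | monomial β c =>
    rw [res_monomial]
    by_cases h : β = α
    · subst h; split_ifs <;> simp
    · split_ifs <;> simp [coeff_monomial, h]
  | add p q hp hq => rw [map_add, coeff_add, hp, hq]; split_ifs <;> simp

end res

/-- injections of a part of the slots with image `T` -/
structure IsPI (c : κ → Option ι) (T : Finset ι) : Prop where
  inj : ∀ i i' j, c i = some j → c i' = some j → i = i'
  im : ∀ j, j ∈ T ↔ ∃ i, c i = some j

/-- the points of such an injection -/
noncomputable def bb (a : ι → k) (c : κ → Option ι) (i : κ) : k := (c i).elim 0 a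

/-- the forms of such an injection -/
noncomputable def ww (lam : ι → k) (c : κ → Option ι) (i : κ) : MvPolynomial ι k :=
  (c i).elim 0 (fun j => C (lam j) * X j)

section ev

variable [Fintype κ] {l : ι → Polynomial k} {a lam : ι → k}

theorem ev_gen [DecidableEq ι] (hl0 : ∀ j t, j ≠ t → (l j).eval (a t) = 0)
    (hlam : ∀ j, lam j * (l j).eval (a j) = 1) {c : κ → Option ι} {T : Finset ι} (hc : IsPI c T)
    (P : MvPolynomial ι k) : ev (bb a c) (ww lam c) (gen κ l P) = res T P := by
  have key : (ev (bb a c) (ww lam c)).comp (gen κ l) = res T := by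
    apply MvPolynomial.algHom_ext
    intro j
    have h1 : ∀ i : κ, ev (bb a c) (ww lam c)
        (Polynomial.aeval (X (Sum.inl i) : MvPolynomial (κ ⊕ κ) k) (l j)) =
        C ((l j).eval (bb a c i)) := by
      intro i
      rw [← Polynomial.aeval_algHom_apply]
      have : ev (bb a c) (ww lam c) (X (Sum.inl i)) =
          algebraMap k (MvPolynomial ι k) (bb a c i) := by
        simp [ev, algebraMap_eq]
      rw [this, Polynomial.aeval_algebraMap_apply_eq_algebraMap_eval, algebraMap_eq]
    have h2 : ∀ i : κ, ev (bb a c) (ww lam c) (X (Sum.inr i)) = ww lam c i := by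
      intro i
      simp [ev]
    rw [AlgHom.comp_apply, gen, aeval_X, map_sum]
    simp only [map_mul, h1, h2]
    unfold res
    rw [aeval_X]
    split_ifs with hj
    · obtain ⟨i0, hi0⟩ := (hc.im j).mp hj
      rw [Finset.sum_eq_single i0]
      · simp only [ww, bb, hi0, Option.elim_some]
        rw [mul_assoc, mul_comm (X j), ← mul_assoc, ← C_mul, hlam, C_1, one_mul]
      · intro i _ hi
        rcases hci : c i with _ | j'
        · simp [ww, hci]
        · have hne : j ≠ j' := by
            rintro rfl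
            exact hi (hc.inj i i0 j hci hi0)
          simp [bb, hci, hl0 j j' hne]
      · intro h
        exact absurd (Finset.mem_univ _) h
    · apply Finset.sum_eq_zero
      intro i _
      rcases hci : c i with _ | j'
      · simp [ww, hci]
      · have hne : j ≠ j' := by
          rintro rfl
          exact hj ((hc.im j).mpr ⟨i, hci⟩)
        simp [bb, hci, hl0 j j' hne]
  exact AlgHom.congr_fun key P

end ev

section kill

variable [DecidableEq κ]

/-- set `z_i = 0` for `i ∈ A` -/
noncomputable def kill (A : Finset κ) : MvPolynomial (κ ⊕ κ) k →ₐ[k] MvPolynomial (κ ⊕ κ) k :=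
  aeval (Sum.elim (fun i => X (Sum.inl i)) (fun i => if i ∈ A then 0 else X (Sum.inr i)))

theorem ev_kill (b : κ → k) (w : κ → MvPolynomial ι k) (A : Finset κ) (hw : ∀ i ∈ A, w i = 0)
    (g : MvPolynomial (κ ⊕ κ) k) : ev b w (kill A g) = ev b w g := by
  have key : (ev b w).comp (kill A) = ev b w := by
    apply MvPolynomial.algHom_ext
    rintro (i | i)
    · simp [kill, ev]
    · by_cases hi : i ∈ A
      · simp [kill, ev, hi, hw i hi]
      · simp [kill, ev, hi]
  exact AlgHom.congr_fun key g

variable [Fintype κ] {l : ι → Polynomial k} {a lam : ι → k}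

theorem kill_gen_mem (A : Finset κ) {i : κ} (hi : i ∈ A) (P : MvPolynomial ι k) :
    kill A (gen κ l P) ∈ supported k {v : κ ⊕ κ | v ≠ Sum.inl i ∧ v ≠ Sum.inr i} := by
  induction P using MvPolynomial.induction_on with
  | C r =>
    rw [← algebraMap_eq, AlgHom.commutes, AlgHom.commutes]
    exact Subalgebra.algebraMap_mem _ _
  | add p q hp hq => rw [map_add, map_add]; exact Subalgebra.add_mem _ hp hq
  | mul_X p j hp =>
    rw [map_mul, map_mul]
    refine Subalgebra.mul_mem _ hp ?_
    rw [gen, aeval_X, map_sum]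
    refine Subalgebra.sum_mem _ ?_
    intro i' _
    rw [map_mul]
    by_cases hi' : i' ∈ A
    · have : kill A (X (Sum.inr i') : MvPolynomial (κ ⊕ κ) k) = 0 := by simp [kill, hi']
      rw [this, zero_mul]
      exact Subalgebra.zero_mem _
    · have hne : i' ≠ i := fun h => hi' (h ▸ hi)
      have h1 : kill A (X (Sum.inr i') : MvPolynomial (κ ⊕ κ) k) = X (Sum.inr i') := by
        simp [kill, hi']
      rw [h1, ← Polynomial.aeval_algHom_apply]
      have h2 : kill A (X (Sum.inl i') : MvPolynomial (κ ⊕ κ) k) = X (Sum.inl i') := by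
        simp [kill]
      rw [h2]
      refine Subalgebra.mul_mem _ ?_ ?_
      · rw [X_mem_supported]
        simp [hne]
      · rw [Polynomial.aeval_eq_sum_range]
        refine Subalgebra.sum_mem _ fun n _ => Subalgebra.smul_mem _ (Subalgebra.pow_mem _ ?_ _) _
        rw [X_mem_supported]
        simp [hne]

theorem kill_gen_vars (A : Finset κ) {i : κ} (hi : i ∈ A) (P : MvPolynomial ι k) :
    Sum.inl i ∉ (kill A (gen κ l P)).vars ∧ Sum.inr i ∉ (kill A (gen κ l P)).vars := by
  have h := mem_supported.mp (kill_gen_mem (l := l) A hi P)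
  constructor
  · intro h1
    have := h h1
    simp at this
  · intro h1
    have := h h1
    simp at this

theorem exists_pi (A : Finset κ) (T : Finset ι) (h : T.card + A.card ≤ Fintype.card κ) :
    ∃ c : κ → Option ι, IsPI c T ∧ ∀ i ∈ A, c i = none := by
  classical
  have hc : Fintype.card T ≤ Fintype.card (Aᶜ : Finset κ) := by
    rw [Fintype.card_coe, Fintype.card_coe, Finset.card_compl]
    omega
  obtain ⟨f⟩ := Function.Embedding.nonempty_of_card_le hc
  refine ⟨fun i => if h : ∃ t : T, (f t : κ) = i then some (h.choose : ι) else none, ⟨?_, ?_⟩, ?_⟩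
  · intro i i' j hi hi'
    by_cases h1 : ∃ t : T, (f t : κ) = i
    · by_cases h2 : ∃ t : T, (f t : κ) = i'
      · simp only [dif_pos h1] at hi
        simp only [dif_pos h2] at hi'
        have e1 := h1.choose_spec
        have e2 := h2.choose_spec
        have : h1.choose = h2.choose := by
          apply Subtype.ext
          rw [Option.some_inj] at hi hi'
          rw [hi, hi']
        rw [← e1, ← e2, this]
      · simp only [dif_neg h2] at hi'
        exact absurd hi' (by simp)
    · simp only [dif_neg h1] at hi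
      exact absurd hi (by simp)
  · intro j
    constructor
    · intro hj
      refine ⟨f ⟨j, hj⟩, ?_⟩
      have hex : ∃ t : T, (f t : κ) = f ⟨j, hj⟩ := ⟨⟨j, hj⟩, rfl⟩
      simp only [dif_pos hex]
      have e1 := hex.choose_spec
      have := f.injective (Subtype.ext e1)
      rw [this]
    · rintro ⟨i, hi⟩
      by_cases h1 : ∃ t : T, (f t : κ) = i
      · simp only [dif_pos h1] at hi
        rw [Option.some_inj] at hi
        rw [← hi]
        exact h1.choose.2
      · simp only [dif_neg h1] at hi
        exact absurd hi (by simp)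
  · intro i hi
    have : ¬ ∃ t : T, (f t : κ) = i := by
      rintro ⟨t, rfl⟩
      have := (f t).2
      rw [Finset.mem_compl] at this
      exact this hi
    exact dif_neg this

theorem kill_gen_ne [DecidableEq ι] (hl0 : ∀ j t, j ≠ t → (l j).eval (a t) = 0)
    (hlam : ∀ j, lam j * (l j).eval (a j) = 1) (A : Finset κ) {P : MvPolynomial ι k} {p : ℕ}
    (hP : P.IsHomogeneous p) (hP0 : P ≠ 0) (hA : p + A.card ≤ Fintype.card κ) :
    kill A (gen κ l P) ≠ 0 := by
  obtain ⟨α, hα⟩ := MvPolynomial.ne_zero_iff.mp hP0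
  have hdeg : α.degree = p := by
    have := hP hα
    rwa [Finsupp.degree_eq_weight_one]
  have hcard : α.support.card ≤ p := by
    rw [← hdeg, Finsupp.degree]
    calc α.support.card = ∑ i ∈ α.support, 1 := by simp
      _ ≤ _ := Finset.sum_le_sum fun i hi => Nat.one_le_iff_ne_zero.mpr (Finsupp.mem_support_iff.mp hi)
  obtain ⟨c, hc, hcA⟩ := exists_pi A α.support (by omega)
  intro h0
  have h1 : ev (bb a c) (ww lam c) (kill A (gen κ l P)) = ev (bb a c) (ww lam c) (gen κ l P) := by
    apply ev_kill
    intro i hi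
    simp [ww, hcA i hi]
  rw [h0, map_zero, ev_gen hl0 hlam hc] at h1
  have h2 := congrArg (coeff α) h1
  rw [coeff_zero, coeff_res, if_pos (Finset.Subset.refl _)] at h2
  exact hα h2.symm

theorem not_mem_vars_of_dvd {σ : Type*} {g f : MvPolynomial σ k} (hf : f ≠ 0) (h : g ∣ f) {v : σ}
    (hv : v ∉ f.vars) : v ∉ g.vars := by
  obtain ⟨q, rfl⟩ := h
  rw [mem_vars_iff_degreeOf_ne_zero, not_not, degreeOf_mul_eq (left_ne_zero_of_mul hf)
    (right_ne_zero_of_mul hf)] at hv
  rw [mem_vars_iff_degreeOf_ne_zero, not_not]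
  omega

end kill

section perm

/-- renaming the slots -/
noncomputable def ren (τ : Equiv.Perm κ) : MvPolynomial (κ ⊕ κ) k →ₐ[k] MvPolynomial (κ ⊕ κ) k :=
  rename (Sum.map τ τ)

theorem ren_gen [Fintype κ] {l : ι → Polynomial k} (τ : Equiv.Perm κ) (P : MvPolynomial ι k) :
    ren τ (gen κ l P) = gen κ l P := by
  have key : (ren τ).comp (gen κ l) = gen κ l := by
    apply MvPolynomial.algHom_ext
    intro j
    rw [AlgHom.comp_apply, gen, aeval_X, map_sum]
    rw [← Equiv.sum_comp τ (fun i => X (Sum.inr i) *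
      Polynomial.aeval (X (Sum.inl i) : MvPolynomial (κ ⊕ κ) k) (l j))]
    apply Finset.sum_congr rfl
    intro i _
    rw [map_mul, ← Polynomial.aeval_algHom_apply]
    simp [ren]
  exact AlgHom.congr_fun key P

theorem ren_mul (τ τ' : Equiv.Perm κ) (g : MvPolynomial (κ ⊕ κ) k) :
    ren (τ * τ') g = ren τ (ren τ' g) := by
  rw [ren, ren, ren, rename_rename]
  congr 2
  funext v
  rcases v with i | i <;> simp

theorem ren_one (g : MvPolynomial (κ ⊕ κ) k) : ren 1 g = g := by
  rw [ren]
  have : (Sum.map (⇑(1 : Equiv.Perm κ)) ⇑(1 : Equiv.Perm κ)) = id := by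
    funext v
    rcases v with i | i <;> simp
  rw [this, rename_id, AlgHom.id_apply]

theorem ev_ren (b : κ → k) (w : κ → MvPolynomial ι k) (τ : Equiv.Perm κ)
    (g : MvPolynomial (κ ⊕ κ) k) : ev b w (ren τ g) = ev (b ∘ τ) (w ∘ τ) g := by
  unfold ev ren
  rw [aeval_rename]
  congr 2
  funext v
  rcases v with i | i <;> simp

theorem rename_of_fix {σ : Type*} (f : σ → σ) (g : MvPolynomial σ k)
    (h : ∀ v ∈ g.vars, f v = v) : rename f g = g := by
  have h1 : (rename f : MvPolynomial σ k →ₐ[k] MvPolynomial σ k).toRingHom g =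
      (RingHom.id (MvPolynomial σ k)) g := by
    apply hom_congr_vars
    · ext c
      simp
    · intro v hv _
      simp [h v hv]
    · rfl
  exact h1

variable [DecidableEq κ]

theorem kill_ren_swap (x y : κ) (g : MvPolynomial (κ ⊕ κ) k) :
    kill {x, y} (ren (Equiv.swap x y) g) = ren (Equiv.swap x y) (kill {x, y} g) := by
  have key : (kill (k := k) {x, y}).comp (ren (Equiv.swap x y)) =
      (ren (Equiv.swap x y)).comp (kill {x, y}) := by
    apply MvPolynomial.algHom_ext
    rintro (i | i)
    · simp [kill, ren]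
    · by_cases h1 : i = x
      · subst h1
        simp [kill, ren]
      · by_cases h2 : i = y
        · subst h2
          simp [kill, ren]
        · simp [kill, ren, Equiv.swap_apply_of_ne_of_ne h1 h2, h1, h2]
  exact AlgHom.congr_fun key g

theorem inv_of [Finite κ] {g : MvPolynomial (κ ⊕ κ) k} (hdvd : ∀ τ : Equiv.Perm κ, ren τ g ∣ g)
    (hv : ∀ x y : κ, kill {x, y} g ≠ 0 ∧ ∀ i ∈ ({x, y} : Finset κ),
      Sum.inl i ∉ (kill {x, y} g).vars ∧ Sum.inr i ∉ (kill {x, y} g).vars)
    (τ : Equiv.Perm κ) : ren τ g = g := by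
  induction τ using Equiv.Perm.swap_induction_on with
  | one => exact ren_one g
  | swap_mul f x y hxy ih =>
    rw [ren_mul, ih]
    have hself : ren (Equiv.swap x y) (ren (Equiv.swap x y) g) = g := by
      rw [← ren_mul, Equiv.swap_mul_self, ren_one]
    have hd1 := hdvd (Equiv.swap x y)
    have hd2 : g ∣ ren (Equiv.swap x y) g := by
      have := map_dvd (ren (k := k) (Equiv.swap x y)) hd1
      rwa [hself] at this
    obtain ⟨u, hu⟩ := associated_of_dvd_dvd hd1 hd2
    obtain ⟨r, hr, hur⟩ := isUnit_iff_eq_C_of_isReduced.mp u.isUnit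
    rw [hur] at hu
    obtain ⟨hne, hvars⟩ := hv x y
    have hfix : ren (Equiv.swap x y) (kill {x, y} g) = kill {x, y} g := by
      apply rename_of_fix
      rintro (i | i) hi
      · have h1 : i ≠ x := by
          intro h
          rw [h] at hi
          exact (hvars x (Finset.mem_insert_self _ _)).1 hi
        have h2 : i ≠ y := by
          intro h
          rw [h] at hi
          exact (hvars y (Finset.mem_insert_of_mem (Finset.mem_singleton_self _))).1 hi
        simp [Equiv.swap_apply_of_ne_of_ne h1 h2]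
      · have h1 : i ≠ x := by
          intro h
          rw [h] at hi
          exact (hvars x (Finset.mem_insert_self _ _)).2 hi
        have h2 : i ≠ y := by
          intro h
          rw [h] at hi
          exact (hvars y (Finset.mem_insert_of_mem (Finset.mem_singleton_self _))).2 hi
        simp [Equiv.swap_apply_of_ne_of_ne h1 h2]
    have h3 := congrArg (kill {x, y}) hu
    rw [map_mul, kill_ren_swap, hfix] at h3
    have h4 : kill {x, y} (C r : MvPolynomial (κ ⊕ κ) k) = C r := by
      rw [← algebraMap_eq, AlgHom.commutes]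
    rw [h4] at h3
    have h5 : (C r : MvPolynomial (κ ⊕ κ) k) = 1 := by
      apply mul_left_cancel₀ hne
      rw [h3, mul_one]
    rw [h5, mul_one] at hu
    exact hu

end perm

section hom

/-- the scaling of the `z` -/
noncomputable def th : MvPolynomial (κ ⊕ κ) k →ₐ[k] Polynomial (MvPolynomial (κ ⊕ κ) k) :=
  aeval (Sum.elim (fun i => Polynomial.C (X (Sum.inl i)))
    (fun i => Polynomial.C (X (Sum.inr i)) * Polynomial.X))

theorem aeval_mul_of_homog {S : Type*} [CommRing S] [Algebra k S] (x : ι → S) (t : S)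
    {P : MvPolynomial ι k} {p : ℕ} (hP : P.IsHomogeneous p) :
    aeval (fun j => x j * t) P = aeval x P * t ^ p := by
  rw [aeval_def, aeval_def, eval₂_eq, eval₂_eq, Finset.sum_mul]
  apply Finset.sum_congr rfl
  intro α hα
  have hdeg : α.degree = p := by
    have := hP (mem_support_iff.mp hα)
    rwa [Finsupp.degree_eq_weight_one]
  simp only [mul_pow, Finset.prod_mul_distrib, Finset.prod_pow_eq_pow_sum]
  rw [← hdeg, mul_assoc]
  rfl

theorem th_gen [Fintype κ] {l : ι → Polynomial k} {P : MvPolynomial ι k} {p : ℕ}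
    (hP : P.IsHomogeneous p) :
    th (gen κ l P) = Polynomial.C (gen κ l P) * Polynomial.X ^ p := by
  have h1 : (th.comp (gen κ l)) =
      aeval (fun j => Polynomial.C (gen κ l (X j)) * Polynomial.X) := by
    apply MvPolynomial.algHom_ext
    intro j
    rw [AlgHom.comp_apply, aeval_X, gen, aeval_X, map_sum, map_sum, Finset.sum_mul]
    apply Finset.sum_congr rfl
    intro i _
    rw [map_mul, ← Polynomial.aeval_algHom_apply]
    have h2 : th (X (Sum.inl i) : MvPolynomial (κ ⊕ κ) k) =
        Polynomial.CAlgHom (R := k) (X (Sum.inl i)) := by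
      simp [th]
    have h3 : th (X (Sum.inr i) : MvPolynomial (κ ⊕ κ) k) =
        Polynomial.C (X (Sum.inr i)) * Polynomial.X := by
      simp [th]
    rw [h2, Polynomial.aeval_algHom_apply, h3, Polynomial.CAlgHom_apply, Polynomial.C_mul]
    ring
  have h4 : (Polynomial.CAlgHom (R := k)).comp (gen κ l) =
      aeval (fun j => Polynomial.C (gen κ l (X j))) := by
    apply MvPolynomial.algHom_ext
    intro j
    rw [AlgHom.comp_apply, aeval_X, Polynomial.CAlgHom_apply]
  have h5 := AlgHom.congr_fun h1 P
  rw [AlgHom.comp_apply, aeval_mul_of_homog _ _ hP, ← h4, AlgHom.comp_apply,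
    Polynomial.CAlgHom_apply] at h5
  exact h5

theorem factor_monomial {D : Type*} [CommRing D] [IsDomain D] {G H : Polynomial D} {F : D}
    (hF : F ≠ 0) {p : ℕ} (h : G * H = Polynomial.C F * Polynomial.X ^ p) :
    ∃ e e', e + e' = p ∧ G = Polynomial.C (G.coeff e) * Polynomial.X ^ e ∧
      H = Polynomial.C (H.coeff e') * Polynomial.X ^ e' := by
  have h0 : G * H ≠ 0 := by
    rw [h]
    exact mul_ne_zero (Polynomial.C_ne_zero.mpr hF) (pow_ne_zero _ Polynomial.X_ne_zero)
  have hG : G ≠ 0 := left_ne_zero_of_mul h0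
  have hH : H ≠ 0 := right_ne_zero_of_mul h0
  have h1 : G.natDegree + H.natDegree = p := by
    rw [← Polynomial.natDegree_mul hG hH, h, Polynomial.natDegree_C_mul_X_pow _ _ hF]
  have h2 : G.natTrailingDegree + H.natTrailingDegree = p := by
    rw [← Polynomial.natTrailingDegree_mul hG hH, h, Polynomial.C_mul_X_pow_eq_monomial,
      Polynomial.natTrailingDegree_monomial hF]
  have h3 := G.natTrailingDegree_le_natDegree
  have h4 := H.natTrailingDegree_le_natDegree
  have aux : ∀ K : Polynomial D, K.natTrailingDegree = K.natDegree →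
      K = Polynomial.C (K.coeff K.natDegree) * Polynomial.X ^ K.natDegree := by
    intro K hK
    ext n
    rw [Polynomial.coeff_C_mul_X_pow]
    split_ifs with hn
    · rw [hn]
    · rcases lt_or_gt_of_ne hn with h | h
      · exact Polynomial.coeff_eq_zero_of_lt_natTrailingDegree (by omega)
      · exact Polynomial.coeff_eq_zero_of_natDegree_lt h
  exact ⟨G.natDegree, H.natDegree, h1, aux G (by omega), aux H (by omega)⟩

theorem eval_th (g : MvPolynomial (κ ⊕ κ) k) : Polynomial.eval 1 (th g) = g := by
  have key : (((Polynomial.aeval (1 : MvPolynomial (κ ⊕ κ) k)).restrictScalars k).comp th) =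
      AlgHom.id k _ := by
    apply MvPolynomial.algHom_ext
    rintro (i | i) <;> simp [th]
  have := AlgHom.congr_fun key g
  simpa [Polynomial.coe_aeval_eq_eval] using this

theorem th_factor {g h F : MvPolynomial (κ ⊕ κ) k} (hF : F ≠ 0) (hgh : g * h = F) {p : ℕ}
    (hth : th F = Polynomial.C F * Polynomial.X ^ p) :
    ∃ e e', e + e' = p ∧ th g = Polynomial.C g * Polynomial.X ^ e ∧
      th h = Polynomial.C h * Polynomial.X ^ e' := by
  obtain ⟨e, e', he, h1, h2⟩ := factor_monomial (G := th g) (H := th h) hF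
    (by rw [← map_mul, hgh, hth])
  refine ⟨e, e', he, ?_, ?_⟩
  · have h3 := congrArg (Polynomial.eval 1) h1
    rw [eval_th] at h3
    simp only [Polynomial.eval_mul, Polynomial.eval_C, Polynomial.eval_pow, Polynomial.eval_X,
      one_pow, mul_one] at h3
    rw [← h3] at h1
    exact h1
  · have h3 := congrArg (Polynomial.eval 1) h2
    rw [eval_th] at h3
    simp only [Polynomial.eval_mul, Polynomial.eval_C, Polynomial.eval_pow, Polynomial.eval_X,
      one_pow, mul_one] at h3
    rw [← h3] at h2
    exact h2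

/-- the scaling of the variables -/
noncomputable def th' : MvPolynomial ι k →ₐ[k] Polynomial (MvPolynomial ι k) :=
  aeval (fun j => Polynomial.C (X j) * Polynomial.X)

theorem coeff_th' (f : MvPolynomial ι k) (n : ℕ) (α : ι →₀ ℕ) :
    coeff α ((th' f).coeff n) = if α.degree = n then coeff α f else 0 := by
  classical
  induction f using MvPolynomial.induction_on' with
  | monomial β c =>
    have h1 : th' (monomial β c) = Polynomial.C (monomial β c) * Polynomial.X ^ β.degree := by
      unfold th'
      have h := aeval_mul_of_homog (fun j : ι => (Polynomial.C (X j : MvPolynomial ι k)))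
        (Polynomial.X : Polynomial (MvPolynomial ι k))
        (isHomogeneous_monomial (σ := ι) (R := k) (d := β) c rfl)
      rw [h]
      congr 1
      have h4 : (Polynomial.CAlgHom (R := k)).comp (AlgHom.id k (MvPolynomial ι k)) =
          aeval (fun j => Polynomial.C (X j)) := by
        apply MvPolynomial.algHom_ext
        intro j
        simp
      rw [← h4]
      rfl
    rw [h1, Polynomial.coeff_C_mul_X_pow]
    by_cases hβ : β = α
    · subst hβ
      by_cases hn : n = β.degree
      · simp [hn]
      · simp [hn, Ne.symm hn]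
    · split_ifs <;> simp [coeff_monomial, hβ]
  | add p q hp hq =>
    rw [map_add, Polynomial.coeff_add, coeff_add, hp, hq, coeff_add]
    split_ifs <;> simp

theorem homog_of_th' {f : MvPolynomial ι k} {e : ℕ}
    (h : th' f = Polynomial.C f * Polynomial.X ^ e) : f.IsHomogeneous e := by
  intro α hα
  have h1 := coeff_th' f e α
  rw [h, Polynomial.coeff_C_mul_X_pow, if_pos rfl] at h1
  have h2 : α.degree = e := by
    by_contra hc
    rw [if_neg hc] at h1
    exact hα h1
  rw [Finsupp.degree_eq_weight_one] at h2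
  exact h2

theorem th'_ev {lam : ι → k} (b : κ → k) (c : κ → Option ι) {g : MvPolynomial (κ ⊕ κ) k} {e : ℕ}
    (hg : th g = Polynomial.C g * Polynomial.X ^ e) :
    (ev b (ww lam c) g).IsHomogeneous e := by
  apply homog_of_th'
  have key : (th'.comp (ev b (ww lam c))) =
      (Polynomial.mapAlgHom (ev b (ww lam c))).comp th := by
    apply MvPolynomial.algHom_ext
    rintro (i | i)
    · simp [ev, th]
    · have h0 : (ev b (ww lam c)) (X (Sum.inr i)) = ww lam c i := by
        simp [ev]
      have h2 : (Polynomial.mapAlgHom (ev b (ww lam c))) (th (X (Sum.inr i))) =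
          Polynomial.C (ww lam c i) * Polynomial.X := by
        rw [th, aeval_X, Sum.elim_inr, map_mul, Polynomial.coe_mapAlgHom, Polynomial.map_C,
          Polynomial.map_X]
        simp only [RingHom.coe_coe, h0]
      rw [AlgHom.comp_apply, AlgHom.comp_apply, h0, h2]
      rcases hci : c i with _ | j
      · simp [ww, hci]
      · have h1 : th' (C (lam j) : MvPolynomial ι k) = Polynomial.C (C (lam j)) := by
          rw [← algebraMap_eq, AlgHom.commutes]
          rfl
        simp only [ww, hci, Option.elim_some, map_mul, h1]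
        rw [th', aeval_X, mul_assoc]
  have h1 := AlgHom.congr_fun key g
  rw [AlgHom.comp_apply, AlgHom.comp_apply, hg] at h1
  rw [h1]
  simp

end hom

section good

variable [DecidableEq κ]

/-- the divisors which come from forms -/
structure Good (e : ℕ) (g : MvPolynomial (κ ⊕ κ) k) : Prop where
  inv : ∀ τ : Equiv.Perm κ, ren τ g = g
  loc : ∀ i : κ, Sum.inl i ∉ (kill {i} g).vars
  hom : th g = Polynomial.C g * Polynomial.X ^ e

theorem Good.indep {e : ℕ} {g : MvPolynomial (κ ⊕ κ) k} (hg : Good e g) [Fintype κ]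
    (b b' : κ → k) (w : κ → MvPolynomial ι k) (h : ∀ i, w i ≠ 0 → b i = b' i) :
    ev b w g = ev b' w g := by
  have step : ∀ (b₁ b₂ : κ → k) (i : κ), w i = 0 → (∀ i', i' ≠ i → b₁ i' = b₂ i') →
      ev b₁ w g = ev b₂ w g := by
    intro b₁ b₂ i hi hb
    rw [← ev_kill b₁ w {i} (by simpa using hi), ← ev_kill b₂ w {i} (by simpa using hi)]
    have h1 : (ev b₁ w).toRingHom (kill {i} g) = (ev b₂ w).toRingHom (kill {i} g) := by
      apply hom_congr_vars
      · ext c
        simp [ev]
      · rintro (i' | i') hi' _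
        · have hne : i' ≠ i := by
            intro h
            rw [h] at hi'
            exact hg.loc i hi'
          simp [ev, hb i' hne]
        · simp [ev]
      · rfl
    exact h1
  have main : ∀ S : Finset κ, (∀ i ∈ S, w i = 0) →
      ev (fun i => if i ∈ S then b' i else b i) w g = ev b w g := by
    intro S
    induction S using Finset.induction_on with
    | empty => intro _; simp
    | insert i0 S hi0 ih =>
      intro hS
      rw [← ih (fun i hi => hS i (Finset.mem_insert_of_mem hi))]
      apply step _ _ i0 (hS i0 (Finset.mem_insert_self _ _))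
      intro i' hi'
      simp [hi']
  classical
  rw [← main (Finset.univ.filter fun i => w i = 0) (by simp)]
  congr 2
  funext i
  by_cases hi : w i = 0
  · simp [hi]
  · simp [hi, h i hi]

omit [DecidableEq κ] in
theorem exists_perm {c c' : κ → Option ι} {T : Finset ι} (hc : IsPI c T) (hc' : IsPI c' T)
    [Fintype κ] : ∃ τ : Equiv.Perm κ, ∀ i, c' (τ i) = c i := by
  classical
  have h1 : ∀ x : {i // c i ≠ none}, ∃ y : {i // c' i ≠ none}, c' y = c x := by
    rintro ⟨i, hi⟩
    obtain ⟨j, hj⟩ := Option.ne_none_iff_exists'.mp hi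
    obtain ⟨i', hi'⟩ := (hc'.im j).mp ((hc.im j).mpr ⟨i, hj⟩)
    exact ⟨⟨i', by simp [hi']⟩, by simp [hi', hj]⟩
  choose F hF using h1
  have hbij : Function.Bijective F := by
    constructor
    · rintro ⟨x, hx⟩ ⟨y, hy⟩ hxy
      have e1 := hF ⟨x, hx⟩
      have e2 := hF ⟨y, hy⟩
      rw [hxy, e2] at e1
      obtain ⟨j, hj⟩ := Option.ne_none_iff_exists'.mp hx
      apply Subtype.ext
      simp only at e1
      exact hc.inj x y j hj (e1.trans hj)
    · rintro ⟨y, hy⟩
      obtain ⟨j, hj⟩ := Option.ne_none_iff_exists'.mp hy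
      obtain ⟨i, hi⟩ := (hc.im j).mp ((hc'.im j).mpr ⟨y, hj⟩)
      refine ⟨⟨i, by simp [hi]⟩, ?_⟩
      apply Subtype.ext
      have e1 := hF ⟨i, by simp [hi]⟩
      exact hc'.inj _ y j (e1.trans hi) hj
  let E := Equiv.ofBijective F hbij
  refine ⟨E.extendSubtype, fun i => ?_⟩
  by_cases hi : c i = none
  · have := E.extendSubtype_not_mem i (by simpa using hi)
    rw [hi]
    simpa using this
  · rw [E.extendSubtype_apply_of_mem i hi]
    exact hF ⟨i, hi⟩

variable [Fintype κ] {a lam : ι → k}

theorem Good.perm {e : ℕ} {g : MvPolynomial (κ ⊕ κ) k} (hg : Good e g) {c c' : κ → Option ι}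
    {T : Finset ι} (hc : IsPI c T) (hc' : IsPI c' T) :
    ev (bb a c) (ww lam c) g = ev (bb a c') (ww lam c') g := by
  obtain ⟨τ, hτ⟩ := exists_perm hc hc'
  conv_rhs => rw [← hg.inv τ, ev_ren]
  congr 2
  · funext i
    simp [bb, hτ i]
  · funext i
    simp [ww, hτ i]

open Classical in
/-- a choice of such an injection -/
noncomputable def cc (κ : Type*) (T : Finset ι) : κ → Option ι :=
  if h : ∃ c : κ → Option ι, IsPI c T then h.choose else fun _ => none

omit [DecidableEq κ] [Fintype κ] in
theorem cc_spec {T : Finset ι} (h : ∃ c : κ → Option ι, IsPI c T) : IsPI (cc κ T) T := by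
  rw [cc, dif_pos h]
  exact h.choose_spec

variable [DecidableEq ι]

/-- the glued form -/
noncomputable def star [Fintype ι] (a lam : ι → k) (e : ℕ) (g : MvPolynomial (κ ⊕ κ) k) :
    MvPolynomial ι k :=
  ∑ α ∈ Finset.finsuppAntidiag Finset.univ e,
    monomial α (coeff α (ev (bb a (cc κ α.support)) (ww lam (cc κ α.support)) g))

omit [DecidableEq κ] [Fintype κ] in
theorem coeff_star [Fintype ι] (e : ℕ) (g : MvPolynomial (κ ⊕ κ) k) (α : ι →₀ ℕ) :
    coeff α (star a lam e g) = if α.degree = e then
      coeff α (ev (bb a (cc κ α.support)) (ww lam (cc κ α.support)) g) else 0 := by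
  unfold star
  rw [coeff_sum]
  have hmem : α ∈ Finset.finsuppAntidiag (Finset.univ : Finset ι) e ↔ α.degree = e := by
    rw [Finset.mem_finsuppAntidiag, Finsupp.degree_eq_sum]
    simp
  split_ifs with h
  · rw [Finset.sum_eq_single α]
    · simp
    · intro β _ hβ
      simp [coeff_monomial, hβ]
    · intro hα
      exact absurd (hmem.mpr h) hα
  · apply Finset.sum_eq_zero
    intro β hβ
    rw [coeff_monomial, if_neg]
    rintro rfl
    exact h (hmem.mp hβ)

omit [DecidableEq κ] [Fintype κ] in
theorem star_homog [Fintype ι] (e : ℕ) (g : MvPolynomial (κ ⊕ κ) k) :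
    (star a lam e g).IsHomogeneous e := by
  intro α hα
  rw [coeff_star] at hα
  have h2 : α.degree = e := by
    by_contra hc
    rw [if_neg hc] at hα
    exact hα rfl
  rw [Finsupp.degree_eq_weight_one] at h2
  exact h2

theorem Good.restrict {e : ℕ} {g : MvPolynomial (κ ⊕ κ) k} (hg : Good e g) {c : κ → Option ι}
    {T U : Finset ι} (hc : IsPI c T) (hU : U ⊆ T) :
    res U (ev (bb a c) (ww lam c) g) = ev (bb a (cc κ U)) (ww lam (cc κ U)) g := by
  classical
  let c' : κ → Option ι := fun i => if ∃ j ∈ U, c i = some j then c i else none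
  have hc' : IsPI c' U := by
    constructor
    · intro i i' j hi hi'
      simp only [c'] at hi hi'
      split_ifs at hi with h1
      split_ifs at hi' with h2
      exact hc.inj i i' j hi hi'
    · intro j
      constructor
      · intro hj
        obtain ⟨i, hi⟩ := (hc.im j).mp (hU hj)
        refine ⟨i, ?_⟩
        simp only [c']
        rw [if_pos ⟨j, hj, hi⟩, hi]
      · rintro ⟨i, hi⟩
        simp only [c'] at hi
        split_ifs at hi with h1
        obtain ⟨j', hj', hij'⟩ := h1
        rw [hi, Option.some_inj] at hij'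
        rw [hij']
        exact hj'
  rw [hg.perm (cc_spec ⟨c', hc'⟩) hc']
  have key : (res U).comp (ev (bb a c) (ww lam c)) = ev (bb a c) (ww lam c') := by
    apply MvPolynomial.algHom_ext
    rintro (i | i)
    · simp only [AlgHom.comp_apply, ev, aeval_X, Sum.elim_inl]
      rw [← algebraMap_eq, AlgHom.commutes]
    · simp only [AlgHom.comp_apply, ev, aeval_X, Sum.elim_inr]
      rcases hci : c i with _ | j
      · simp [ww, c', hci]
      · by_cases hj : j ∈ U
        · simp [ww, c', hci, hj, res]
        · simp [ww, c', hci, hj, res]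
  have h1 := AlgHom.congr_fun key g
  rw [AlgHom.comp_apply] at h1
  rw [h1]
  apply hg.indep
  intro i hi
  simp only [bb, c']
  split_ifs with h
  · rfl
  · exfalso
    apply hi
    simp [ww, c', if_neg h]

theorem Good.star_spec [Fintype ι] {e : ℕ} {g : MvPolynomial (κ ⊕ κ) k} (hg : Good e g)
    {c : κ → Option ι} {T : Finset ι} (hc : IsPI c T) :
    ev (bb a c) (ww lam c) g = res T (star a lam e g) := by
  have hself : res T (ev (bb a c) (ww lam c) g) = ev (bb a c) (ww lam c) g := by
    rw [hg.restrict hc (Finset.Subset.refl T)]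
    exact hg.perm (cc_spec ⟨c, hc⟩) hc
  have hhom := th'_ev (lam := lam) (bb a c) c hg.hom
  ext α
  rw [coeff_res]
  split_ifs with hα
  · rw [coeff_star]
    split_ifs with he
    · rw [← hg.restrict hc hα, coeff_res, if_pos (Finset.Subset.refl _)]
    · by_contra hne
      apply he
      have := hhom hne
      rwa [Finsupp.degree_eq_weight_one]
  · rw [← hself, coeff_res, if_neg hα]

omit [DecidableEq ι] in
theorem card_support_le {α : ι →₀ ℕ} {p : ℕ} (h : α.degree = p) : α.support.card ≤ p := by
  rw [← h, Finsupp.degree]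
  calc α.support.card = ∑ i ∈ α.support, 1 := by simp
    _ ≤ _ := Finset.sum_le_sum fun i hi => Nat.one_le_iff_ne_zero.mpr (Finsupp.mem_support_iff.mp hi)

variable {l : ι → Polynomial k}

theorem star_mul [Fintype ι] (hl0 : ∀ j t, j ≠ t → (l j).eval (a t) = 0)
    (hlam : ∀ j, lam j * (l j).eval (a j) = 1) {e e' p : ℕ} {g h : MvPolynomial (κ ⊕ κ) k}
    (hg : Good e g) (hh : Good e' h) {P : MvPolynomial ι k} (hP : P.IsHomogeneous p)
    (he : e + e' = p) (hp : p ≤ Fintype.card κ) (hgh : g * h = gen κ l P) :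
    star a lam e g * star a lam e' h = P := by
  have hom : (star a lam e g * star a lam e' h).IsHomogeneous p := by
    rw [← he]
    exact (star_homog e g).mul (star_homog e' h)
  ext α
  by_cases hα : α.degree = p
  · obtain ⟨c, hc, -⟩ := exists_pi (κ := κ) ∅ α.support (by
      have := card_support_le hα
      simp only [Finset.card_empty]
      omega)
    have h1 := congrArg (ev (bb a c) (ww lam c)) hgh
    rw [map_mul, hg.star_spec hc, hh.star_spec hc, ev_gen hl0 hlam hc, ← map_mul] at h1
    have h2 := congrArg (coeff α) h1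
    rwa [coeff_res, coeff_res, if_pos (Finset.Subset.refl _), if_pos (Finset.Subset.refl _)] at h2
  · rw [hom.coeff_eq_zero (by rwa [ne_eq]), hP.coeff_eq_zero (by rwa [ne_eq])]

theorem good_of_mul (hl0 : ∀ j t, j ≠ t → (l j).eval (a t) = 0)
    (hlam : ∀ j, lam j * (l j).eval (a j) = 1) {p : ℕ} {P : MvPolynomial ι k}
    (hP : P.IsHomogeneous p) (hP0 : P ≠ 0) (hp : p + 2 ≤ Fintype.card κ)
    {g h : MvPolynomial (κ ⊕ κ) k} (hgh : g * h = gen κ l P)
    (hinv : ∀ τ : Equiv.Perm κ, ren τ g = g) :
    ∃ e e', e + e' = p ∧ Good e g ∧ Good e' h := by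
  have hk : ∀ A : Finset κ, A.card ≤ 2 → kill A (gen κ l P) ≠ 0 := fun A hA =>
    kill_gen_ne hl0 hlam A hP hP0 (by omega)
  have hne : gen κ l P ≠ 0 := by
    intro h0
    exact hk ∅ (by simp) (by rw [h0, map_zero])
  have hg0 : g ≠ 0 := by
    rintro rfl
    exact hne (by rw [← hgh, zero_mul])
  obtain ⟨e, e', he, h1, h2⟩ := th_factor hne hgh (th_gen hP)
  have loc : ∀ f : MvPolynomial (κ ⊕ κ) k, f ∣ gen κ l P → ∀ i : κ,
      Sum.inl i ∉ (kill {i} f).vars := fun f hf i =>
    not_mem_vars_of_dvd (hk {i} (by simp)) (map_dvd (kill {i}) hf)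
      (kill_gen_vars {i} (Finset.mem_singleton_self i) P).1
  refine ⟨e, e', he, ⟨hinv, loc g ⟨h, hgh.symm⟩, h1⟩, ⟨?_, loc h ⟨g, ?_⟩, h2⟩⟩
  · intro τ
    apply mul_left_cancel₀ hg0
    have := ren_gen (l := l) τ P
    rw [← hgh, map_mul, hinv τ] at this
    exact this
  · rw [mul_comm, hgh]

/-- The gluing theorem, general nodes. -/
theorem relPrime_gen [Fintype ι] (hl0 : ∀ j t, j ≠ t → (l j).eval (a t) = 0)
    (hl1 : ∀ j, (l j).eval (a j) ≠ 0) {p q : ℕ} {P Q : MvPolynomial ι k}
    (hP : P.IsHomogeneous p) (hQ : Q.IsHomogeneous q) (hP0 : P ≠ 0) (hQ0 : Q ≠ 0)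
    (hp : p + 2 ≤ Fintype.card κ) (hq : q + 2 ≤ Fintype.card κ) (hPQ : IsRelPrime P Q) :
    IsRelPrime (gen κ l P) (gen κ l Q) := by
  let lam : ι → k := fun j => ((l j).eval (a j))⁻¹
  have hlam : ∀ j, lam j * (l j).eval (a j) = 1 := fun j => inv_mul_cancel₀ (hl1 j)
  have hkP : ∀ A : Finset κ, A.card ≤ 2 → kill A (gen κ l P) ≠ 0 := fun A hA =>
    kill_gen_ne hl0 hlam A hP hP0 (by omega)
  let _ : GCDMonoid (MvPolynomial (κ ⊕ κ) k) := UniqueFactorizationMonoid.toGCDMonoid _
  set g : MvPolynomial (κ ⊕ κ) k := gcd (gen κ l P) (gen κ l Q) with hgdef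
  have hgP : g ∣ gen κ l P := gcd_dvd_left _ _
  have hgQ : g ∣ gen κ l Q := gcd_dvd_right _ _
  have hdvd : ∀ τ : Equiv.Perm κ, ren τ g ∣ g := by
    intro τ
    apply dvd_gcd
    · have := map_dvd (ren (k := k) τ) hgP
      rwa [ren_gen] at this
    · have := map_dvd (ren (k := k) τ) hgQ
      rwa [ren_gen] at this
  have hinv : ∀ τ : Equiv.Perm κ, ren τ g = g := by
    apply inv_of hdvd
    intro x y
    have hcard : ({x, y} : Finset κ).card ≤ 2 := Finset.card_le_two
    have hd : kill {x, y} g ∣ kill {x, y} (gen κ l P) := map_dvd (kill (k := k) {x, y}) hgP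
    refine ⟨?_, fun i hi => ⟨?_, ?_⟩⟩
    · intro h0
      rw [h0, zero_dvd_iff] at hd
      exact hkP _ hcard hd
    · exact not_mem_vars_of_dvd (hkP _ hcard) hd (kill_gen_vars _ hi P).1
    · exact not_mem_vars_of_dvd (hkP _ hcard) hd (kill_gen_vars _ hi P).2
  obtain ⟨hP', hP'eq⟩ := hgP
  obtain ⟨hQ', hQ'eq⟩ := hgQ
  obtain ⟨e, e', he, hge, hhe⟩ := good_of_mul hl0 hlam hP hP0 hp hP'eq.symm hinv
  obtain ⟨f, f', hf, hgf, hhf⟩ := good_of_mul hl0 hlam hQ hQ0 hq hQ'eq.symm hinv
  have hne : gen κ l P ≠ 0 := by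
    intro h0
    exact hkP ∅ (by simp) (by rw [h0, map_zero])
  have hg0 : g ≠ 0 := by
    intro h0
    rw [h0, zero_mul] at hP'eq
    exact hne hP'eq
  have hef : e = f := by
    have h1 := hge.hom
    rw [hgf.hom] at h1
    have h2 := congrArg Polynomial.natDegree h1
    rw [Polynomial.natDegree_C_mul_X_pow _ _ hg0, Polynomial.natDegree_C_mul_X_pow _ _ hg0] at h2
    exact h2.symm
  subst hef
  have hsP := star_mul hl0 hlam hge hhe hP he (by omega) hP'eq.symm
  have hsQ := star_mul hl0 hlam hgf hhf hQ hf (by omega) hQ'eq.symm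
  have hunit : IsUnit (star a lam e g) := hPQ ⟨_, hsP.symm⟩ ⟨_, hsQ.symm⟩
  obtain ⟨r, hr, hstar⟩ := isUnit_iff_eq_C_of_isReduced.mp hunit
  have he0 : e = 0 := by
    have h1 := star_homog (a := a) (lam := lam) e g
    rw [hstar] at h1
    have h2 : coeff 0 (C r : MvPolynomial ι k) ≠ 0 := by
      rw [coeff_C, if_pos rfl]
      exact hr.ne_zero
    have h3 := h1 h2
    simpa using h3.symm
  subst he0
  -- `g` does not involve the `z`
  have hkill : kill Finset.univ g = g := by
    have key : ((Polynomial.aeval (0 : MvPolynomial (κ ⊕ κ) k)).restrictScalars k).comp th =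
        kill (k := k) (Finset.univ : Finset κ) := by
      apply MvPolynomial.algHom_ext
      rintro (i | i) <;> simp [th, kill]
    rw [← key, AlgHom.comp_apply, hge.hom]
    simp
  have hkill2 : ∀ i : κ, kill {i} g = g := by
    intro i
    have key : (kill (k := k) {i}).comp (kill Finset.univ) = kill (Finset.univ : Finset κ) := by
      apply MvPolynomial.algHom_ext
      rintro (i' | i') <;> simp [kill]
    have h1 := AlgHom.congr_fun key g
    rw [AlgHom.comp_apply, hkill] at h1
    exact h1
  have hvars : g.vars = ∅ := by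
    apply Finset.eq_empty_of_forall_notMem
    rintro (i | i) hi
    · have := hge.loc i
      rw [hkill2] at this
      exact this hi
    · have h1 := kill_gen_vars (l := l) {i} (Finset.mem_singleton_self i) P
      have h2 : g ∣ kill {i} (gen κ l P) := by
        have := map_dvd (kill (k := k) {i}) (⟨hP', hP'eq⟩ : g ∣ gen κ l P)
        rwa [hkill2] at this
      exact not_mem_vars_of_dvd (hkP _ (by simp)) h2 h1.2 hi
  have hgC : g = C (coeff 0 g) := by
    have : g ∈ supported k (∅ : Set (κ ⊕ κ)) := by
      rw [mem_supported, hvars]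
      simp
    rw [supported_empty, Algebra.mem_bot] at this
    obtain ⟨r', hr'⟩ := this
    rw [← hr', algebraMap_eq, coeff_C, if_pos rfl]
  intro d hdP hdQ
  have hdg : d ∣ g := dvd_gcd hdP hdQ
  refine isUnit_of_dvd_unit hdg ?_
  rw [hgC]
  apply IsUnit.map C
  rw [isUnit_iff_ne_zero]
  intro h0
  rw [h0, C_0] at hgC
  exact hg0 hgC

/-- nonzero forms stay nonzero -/
theorem gen_ne_zero (hl0 : ∀ j t, j ≠ t → (l j).eval (a t) = 0)
    (hl1 : ∀ j, (l j).eval (a j) ≠ 0) {p : ℕ} {P : MvPolynomial ι k} (hP : P.IsHomogeneous p)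
    (hP0 : P ≠ 0) (hp : p ≤ Fintype.card κ) : gen κ l P ≠ 0 := by
  let lam : ι → k := fun j => ((l j).eval (a j))⁻¹
  have hlam : ∀ j, lam j * (l j).eval (a j) = 1 := fun j => inv_mul_cancel₀ (hl1 j)
  intro h0
  exact kill_gen_ne hl0 hlam (∅ : Finset κ) hP hP0 (by simpa using hp) (by rw [h0, map_zero])

end good

end Pool.Agent.Lib.MP_64d474_lc.S3.Glue31
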