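import Pool.Agent.Lib.MP_64d474_lc.S3.Defs69
import Pool.Agent.Lib.MP_64d474_lc.S3.A92

/-!
Row A (gluing) in the form of `Defs69`; `s ≥ d + 1` seeds are enough.
-/

namespace Pool.Agent.Lib.MP_64d474_lc.S3

open MvPolynomial

universe u

/-- the Lagrange-like polynomials of the nodes `0, …, m - 1` -/
noncomputable def lag92 (F : Type u) [Field F] (m : ℕ) (k : Fin m) : Polynomial F :=
  ∏ j ∈ Finset.univ.erase k, (Polynomial.X - Polynomial.C ((j : ℕ) : F))

theorem nodes92 (F : Type u) [Field F] [CharZero F] (m : ℕ) :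
    A92.Nodes (lag92 F m) (fun k : Fin m => ((k : ℕ) : F)) := by
  constructor
  · intro j k hjk
    unfold lag92
    rw [Polynomial.eval_prod]
    apply Finset.prod_eq_zero (Finset.mem_erase.mpr ⟨hjk, Finset.mem_univ j⟩)
    simp
  · intro k
    unfold lag92
    rw [Polynomial.eval_prod]
    apply Finset.prod_ne_zero_iff.mpr
    intro j hj
    rw [Polynomial.eval_sub, Polynomial.eval_X, Polynomial.eval_C, sub_ne_zero]
    intro h
    have h1 : (k : ℕ) = (j : ℕ) := by exact_mod_cast h
    exact (Finset.mem_erase.mp hj).1 (Fin.ext h1.symm)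

theorem gen_eq92 (F : Type u) [Field F] (m s : ℕ) :
    gen F m s = A92.gen (Fin s) (lag92 F m) := by
  apply MvPolynomial.algHom_ext
  intro k
  simp only [gen, A92.gen, aeval_X, genX, A92.gpt]
  refine Finset.sum_congr rfl fun i _ => ?_
  congr 1
  unfold lag92
  rw [map_prod]
  refine Finset.prod_congr rfl fun j _ => ?_
  rw [map_sub, Polynomial.aeval_X, Polynomial.aeval_C]
  rfl

/-- Row A with `s ≥ d + 1` seeds -/
theorem glue92 (F : Type u) [Field F] [CharZero F] (m d s : ℕ) (hs : d + 1 ≤ s) :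
    (∀ (k : ℕ) (P : MvPolynomial (Fin m) F), k ≤ d → P.IsHomogeneous k → P ≠ 0 →
      gen F m s P ≠ 0) ∧
    ∀ (k l : ℕ) (P Q : MvPolynomial (Fin m) F), k ≤ d → l ≤ d → P.IsHomogeneous k →
      Q.IsHomogeneous l → P ≠ 0 → Q ≠ 0 → IsRelPrime P Q →
      IsRelPrime (gen F m s P) (gen F m s Q) := by
  haveI : Nonempty (Fin s) := ⟨⟨0, by omega⟩⟩
  constructor
  · intro k P hk hP hP0
    rw [gen_eq92]
    apply A92.gen_ne_zero (nodes92 F m) hP0
    intro b hb
    rw [Fintype.card_fin]
    have h1 : b.degree = k := by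
      by_contra hbn
      exact mem_support_iff.mp hb (hP.coeff_eq_zero hbn)
    have := A92.card_support_le h1
    omega
  · intro k l P Q hk hl hP hQ hP0 hQ0 hPQ
    rw [gen_eq92]
    exact A92.relPrime_gen (nodes92 F m) hP0 hQ0 hk hl hP hQ
      (by rw [Fintype.card_fin]; omega) hPQ

theorem stGlue : StGlue.{u} := by
  intro F _ _ m d s hs
  exact glue92 F m d s (by omega)

end Pool.Agent.Lib.MP_64d474_lc.S3
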