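import Mathlib

/-!
# Row A: the generator preserves coprimality of forms of low degree

`gen α s P` is `P` at the point `∑ i, z i * lag k (y i)`.  If `P`, `Q` are relatively prime forms
of degree at most `d` and `d + 2 ≤ s`, then `gen α s P`, `gen α s Q` are relatively prime.
-/

set_option autoImplicit false

open MvPolynomial Finset

namespace Pool.Agent.Lib.MP_64d474_lc.S3.Glue99

section Hom

variable {σ R : Type*} [CommRing R]

/-- `z ↦ t z` -/
noncomputable def scl (σ R : Type*) [CommRing R] :
    MvPolynomial σ R →+* Polynomial (MvPolynomial σ R) :=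
  eval₂Hom (Polynomial.C.comp C) (fun i => Polynomial.C (X i) * Polynomial.X)

theorem scl_monomial (v : σ →₀ ℕ) (r : R) :
    scl σ R (monomial v r) = Polynomial.monomial v.degree (monomial v r) := by
  rw [scl, coe_eval₂Hom, eval₂_monomial]
  simp only [mul_pow]
  rw [Finsupp.prod_mul, ← Polynomial.C_mul_X_pow_eq_monomial, monomial_eq, map_mul,
    RingHom.comp_apply, mul_assoc]
  congr 1
  have h1 : (v.prod fun a b => (Polynomial.C (X a : MvPolynomial σ R)) ^ b)
      = Polynomial.C (v.prod fun a b => (X a : MvPolynomial σ R) ^ b) := by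
    simp only [Finsupp.prod, map_prod, map_pow]
  have h2 : (v.prod fun _ b => (Polynomial.X : Polynomial (MvPolynomial σ R)) ^ b)
      = Polynomial.X ^ v.degree := by
    rw [Finsupp.prod, Finset.prod_pow_eq_pow_sum]
    rfl
  rw [h1, h2]

theorem coeff_scl (v : σ →₀ ℕ) (j : ℕ) (f : MvPolynomial σ R) :
    coeff v ((scl σ R f).coeff j) = if v.degree = j then coeff v f else 0 := by
  classical
  induction f using MvPolynomial.induction_on' with
  | monomial u a =>
    rw [scl_monomial, Polynomial.coeff_monomial]
    by_cases h : u = v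
    · subst h
      split_ifs <;> simp_all
    · split_ifs <;> simp [coeff_monomial, h]
  | add p q hp hq =>
    rw [map_add, Polynomial.coeff_add, coeff_add, hp, hq, coeff_add]
    split_ifs <;> simp

theorem scl_of_hom {f : MvPolynomial σ R} {n : ℕ} (h : f.IsHomogeneous n) :
    scl σ R f = Polynomial.monomial n f := by
  classical
  ext j v
  rw [coeff_scl, Polynomial.coeff_monomial]
  by_cases hf : coeff v f = 0
  · rw [hf]
    split_ifs <;> simp [hf]
  · have h2 : v.degree = n := by
      by_contra hn
      exact hf (h.coeff_eq_zero hn)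
    rw [h2]
    split_ifs <;> simp_all

theorem hom_of_mul [IsDomain R] {a b : MvPolynomial σ R} {n : ℕ} (h : (a * b).IsHomogeneous n)
    (h0 : a * b ≠ 0) : ∃ e, a.IsHomogeneous e := by
  classical
  have h1 := scl_of_hom h
  have hne : scl σ R (a * b) ≠ 0 := by
    rw [h1]
    simpa using h0
  rw [map_mul] at h1 hne
  have ha : scl σ R a ≠ 0 := left_ne_zero_of_mul hne
  have hb : scl σ R b ≠ 0 := right_ne_zero_of_mul hne
  have d1 : (scl σ R a).natDegree + (scl σ R b).natDegree = n := by
    rw [← Polynomial.natDegree_mul ha hb, h1, Polynomial.natDegree_monomial, if_neg h0]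
  have d2 : (scl σ R a).natTrailingDegree + (scl σ R b).natTrailingDegree = n := by
    rw [← Polynomial.natTrailingDegree_mul ha hb, h1, Polynomial.natTrailingDegree_monomial h0]
  have d3 := Polynomial.natTrailingDegree_le_natDegree (scl σ R a)
  have d4 := Polynomial.natTrailingDegree_le_natDegree (scl σ R b)
  refine ⟨(scl σ R a).natDegree, ?_⟩
  intro v hv
  have hc : (scl σ R a).coeff v.degree ≠ 0 := by
    intro h3
    have h4 := coeff_scl v v.degree a
    rw [h3, if_pos rfl] at h4
    exact hv (by simpa using h4.symm)
  have d5 := Polynomial.le_natDegree_of_ne_zero hc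
  have d6 := Polynomial.natTrailingDegree_le_of_ne_zero hc
  have h5 : v.degree = (scl σ R a).natDegree := by omega
  rw [← h5, Finsupp.degree_eq_weight_one]
  rfl

end Hom

variable {F : Type*} [Field F] {ι : Type*} [Fintype ι] [DecidableEq ι] {s : ℕ}

/-- the coefficient ring `F[y]` -/
abbrev Yr (F : Type*) [Field F] (s : ℕ) := MvPolynomial (Fin s) F

/-- `F[y][z]` -/
abbrev Zr (F : Type*) [Field F] (s : ℕ) := MvPolynomial (Fin s) (MvPolynomial (Fin s) F)

/-- `∏_{j ≠ k} (y - α j)` -/
noncomputable def lag {A : Type*} [CommRing A] [Algebra F A] (α : ι → F) (k : ι) (y : A) : A :=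
  ∏ j ∈ univ.erase k, (y - algebraMap F A (α j))

theorem map_lag {A B : Type*} [CommRing A] [Algebra F A] [CommRing B] [Algebra F B]
    (f : A →+* B) (hf : ∀ a : F, f (algebraMap F A a) = algebraMap F B a) (α : ι → F) (k : ι)
    (y : A) : f (lag α k y) = lag α k (f y) := by
  simp [lag, map_prod, hf]

theorem lag_ne (α : ι → F) {j k : ι} (h : j ≠ k) : lag α j (α k) = 0 := by
  rw [lag]
  apply Finset.prod_eq_zero (i := k)
  · simp [h.symm]
  · simp

theorem lag_self (α : ι → F) (hα : Function.Injective α) (k : ι) : lag α k (α k) ≠ 0 := by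
  rw [lag, Finset.prod_ne_zero_iff]
  intro j hj
  simp only [mem_erase, mem_univ, and_true] at hj
  simp only [Algebra.algebraMap_self, RingHom.id_apply, ne_eq, sub_eq_zero]
  intro h
  exact hj (hα h.symm)

/-- the generator `X k ↦ ∑ i, z i * lag k (y i)` -/
noncomputable def gen (α : ι → F) (s : ℕ) : MvPolynomial ι F →ₐ[F] Zr F s :=
  aeval fun k => ∑ i : Fin s, C (lag α k (X i)) * X i

theorem gen_X (α : ι → F) (k : ι) :
    gen α s (X k) = ∑ i : Fin s, C (lag α k (X i)) * X i := by
  simp [gen]

theorem gen_C (α : ι → F) (a : F) : gen α s (C a) = C (C a) :=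
  (gen α s).commutes a

theorem gen_hom (α : ι → F) {P : MvPolynomial ι F} {p : ℕ} (h : P.IsHomogeneous p) :
    (gen α s P).IsHomogeneous p := by
  have h1 := h.aeval (S := Yr F s) (fun k => ∑ i : Fin s, C (lag α k (X i)) * X i) (n := 1)
    (by
      intro k
      apply IsHomogeneous.sum
      intro i _
      exact (isHomogeneous_X _ i).C_mul _)
  rw [one_mul] at h1
  exact h1

/-- the specialisation `y i = α (κ i)`, `z i = X (κ i) / lag`, `z i = 0` outside `I` -/
noncomputable def spec (α : ι → F) (I : Finset (Fin s)) (κ : Fin s → ι) :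
    Zr F s →+* MvPolynomial ι F :=
  eval₂Hom ((C : F →+* MvPolynomial ι F).comp (eval fun i => α (κ i)))
    (fun i => if i ∈ I then C (lag α (κ i) (α (κ i)))⁻¹ * X (κ i) else 0)

theorem spec_C (α : ι → F) (I : Finset (Fin s)) (κ : Fin s → ι) (r : Yr F s) :
    spec α I κ (C r) = C (eval (fun i => α (κ i)) r) := by
  simp [spec]

theorem spec_X (α : ι → F) (I : Finset (Fin s)) (κ : Fin s → ι) (i : Fin s) :
    spec α I κ (X i) = if i ∈ I then C (lag α (κ i) (α (κ i)))⁻¹ * X (κ i) else 0 := by
  simp [spec]

/-- the restriction to a coordinate subspace -/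
noncomputable def res (T : Finset ι) : MvPolynomial ι F →ₐ[F] MvPolynomial ι F :=
  aeval fun k => if k ∈ T then X k else 0

theorem spec_gen (α : ι → F) (hα : Function.Injective α) (I : Finset (Fin s)) (κ : Fin s → ι)
    (hκ : Set.InjOn κ I) (P : MvPolynomial ι F) :
    spec α I κ (gen α s P) = res (I.image κ) P := by
  have : (spec α I κ).comp (gen α s).toRingHom = (res (I.image κ)).toRingHom := by
    apply MvPolynomial.ringHom_ext
    · intro r
      have h1 : spec α I κ (gen α s (C r)) = res (I.image κ) (C r) := by
        rw [gen_C, spec_C, eval_C, res, algHom_C, algebraMap_eq]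
      exact h1
    · intro k
      change spec α I κ (gen α s (X k)) = res (I.image κ) (X k)
      simp only [gen_X, map_sum, map_mul, spec_C, spec_X, res, aeval_X]
      have h1 : ∀ i : Fin s, (eval fun i => α (κ i)) (lag α k (X i)) = lag α k (α (κ i)) := by
        intro i
        rw [map_lag (B := F) (eval fun i => α (κ i)) (by intro a; simp [algebraMap_eq])]
        simp
      simp only [h1]
      by_cases hk : k ∈ I.image κ
      · rw [if_pos hk]
        rw [mem_image] at hk
        obtain ⟨i0, hi0, rfl⟩ := hk
        rw [Finset.sum_eq_single i0]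
        · rw [if_pos hi0, ← mul_assoc, ← C_mul, mul_inv_cancel₀ (lag_self α hα _), C_1, one_mul]
        · intro i _ hne
          by_cases hi : i ∈ I
          · rw [lag_ne α, C_0, zero_mul]
            intro h
            exact hne (hκ hi hi0 h.symm)
          · simp [hi]
        · simp
      · rw [if_neg hk]
        apply Finset.sum_eq_zero
        intro i _
        by_cases hi : i ∈ I
        · rw [lag_ne α, C_0, zero_mul]
          rintro rfl
          exact hk (mem_image_of_mem _ hi)
        · simp [hi]
  exact congrArg (fun f => f P) this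

theorem coeff_res (T : Finset ι) (P : MvPolynomial ι F) (u : ι →₀ ℕ) (hu : u.support ⊆ T) :
    coeff u (res T P) = coeff u P := by
  induction P using MvPolynomial.induction_on' with
  | monomial w a =>
    rw [res, aeval_monomial, algebraMap_eq]
    by_cases hw : w.support ⊆ T
    · have : (w.prod fun i k => (if i ∈ T then X i else 0 : MvPolynomial ι F) ^ k)
          = w.prod fun i k => X i ^ k := by
        apply Finsupp.prod_congr
        intro i hi
        rw [if_pos (hw hi)]
      rw [this, ← monomial_eq]
    · have h1 : (w.prod fun i k => (if i ∈ T then X i else 0 : MvPolynomial ι F) ^ k) = 0 := by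
        rw [not_subset] at hw
        obtain ⟨i, hi, hiT⟩ := hw
        rw [Finsupp.prod]
        apply Finset.prod_eq_zero hi
        rw [if_neg hiT, zero_pow]
        exact Finsupp.mem_support_iff.mp hi
      rw [h1, mul_zero, coeff_zero, coeff_monomial, if_neg]
      rintro rfl
      exact hw hu
  | add p q hp hq => rw [map_add, coeff_add, coeff_add, hp, hq]

theorem coeff_spec (α : ι → F) (I : Finset (Fin s)) (κ : Fin s → ι) (hκ : Set.InjOn κ I)
    (g : Zr F s) (v : Fin s →₀ ℕ) (hv : v.support ⊆ I) :
    coeff (v.mapDomain κ) (spec α I κ g) = (eval fun i => α (κ i)) (coeff v g)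
      * (v.mapDomain κ).prod fun k n => (lag α k (α k))⁻¹ ^ n := by
  induction g using MvPolynomial.induction_on' with
  | monomial w a =>
    rw [spec, coe_eval₂Hom, eval₂_monomial]
    by_cases hw : w.support ⊆ I
    · have h1 : (w.prod fun i k => (if i ∈ I then C (lag α (κ i) (α (κ i)))⁻¹ * X (κ i) else 0 :
          MvPolynomial ι F) ^ k) = monomial (w.mapDomain κ)
            ((w.mapDomain κ).prod fun k n => (lag α k (α k))⁻¹ ^ n) := by
        rw [Finsupp.prod_mapDomain_index (by simp) (by intros; rw [pow_add]), monomial_eq,
          Finsupp.prod_mapDomain_index (by simp) (by intros; rw [pow_add])]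
        have h2 : (w.prod fun i k => (if i ∈ I then C (lag α (κ i) (α (κ i)))⁻¹ * X (κ i) else 0 :
          MvPolynomial ι F) ^ k) = w.prod fun i k =>
            (C ((lag α (κ i) (α (κ i)))⁻¹ ^ k) : MvPolynomial ι F) * X (κ i) ^ k := by
          apply Finsupp.prod_congr
          intro i hi
          rw [if_pos (hw hi), mul_pow, C_pow]
        rw [h2, Finsupp.prod_mul]
        congr 1
        simp only [Finsupp.prod, map_prod]
      rw [h1, RingHom.comp_apply, C_mul_monomial, coeff_monomial, coeff_monomial]
      by_cases hwv : w = v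
      · subst hwv
        rw [if_pos rfl, if_pos rfl]
      · rw [if_neg, if_neg hwv, map_zero, zero_mul]
        intro h
        exact hwv (Finsupp.mapDomain_injOn (I : Set (Fin s)) hκ (by exact_mod_cast hw)
          (by exact_mod_cast hv) h)
    · have h1 : (w.prod fun i k => (if i ∈ I then C (lag α (κ i) (α (κ i)))⁻¹ * X (κ i) else 0 :
          MvPolynomial ι F) ^ k) = 0 := by
        rw [not_subset] at hw
        obtain ⟨i, hi, hiT⟩ := hw
        rw [Finsupp.prod]
        apply Finset.prod_eq_zero hi
        rw [if_neg hiT, zero_pow]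
        exact Finsupp.mem_support_iff.mp hi
      rw [h1, mul_zero, coeff_zero, coeff_monomial, if_neg, map_zero, zero_mul]
      rintro rfl
      exact hw hv
  | add p q hp hq => rw [map_add, coeff_add, coeff_add, hp, hq, map_add, add_mul]

/-- `z i = 0` -/
noncomputable def kill (F : Type*) [Field F] (s : ℕ) (i : Fin s) : Zr F s →ₐ[Yr F s] Zr F s :=
  aeval fun j => if j = i then 0 else X j

theorem coeff_kill (i : Fin s) (f : Zr F s) (v : Fin s →₀ ℕ) :
    coeff v (kill F s i f) = if v i = 0 then coeff v f else 0 := by
  induction f using MvPolynomial.induction_on' with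
  | monomial w a =>
    rw [kill, aeval_monomial, algebraMap_eq]
    by_cases hw : w i = 0
    · have : (w.prod fun j k => (if j = i then 0 else X j : Zr F s) ^ k)
          = w.prod fun j k => X j ^ k := by
        apply Finsupp.prod_congr
        intro j hj
        rw [if_neg]
        rintro rfl
        exact (Finsupp.mem_support_iff.mp hj) hw
      rw [this, ← monomial_eq, coeff_monomial]
      split_ifs with h1 h2 h2
      · rfl
      · subst h1
        exact absurd hw h2
      · rfl
      · rfl
    · have h1 : (w.prod fun j k => (if j = i then 0 else X j : Zr F s) ^ k) = 0 := by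
        rw [Finsupp.prod]
        apply Finset.prod_eq_zero (Finsupp.mem_support_iff.mpr hw)
        rw [if_pos rfl, zero_pow hw]
      rw [h1, mul_zero, coeff_zero, coeff_monomial]
      split_ifs with h2 h3
      · subst h3
        exact absurd h2 hw
      · rfl
      · rfl
  | add p q hp hq =>
    rw [map_add, coeff_add, coeff_add, hp, hq]
    split_ifs <;> simp

/-- the permutation of the seeds -/
noncomputable def sym (F : Type*) [Field F] {s : ℕ} (π : Equiv.Perm (Fin s)) : Zr F s →+* Zr F s :=
  (rename π).toRingHom.comp (map (rename π).toRingHom)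

theorem sym_apply (π : Equiv.Perm (Fin s)) (f : Zr F s) :
    sym F π f = rename π (map (rename π : Yr F s →ₐ[F] Yr F s).toRingHom f) := rfl

theorem coeff_sym (π : Equiv.Perm (Fin s)) (f : Zr F s) (v : Fin s →₀ ℕ) :
    coeff (v.mapDomain π) (sym F π f) = rename π (coeff v f) := by
  rw [sym_apply, coeff_rename_mapDomain _ π.injective, coeff_map]
  rfl

theorem sym_C (π : Equiv.Perm (Fin s)) (r : Yr F s) : sym F π (C r) = C (rename π r) := by
  rw [sym_apply, map_C, rename_C]
  rfl

theorem sym_X (π : Equiv.Perm (Fin s)) (i : Fin s) : sym F π (X i) = X (π i) := by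
  rw [sym_apply, map_X, rename_X]

theorem sym_gen (α : ι → F) (π : Equiv.Perm (Fin s)) (P : MvPolynomial ι F) :
    sym F π (gen α s P) = gen α s P := by
  have : (sym F π).comp (gen α s).toRingHom = (gen α s).toRingHom := by
    apply MvPolynomial.ringHom_ext
    · intro r
      change sym F π (gen α s (C r)) = gen α s (C r)
      rw [gen_C, sym_C, rename_C]
    · intro k
      change sym F π (gen α s (X k)) = gen α s (X k)
      simp only [gen_X, map_sum, map_mul, sym_C, sym_X]
      rw [← Equiv.sum_comp π (fun i => (C (lag α k (X i)) * X i : Zr F s))]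
      apply Finset.sum_congr rfl
      intro i _
      congr 2
      have h1 := map_lag (A := Yr F s) (B := Yr F s) (rename π : Yr F s →ₐ[F] Yr F s).toRingHom
        (fun a => (rename π : Yr F s →ₐ[F] Yr F s).commutes a) α k (X i)
      have h2 : (rename π : Yr F s →ₐ[F] Yr F s).toRingHom (X i) = X (π i) := rename_X _ _
      rw [h2] at h1
      exact h1
  exact congrArg (fun f => f P) this

/-- `y i ↦ y i + t` -/
noncomputable def psi (F : Type*) [Field F] (s : ℕ) (i : Fin s) :
    Zr F s →+* Polynomial (Zr F s) :=
  eval₂Hom (eval₂Hom (Polynomial.C.comp (C.comp C))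
    (fun j => Polynomial.C (C (X j)) + if j = i then Polynomial.X else 0))
    (fun j => Polynomial.C (X j))

theorem psi_CX (i j : Fin s) :
    psi F s i (C (X j)) = Polynomial.C (C (X j)) + if j = i then Polynomial.X else 0 := by
  simp [psi]

theorem psi_CC (i : Fin s) (a : F) : psi F s i (C (C a)) = Polynomial.C (C (C a)) := by
  simp [psi]

theorem psi_X (i j : Fin s) : psi F s i (X j) = Polynomial.C (X j) := by
  simp [psi]

/-- `y i ↦ a` -/
noncomputable def sub (F : Type*) [Field F] (s : ℕ) (i : Fin s) (a : F) : Yr F s →ₐ[F] Yr F s :=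
  aeval (Function.update X i (C a))

theorem psi_eval_zero (i : Fin s) (f : Zr F s) : (psi F s i f).eval 0 = f := by
  have : (Polynomial.evalRingHom (0 : Zr F s)).comp (psi F s i) = RingHom.id _ := by
    apply MvPolynomial.ringHom_ext'
    · apply MvPolynomial.ringHom_ext
      · intro r
        change (psi F s i (C (C r))).eval 0 = C (C r)
        rw [psi_CC, Polynomial.eval_C]
      · intro j
        change (psi F s i (C (X j))).eval 0 = C (X j)
        rw [psi_CX]
        split_ifs <;> simp
    · intro j
      change (psi F s i (X j)).eval 0 = X j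
      rw [psi_X, Polynomial.eval_C]
  exact congrArg (fun g => g f) this

theorem psi_eval_sub (i : Fin s) (a : F) (f : Zr F s) :
    (psi F s i f).eval (C (C a) - C (X i)) = map (sub F s i a).toRingHom f := by
  have : (Polynomial.evalRingHom (C (C a) - C (X i) : Zr F s)).comp (psi F s i)
      = map (sub F s i a).toRingHom := by
    apply MvPolynomial.ringHom_ext'
    · apply MvPolynomial.ringHom_ext
      · intro r
        change (psi F s i (C (C r))).eval (C (C a) - C (X i)) = map (sub F s i a).toRingHom (C (C r))
        rw [psi_CC, Polynomial.eval_C, map_C]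
        congr 1
        exact ((sub F s i a).commutes r).symm
      · intro j
        change (psi F s i (C (X j))).eval (C (C a) - C (X i))
          = map (sub F s i a).toRingHom (C (X j))
        rw [psi_CX, map_C]
        have h1 : (sub F s i a).toRingHom (X j) = Function.update X i (C a) j := by
          change sub F s i a (X j) = _
          rw [sub, aeval_X]
        rw [h1]
        by_cases h : j = i
        · subst h
          simp
        · simp [h]
    · intro j
      change (psi F s i (X j)).eval (C (C a) - C (X i)) = map (sub F s i a).toRingHom (X j)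
      rw [psi_X, Polynomial.eval_C, map_X]
  exact congrArg (fun g => g f) this

theorem psi_kill_gen (α : ι → F) (i : Fin s) (P : MvPolynomial ι F) :
    psi F s i (kill F s i (gen α s P)) = Polynomial.C (kill F s i (gen α s P)) := by
  have : ((psi F s i).comp (kill F s i).toRingHom).comp (gen α s).toRingHom
      = ((Polynomial.C).comp (kill F s i).toRingHom).comp (gen α s).toRingHom := by
    apply MvPolynomial.ringHom_ext
    · intro r
      change psi F s i (kill F s i (gen α s (C r))) = Polynomial.C (kill F s i (gen α s (C r)))
      have h1 : kill F s i (C (C r)) = C (C r) := (kill F s i).commutes (C r)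
      rw [gen_C, h1, psi_CC]
    · intro k
      change psi F s i (kill F s i (gen α s (X k))) = Polynomial.C (kill F s i (gen α s (X k)))
      have h1 : ∀ r : Yr F s, kill F s i (C r) = C r := fun r => (kill F s i).commutes r
      have h2 : ∀ j, kill F s i (X j) = if j = i then 0 else X j := by
        intro j
        rw [kill, aeval_X]
      simp only [gen_X, map_sum, map_mul, h1, h2]
      apply Finset.sum_congr rfl
      intro j _
      by_cases hj : j = i
      · simp [hj]
      · rw [if_neg hj, psi_X]
        congr 1
        have h3 := map_lag (A := Yr F s) (B := Polynomial (Zr F s))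
          ((psi F s i).comp C) (fun a => psi_CC i a) α k (X j)
        have h4 := map_lag (A := Yr F s) (B := Polynomial (Zr F s))
          ((Polynomial.C).comp C) (fun a => rfl) α k (X j)
        rw [RingHom.comp_apply, RingHom.comp_apply] at h3 h4
        rw [h3, h4, psi_CX, if_neg hj, add_zero]
  exact congrArg (fun f => f P) this

/-- divisors of `gen P` do not involve `y i` when `z i = 0` -/
theorem loc_of_mul (α : ι → F) (i : Fin s) {P : MvPolynomial ι F} {g h : Zr F s}
    (hgh : g * h = gen α s P) (h0 : kill F s i (gen α s P) ≠ 0) (v : Fin s →₀ ℕ) (hv : v i = 0)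
    (y : Fin s → F) (a : F) :
    eval (Function.update y i a) (coeff v g) = eval y (coeff v g) := by
  set g0 := kill F s i g with hg0
  set k0 := kill F s i h with hk0
  have h1 : g0 * k0 = kill F s i (gen α s P) := by rw [← hgh, map_mul]
  have h2 : psi F s i g0 * psi F s i k0 = Polynomial.C (kill F s i (gen α s P)) := by
    rw [← map_mul, h1, psi_kill_gen]
  have hne : psi F s i g0 * psi F s i k0 ≠ 0 := by
    rw [h2]
    simpa using h0
  have h3 := Polynomial.natDegree_mul (left_ne_zero_of_mul hne) (right_ne_zero_of_mul hne)
  rw [h2, Polynomial.natDegree_C] at h3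
  have h4 : (psi F s i g0).natDegree = 0 := by omega
  rw [Polynomial.natDegree_eq_zero] at h4
  obtain ⟨c, hc⟩ := h4
  have h5 := psi_eval_zero i g0
  rw [← hc, Polynomial.eval_C] at h5
  have h6 := psi_eval_sub i a g0
  rw [← hc, Polynomial.eval_C, h5] at h6
  have h7 := congrArg (coeff v) h6
  rw [coeff_map, hg0, coeff_kill, if_pos hv] at h7
  have h8 := congrArg (eval y) h7
  rw [h8]
  have h9 : (eval y).comp (sub F s i a).toRingHom = eval (Function.update y i a) := by
    apply MvPolynomial.ringHom_ext
    · intro r
      change eval y (sub F s i a (C r)) = _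
      rw [sub, algHom_C]
      simp [algebraMap_eq]
    · intro j
      change eval y (sub F s i a (X j)) = _
      rw [sub, aeval_X, eval_X]
      by_cases hj : j = i
      · subst hj
        simp
      · simp [hj]
  exact (congrArg (fun f => f (coeff v g)) h9).symm

end Pool.Agent.Lib.MP_64d474_lc.S3.Glue99
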