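import Mathlib

/-! MP_64d474_lc, k = 3, row GL (helper32): two relatively prime polynomials have no common root on a
generic line.  `A` is any unique factorisation domain, so that only some of the variables may move. -/

open Polynomial

namespace S3L32

section basics

variable {R : Type*} [CommRing R] [IsDomain R]

/-- Relatively prime elements stay relatively prime in `R[X]`. -/
theorem isRelPrime_C {a b : R} (h : IsRelPrime a b) : IsRelPrime (C a : R[X]) (C b) := by
  by_cases hab : a = 0 ∧ b = 0
  · obtain ⟨rfl, rfl⟩ := hab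
    exact absurd (h (dvd_refl 0) (dvd_refl 0)) not_isUnit_zero
  intro d hda hdb
  have hd : d.natDegree = 0 := by
    by_cases ha : a = 0
    · have hb : b ≠ 0 := fun hb => hab ⟨ha, hb⟩
      have := natDegree_le_of_dvd hdb (by simpa using hb)
      simpa using this
    · have := natDegree_le_of_dvd hda (by simpa using ha)
      simpa using this
  obtain ⟨d', rfl⟩ := natDegree_eq_zero.1 hd
  have h1 : d' ∣ a := by
    have := (C_dvd_iff_dvd_coeff d' (C a)).1 hda 0
    simpa using this
  have h2 : d' ∣ b := by
    have := (C_dvd_iff_dvd_coeff d' (C b)).1 hdb 0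
    simpa using this
  exact (h h1 h2).map (C : R →+* R[X])

/-- Relatively prime elements stay relatively prime in a polynomial ring in any variables. -/
theorem isRelPrime_mvC {σ : Type*} {a b : R} (h : IsRelPrime a b) :
    IsRelPrime (MvPolynomial.C a : MvPolynomial σ R) (MvPolynomial.C b) := by
  by_cases hab : a = 0 ∧ b = 0
  · obtain ⟨rfl, rfl⟩ := hab
    exact absurd (h (dvd_refl 0) (dvd_refl 0)) not_isUnit_zero
  have key : ∀ (c : R), c ≠ 0 → ∀ d : MvPolynomial σ R, d ∣ MvPolynomial.C c →
      d.totalDegree = 0 := by
    intro c hc d hd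
    obtain ⟨e, he⟩ := hd
    have hc' : (MvPolynomial.C c : MvPolynomial σ R) ≠ 0 := by simpa using hc
    have hd0 : d ≠ 0 := by rintro rfl; apply hc'; simp [he]
    have he0 : e ≠ 0 := by rintro rfl; apply hc'; simp [he]
    have := MvPolynomial.totalDegree_mul_of_isDomain hd0 he0
    rw [← he, MvPolynomial.totalDegree_C] at this
    omega
  intro d hda hdb
  have hd : d.totalDegree = 0 := by
    by_cases ha : a = 0
    · exact key b (fun hb => hab ⟨ha, hb⟩) d hdb
    · exact key a ha d hda
  have hd' := MvPolynomial.totalDegree_eq_zero_iff_eq_C.1 hd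
  rw [hd'] at hda hdb ⊢
  set d' := MvPolynomial.coeff 0 d with hdd
  have h1 : d' ∣ a := by
    have := (MvPolynomial.C_dvd_iff_dvd_coeff d' (MvPolynomial.C a)).1 hda 0
    simpa using this
  have h2 : d' ∣ b := by
    have := (MvPolynomial.C_dvd_iff_dvd_coeff d' (MvPolynomial.C b)).1 hdb 0
    simpa using this
  exact (h h1 h2).map (MvPolynomial.C : R →+* MvPolynomial σ R)

omit [IsDomain R] in
/-- Transport of relative primality along a ring isomorphism. -/
theorem isRelPrime_equiv {S : Type*} [CommRing S] (e : R ≃+* S) {a b : R}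
    (h : IsRelPrime a b) : IsRelPrime (e a) (e b) := by
  intro d hda hdb
  have h1 : e.symm d ∣ a := by
    have := map_dvd e.symm hda
    simpa using this
  have h2 : e.symm d ∣ b := by
    have := map_dvd e.symm hdb
    simpa using this
  have := (h h1 h2).map e
  simpa using this

/-- Gauss: relatively prime in `R[X]` implies coprime over the fraction field. -/
theorem isCoprime_map_fraction [UniqueFactorizationMonoid R] {F : Type*} [Field F] [Algebra R F]
    [IsFractionRing R F] {p q : R[X]} (h : IsRelPrime p q) :
    IsCoprime (p.map (algebraMap R F)) (q.map (algebraMap R F)) := by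
  classical
  let _ : NormalizedGCDMonoid R := Classical.choice inferInstance
  have hinj : Function.Injective (algebraMap R F) := IsFractionRing.injective R F
  rw [← isRelPrime_iff_isCoprime]
  intro d hdp hdq
  have hd0 : d ≠ 0 := by
    rintro rfl
    rw [zero_dvd_iff, Polynomial.map_eq_zero_iff hinj] at hdp hdq
    subst hdp; subst hdq
    exact not_isUnit_zero (h (dvd_refl 0) (dvd_refl 0))
  obtain ⟨b, hb, hbd⟩ := IsLocalization.integerNormalization_spec (nonZeroDivisors R) d
  set n := IsLocalization.integerNormalization (nonZeroDivisors R) d with hn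
  have hb0 : algebraMap R F b ≠ 0 := by
    have : b ≠ 0 := nonZeroDivisors.ne_zero hb
    simpa [map_eq_zero_iff _ hinj] using this
  have hbd' : n.map (algebraMap R F) = C (algebraMap R F b) * d := by
    rw [hbd]
    simp [Algebra.smul_def, Polynomial.algebraMap_apply]
  have hn0 : n ≠ 0 := by
    intro h0
    rw [h0, Polynomial.map_zero] at hbd'
    rcases mul_eq_zero.1 hbd'.symm with h1 | h1
    · exact hb0 (by simpa using h1)
    · exact hd0 h1
  have hc0 : algebraMap R F n.content ≠ 0 := by
    have : n.content ≠ 0 := by simpa [Polynomial.content_eq_zero_iff] using hn0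
    simpa [map_eq_zero_iff _ hinj] using this
  have hnc : n.map (algebraMap R F) = C (algebraMap R F n.content) * n.primPart.map (algebraMap R F) := by
    conv_lhs => rw [n.eq_C_content_mul_primPart]
    rw [Polynomial.map_mul, Polynomial.map_C]
  have hunit : ∀ x : F, x ≠ 0 → IsUnit (C x : F[X]) := fun x hx => by
    rw [Polynomial.isUnit_C]; exact isUnit_iff_ne_zero.2 hx
  -- `e.map` divides whatever `d` divides, and conversely
  have hed : n.primPart.map (algebraMap R F) ∣ d := by
    have h1 : C (algebraMap R F n.content) * n.primPart.map (algebraMap R F) =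
        C (algebraMap R F b) * d := by rw [← hnc, hbd']
    have h2 : n.primPart.map (algebraMap R F) ∣ C (algebraMap R F b) * d := by
      rw [← h1]; exact dvd_mul_left _ _
    exact ((hunit _ hb0).dvd_mul_left).1 h2
  have hde : d ∣ n.primPart.map (algebraMap R F) := by
    have h1 : C (algebraMap R F n.content) * n.primPart.map (algebraMap R F) =
        C (algebraMap R F b) * d := by rw [← hnc, hbd']
    have h2 : d ∣ C (algebraMap R F n.content) * n.primPart.map (algebraMap R F) := by
      rw [h1]; exact dvd_mul_left _ _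
    exact ((hunit _ hc0).dvd_mul_left).1 h2
  have key : ∀ r : R[X], d ∣ r.map (algebraMap R F) → n.primPart ∣ r := fun r hr =>
    IsPrimitive.dvd_of_fraction_map_dvd_fraction_map (K := F) n.isPrimitive_primPart
      (hed.trans hr)
  have hu : IsUnit n.primPart := h (key p hdp) (key q hdq)
  exact isUnit_of_dvd_unit hde (hu.map (Polynomial.mapRingHom (algebraMap R F)))

end basics

section line

variable {A : Type*} [CommRing A] {τ : Type*}

/-- The restriction of a polynomial to the generic line `t ↦ u + t v`. -/
noncomputable def line (A : Type*) [CommRing A] (τ : Type*) :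
    MvPolynomial τ A →+* Polynomial (MvPolynomial (τ ⊕ τ) A) :=
  MvPolynomial.eval₂Hom (C.comp MvPolynomial.C)
    (fun i => C (MvPolynomial.X (Sum.inl i)) + X * C (MvPolynomial.X (Sum.inr i)))

/-- The shift `u ↦ u + c t v` of `A[u, v][t]`. -/
noncomputable def shift (A : Type*) [CommRing A] (τ : Type*) (c : MvPolynomial (τ ⊕ τ) A) :
    Polynomial (MvPolynomial (τ ⊕ τ) A) →+* Polynomial (MvPolynomial (τ ⊕ τ) A) :=
  Polynomial.eval₂RingHom
    (MvPolynomial.eval₂Hom (C.comp MvPolynomial.C)
      (Sum.elim (fun i => C (MvPolynomial.X (Sum.inl i)) +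
          C (MvPolynomial.C (MvPolynomial.coeff 0 c)) * (X * C (MvPolynomial.X (Sum.inr i))))
        (fun i => C (MvPolynomial.X (Sum.inr i))))) X

theorem shift_shift (A : Type*) [CommRing A] (τ : Type*) (c d : MvPolynomial (τ ⊕ τ) A)
    (h : MvPolynomial.coeff 0 c + MvPolynomial.coeff 0 d = 0) :
    (shift A τ c).comp (shift A τ d) = RingHom.id _ := by
  apply Polynomial.ringHom_ext'
  · apply MvPolynomial.ringHom_ext'
    · ext a
      simp [shift]
    · intro i
      rcases i with i | i
      · simp only [shift, RingHom.coe_comp, Function.comp_apply, coe_eval₂RingHom, eval₂_C,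
          MvPolynomial.coe_eval₂Hom, MvPolynomial.eval₂_X, Sum.elim_inl, eval₂_add, eval₂_mul,
          eval₂_X, Sum.elim_inr, MvPolynomial.eval₂_C, RingHom.id_apply]
        have : (C (MvPolynomial.C (MvPolynomial.coeff 0 c)) : Polynomial (MvPolynomial (τ ⊕ τ) A)) +
            C (MvPolynomial.C (MvPolynomial.coeff 0 d)) = 0 := by
          rw [← C_add, ← MvPolynomial.C_add, h]; simp
        linear_combination (X * C (MvPolynomial.X (Sum.inr i))) * this
      · simp [shift]
  · simp [shift]

/-- The automorphism `u ↦ u + t v` of `A[u, v][t]`. -/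
noncomputable def shiftEquiv (A : Type*) [CommRing A] (τ : Type*) :
    Polynomial (MvPolynomial (τ ⊕ τ) A) ≃+* Polynomial (MvPolynomial (τ ⊕ τ) A) :=
  RingEquiv.ofRingHom (shift A τ 1) (shift A τ (-1))
    (shift_shift A τ _ _ (by simp)) (shift_shift A τ _ _ (by simp))

theorem line_eq (P : MvPolynomial τ A) :
    line A τ P = shiftEquiv A τ (C (MvPolynomial.rename Sum.inl P)) := by
  change line A τ P = shift A τ 1 (C (MvPolynomial.rename Sum.inl P))
  induction P using MvPolynomial.induction_on with
  | C a =>
    rw [MvPolynomial.rename_C]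
    simp only [line, shift, MvPolynomial.coe_eval₂Hom, MvPolynomial.eval₂_C, RingHom.comp_apply,
      coe_eval₂RingHom, eval₂_C]
  | add p q hp hq => rw [map_add, map_add, map_add, map_add, hp, hq]
  | mul_X p i hp =>
    rw [map_mul, map_mul, map_mul, map_mul, hp, MvPolynomial.rename_X]
    congr 1
    simp only [line, shift, MvPolynomial.coe_eval₂Hom, MvPolynomial.eval₂_X,
      coe_eval₂RingHom, eval₂_C, Sum.elim_inl, MvPolynomial.coeff_zero_one, map_one, one_mul]

end line

section main

variable {A : Type*} [CommRing A] [IsDomain A] {τ : Type*}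

theorem isRelPrime_rename {P Q : MvPolynomial τ A} (h : IsRelPrime P Q) :
    IsRelPrime (MvPolynomial.rename Sum.inl P : MvPolynomial (τ ⊕ τ) A)
      (MvPolynomial.rename Sum.inl Q) := by
  have h1 := isRelPrime_mvC (σ := τ) h
  have h2 := isRelPrime_equiv
    ((MvPolynomial.sumAlgEquiv A τ τ).symm.toRingEquiv.trans
      (MvPolynomial.renameEquiv A (Equiv.sumComm τ τ)).toRingEquiv) h1
  have key : ∀ P : MvPolynomial τ A,
      ((MvPolynomial.sumAlgEquiv A τ τ).symm.toRingEquiv.trans
        (MvPolynomial.renameEquiv A (Equiv.sumComm τ τ)).toRingEquiv) (MvPolynomial.C P) =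
      MvPolynomial.rename Sum.inl P := by
    intro P
    have : (((MvPolynomial.sumAlgEquiv A τ τ).symm.toRingEquiv.trans
        (MvPolynomial.renameEquiv A (Equiv.sumComm τ τ)).toRingEquiv :
          MvPolynomial τ (MvPolynomial τ A) →+* MvPolynomial (τ ⊕ τ) A).comp MvPolynomial.C) =
        ((MvPolynomial.rename Sum.inl : MvPolynomial τ A →ₐ[A] MvPolynomial (τ ⊕ τ) A) :
          MvPolynomial τ A →+* MvPolynomial (τ ⊕ τ) A) := by
      apply MvPolynomial.ringHom_ext'
      · ext a
        simp
      · intro i
        simp
    exact congrArg (fun f => f P) this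
  rwa [key, key] at h2

/-- ROW GL.  Relatively prime polynomials over a unique factorisation domain have no common root on
the generic line `t ↦ u + t v`. -/
theorem gl [UniqueFactorizationMonoid A] {P Q : MvPolynomial τ A} (h : IsRelPrime P Q)
    {K : Type*} [Field K] (ψ : MvPolynomial (τ ⊕ τ) A →+* K) (hψ : Function.Injective ψ) :
    IsCoprime ((line A τ P).map ψ) ((line A τ Q).map ψ) := by
  have h1 : IsRelPrime (line A τ P) (line A τ Q) := by
    rw [line_eq, line_eq]
    exact isRelPrime_equiv _ (isRelPrime_C (isRelPrime_rename h))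
  have h2 := isCoprime_map_fraction (F := FractionRing (MvPolynomial (τ ⊕ τ) A)) h1
  have h3 := h2.map (Polynomial.mapRingHom (IsFractionRing.lift hψ))
  have key : ∀ p : Polynomial (MvPolynomial (τ ⊕ τ) A),
      Polynomial.mapRingHom (IsFractionRing.lift hψ)
        (p.map (algebraMap _ (FractionRing (MvPolynomial (τ ⊕ τ) A)))) = p.map ψ := by
    intro p
    rw [Polynomial.coe_mapRingHom, Polynomial.map_map]
    congr 1
    exact RingHom.ext fun x => IsFractionRing.lift_algebraMap hψ x
  rwa [key, key] at h3

/-- No common root on a generic line. -/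
theorem gl_root [UniqueFactorizationMonoid A] {P Q : MvPolynomial τ A} (h : IsRelPrime P Q)
    {K : Type*} [Field K] (ψ : MvPolynomial (τ ⊕ τ) A →+* K) (hψ : Function.Injective ψ) (x : K)
    (hP : ((line A τ P).map ψ).eval x = 0) (hQ : ((line A τ Q).map ψ).eval x = 0) : False := by
  obtain ⟨a, b, hab⟩ := gl h ψ hψ
  have := congrArg (Polynomial.eval x) hab
  simp [hP, hQ] at this

end main

end S3L32
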