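import Mathlib
import Pool.Agent.Lib.MP_64d474_lc.S3.Defs69
import Pool.Agent.Lib.MP_64d474_lc.S3.Line32

/-! MP_64d474_lc, k = 3 (helper32): the two generic lines (ambient line, line through the generator)
with their properties: coprime forms have no common root, forms of positive degree have a root,
nonzero forms do not vanish. -/

set_option autoImplicit false

open Polynomial

namespace S3L32

universe u

section degree

variable {A : Type*} [CommRing A] {τ : Type*}

/-- The statement carried through the induction. -/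
def Top (n : ℕ) (p : MvPolynomial τ A) : Prop :=
  (line A τ p).natDegree ≤ n ∧ (line A τ p).coeff n = MvPolynomial.rename Sum.inr p

theorem top_zero (n : ℕ) : Top n (0 : MvPolynomial τ A) := by
  refine ⟨?_, ?_⟩ <;> simp

theorem top_add {n : ℕ} {p q : MvPolynomial τ A} (hp : Top n p) (hq : Top n q) : Top n (p + q) := by
  refine ⟨?_, ?_⟩
  · rw [map_add]
    exact (natDegree_add_le _ _).trans (max_le hp.1 hq.1)
  · rw [map_add, coeff_add, hp.2, hq.2, map_add]

theorem top_mul {n k : ℕ} {p q : MvPolynomial τ A} (hp : Top n p) (hq : Top k q) :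
    Top (n + k) (p * q) := by
  refine ⟨?_, ?_⟩
  · rw [map_mul]
    exact natDegree_mul_le_of_le hp.1 hq.1
  · rw [map_mul, coeff_mul_add_eq_of_natDegree_le hp.1 hq.1, hp.2, hq.2, map_mul]

theorem top_C (a : A) : Top 0 (MvPolynomial.C a : MvPolynomial τ A) := by
  have h : line A τ (MvPolynomial.C a) = C (MvPolynomial.C a) := by
    simp only [line, MvPolynomial.coe_eval₂Hom, MvPolynomial.eval₂_C, RingHom.comp_apply]
  refine ⟨?_, ?_⟩
  · rw [h, natDegree_C]
  · rw [h, coeff_C_zero, MvPolynomial.rename_C]

theorem top_X (i : τ) : Top 1 (MvPolynomial.X i : MvPolynomial τ A) := by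
  have h : line A τ (MvPolynomial.X i) =
      C (MvPolynomial.X (Sum.inl i)) + X * C (MvPolynomial.X (Sum.inr i)) := by
    simp only [line, MvPolynomial.coe_eval₂Hom, MvPolynomial.eval₂_X]
  refine ⟨?_, ?_⟩
  · rw [h]
    refine (natDegree_add_le _ _).trans (max_le ?_ ?_)
    · simp
    · exact (natDegree_mul_le).trans (by rw [natDegree_C]; simpa using natDegree_X_le)
  · rw [h, MvPolynomial.rename_X]
    simp [coeff_C]

theorem top_pow (i : τ) (n : ℕ) : Top n ((MvPolynomial.X i : MvPolynomial τ A) ^ n) := by
  induction n with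
  | zero => simpa using top_C (τ := τ) (1 : A)
  | succ n ih =>
    rw [pow_succ]
    exact top_mul ih (top_X i)

theorem top_monomial (m : τ →₀ ℕ) : ∀ a : A, Top m.degree (MvPolynomial.monomial m a) := by
  classical
  induction m using Finsupp.induction with
  | zero =>
    intro a
    have h0 : (0 : τ →₀ ℕ).degree = 0 := by rw [map_zero]
    rw [h0]
    exact top_C a
  | single_add i k f _ _ ih =>
    intro a
    have h1 : (MvPolynomial.monomial (Finsupp.single i k + f) a : MvPolynomial τ A) =
        MvPolynomial.X i ^ k * MvPolynomial.monomial f a := by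
      rw [MvPolynomial.X_pow_eq_monomial, MvPolynomial.monomial_mul, one_mul]
    rw [h1, map_add, Finsupp.degree_single]
    exact top_mul (top_pow i k) (ih a)

theorem top_homogeneous {n : ℕ} {p : MvPolynomial τ A} (hp : p.IsHomogeneous n) : Top n p := by
  classical
  rw [p.as_sum]
  apply Finset.sum_induction _ (fun q => Top n q) (fun _ _ => top_add) (top_zero n)
  intro m hm
  have h1 : m.degree = n := by
    have := hp (MvPolynomial.mem_support_iff.1 hm)
    rwa [Finsupp.degree_eq_weight_one]
  rw [← h1]
  exact top_monomial m _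

theorem natDegree_line [IsDomain A] {K : Type*} [Field K] (ψ : MvPolynomial (τ ⊕ τ) A →+* K)
    (hψ : Function.Injective ψ) {n : ℕ} {p : MvPolynomial τ A} (hp : p.IsHomogeneous n)
    (h0 : p ≠ 0) : ((line A τ p).map ψ).natDegree = n := by
  rw [natDegree_map_eq_of_injective hψ]
  obtain ⟨h1, h2⟩ := top_homogeneous hp
  apply le_antisymm h1
  apply le_natDegree_of_ne_zero
  rw [h2]
  intro h3
  apply h0
  exact MvPolynomial.rename_injective _ Sum.inr_injective (by rw [h3, map_zero])

theorem line_injective : Function.Injective (line A τ) := by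
  intro p q h
  rw [line_eq, line_eq] at h
  have h1 := (shiftEquiv A τ).injective h
  exact MvPolynomial.rename_injective _ Sum.inl_injective (C_injective h1)

end degree

/-- THE AMBIENT LINE. -/
theorem exists_ambient (F : Type u) [Field F] [CharZero F] (m : ℕ) :
    ∃ (K : Type u) (_ : Field K) (_ : CharZero K) (_ : IsAlgClosed K)
      (chi : MvPolynomial (Fin m) F →+* K[X]),
      Function.Injective chi ∧
      (∀ P Q : MvPolynomial (Fin m) F, IsRelPrime P Q → ∀ x : K,
        ¬ ((chi P).eval x = 0 ∧ (chi Q).eval x = 0)) ∧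
      (∀ (n : ℕ) (S : MvPolynomial (Fin m) F), S.IsHomogeneous n → S ≠ 0 →
        (chi S).natDegree = n) ∧
      (∀ (n : ℕ) (S : MvPolynomial (Fin m) F), S.IsHomogeneous n → 0 < n → S ≠ 0 →
        ∃ x : K, (chi S).eval x = 0) := by
  let R := MvPolynomial (Fin m ⊕ Fin m) F
  let K := AlgebraicClosure (FractionRing R)
  let ψ : R →+* K := (algebraMap (FractionRing R) K).comp (algebraMap R (FractionRing R))
  have hψ : Function.Injective ψ :=
    (algebraMap (FractionRing R) K).injective.comp (IsFractionRing.injective R (FractionRing R))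
  have hc : CharZero K :=
    charZero_of_injective_ringHom (f := ψ.comp (algebraMap F R))
      (hψ.comp (algebraMap F R).injective)
  have hdeg : ∀ (n : ℕ) (S : MvPolynomial (Fin m) F), S.IsHomogeneous n → S ≠ 0 →
      ((line F (Fin m) S).map ψ).natDegree = n := fun n S hS h0 => natDegree_line ψ hψ hS h0
  refine ⟨K, inferInstance, hc, inferInstance, (mapRingHom ψ).comp (line F (Fin m)), ?_, ?_, hdeg, ?_⟩
  · exact (map_injective ψ hψ).comp line_injective
  · rintro P Q h x ⟨hP, hQ⟩
    exact gl_root h ψ hψ x hP hQ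
  · intro n S hS hn h0
    apply IsAlgClosed.exists_root
    intro h1
    have h2 := hdeg n S hS h0
    have h3 : ((mapRingHom ψ).comp (line F (Fin m)) S) = (line F (Fin m) S).map ψ := rfl
    rw [h3] at h1
    rw [natDegree_eq_zero_iff_degree_le_zero.2 h1.le] at h2
    omega

/-- The seeds: `y` become scalars, `z` stay variables. -/
noncomputable def toZ (F : Type u) [Field F] (s : ℕ) :
    MvPolynomial (Fin s ⊕ Fin s) F ≃+* MvPolynomial (Fin s) (MvPolynomial (Fin s) F) :=
  (MvPolynomial.renameEquiv F (Equiv.sumComm (Fin s) (Fin s))).toRingEquiv.trans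
    (MvPolynomial.sumAlgEquiv F (Fin s) (Fin s)).toRingEquiv

theorem toZ_inl (F : Type u) [Field F] (s : ℕ) (i : Fin s) :
    toZ F s (MvPolynomial.X (Sum.inl i)) = MvPolynomial.C (MvPolynomial.X i) := by
  simp [toZ]

theorem toZ_inr (F : Type u) [Field F] (s : ℕ) (i : Fin s) :
    toZ F s (MvPolynomial.X (Sum.inr i)) = MvPolynomial.X i := by
  simp [toZ]

theorem toZ_C (F : Type u) [Field F] (s : ℕ) (a : F) :
    toZ F s (MvPolynomial.C a) = MvPolynomial.C (MvPolynomial.C a) := by
  simp [toZ]

open Pool.Agent.Lib.MP_64d474_lc.S3 in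
/-- The generator is homogeneous in `z`. -/
theorem toZ_gen_homogeneous (F : Type u) [Field F] (m s n : ℕ) (P : MvPolynomial (Fin m) F)
    (hP : P.IsHomogeneous n) : (toZ F s (gen F m s P)).IsHomogeneous n := by
  have h1 : toZ F s (gen F m s P) = MvPolynomial.eval₂ ((MvPolynomial.C).comp MvPolynomial.C)
      (fun k => toZ F s (genX F m s k)) P := by
    have h2 : ((toZ F s : MvPolynomial (Fin s ⊕ Fin s) F →+*
        MvPolynomial (Fin s) (MvPolynomial (Fin s) F)).comp
          ((gen F m s : MvPolynomial (Fin m) F →ₐ[F] MvPolynomial (Fin s ⊕ Fin s) F) :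
            MvPolynomial (Fin m) F →+* MvPolynomial (Fin s ⊕ Fin s) F)) =
        MvPolynomial.eval₂Hom ((MvPolynomial.C).comp MvPolynomial.C)
          (fun k => toZ F s (genX F m s k)) := by
      apply MvPolynomial.ringHom_ext
      · intro a
        simp [gen, toZ_C]
      · intro k
        simp [gen]
    exact congrArg (fun f => f P) h2
  rw [h1]
  have h3 := MvPolynomial.IsHomogeneous.eval₂ (n := 1) hP
    ((MvPolynomial.C : MvPolynomial (Fin s) F →+* MvPolynomial (Fin s) (MvPolynomial (Fin s) F)).comp
      (MvPolynomial.C : F →+* MvPolynomial (Fin s) F))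
    (fun k => toZ F s (genX F m s k)) (fun a => MvPolynomial.isHomogeneous_C _ _) (by
      intro k
      simp only [genX, map_sum, map_mul, map_prod, map_sub, toZ_inl, toZ_inr, toZ_C]
      apply MvPolynomial.IsHomogeneous.sum
      intro i _
      have h4 : (MvPolynomial.X i * ∏ j ∈ Finset.univ.erase k,
          (MvPolynomial.C (MvPolynomial.X i) - MvPolynomial.C (MvPolynomial.C ((j : ℕ) : F))) :
            MvPolynomial (Fin s) (MvPolynomial (Fin s) F)) =
          MvPolynomial.X i * MvPolynomial.C (∏ j ∈ Finset.univ.erase k,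
            (MvPolynomial.X i - MvPolynomial.C ((j : ℕ) : F))) := by
        rw [map_prod]
        congr 1
        apply Finset.prod_congr rfl
        intro j _
        rw [map_sub]
      rw [h4]
      exact (MvPolynomial.isHomogeneous_X _ i).mul (MvPolynomial.isHomogeneous_C _ _))
  rwa [one_mul] at h3

open Pool.Agent.Lib.MP_64d474_lc.S3 in
/-- THE LINE THROUGH THE GENERATOR: `y` generic and fixed, `z = u + t v`. -/
theorem exists_lline (F : Type u) [Field F] [CharZero F] (m s : ℕ) :
    ∃ (K : Type u) (_ : Field K) (_ : CharZero K) (_ : IsAlgClosed K)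
      (lam : MvPolynomial (Fin s ⊕ Fin s) F →+* K[X]),
      Function.Injective lam ∧
      (∀ P Q : MvPolynomial (Fin s ⊕ Fin s) F, IsRelPrime P Q → ∀ x : K,
        ¬ ((lam P).eval x = 0 ∧ (lam Q).eval x = 0)) ∧
      (∀ P Q : MvPolynomial (Fin s ⊕ Fin s) F, IsRelPrime P Q → IsCoprime (lam P) (lam Q)) ∧
      (∀ (n : ℕ) (S : MvPolynomial (Fin m) F), S.IsHomogeneous n → gen F m s S ≠ 0 →
        (lam (gen F m s S)).natDegree = n) ∧
      (∀ (n : ℕ) (S : MvPolynomial (Fin m) F), S.IsHomogeneous n → 0 < n → gen F m s S ≠ 0 →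
        ∃ x : K, (lam (gen F m s S)).eval x = 0) := by
  let A := MvPolynomial (Fin s) F
  let R := MvPolynomial (Fin s ⊕ Fin s) A
  let K := AlgebraicClosure (FractionRing R)
  let ψ : R →+* K := (algebraMap (FractionRing R) K).comp (algebraMap R (FractionRing R))
  have hψ : Function.Injective ψ :=
    (algebraMap (FractionRing R) K).injective.comp (IsFractionRing.injective R (FractionRing R))
  have hc : CharZero K := by
    have h1 : Function.Injective (ψ.comp ((MvPolynomial.C : A →+* R).comp
        (MvPolynomial.C : F →+* A))) :=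
      hψ.comp ((MvPolynomial.C_injective _ _).comp (MvPolynomial.C_injective _ _))
    exact charZero_of_injective_ringHom h1
  have hdeg : ∀ (n : ℕ) (S : MvPolynomial (Fin m) F), S.IsHomogeneous n → gen F m s S ≠ 0 →
      ((line A (Fin s) (toZ F s (gen F m s S))).map ψ).natDegree = n := fun n S hS h0 =>
    natDegree_line ψ hψ (toZ_gen_homogeneous F m s n S hS) (by
      rw [Ne, map_eq_zero_iff _ (toZ F s).injective]
      exact h0)
  refine ⟨K, inferInstance, hc, inferInstance,
    (mapRingHom ψ).comp ((line A (Fin s)).comp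
      (toZ F s : MvPolynomial (Fin s ⊕ Fin s) F →+* MvPolynomial (Fin s) A)), ?_, ?_, ?_, hdeg, ?_⟩
  · exact (map_injective ψ hψ).comp (line_injective.comp (toZ F s).injective)
  · rintro P Q h x ⟨hP, hQ⟩
    exact gl_root (isRelPrime_equiv (toZ F s) h) ψ hψ x hP hQ
  · intro P Q h
    exact gl (isRelPrime_equiv (toZ F s) h) ψ hψ
  · intro n S hS hn h0
    apply IsAlgClosed.exists_root
    intro h1
    have h2 := hdeg n S hS h0
    have h3 : ((mapRingHom ψ).comp ((line A (Fin s)).comp
      (toZ F s : MvPolynomial (Fin s ⊕ Fin s) F →+* MvPolynomial (Fin s) A))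
        (gen F m s S)) = (line A (Fin s) (toZ F s (gen F m s S))).map ψ := rfl
    rw [h3] at h1
    rw [natDegree_eq_zero_iff_degree_le_zero.2 h1.le] at h2
    omega

end S3L32
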