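import Pool.Agent.Lib.MP_64d474_lc.S3.Defs69
import Pool.Agent.Lib.MP_64d474_lc.S3.Br91
import Pool.Agent.Lib.MP_64d474_lc.S3.Good32
import Pool.Agent.Lib.MP_64d474_lc.S3.Hom64

/-! MP_64d474_lc, k = 3 (helper32): the two curves of the bracket are `Good`. -/

set_option autoImplicit false

open Polynomial

namespace Pool.Agent.Lib.MP_64d474_lc.S3

universe u

/-- The ambient line. -/
theorem exists_good_ambient (F : Type u) [Field F] [CharZero F] (m : ℕ) :
    ∃ (K : Type u) (_ : Field K) (_ : CharZero K) (chi : MvPolynomial (Fin m) F →+* K[X]),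
      Function.Injective chi ∧ Good chi ⊤ := by
  obtain ⟨K, _, hc, _, chi, h1, h2, -, h4⟩ := S3L32.exists_ambient F m
  refine ⟨K, inferInstance, hc, chi, h1, ?_, ?_, ?_⟩
  · intro P n _ _ h0
    rw [Ne, map_eq_zero_iff _ h1]
    exact h0
  · intro P n hP hn _ h0
    exact h4 n P hP hn h0
  · intro P Q m n _ _ _ _ _ _ hPQ τ
    exact h2 P Q hPQ τ

/-- The line through the generator; row A is the hypothesis. -/
theorem exists_good_gen (hglue : StGlue.{u}) (F : Type u) [Field F] [CharZero F] (m D s : ℕ)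
    (hs : D + 2 ≤ s) :
    ∃ (K : Type u) (_ : Field K) (_ : CharZero K)
      (lam : MvPolynomial (Fin s ⊕ Fin s) F →+* K[X]),
      Function.Injective lam ∧
      Good (lam.comp (gen F m s : MvPolynomial (Fin m) F →+* MvPolynomial (Fin s ⊕ Fin s) F))
        (D : ℕ∞) ∧
      (∀ P Q : MvPolynomial (Fin s ⊕ Fin s) F, IsRelPrime P Q → IsCoprime (lam P) (lam Q)) ∧
      (∀ (n : ℕ) (S : MvPolynomial (Fin m) F), S.IsHomogeneous n → gen F m s S ≠ 0 →
        (lam (gen F m s S)).natDegree = n) := by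
  obtain ⟨hA1, hA2⟩ := hglue F m D s hs
  obtain ⟨K, _, hc, _, lam, h1, h2, h3, h4, h5⟩ := S3L32.exists_lline F m s
  refine ⟨K, inferInstance, hc, lam, h1, ⟨?_, ?_, ?_⟩, h3, h4⟩
  · intro P n hP hn h0
    rw [RingHom.comp_apply, Ne, map_eq_zero_iff _ h1]
    exact hA1 n P (by exact_mod_cast hn) hP h0
  · intro P n hP hn hnD h0
    exact h5 n P hP hn (hA1 n P (by exact_mod_cast hnD) hP h0)
  · intro P Q k l hP hQ hk hl hP0 hQ0 hPQ τ
    exact h2 _ _ (hA2 k l P Q (by exact_mod_cast hk) (by exact_mod_cast hl) hP hQ hP0 hQ0 hPQ) τ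

/-- `Phi` is the shift `sh` followed by the generator on the coefficients. -/
theorem Phi_eq_map_sh (F : Type u) [Field F] (m s : ℕ) (e : Fin m → F)
    (P : MvPolynomial (Fin m) F) :
    Phi F m s e P = (sh e P).map
      (gen F m s : MvPolynomial (Fin m) F →+* MvPolynomial (Fin s ⊕ Fin s) F) := by
  have h : (Phi F m s e : MvPolynomial (Fin m) F →+* Polynomial (MvPolynomial (Fin s ⊕ Fin s) F)) =
      (Polynomial.mapRingHom
        (gen F m s : MvPolynomial (Fin m) F →+* MvPolynomial (Fin s ⊕ Fin s) F)).comp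
        (sh e : MvPolynomial (Fin m) F →+* Polynomial (MvPolynomial (Fin m) F)) := by
    apply MvPolynomial.ringHom_ext
    · intro a
      simp [Phi, sh, gen, Polynomial.algebraMap_apply, MvPolynomial.algebraMap_eq]
    · intro k
      simp [Phi, sh, gen]
  exact congrArg (fun f => f P) h

end Pool.Agent.Lib.MP_64d474_lc.S3
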