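import Mathlib
import Pool.Agent.Lib.MP_64d474_lc.S3.Hit35b

/-!
# From the core statement to explicit points
-/

namespace Pool.Agent.Lib.MP_64d474_lc.S3

open MvPolynomial

universe u

/-- The direction `e`: from the vanishing on the generator to the vanishing of `Phi`. -/
theorem exists_Phi_eq_zero {F : Type u} [Field F] [CharZero F] {m D₀ D₁ : ℕ}
    {f : MvPolynomial (Fin m) F} (hf : gen F m (D₀ + D₁) f = 0)
    (A : Multiset (MvPolynomial (Fin m) F)) (h : ∀ P ∈ A, P ≠ 0 ∧ P.totalDegree ≤ D₀) :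
    ∃ e : Fin m → F, (∀ P ∈ A, eval e P ≠ 0) ∧ Phi F m D₁ e f = 0 := by
  obtain ⟨e, he, h2⟩ := exists_direction' hf A h
  refine ⟨e, he, ?_⟩
  have h3 := h2 (R := Polynomial (MvPolynomial (Fin D₁ ⊕ Fin D₁) F))
    (fun i => Polynomial.C (X (Sum.inl i))) (fun i => Polynomial.C (X (Sum.inr i))) Polynomial.X
  rw [← h3, Phi]
  congr 2
  funext k
  rw [genX_eq_pt, map_pt (Polynomial.C : MvPolynomial (Fin D₁ ⊕ Fin D₁) F →+* _)]
  rfl

/-- The core and the statement on two products give three products for the generator. -/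
theorem three_gen35 (hC : StCore.{u}) (hT : StTwo.{u}) (F : Type u) [Field F] [CharZero F]
    (m d s n : ℕ) (T : Fin 3 → Multiset (MvPolynomial (Fin m) F)) (hs : 2 * d ^ 2 + 2 ≤ s)
    (hs' : d + 2 ≤ s) (hF : ∀ i, Forms d (T i)) (hh : ∀ i, (T i).prod.IsHomogeneous n)
    (h0 : gen F m (d + s) (∑ i, (T i).prod) = 0) : ∑ i, (T i).prod = 0 := by
  classical
  by_cases hz : ∀ i, (T i).prod ≠ 0
  · obtain ⟨e, he, h2⟩ := exists_Phi_eq_zero h0 (T 0 + T 1 + T 2) (by
      intro P hP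
      have hP' : ∃ i, P ∈ T i := by
        rcases Multiset.mem_add.1 hP with hP | hP
        · rcases Multiset.mem_add.1 hP with hP | hP
          · exact ⟨0, hP⟩
          · exact ⟨1, hP⟩
        · exact ⟨2, hP⟩
      obtain ⟨i, hi⟩ := hP'
      obtain ⟨k, hk, hk2⟩ := hF i P hi
      refine ⟨?_, hk2.totalDegree_le.trans hk⟩
      intro h1
      exact hz i (Multiset.prod_eq_zero (h1 ▸ hi)))
    refine hC F m d s n e T hs hs' hF hh (fun i P hP => he P ?_) h2
    fin_cases i
    · exact Multiset.mem_add.2 (Or.inl (Multiset.mem_add.2 (Or.inl hP)))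
    · exact Multiset.mem_add.2 (Or.inl (Multiset.mem_add.2 (Or.inr hP)))
    · exact Multiset.mem_add.2 (Or.inr hP)
  · simp only [not_forall, not_not] at hz
    obtain ⟨i, hi⟩ := hz
    rw [Fin.sum_univ_three] at h0 ⊢
    have key : ∀ a b c : Fin 3, (T a).prod = 0 →
        (T 0).prod + (T 1).prod + (T 2).prod = (T b).prod + (T c).prod →
        (T 0).prod + (T 1).prod + (T 2).prod = 0 := by
      intro a b c ha h1
      rw [h1] at h0 ⊢
      exact hT F m d (d + s) (T b) (T c) (by omega) (hF b) (hF c) h0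
    fin_cases i
    · exact key 0 1 2 hi (by rw [show (T 0).prod = 0 from hi]; ring)
    · exact key 1 0 2 hi (by rw [show (T 1).prod = 0 from hi]; ring)
    · exact key 2 0 1 hi (by rw [show (T 2).prod = 0 from hi]; ring)

/-- Explicit points for three products of forms. -/
theorem three_grid35 (hC : StCore.{u}) (hT : StTwo.{u}) (F : Type u) [Field F] [CharZero F]
    (m d s n : ℕ) (T : Fin 3 → Multiset (MvPolynomial (Fin m) F)) (hs : 2 * d ^ 2 + 2 ≤ s)
    (hs' : d + 2 ≤ s) (hF : ∀ i, Forms d (T i)) (hh : ∀ i, (T i).prod.IsHomogeneous n)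
    (hne : ∑ i, (T i).prod ≠ 0) :
    ∃ x ∈ grid m n (d + s), eval (fun k => ((x k : ℤ) : F)) (∑ i, (T i).prod) ≠ 0 := by
  by_contra h
  apply hne
  refine three_gen35 hC hT F m d s n T hs hs' hF hh (gen_eq_zero_of_grid (n := n) _ ?_ ?_)
  · exact (IsHomogeneous.sum _ _ _ fun i _ => hh i).totalDegree_le
  · intro x hx
    by_contra h1
    exact h ⟨x, hx, h1⟩

/-- Explicit points for two products of forms. -/
theorem two_grid35 (hT : StTwo.{u}) (F : Type u) [Field F] [CharZero F]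
    (m d s n : ℕ) (T₁ T₂ : Multiset (MvPolynomial (Fin m) F)) (hs : d + 2 ≤ s)
    (h1 : Forms d T₁) (h2 : Forms d T₂) (hd1 : T₁.prod.totalDegree ≤ n)
    (hd2 : T₂.prod.totalDegree ≤ n) (hne : T₁.prod + T₂.prod ≠ 0) :
    ∃ x ∈ grid m n s, eval (fun k => ((x k : ℤ) : F)) (T₁.prod + T₂.prod) ≠ 0 := by
  by_contra h
  apply hne
  refine hT F m d s T₁ T₂ hs h1 h2 (gen_eq_zero_of_grid (n := n) _ ?_ ?_)
  · exact (totalDegree_add _ _).trans (max_le hd1 hd2)
  · intro x hx
    by_contra h3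
    exact h ⟨x, hx, h3⟩

end Pool.Agent.Lib.MP_64d474_lc.S3
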