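import Pool.Agent.Lib.MP_64d474_lc.S3.Defs69

/-!
Three products: from the Lagrange curve to the moment curve.
-/

set_option autoImplicit false

namespace Pool.Agent.Lib.MP_64d474_lc.S3.H68

open MvPolynomial Finset

universe u

variable {F : Type u} [Field F]

/-! ### The two generators -/

/-- The generator along the Lagrange curve. -/
noncomputable def genL (F : Type u) [Field F] (m s : ℕ) :
    MvPolynomial (Fin m) F →ₐ[F] MvPolynomial (Fin s ⊕ Fin s) F :=
  aeval fun k => ∑ i, X (Sum.inr i) * ∏ j ∈ univ.erase k, (X (Sum.inl i) - C ((j : ℕ) : F))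

theorem genL_gen (m s : ℕ) : genL F m s = gen F m s := rfl

/-- The generator along the moment curve. -/
noncomputable def genM (F : Type u) [Field F] (m s : ℕ) :
    MvPolynomial (Fin m) F →ₐ[F] MvPolynomial (Fin s ⊕ Fin s) F :=
  aeval fun k => ∑ i, X (Sum.inr i) * X (Sum.inl i) ^ (k : ℕ)

/-- A linear substitution. -/
noncomputable def linSub {m : ℕ} (N : Matrix (Fin m) (Fin m) F) :
    MvPolynomial (Fin m) F →ₐ[F] MvPolynomial (Fin m) F :=
  aeval fun k => ∑ j, C (N k j) * X j

theorem linSub_comp {m : ℕ} (M N : Matrix (Fin m) (Fin m) F) (f : MvPolynomial (Fin m) F) :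
    linSub M (linSub N f) = linSub (N * M) f := by
  have : (linSub M).comp (linSub N) = linSub (N * M) := by
    apply MvPolynomial.algHom_ext
    intro k
    simp only [AlgHom.comp_apply, linSub, aeval_X, map_sum, map_mul, algHom_C,
      algebraMap_eq, Matrix.mul_apply]
    simp only [mul_sum, sum_mul]
    rw [sum_comm]
    refine sum_congr rfl fun j _ => sum_congr rfl fun i _ => ?_
    ring
  exact DFunLike.congr_fun this f

theorem linSub_one {m : ℕ} (f : MvPolynomial (Fin m) F) :
    linSub (1 : Matrix (Fin m) (Fin m) F) f = f := by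
  have : linSub (1 : Matrix (Fin m) (Fin m) F) = AlgHom.id F _ := by
    apply MvPolynomial.algHom_ext
    intro k
    simp [linSub, Matrix.one_apply]
  rw [this]; rfl

theorem linSub_hom {m : ℕ} (N : Matrix (Fin m) (Fin m) F) {f : MvPolynomial (Fin m) F} {n : ℕ}
    (hf : f.IsHomogeneous n) : (linSub N f).IsHomogeneous n := by
  have := hf.aeval (fun k => ∑ j, C (N k j) * X j) (n := 1) fun k =>
    IsHomogeneous.sum _ _ _ fun j _ => isHomogeneous_C_mul_X _ _
  simpa [linSub] using this

/-- The coefficients of the Lagrange curve. -/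
noncomputable def lagP (F : Type u) [Field F] (m : ℕ) (k : Fin m) : Polynomial F :=
  ∏ j ∈ univ.erase k, (Polynomial.X - Polynomial.C ((j : ℕ) : F))

theorem lagP_natDegree (m : ℕ) (k : Fin m) : (lagP F m k).natDegree < m := by
  rw [lagP, Polynomial.natDegree_prod_of_monic _ _ fun j _ => Polynomial.monic_X_sub_C _]
  simp only [Polynomial.natDegree_X_sub_C, sum_const, smul_eq_mul, mul_one]
  rw [card_erase_of_mem (mem_univ k), card_univ, Fintype.card_fin]
  have := k.2
  omega

noncomputable def lagM (F : Type u) [Field F] (m : ℕ) : Matrix (Fin m) (Fin m) F :=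
  fun k j => (lagP F m k).coeff j

theorem lagM_eval {A : Type*} [CommRing A] [Algebra F A] (m : ℕ) (k : Fin m) (y : A) :
    ∑ j : Fin m, algebraMap F A (lagM F m k j) * y ^ (j : ℕ) =
      ∏ j ∈ univ.erase k, (y - algebraMap F A ((j : ℕ) : F)) := by
  have h1 : Polynomial.aeval y (lagP F m k) = ∏ j ∈ univ.erase k, (y - algebraMap F A ((j : ℕ) : F)) := by
    simp [lagP, map_prod]
  rw [← h1, Polynomial.aeval_eq_sum_range' (lagP_natDegree m k), ← Fin.sum_univ_eq_sum_range
    (fun j => (lagP F m k).coeff j • y ^ j)]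
  refine sum_congr rfl fun j _ => ?_
  rw [Algebra.smul_def]; rfl

theorem exists_inv [CharZero F] (m : ℕ) : ∃ N : Matrix (Fin m) (Fin m) F, N * lagM F m = 1 := by
  set V : Matrix (Fin m) (Fin m) F := fun j t => ((t : ℕ) : F) ^ (j : ℕ) with hV
  set c : Fin m → F := fun k => ∏ j ∈ univ.erase k, (((k : ℕ) : F) - ((j : ℕ) : F)) with hc
  have hc0 : ∀ k, c k ≠ 0 := fun k => by
    rw [hc]
    simp only
    rw [prod_ne_zero_iff]
    intro j hj
    rw [sub_ne_zero]
    intro h
    have := Nat.cast_injective h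
    exact (mem_erase.1 hj).1 (Fin.ext this.symm)
  have hMV : lagM F m * V = Matrix.diagonal c := by
    ext k t
    rw [Matrix.mul_apply, Matrix.diagonal_apply]
    have := lagM_eval (F := F) (A := F) m k ((t : ℕ) : F)
    simp only [Algebra.algebraMap_self, RingHom.id_apply] at this
    rw [hV]
    simp only
    rw [this]
    split_ifs with h
    · subst h; rfl
    · exact prod_eq_zero (mem_erase.2 ⟨fun h' => h h'.symm, mem_univ t⟩) (sub_self _)
  refine ⟨V * Matrix.diagonal (fun k => (c k)⁻¹), ?_⟩
  rw [mul_eq_one_comm, ← Matrix.mul_assoc, hMV, Matrix.diagonal_mul_diagonal,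
    ← Matrix.diagonal_one]
  refine congrArg Matrix.diagonal (funext fun k => ?_)
  exact mul_inv_cancel₀ (hc0 k)

theorem genL_eq (m s : ℕ) (f : MvPolynomial (Fin m) F) :
    genL F m s f = genM F m s (linSub (lagM F m) f) := by
  have : genL F m s = (genM F m s).comp (linSub (lagM F m)) := by
    apply MvPolynomial.algHom_ext
    intro k
    simp only [AlgHom.comp_apply, linSub, genL, genM, aeval_X, map_sum, map_mul, algHom_C]
    simp only [mul_sum]
    rw [sum_comm]
    refine sum_congr rfl fun i _ => ?_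
    rw [← algebraMap_eq, ← lagM_eval m k (X (Sum.inl i) : MvPolynomial (Fin s ⊕ Fin s) F), mul_sum]
    refine sum_congr rfl fun j _ => ?_
    ring
  rw [this]; rfl

/-- From the Lagrange curve to the moment curve. -/
theorem exists_lin [CharZero F] (m s : ℕ) :
    ∃ A : MvPolynomial (Fin m) F →ₐ[F] MvPolynomial (Fin m) F,
      (∀ f n, f.IsHomogeneous n → (A f).IsHomogeneous n) ∧ (∀ f, A f = 0 → f = 0) ∧
      ∀ f, gen F m s (A f) = genM F m s f := by
  obtain ⟨N, hN⟩ := exists_inv (F := F) m
  have h : ∀ f, linSub (lagM F m) (linSub N f) = f := fun f => by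
    rw [linSub_comp, hN, linSub_one]
  refine ⟨linSub N, fun f n hf => linSub_hom N hf, fun f hf => ?_, fun f => ?_⟩
  · rw [← h f, hf, map_zero]
  · rw [← genL_gen, genL_eq, h]

end Pool.Agent.Lib.MP_64d474_lc.S3.H68
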