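import Pool.Agent.Lib.MP_64d474_lc.S3.Fin68
import Pool.Agent.Lib.MP_64d474_lc.S3.Hit35c

/-!
Three products: from the statements on forms to the test points.
-/

set_option autoImplicit false

namespace Pool.Agent.Lib.MP_64d474_lc.S3.H68

open MvPolynomial Finset

universe u

/-- Three products of forms of degree at most `d`, with `2 d ^ 2 + d + 2` seeds. -/
def StThree : Prop :=
  ∀ (F : Type u) [Field F] [CharZero F] (m d n : ℕ)
    (T : Fin 3 → Multiset (MvPolynomial (Fin m) F)), 0 < d →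
    (∀ i, Forms d (T i)) → (∀ i, (T i).prod.IsHomogeneous n) →
    gen F m (2 * d ^ 2 + d + 2) (∑ i, (T i).prod) = 0 → ∑ i, (T i).prod = 0

theorem stThree_of (hC : StCore.{u}) (hT : StTwo.{u}) : H68.StThree.{u} := by
  intro F _ _ m d n T hd hF hn h
  have e : 2 * d ^ 2 + d + 2 = d + (2 * d ^ 2 + 2) := by ring
  rw [e] at h
  refine three_gen35 hC hT F m d (2 * d ^ 2 + 2) n T le_rfl ?_ hF hn h
  nlinarith [Nat.le_self_pow two_ne_zero d]

/-- The point with the seeds `y` and `z`. -/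
def point {m D : ℕ} (y z : Fin D → ℕ) : Fin m → ℚ :=
  fun k => (∑ i, (z i : ℚ) * (y i : ℚ) ^ ((k : ℕ) + 1)) / ∑ i, (z i : ℚ)

theorem cast_point {F : Type u} [Field F] [CharZero F] {m D : ℕ} (y z : Fin D → ℕ) (k : Fin m) :
    ((point y z k : ℚ) : F) =
      (∑ i, (z i : F) * (y i : F) ^ ((k : ℕ) + 1)) / ∑ i, (z i : F) := by
  simp [point]

/-- The points for three products. -/
theorem three_points (h3 : StThree.{u}) (F : Type u) [Field F] [CharZero F] {m d N : ℕ}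
    (hd : 0 < d) (T : Fin 3 → Multiset (MvPolynomial (Fin m) F))
    (hT : ∀ i, ∀ P ∈ T i, P.totalDegree ≤ d) (hN : ∀ i, Multiset.card (T i) ≤ N)
    (h0 : ∑ i, (T i).prod ≠ 0) :
    ∃ y z : Fin (2 * d ^ 2 + d + 2) → ℕ, (∀ i, y i ≤ m * (d * N + 1)) ∧
      (∀ i, z i ≤ d * N + 1) ∧
      eval (fun k => ((point y z k : ℚ) : F)) (∑ i, (T i).prod) ≠ 0 := by
  obtain ⟨y, z, hy, hz, -, h⟩ := exists_point (F := F) (D := 2 * d ^ 2 + d + 2) hd
    (fun T hT hn hg => h3 F (m + 1) d (1 + d * N) T hd hT hn hg) T hT hN h0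
  refine ⟨y, z, hy, hz, ?_⟩
  simp only [cast_point]
  exact h

/-- The points for two products. -/
theorem two_points (h2 : StTwo.{u}) (F : Type u) [Field F] [CharZero F] {m d N : ℕ}
    (hd : 0 < d) (T : Fin 2 → Multiset (MvPolynomial (Fin m) F))
    (hT : ∀ i, ∀ P ∈ T i, P.totalDegree ≤ d) (hN : ∀ i, Multiset.card (T i) ≤ N)
    (h0 : ∑ i, (T i).prod ≠ 0) :
    ∃ y z : Fin (d + 2) → ℕ, (∀ i, y i ≤ m * (d * N + 1)) ∧
      (∀ i, z i ≤ d * N + 1) ∧
      eval (fun k => ((point y z k : ℚ) : F)) (∑ i, (T i).prod) ≠ 0 := by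
  obtain ⟨y, z, hy, hz, -, h⟩ := exists_point (F := F) (D := d + 2) hd
    (fun T hT hn hg => by
      rw [Fin.sum_univ_two] at hg ⊢
      exact h2 F (m + 1) d (d + 2) (T 0) (T 1) le_rfl (hT 0) (hT 1) hg) T hT hN h0
  refine ⟨y, z, hy, hz, ?_⟩
  simp only [cast_point]
  exact h

end Pool.Agent.Lib.MP_64d474_lc.S3.H68
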