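import Pool.Agent.Lib.MP_64d474_lc.S3.StBR64
import Pool.Agent.Lib.MP_64d474_lc.S3.GoodFin32

/-!
Row BR from row A.
-/

set_option autoImplicit false

namespace Pool.Agent.Lib.MP_64d474_lc.S3

open Polynomial

universe u

/-- Row BR follows from row A. -/
theorem stBR_glue (h : StGlue.{u}) : StBR.{u} := by
  refine B64.stBR_of (fun F _ _ m => ?_) (fun F _ _ m d s hs => ?_)
  · obtain ⟨K, _, _, χ, -, hχ⟩ := exists_good_ambient F m
    exact ⟨K, inferInstance, inferInstance, χ, fun D => B64.good_of_91 hχ le_top⟩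
  · obtain ⟨K, _, _, l, -, hl, -⟩ := exists_good_gen h F m d s hs
    exact ⟨K, inferInstance, inferInstance, l, B64.good_of_91 hl le_rfl⟩


end Pool.Agent.Lib.MP_64d474_lc.S3
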