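import Pool.Agent.Lib.MP_64d474_lc.S3.Defs69
import Pool.Agent.Lib.MP_64d474_lc.S3.Glue31

set_option autoImplicit false

/-!
Row A in the form of `StGlue`.
-/

namespace Pool.Agent.Lib.MP_64d474_lc.S3

open MvPolynomial

universe u

theorem gen_eq_glue31 (F : Type u) [Field F] (m s : ℕ) :
    gen F m s = Glue31.gen (Fin s) (fun k : Fin m =>
      ∏ j ∈ Finset.univ.erase k, (Polynomial.X - Polynomial.C ((j : ℕ) : F))) := by
  unfold gen Glue31.gen
  congr 1
  funext k
  unfold genX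
  apply Finset.sum_congr rfl
  intro i _
  congr 1
  rw [map_prod]
  apply Finset.prod_congr rfl
  intro j _
  rw [map_sub, Polynomial.aeval_X, Polynomial.aeval_C, algebraMap_eq]

theorem stGlue31 : StGlue.{u} := by
  intro F _ _ m d s hs
  have hl0 : ∀ (j t : Fin m), j ≠ t → Polynomial.eval (((t : ℕ) : F))
      (∏ i ∈ Finset.univ.erase j, (Polynomial.X - Polynomial.C ((i : ℕ) : F))) = 0 := by
    intro j t hjt
    rw [Polynomial.eval_prod]
    apply Finset.prod_eq_zero (i := t)
    · rw [Finset.mem_erase]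
      exact ⟨hjt.symm, Finset.mem_univ _⟩
    · simp
  have hl1 : ∀ (j : Fin m), Polynomial.eval (((j : ℕ) : F))
      (∏ i ∈ Finset.univ.erase j, (Polynomial.X - Polynomial.C ((i : ℕ) : F))) ≠ 0 := by
    intro j
    rw [Polynomial.eval_prod, Finset.prod_ne_zero_iff]
    intro i hi
    rw [Finset.mem_erase] at hi
    rw [Polynomial.eval_sub, Polynomial.eval_X, Polynomial.eval_C, sub_ne_zero]
    intro h
    rw [Nat.cast_inj] at h
    exact hi.1 (Fin.ext h.symm)
  rw [gen_eq_glue31]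
  refine ⟨fun k P hk hP hP0 => ?_, fun k l P Q hk hl hP hQ hP0 hQ0 hPQ => ?_⟩
  · exact Glue31.gen_ne_zero (a := fun j : Fin m => ((j : ℕ) : F)) hl0 hl1 hP hP0
      (by rw [Fintype.card_fin]; omega)
  · exact Glue31.relPrime_gen (a := fun j : Fin m => ((j : ℕ) : F)) hl0 hl1 hP hQ hP0 hQ0
      (by rw [Fintype.card_fin]; omega) (by rw [Fintype.card_fin]; omega) hPQ

end Pool.Agent.Lib.MP_64d474_lc.S3
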