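import Pool.Agent.Lib.MP_64d474_lc.S3.GoodFin32

/-! MP_64d474_lc, k = 3 (helper32): the statement `StLine` (58) from `StGlue`, spelled out. -/

set_option autoImplicit false

open Polynomial

namespace Pool.Agent.Lib.MP_64d474_lc.S3

universe u

theorem stLine32 (hG : StGlue.{u}) :
    ∀ (F : Type u) [Field F] [CharZero F] (m d s : ℕ), d + 2 ≤ s →
      ∃ (K : Type u) (_ : Field K) (_ : CharZero K)
        (psi : MvPolynomial (Fin s ⊕ Fin s) F →+* K[X]),
        (∀ (k : ℕ) (P : MvPolynomial (Fin m) F), k ≤ d → P.IsHomogeneous k → P ≠ 0 →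
          psi (gen F m s P) ≠ 0 ∧ (psi (gen F m s P)).natDegree = k) ∧
        (∀ (k l : ℕ) (P Q : MvPolynomial (Fin m) F), k ≤ d → l ≤ d → P.IsHomogeneous k →
          Q.IsHomogeneous l → P ≠ 0 → Q ≠ 0 → IsRelPrime P Q →
          IsCoprime (psi (gen F m s P)) (psi (gen F m s Q))) := by
  intro F _ _ m d s hs
  obtain ⟨K, _, hc, lam, h1, _, h3, h4⟩ := exists_good_gen hG F m d s hs
  obtain ⟨hA1, hA2⟩ := hG F m d s hs
  refine ⟨K, inferInstance, hc, lam, ?_, ?_⟩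
  · intro k P hk hP h0
    refine ⟨?_, h4 k P hP (hA1 k P hk hP h0)⟩
    rw [Ne, map_eq_zero_iff _ h1]
    exact hA1 k P hk hP h0
  · intro k l P Q hk hl hP hQ hP0 hQ0 hPQ
    exact h3 _ _ (hA2 k l P Q hk hl hP hQ hP0 hQ0 hPQ)

end Pool.Agent.Lib.MP_64d474_lc.S3
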