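import Pool.Agent.Lib.MP_64d474_lc.S3.Defs69
import Pool.Agent.Lib.MP_64d474_lc.S3.HomDvd58

set_option autoImplicit false

/-!
# Two products of forms of low degree (row TWO, helper70)
-/

namespace Pool.Agent.Lib.MP_64d474_lc.S3

open MvPolynomial

universe u

namespace Two70

variable {F : Type u} [Field F] {m : ℕ}

/-- all irreducible factors are forms of degree at most `d` -/
def Low (d : ℕ) (a : MvPolynomial (Fin m) F) : Prop :=
  ∀ P, Irreducible P → P ∣ a → ∃ k ≤ d, P.IsHomogeneous k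

theorem Low.of_dvd {d : ℕ} {a b : MvPolynomial (Fin m) F} (hb : Low d b) (h : a ∣ b) : Low d a :=
  fun P hP hd => hb P hP (hd.trans h)

theorem low_prod {d : ℕ} (T : Multiset (MvPolynomial (Fin m) F)) (hT : Forms d T)
    (h0 : T.prod ≠ 0) : Low d T.prod := by
  intro P hP hd
  obtain ⟨Q, hQ, hPQ⟩ := hP.prime.exists_mem_multiset_dvd hd
  obtain ⟨k, hk, hQk⟩ := hT Q hQ
  have hQ0 : Q ≠ 0 := fun h => h0 (Multiset.prod_eq_zero (h ▸ hQ))
  obtain ⟨R, rfl⟩ := hPQ
  obtain ⟨a, b, hab, ha, -⟩ := exists_isHomogeneous_of_mul hQk hQ0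
  exact ⟨a, by omega, ha⟩

theorem gen_ne_zero {d s : ℕ}
    (hlow : ∀ (k : ℕ) (P : MvPolynomial (Fin m) F), k ≤ d → P.IsHomogeneous k → P ≠ 0 →
      gen F m s P ≠ 0) (b : MvPolynomial (Fin m) F) (hb : b ≠ 0) (hbl : Low d b) :
    gen F m s b ≠ 0 := by
  induction b using WfDvdMonoid.induction_on_irreducible with
  | zero => exact absurd rfl hb
  | unit a ha => exact (ha.map (gen F m s)).ne_zero
  | mul a i ha hi ih =>
    rw [map_mul]
    refine mul_ne_zero ?_ (ih ha (hbl.of_dvd (Dvd.intro_left i rfl)))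
    obtain ⟨k, hk, hik⟩ := hbl i hi (Dvd.intro a rfl)
    exact hlow k i hk hik hi.ne_zero

theorem gen_isRelPrime {d s : ℕ}
    (hA : ∀ (k l : ℕ) (P Q : MvPolynomial (Fin m) F), k ≤ d → l ≤ d → P.IsHomogeneous k →
      Q.IsHomogeneous l → P ≠ 0 → Q ≠ 0 → IsRelPrime P Q → IsRelPrime (gen F m s P) (gen F m s Q))
    (P : MvPolynomial (Fin m) F) (hP0 : P ≠ 0) (k : ℕ) (hk : k ≤ d) (hPk : P.IsHomogeneous k)
    (b : MvPolynomial (Fin m) F) (hb : b ≠ 0) (hbl : Low d b) (hr : IsRelPrime P b) :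
    IsRelPrime (gen F m s P) (gen F m s b) := by
  induction b using WfDvdMonoid.induction_on_irreducible with
  | zero => exact absurd rfl hb
  | unit a ha => exact (ha.map (gen F m s)).isRelPrime_right
  | mul a i ha hi ih =>
    rw [map_mul]
    obtain ⟨l, hl, hil⟩ := hbl i hi (Dvd.intro a rfl)
    rw [IsRelPrime.mul_right_iff] at hr
    exact (hA k l P i hk hl hPk hil hP0 hi.ne_zero hr.1).mul_right
      (ih ha (hbl.of_dvd (Dvd.intro_left i rfl)) hr.2)

theorem eval_zero_gen {s : ℕ} (P : MvPolynomial (Fin m) F) :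
    eval (0 : Fin s ⊕ Fin s → F) (gen F m s P) = eval 0 P := by
  unfold gen
  rw [map_aeval]
  have h : (eval (0 : Fin s ⊕ Fin s → F)).comp
      (algebraMap F (MvPolynomial (Fin s ⊕ Fin s) F)) = RingHom.id F := by
    ext a
    rw [RingHom.comp_apply, show (algebraMap F (MvPolynomial (Fin s ⊕ Fin s) F)) a = C a from rfl,
      eval_C]
    rfl
  rw [h]
  have h2 : (fun k => eval (0 : Fin s ⊕ Fin s → F) (genX F m s k)) = 0 := by
    funext k
    simp [genX]
  rw [h2]
  rfl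

theorem isUnit_of_homogeneous_zero {P : MvPolynomial (Fin m) F} (h0 : P ≠ 0)
    (h : P.IsHomogeneous 0) : ∃ c : F, c ≠ 0 ∧ P = C c := by
  have h1 := totalDegree_eq_zero_iff_eq_C.mp (h.totalDegree h0)
  refine ⟨coeff 0 P, ?_, h1⟩
  intro h2
  rw [h2, C_0] at h1
  exact h0 h1

theorem not_isUnit_gen {s k : ℕ} (P : MvPolynomial (Fin m) F) (hP : Irreducible P)
    (hPk : P.IsHomogeneous k) : ¬ IsUnit (gen F m s P) := by
  intro hu
  have h1 := (hu.map (eval (0 : Fin s ⊕ Fin s → F))).ne_zero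
  rw [eval_zero_gen] at h1
  have hk : k = 0 := by
    by_contra hk
    apply h1
    have h2 := hPk.coeff_eq_zero (d := 0) (by simpa using fun h => hk h.symm)
    rw [MvPolynomial.eval_zero, constantCoeff_eq]
    exact h2
  subst hk
  obtain ⟨c, hc, rfl⟩ := isUnit_of_homogeneous_zero hP.ne_zero hPk
  exact hP.not_isUnit ((isUnit_iff_ne_zero.mpr hc).map (C : F →+* MvPolynomial (Fin m) F))

/-- A product of forms of low degree that becomes divisible by a coprime one is a unit. -/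
theorem isUnit_of_gen {d s : ℕ}
    (hA : ∀ (k l : ℕ) (P Q : MvPolynomial (Fin m) F), k ≤ d → l ≤ d → P.IsHomogeneous k →
      Q.IsHomogeneous l → P ≠ 0 → Q ≠ 0 → IsRelPrime P Q → IsRelPrime (gen F m s P) (gen F m s Q))
    (a b : MvPolynomial (Fin m) F) (ha : a ≠ 0) (hb : b ≠ 0) (hal : Low d a) (hbl : Low d b)
    (hr : IsRelPrime a b) (h : gen F m s a + gen F m s b = 0) : IsUnit a := by
  by_contra hu
  obtain ⟨P, hP, hPa⟩ := WfDvdMonoid.exists_irreducible_factor hu ha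
  obtain ⟨k, hk, hPk⟩ := hal P hP hPa
  have h1 : gen F m s P ∣ gen F m s a := map_dvd _ hPa
  have h2 : gen F m s P ∣ gen F m s b := by
    rw [show gen F m s b = -gen F m s a by rw [← sub_eq_zero, sub_neg_eq_add, add_comm]; exact h]
    exact (dvd_neg).mpr h1
  have h3 : IsRelPrime P b := fun x hx1 hx2 => hr (hx1.trans hPa) hx2
  exact not_isUnit_gen P hP hPk
    (gen_isRelPrime hA P hP.ne_zero k hk hPk b hb hbl h3 dvd_rfl h2)

end Two70

open Two70 in
/-- **Row TWO.** -/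
theorem two70 (hG : StGlue.{u}) : StTwo.{u} := by
  intro F _ _ m d s T₁ T₂ hs h1 h2 h
  obtain ⟨hlow, hA⟩ := hG F m d s hs
  by_cases ht1 : T₁.prod = 0
  · by_contra hne
    rw [ht1, zero_add] at h hne
    exact gen_ne_zero hlow _ hne (low_prod T₂ h2 hne) h
  by_cases ht2 : T₂.prod = 0
  · exfalso
    rw [ht2, add_zero] at h
    exact gen_ne_zero hlow _ ht1 (low_prod T₁ h1 ht1) h
  obtain ⟨a, b, c, hr, hca, hcb⟩ :=
    UniqueFactorizationMonoid.exists_reduced_factors T₁.prod ht1 T₂.prod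
  have hl1 := low_prod T₁ h1 ht1
  have hl2 := low_prod T₂ h2 ht2
  rw [← hca, ← hcb] at h ⊢
  rw [← hca] at ht1 hl1
  rw [← hcb] at ht2 hl2
  have hc0 : c ≠ 0 := left_ne_zero_of_mul ht1
  have ha0 : a ≠ 0 := right_ne_zero_of_mul ht1
  have hb0 : b ≠ 0 := right_ne_zero_of_mul ht2
  have hal : Low d a := hl1.of_dvd (Dvd.intro_left c rfl)
  have hbl : Low d b := hl2.of_dvd (Dvd.intro_left c rfl)
  have hcl : Low d c := hl1.of_dvd (Dvd.intro a rfl)
  have hgc := gen_ne_zero hlow c hc0 hcl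
  rw [← mul_add, map_mul, map_add] at h
  have hab : gen F m s a + gen F m s b = 0 := (mul_eq_zero.mp h).resolve_left hgc
  have hua := isUnit_of_gen hA a b ha0 hb0 hal hbl hr hab
  have hub := isUnit_of_gen hA b a hb0 ha0 hbl hal hr.symm (by rw [add_comm]; exact hab)
  obtain ⟨α, -, hα⟩ := isUnit_iff_eq_C_of_isReduced.mp hua
  obtain ⟨β, -, hβ⟩ := isUnit_iff_eq_C_of_isReduced.mp hub
  rw [hα, hβ] at hab ⊢
  rw [← mul_add, ← C_add]
  have h5 : gen F m s (C (α + β)) = C (α + β) := by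
    rw [show (C (α + β) : MvPolynomial (Fin m) F) = algebraMap F _ (α + β) from rfl,
      AlgHom.commutes]
    rfl
  rw [← map_add, ← C_add, h5, C_eq_zero] at hab
  rw [hab, C_0, mul_zero]

end Pool.Agent.Lib.MP_64d474_lc.S3
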