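import Mathlib
import Pool.Agent.Lib.MP_64d474_lc.S3.Res68
import Pool.Agent.Lib.MP_64d474_lc.S3.Core58
import Pool.Agent.Lib.MP_64d474_lc.S3.StLine32
import Pool.Agent.Lib.MP_64d474_lc.S3.StBRG64
import Pool.Agent.Lib.MP_64d474_lc.S3.StGlue31
import Pool.Agent.Lib.MP_64d474_lc.S3.Two70

set_option autoImplicit false

/-!
# Sums of three products of polynomials of low degree: the assembly
-/

namespace Pool.Agent.Lib.MP_64d474_lc.S3

open MvPolynomial

universe u

theorem stBR69 : StBR.{u} := stBR_glue stGlue31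

theorem stCore69 : StCore.{u} := core58 stBR69 (stLine32 stGlue31)

theorem stTwo69 : StTwo.{u} := two70 stGlue31

theorem stThree69 : H68.StThree.{u} := H68.stThree_of stCore69 stTwo69

end Pool.Agent.Lib.MP_64d474_lc.S3
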