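import Pool.Agent.Lib.MP_64d474_lc.S3.Res68
import Pool.Agent.Lib.MP_64d474_lc.S3.Deg68
import Pool.Agent.Lib.MP_64d474_lc.S3.StGlue31
import Pool.Agent.Lib.MP_64d474_lc.S3.StBRG64
import Pool.Agent.Lib.MP_64d474_lc.S3.StLine32
import Pool.Agent.Lib.MP_64d474_lc.S3.Core58
import Pool.Agent.Lib.MP_64d474_lc.S3.Two70

/-!
Three products: the test points, products of degree at most `n` of polynomials of degree at most
`d`.
-/

set_option autoImplicit false

namespace Pool.Agent.Lib.MP_64d474_lc.S3.H68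

open MvPolynomial Finset

universe u

theorem stTwo : StTwo.{u} := two70 stGlue31

theorem stThree : H68.StThree.{u} :=
  stThree_of (core58 (stBR_glue stGlue31) (stLine32 stGlue31)) stTwo

/-- The points for three products. -/
theorem three_points_deg (F : Type u) [Field F] [CharZero F] {m d n : ℕ}
    (hd : 0 < d) (T : Fin 3 → Multiset (MvPolynomial (Fin m) F))
    (hT : ∀ i, ∀ P ∈ T i, P.totalDegree ≤ d) (hn : ∀ i, (T i).prod.totalDegree ≤ n)
    (h0 : ∑ i, (T i).prod ≠ 0) :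
    ∃ y z : Fin (2 * d ^ 2 + d + 2) → ℕ, (∀ i, y i ≤ m * (n + 1)) ∧ (∀ i, z i ≤ n + 1) ∧
      eval (fun k => ((point y z k : ℚ) : F)) (∑ i, (T i).prod) ≠ 0 := by
  obtain ⟨y, z, hy, hz, -, h⟩ := exists_point_deg (F := F) (D := 2 * d ^ 2 + d + 2) hd
    (fun T hT hn hg => stThree F (m + 1) d (1 + n) T hd hT hn hg) T hT hn h0
  refine ⟨y, z, hy, hz, ?_⟩
  simp only [cast_point]
  exact h

/-- The points for two products. -/
theorem two_points_deg (F : Type u) [Field F] [CharZero F] {m d n : ℕ}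
    (hd : 0 < d) (T : Fin 2 → Multiset (MvPolynomial (Fin m) F))
    (hT : ∀ i, ∀ P ∈ T i, P.totalDegree ≤ d) (hn : ∀ i, (T i).prod.totalDegree ≤ n)
    (h0 : ∑ i, (T i).prod ≠ 0) :
    ∃ y z : Fin (d + 2) → ℕ, (∀ i, y i ≤ m * (n + 1)) ∧ (∀ i, z i ≤ n + 1) ∧
      eval (fun k => ((point y z k : ℚ) : F)) (∑ i, (T i).prod) ≠ 0 := by
  obtain ⟨y, z, hy, hz, -, h⟩ := exists_point_deg (F := F) (D := d + 2) hd
    (fun T hT hn hg => by
      rw [Fin.sum_univ_two] at hg ⊢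
      exact stTwo F (m + 1) d (d + 2) (T 0) (T 1) le_rfl (hT 0) (hT 1) hg) T hT hn h0
  refine ⟨y, z, hy, hz, ?_⟩
  simp only [cast_point]
  exact h

end Pool.Agent.Lib.MP_64d474_lc.S3.H68
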