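import Pool.Agent.Lib.MP_64d474_lc.S3.Br64
import Pool.Agent.Lib.MP_64d474_lc.S3.Br91

/-!
The bracket in the form of the row table.
-/

set_option autoImplicit false

namespace Pool.Agent.Lib.MP_64d474_lc.S3.B64

open Polynomial S3Norm97 Pool.Agent.Lib.MP_64d474_lc.S3

universe u v

theorem good_of_91 {F : Type u} [Field F] {σ : Type v} {K : Type u} [Field K]
    {χ : MvPolynomial σ F →+* K[X]} {D : ℕ} {E : ℕ∞} (h : S3.Good χ E) (hD : (D : ℕ∞) ≤ E) :
    B64.Good χ D where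
  cop P Q p q hP hQ hp hq hP0 hQ0 hrel τ :=
    h.coprime P Q p q hP hQ ((Nat.cast_le.mpr hp).trans hD) ((Nat.cast_le.mpr hq).trans hD) hP0
      hQ0 hrel τ
  root S n hS hn hnD hS0 := h.root S n hS hn ((Nat.cast_le.mpr hnD).trans hD) hS0
  inj P n hP hn hP0 := h.ne P n hP ((Nat.cast_le.mpr hn).trans hD) hP0

theorem exists_index {R : Type*} [CommMonoid R] (T₁ T₂ : Multiset R) :
    ∃ (κ : Type) (_ : DecidableEq κ) (s t : Finset κ) (P : κ → R),
      ∏ x ∈ s, P x = T₁.prod ∧ ∏ x ∈ t, P x = T₂.prod ∧ ∀ x ∈ s ∪ t, P x ∈ T₁ ∨ P x ∈ T₂ := by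
  induction T₁ using Quotient.inductionOn with
  | h l₁ =>
  induction T₂ using Quotient.inductionOn with
  | h l₂ =>
  refine ⟨Fin l₁.length ⊕ Fin l₂.length, inferInstance,
    Finset.univ.map ⟨Sum.inl, Sum.inl_injective⟩, Finset.univ.map ⟨Sum.inr, Sum.inr_injective⟩,
    Sum.elim (fun i => l₁.get i) (fun i => l₂.get i), ?_, ?_, ?_⟩
  · rw [Finset.prod_map]
    simp only [Function.Embedding.coeFn_mk, Sum.elim_inl]
    rw [← List.prod_ofFn, List.ofFn_get]
    rfl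
  · rw [Finset.prod_map]
    simp only [Function.Embedding.coeFn_mk, Sum.elim_inr]
    rw [← List.prod_ofFn, List.ofFn_get]
    rfl
  · rintro (i | i) _
    · left
      exact List.get_mem l₁ i
    · right
      exact List.get_mem l₂ i

theorem Phi_eq (F : Type u) [Field F] (m s : ℕ) (e : Fin m → F) (P : MvPolynomial (Fin m) F) :
    Phi F m s e P = (sh e P).map (gen F m s).toRingHom := by
  have hC : ∀ a : F, (gen F m s).toRingHom (MvPolynomial.C a) = MvPolynomial.C a :=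
    fun a => (gen F m s).commutes a
  have hX : ∀ i, (gen F m s).toRingHom (MvPolynomial.X i) = genX F m s i := fun i =>
    MvPolynomial.aeval_X _ _
  have hPC : ∀ a : F, (Phi F m s e).toRingHom (MvPolynomial.C a) =
      Polynomial.C (MvPolynomial.C a) := fun a => (Phi F m s e).commutes a
  have hPX : ∀ i, (Phi F m s e).toRingHom (MvPolynomial.X i) =
      Polynomial.C (genX F m s i) + Polynomial.X * Polynomial.C (MvPolynomial.C (e i)) := fun i =>
    MvPolynomial.aeval_X _ _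
  have hSC : ∀ a : F, (sh e).toRingHom (MvPolynomial.C a : MvPolynomial (Fin m) F) =
      Polynomial.C (MvPolynomial.C a) := fun a => (sh e).commutes a
  have hSX : ∀ i, (sh e).toRingHom (MvPolynomial.X i : MvPolynomial (Fin m) F) =
      Polynomial.C (MvPolynomial.X i) + Polynomial.C (MvPolynomial.C (e i)) * Polynomial.X :=
    fun i => MvPolynomial.aeval_X _ _
  have h : (Phi F m s e).toRingHom =
      (Polynomial.mapRingHom (gen F m s).toRingHom).comp (sh e).toRingHom := by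
    apply MvPolynomial.ringHom_ext
    · intro a
      rw [RingHom.comp_apply, hPC, hSC, Polynomial.coe_mapRingHom, Polynomial.map_C, hC]
    · intro i
      rw [RingHom.comp_apply, hPX, hSX, Polynomial.coe_mapRingHom, Polynomial.map_add,
        Polynomial.map_mul, Polynomial.map_C, Polynomial.map_C, Polynomial.map_X, hC, hX,
        mul_comm]
  exact congrArg (fun f => f P) h

theorem bracket_multiset {F : Type u} [Field F] {σ : Type v} {K K1 : Type*} [Field K] [CharZero K]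
    [Field K1] [CharZero K1]
    {χ : MvPolynomial σ F →+* K[X]} {χ1 : MvPolynomial σ F →+* K1[X]}
    (hG : ∀ D, Good χ D) {D d b n : ℕ} (hG1 : Good χ1 D) (hD : 2 * d ^ 2 ≤ D)
    (hbd : b ≤ d) {e : σ → F} {B : MvPolynomial σ F} (hB : B.IsHomogeneous b)
    (hBi : Irreducible B) (he : MvPolynomial.eval e B ≠ 0)
    (T₁ T₂ : Multiset (MvPolynomial σ F))
    (h₁ : ∀ P ∈ T₁, ∃ k ≤ d, P.IsHomogeneous k) (h₂ : ∀ P ∈ T₂, ∃ k ≤ d, P.IsHomogeneous k)
    (hs : T₁.prod.IsHomogeneous n) (ht : T₂.prod.IsHomogeneous n)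
    (hB₁ : ¬ B ∣ T₁.prod) (hB₂ : ¬ B ∣ T₂.prod)
    (hdiv : (sh e B).map χ1 ∣ (sh e (T₁.prod + T₂.prod)).map χ1) :
    B ∣ T₁.prod + T₂.prod := by
  obtain ⟨κ, _, s, t, P, hPs, hPt, hmem⟩ := exists_index T₁ T₂
  have hBP : ∀ x ∈ s ∪ t, ¬ B ∣ P x := by
    intro x hx h
    rcases hmem x hx with h3 | h3
    · exact hB₁ (h.trans (Multiset.dvd_prod h3))
    · exact hB₂ (h.trans (Multiset.dvd_prod h3))
  have hP0 : ∀ x ∈ s ∪ t, P x ≠ 0 := by
    intro x hx h
    exact hBP x hx (by rw [h]; exact dvd_zero _)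
  have hk : ∀ x ∈ s ∪ t, ∃ k ≤ d, (P x).IsHomogeneous k := by
    intro x hx
    rcases hmem x hx with h3 | h3
    · exact h₁ _ h3
    · exact h₂ _ h3
  have hdg : ∀ x ∈ s ∪ t, (P x).IsHomogeneous (P x).totalDegree ∧ (P x).totalDegree ≤ d := by
    intro x hx
    obtain ⟨k, hkd, hkh⟩ := hk x hx
    have h4 := hkh.totalDegree (hP0 x hx)
    rw [h4]
    exact ⟨hkh, hkd⟩
  rw [← hPs, ← hPt] at hdiv ⊢
  rw [← hPs] at hs
  rw [← hPt] at ht
  exact bracket_fin hG hG1 hD hbd hB hBi he s t P (fun x => (P x).totalDegree)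
    (fun x hx => (hdg x hx).1) (fun x hx => (hdg x hx).2) hBP hs ht hdiv

/-- Row BR from the two lines -/
theorem stBR_of
    (hA : ∀ (F : Type u) [Field F] [CharZero F] (m : ℕ), ∃ (K : Type u) (_ : Field K)
      (_ : CharZero K) (χ : MvPolynomial (Fin m) F →+* K[X]), ∀ D : ℕ, B64.Good χ D)
    (hL : ∀ (F : Type u) [Field F] [CharZero F] (m d s : ℕ), d + 2 ≤ s → ∃ (K : Type u)
      (_ : Field K) (_ : CharZero K) (l : MvPolynomial (Fin s ⊕ Fin s) F →+* K[X]),
      B64.Good (l.comp (gen F m s).toRingHom) d) : StBR.{u} := by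
  intro F _ _ m d s n b e B T₁ T₂ hs hbd hB hBi he hF₁ hF₂ hT₁ hT₂ hB₁ hB₂ hdiv
  obtain ⟨K, _, _, χ, hχ⟩ := hA F m
  obtain ⟨K1, _, _, l, hl⟩ := hL F m (2 * d ^ 2) s hs
  refine bracket_multiset hχ hl le_rfl hbd hB hBi he T₁ T₂ hF₁ hF₂ hT₁ hT₂ hB₁ hB₂ ?_
  rw [Phi_eq, Phi_eq] at hdiv
  rw [← Polynomial.map_map, ← Polynomial.map_map]
  exact Polynomial.map_dvd l hdiv

end Pool.Agent.Lib.MP_64d474_lc.S3.B64
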