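import Mathlib
import Pool.Agent.Lib.MP_64d474_lc.S3.Br8b
import Pool.Agent.Lib.MP_64d474_lc.S3.Defs69

/-! Row BR: `StBR` of Defs69 from the existence of the two lines. -/

set_option autoImplicit false

namespace MP64d474
namespace S3
namespace Br8

open Polynomial Pool.Agent.Lib.MP_64d474_lc.S3 S3Norm97

universe u

/-- The existence of the ambient line and of the line of the section. -/
def StLines : Prop :=
  ∀ (F : Type u) [Field F] [CharZero F] (m s D : ℕ), D + 2 ≤ s →
    ∃ (K : Type u) (_ : Field K) (_ : CharZero K) (K' : Type u) (_ : Field K') (_ : CharZero K')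
      (χ : MvPolynomial (Fin m) F →+* K[X]) (l : MvPolynomial (Fin s ⊕ Fin s) F →+* K'[X]),
      Good χ ⊤ ∧ Good (l.comp (gen F m s).toRingHom) (D : ℕ∞)

theorem map_sh {F : Type u} [Field F] (m s : ℕ) (e : Fin m → F) (P : MvPolynomial (Fin m) F) :
    (sh e P).map (gen F m s).toRingHom = Phi F m s e P := by
  have h : (Polynomial.mapRingHom (gen F m s).toRingHom).comp (sh e).toRingHom =
      (Phi F m s e).toRingHom := by
    apply MvPolynomial.ringHom_ext
    · intro a
      have h1 : (Phi F m s e) (MvPolynomial.C a) = Polynomial.C (MvPolynomial.C a) := by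
        have := (Phi F m s e).commutes a
        rw [MvPolynomial.algebraMap_eq] at this
        rw [this, IsScalarTower.algebraMap_apply F (MvPolynomial (Fin s ⊕ Fin s) F)
          (Polynomial (MvPolynomial (Fin s ⊕ Fin s) F)), MvPolynomial.algebraMap_eq,
          Polynomial.algebraMap_eq]
      simp only [RingHom.comp_apply, AlgHom.toRingHom_eq_coe, RingHom.coe_coe,
        Polynomial.coe_mapRingHom]
      rw [h1, sh_C97, Polynomial.map_C]
      simp
    · intro i
      simp only [RingHom.comp_apply, AlgHom.toRingHom_eq_coe, RingHom.coe_coe,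
        Polynomial.coe_mapRingHom]
      rw [sh_X97, Polynomial.map_add, Polynomial.map_mul, Polynomial.map_C, Polynomial.map_C,
        Polynomial.map_X, Phi, MvPolynomial.aeval_X]
      have h1 : (gen F m s).toRingHom (MvPolynomial.X i) = genX F m s i := by
        simp [gen]
      have h2 : (gen F m s).toRingHom (MvPolynomial.C (e i)) = MvPolynomial.C (e i) := by
        simp
      simp only [AlgHom.toRingHom_eq_coe] at h1 h2
      rw [h1, h2, mul_comm]
  exact congrArg (fun f => f P) h

theorem stBR_of_lines (H : StLines.{u}) : StBR.{u} := by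
  intro F _ _ m d s n b e B T₁ T₂ hs hbd hB hBirr he hT₁ hT₂ hn₁ hn₂ hB₁ hB₂ hdiv
  obtain ⟨K, _, _, K', _, _, χ, l, hχ, hl⟩ := H F m s (2 * d ^ 2) hs
  apply bracket3 χ (l.comp (gen F m s).toRingHom) d b n hχ hl e B hbd hB hBirr he T₁ T₂ hT₁ hT₂
    hn₁ hn₂ hB₁ hB₂
  rw [← Polynomial.map_map, ← Polynomial.map_map, map_sh, map_sh]
  exact Polynomial.map_dvd l hdiv

end Br8
end S3
end MP64d474
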