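import Pool.Agent.Lib.MP_64d474_lc.S3.Two70

set_option autoImplicit false

/-!
# From the core to the generator, three products of forms (helper70)
-/

namespace Pool.Agent.Lib.MP_64d474_lc.S3

open MvPolynomial

universe u

/-- Three products of forms of degree at most `d`: the generator with `d + 2 + s` seeds. -/
def StThree : Prop :=
  ∀ (F : Type u) [Field F] [CharZero F] (m d s n : ℕ)
    (T : Fin 3 → Multiset (MvPolynomial (Fin m) F)),
    2 * d ^ 2 + 2 ≤ s → d + 2 ≤ s → (∀ i, Forms d (T i)) → (∀ i, (T i).prod.IsHomogeneous n) →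
    gen F m (d + 2 + s) (∑ i, (T i).prod) = 0 → ∑ i, (T i).prod = 0

namespace Three70

variable {F : Type u} [Field F] {m : ℕ}

/-- The homomorphism that fixes the first seeds. -/
noncomputable def spec (s₀ s₁ : ℕ) (x : Fin s₀ ⊕ Fin s₀ → F) :
    MvPolynomial (Fin (s₀ + s₁) ⊕ Fin (s₀ + s₁)) F →ₐ[F]
      Polynomial (MvPolynomial (Fin s₁ ⊕ Fin s₁) F) :=
  aeval (Sum.elim
    (Fin.append (fun i => Polynomial.C (C (x (Sum.inl i)))) fun i => Polynomial.C (X (Sum.inl i)))
    (Fin.append (fun i => Polynomial.X * Polynomial.C (C (x (Sum.inr i))))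
      fun i => Polynomial.C (X (Sum.inr i))))

theorem spec_genX (s₀ s₁ : ℕ) (x : Fin s₀ ⊕ Fin s₀ → F) (k : Fin m) :
    spec s₀ s₁ x (genX F m (s₀ + s₁) k) =
      Polynomial.C (genX F m s₁ k) + Polynomial.X * Polynomial.C (C (eval x (genX F m s₀ k))) := by
  unfold genX spec
  rw [map_sum, Fin.sum_univ_add, add_comm]
  congr 1
  · rw [map_sum]
    refine Finset.sum_congr rfl fun i _ => ?_
    rw [map_mul, map_prod, map_mul, map_prod, aeval_X]
    simp only [Sum.elim_inr, Fin.append_right, map_sub, aeval_X, Sum.elim_inl]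
    congr 1
    refine Finset.prod_congr rfl fun j _ => ?_
    congr 1
    rw [aeval_C]
    rfl
  · rw [map_sum, map_sum, map_sum, Finset.mul_sum]
    refine Finset.sum_congr rfl fun i _ => ?_
    rw [map_mul, map_prod, aeval_X, map_mul, map_prod, eval_X]
    simp only [Sum.elim_inr, Fin.append_left, map_sub, aeval_X, Sum.elim_inl, eval_X, eval_C]
    rw [map_mul, map_mul, mul_assoc]
    congr 2
    rw [map_prod, map_prod]
    refine Finset.prod_congr rfl fun j _ => ?_
    rw [map_sub, map_sub]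
    congr 1
    rw [aeval_C]
    rfl

theorem spec_gen (s₀ s₁ : ℕ) (x : Fin s₀ ⊕ Fin s₀ → F) (f : MvPolynomial (Fin m) F) :
    spec s₀ s₁ x (gen F m (s₀ + s₁) f) = Phi F m s₁ (fun k => eval x (genX F m s₀ k)) f := by
  unfold gen Phi
  rw [← AlgHom.comp_apply]
  congr 1
  apply MvPolynomial.algHom_ext
  intro k
  rw [AlgHom.comp_apply, aeval_X, aeval_X]
  exact spec_genX s₀ s₁ x k

theorem eval_gen (s : ℕ) (x : Fin s ⊕ Fin s → F) (f : MvPolynomial (Fin m) F) :
    eval x (gen F m s f) = eval (fun k => eval x (genX F m s k)) f := by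
  unfold gen
  rw [map_aeval]
  have h : (eval x).comp (algebraMap F (MvPolynomial (Fin s ⊕ Fin s) F)) = RingHom.id F := by
    ext a
    rw [RingHom.comp_apply, show (algebraMap F (MvPolynomial (Fin s ⊕ Fin s) F)) a = C a from rfl,
      eval_C]
    rfl
  rw [h]
  rfl

/-- One part of the seeds is spent on a direction. -/
theorem exists_direction [Infinite F] {s₀ s₁ : ℕ} {f Q : MvPolynomial (Fin m) F}
    (hf : gen F m (s₀ + s₁) f = 0) (hQ : gen F m s₀ Q ≠ 0) :
    ∃ e : Fin m → F, eval e Q ≠ 0 ∧ Phi F m s₁ e f = 0 := by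
  obtain ⟨x, hx⟩ : ∃ x : Fin s₀ ⊕ Fin s₀ → F, eval x (gen F m s₀ Q) ≠ 0 := by
    by_contra h
    exact hQ (MvPolynomial.funext fun x => by
      rw [map_zero]; by_contra hx; exact h ⟨x, hx⟩)
  refine ⟨fun k => eval x (genX F m s₀ k), ?_, ?_⟩
  · rwa [← eval_gen]
  · rw [← spec_gen, hf, map_zero]

end Three70

open Two70 Three70 in
theorem three70 (hG : StGlue.{u}) (hC : StCore.{u}) : StThree.{u} := by
  intro F _ _ m d s n T hs1 hs2 hT hn h
  by_cases h0 : ∃ i, (T i).prod = 0
  · have h2 := two70 hG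
    obtain ⟨i, hi⟩ := h0
    have hle : d + 2 ≤ d + 2 + s := Nat.le_add_right _ _
    rw [Fin.sum_univ_three] at h ⊢
    fin_cases i
    · have hi' : (T 0).prod = 0 := hi
      rw [hi', zero_add] at h ⊢
      exact h2 F m d _ _ _ hle (hT 1) (hT 2) h
    · have hi' : (T 1).prod = 0 := hi
      rw [hi', add_zero] at h ⊢
      exact h2 F m d _ _ _ hle (hT 0) (hT 2) h
    · have hi' : (T 2).prod = 0 := hi
      rw [hi', add_zero] at h ⊢
      exact h2 F m d _ _ _ hle (hT 0) (hT 1) h
  · push Not at h0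
    obtain ⟨hlow, -⟩ := hG F m d (d + 2) le_rfl
    have hQ : gen F m (d + 2) (∏ i, (T i).prod) ≠ 0 := by
      rw [map_prod]
      exact Finset.prod_ne_zero_iff.mpr fun i _ =>
        gen_ne_zero hlow _ (h0 i) (low_prod (T i) (hT i) (h0 i))
    obtain ⟨e, he, hPhi⟩ := exists_direction h hQ
    refine hC F m d s n e T hs1 hs2 hT hn ?_ hPhi
    intro i P hP h1
    apply he
    rw [map_prod]
    refine Finset.prod_eq_zero (Finset.mem_univ i) ?_
    rw [map_multiset_prod]
    exact Multiset.prod_eq_zero (Multiset.mem_map.mpr ⟨P, hP, h1⟩)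

end Pool.Agent.Lib.MP_64d474_lc.S3
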