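import Pool.Agent.Lib.MP_64d474_lc.S3.Defs69
import Pool.Agent.Lib.MP_64d474_lc.S3.HomDvd58

set_option autoImplicit false

/-!
# Row TWO: two products (from the gluing row)
-/

namespace Pool.Agent.Lib.MP_64d474_lc.S3.T86

open MvPolynomial

universe u

variable {F : Type u} [Field F] {m : ℕ}

/-- The generator at the zero seed is the zero vector. -/
theorem eval_zero_gen (s : ℕ) (P : MvPolynomial (Fin m) F) :
    eval (0 : Fin s ⊕ Fin s → F) (gen F m s P) = eval 0 P := by
  have h : (eval (0 : Fin s ⊕ Fin s → F)).comp (gen F m s).toRingHom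
      = eval (0 : Fin m → F) := by
    apply MvPolynomial.ringHom_ext
    · intro r
      simp [gen]
    · intro i
      simp [gen, genX]
  exact congrArg (fun f => f P) h

/-- The image of a form of positive degree is not a unit. -/
theorem not_isUnit_gen (s : ℕ) {P : MvPolynomial (Fin m) F} {k : ℕ} (hP : P.IsHomogeneous k)
    (hk : k ≠ 0) : ¬ IsUnit (gen F m s P) := by
  intro h
  have h1 := h.map (eval (0 : Fin s ⊕ Fin s → F))
  rw [eval_zero_gen] at h1
  have h2 : eval (0 : Fin m → F) P = 0 := by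
    rw [MvPolynomial.eval_zero, constantCoeff_eq]
    exact hP.coeff_eq_zero (by simpa using hk.symm)
  rw [h2] at h1
  exact not_isUnit_zero h1

/-- An irreducible factor of a product of forms of degree at most `d` is a form of degree between
`1` and `d`. -/
theorem irr_form {d : ℕ} {T : Multiset (MvPolynomial (Fin m) F)} (hT : Forms d T)
    (h0 : T.prod ≠ 0) {p : MvPolynomial (Fin m) F} (hp : Irreducible p) (hd : p ∣ T.prod) :
    ∃ k, k ≠ 0 ∧ k ≤ d ∧ p.IsHomogeneous k := by
  obtain ⟨Q, hQ, hpQ⟩ := hp.prime.exists_mem_multiset_dvd hd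
  obtain ⟨k, hk, hQk⟩ := hT Q hQ
  have hQ0 : Q ≠ 0 := by
    rintro rfl
    exact h0 (Multiset.prod_eq_zero hQ)
  have hph := isHomogeneous_of_dvd hQk hQ0 hpQ
  refine ⟨p.totalDegree, ?_, ?_, hph⟩
  · intro h
    rw [h] at hph
    have h1 : p = C (coeff 0 p) := totalDegree_eq_zero_iff_eq_C.mp h
    apply hp.not_isUnit
    rw [h1]
    refine IsUnit.map C (isUnit_iff_ne_zero.mpr ?_)
    intro h2
    rw [h2, map_zero] at h1
    exact hp.ne_zero h1
  · have h1 := totalDegree_le_of_dvd_of_isDomain hpQ hQ0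
    exact h1.trans (hQk.totalDegree_le.trans hk)

/-- Two products. -/
theorem two86 (hA : StGlue.{u}) : StTwo.{u} := by
  classical
  intro F _ _ m d s T₁ T₂ hs hT₁ hT₂ hz
  have hA' := hA F m d s hs
  by_cases h1 : T₁.prod = 0
  · rw [h1, zero_add] at hz ⊢
    by_contra h2
    rw [map_multiset_prod] at hz
    obtain ⟨P, hP, hP0⟩ := Multiset.mem_map.mp (Multiset.prod_eq_zero_iff.mp hz)
    obtain ⟨k, hk, hPk⟩ := hT₂ P hP
    exact hA'.1 k P hk hPk (fun h => h2 (Multiset.prod_eq_zero (h ▸ hP))) hP0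
  by_cases h2 : T₂.prod = 0
  · rw [h2, add_zero] at hz ⊢
    by_contra h3
    rw [map_multiset_prod] at hz
    obtain ⟨P, hP, hP0⟩ := Multiset.mem_map.mp (Multiset.prod_eq_zero_iff.mp hz)
    obtain ⟨k, hk, hPk⟩ := hT₁ P hP
    exact hA'.1 k P hk hPk (fun h => h3 (Multiset.prod_eq_zero (h ▸ hP))) hP0
  obtain ⟨a, b, c, hrel, ha, hb⟩ := UniqueFactorizationMonoid.exists_reduced_factors T₁.prod h1 T₂.prod
  have hc0 : c ≠ 0 := by rintro rfl; exact h1 (by rw [← ha, zero_mul])
  have ha0 : a ≠ 0 := by rintro rfl; exact h1 (by rw [← ha, mul_zero])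
  have hb0 : b ≠ 0 := by rintro rfl; exact h2 (by rw [← hb, mul_zero])
  -- the image of c is not zero
  have gen_ne : ∀ T : Multiset (MvPolynomial (Fin m) F), Forms d T → T.prod ≠ 0 →
      gen F m s T.prod ≠ 0 := by
    intro T hT hT0 h
    rw [map_multiset_prod] at h
    obtain ⟨P, hP, hP0⟩ := Multiset.mem_map.mp (Multiset.prod_eq_zero_iff.mp h)
    obtain ⟨k, hk, hPk⟩ := hT P hP
    exact hA'.1 k P hk hPk (fun h => hT0 (Multiset.prod_eq_zero (h ▸ hP))) hP0
  have hgc : gen F m s c ≠ 0 := by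
    intro h
    apply gen_ne T₁ hT₁ h1
    rw [← ha, map_mul, h, zero_mul]
  have hsum : gen F m s a + gen F m s b = 0 := by
    rw [← ha, ← hb, ← mul_add, map_mul, map_add] at hz
    exact (mul_eq_zero.mp hz).resolve_left hgc
  -- no irreducible factor of x divides the image of y
  have key : ∀ (x y : MvPolynomial (Fin m) F) (T T' : Multiset (MvPolynomial (Fin m) F)),
      Forms d T → Forms d T' → T.prod ≠ 0 → T'.prod ≠ 0 → x ∣ T.prod → y ∣ T'.prod →
      IsRelPrime x y → x ≠ 0 → y ≠ 0 → gen F m s x ∣ gen F m s y → IsUnit x := by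
    intro x y T T' hT hT' hT0 hT0' hx hy hxy hx0 hy0 hdv
    by_contra hu
    obtain ⟨p, hp, hpx⟩ := WfDvdMonoid.exists_irreducible_factor hu hx0
    obtain ⟨k, hk0, hkd, hpk⟩ := irr_form hT hT0 hp (hpx.trans hx)
    have hgp : ¬ IsUnit (gen F m s p) := not_isUnit_gen s hpk hk0
    have hgp0 : gen F m s p ≠ 0 := hA'.1 k p hkd hpk hp.ne_zero
    obtain ⟨r, hr, hrp⟩ := WfDvdMonoid.exists_irreducible_factor hgp hgp0
    have hry : r ∣ gen F m s y := hrp.trans ((map_dvd (gen F m s) hpx).trans hdv)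
    have h3 : y ∣ (UniqueFactorizationMonoid.factors y).prod :=
      (UniqueFactorizationMonoid.factors_prod hy0).symm.dvd
    have h4 : r ∣ gen F m s (UniqueFactorizationMonoid.factors y).prod :=
      hry.trans (map_dvd (gen F m s) h3)
    rw [map_multiset_prod] at h4
    obtain ⟨q, hq, hrq⟩ := hr.prime.exists_mem_multiset_map_dvd h4
    have hqi := UniqueFactorizationMonoid.irreducible_of_factor q hq
    have hqy := UniqueFactorizationMonoid.dvd_of_mem_factors hq
    obtain ⟨l, hl0, hld, hql⟩ := irr_form hT' hT0' hqi (hqy.trans hy)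
    have hpq : IsRelPrime p q := fun z hz1 hz2 => hxy (hz1.trans hpx) (hz2.trans hqy)
    exact hr.not_isUnit (hA'.2 k l p q hkd hld hpk hql hp.ne_zero hqi.ne_zero hpq hrp hrq)
  have hax : a ∣ T₁.prod := ⟨c, by rw [← ha]; ring⟩
  have hbx : b ∣ T₂.prod := ⟨c, by rw [← hb]; ring⟩
  have hua : IsUnit a := key a b T₁ T₂ hT₁ hT₂ h1 h2 hax hbx hrel ha0 hb0
    ⟨-1, by linear_combination hsum⟩
  have hub : IsUnit b := key b a T₂ T₁ hT₂ hT₁ h2 h1 hbx hax hrel.symm hb0 ha0
    ⟨-1, by linear_combination hsum⟩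
  obtain ⟨a', -, ha'⟩ := MvPolynomial.isUnit_iff_eq_C_of_isReduced.mp hua
  obtain ⟨b', -, hb'⟩ := MvPolynomial.isUnit_iff_eq_C_of_isReduced.mp hub
  rw [ha', hb', ← map_add, ← map_add] at hsum
  have h5 : a' + b' = 0 := by
    have h6 : gen F m s (C (a' + b')) = C (a' + b') := by simp [gen]
    rw [h6] at hsum
    exact C_injective _ _ (by rw [hsum, map_zero])
  rw [← ha, ← hb, ← mul_add, ha', hb', ← map_add, h5, map_zero, mul_zero]

end Pool.Agent.Lib.MP_64d474_lc.S3.T86

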